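import Mathlib

namespace Pool.Agent.Helper668.G
open Polynomial

noncomputable section

/-- The ring `B[x,y]/(y^2 - (x^3 - x))`; an element is `re + im * y` with `re, im` in `B[x]`. -/
abbrev OO (B : Type) [CommRing B] : Type := QuadraticAlgebra B[X] (X ^ 3 - X) 0

section basics
variable {B : Type} [CommRing B]

@[simp] lemma re_mul' (z w : OO B) : (z * w).re = z.re * w.re + (X ^ 3 - X) * z.im * w.im := by
  simp [QuadraticAlgebra.re_mul]

@[simp] lemma im_mul' (z w : OO B) : (z * w).im = z.re * w.im + z.im * w.re := by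
  simp [QuadraticAlgebra.im_mul]

@[simp] lemma re_one' : (1 : OO B).re = 1 := rfl
@[simp] lemma im_one' : (1 : OO B).im = 0 := rfl

/-- pole order at most `n` -/
def PX (n : ℕ) (h : OO B) : Prop :=
  (∀ m, h.re.coeff m ≠ 0 → 2 * m ≤ n) ∧ (∀ m, h.im.coeff m ≠ 0 → 2 * m + 3 ≤ n)

/-- coefficient of the basis element of pole order `n` -/
def cf (n : ℕ) (h : OO B) : B :=
  if n % 2 = 0 then h.re.coeff (n / 2) else h.im.coeff ((n - 3) / 2)

/-- basis element of pole order `n` (for `n ≠ 1`) -/
def ee (n : ℕ) : OO B := if n % 2 = 0 then ⟨X ^ (n / 2), 0⟩ else ⟨0, X ^ ((n - 3) / 2)⟩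

/-- pole order exactly `N` -/
def Top (N : ℕ) (h : OO B) : Prop := N ≠ 1 ∧ PX N h ∧ cf N h ≠ 0

lemma PX.mono {n m : ℕ} {h : OO B} (hh : PX n h) (hnm : n ≤ m) : PX m h :=
  ⟨fun k hk => (hh.1 k hk).trans hnm, fun k hk => (hh.2 k hk).trans hnm⟩

lemma PX_zero (n : ℕ) : PX n (0 : OO B) := by
  constructor <;> intro m hm <;> simp at hm

lemma PX.add {n : ℕ} {h h' : OO B} (hh : PX n h) (hh' : PX n h') : PX n (h + h') := by
  constructor
  · intro m hm
    by_cases h1 : h.re.coeff m = 0
    · by_cases h2 : h'.re.coeff m = 0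
      · simp [h1, h2] at hm
      · exact hh'.1 m h2
    · exact hh.1 m h1
  · intro m hm
    by_cases h1 : h.im.coeff m = 0
    · by_cases h2 : h'.im.coeff m = 0
      · simp [h1, h2] at hm
      · exact hh'.2 m h2
    · exact hh.2 m h1

lemma PX.neg {n : ℕ} {h : OO B} (hh : PX n h) : PX n (-h) := by
  constructor <;> intro m hm
  · exact hh.1 m (by simpa using hm)
  · exact hh.2 m (by simpa using hm)

lemma PX.sub {n : ℕ} {h h' : OO B} (hh : PX n h) (hh' : PX n h') : PX n (h - h') := by
  rw [sub_eq_add_neg]; exact hh.add hh'.neg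

lemma PX.re_deg {n : ℕ} {h : OO B} (hh : PX n h) : h.re.natDegree ≤ n / 2 := by
  rw [natDegree_le_iff_coeff_eq_zero]
  intro N hN
  by_contra hne
  have := hh.1 N hne
  omega

lemma PX.im_deg {n : ℕ} {h : OO B} (hh : PX n h) : h.im = 0 ∨ (3 ≤ n ∧ h.im.natDegree ≤ (n - 3) / 2) := by
  by_cases h0 : h.im = 0
  · left; exact h0
  · right
    have hl : h.im.coeff h.im.natDegree ≠ 0 := by
      rw [coeff_natDegree]; exact leadingCoeff_ne_zero.mpr h0
    have := hh.2 _ hl
    omega

lemma PX_of_deg {n : ℕ} {h : OO B} (h1 : h.re.natDegree ≤ n / 2)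
    (h2 : h.im = 0 ∨ (3 ≤ n ∧ h.im.natDegree ≤ (n - 3) / 2)) : PX n h := by
  constructor
  · intro m hm
    have := le_natDegree_of_ne_zero hm
    omega
  · intro m hm
    rcases h2 with h2 | ⟨h3, h4⟩
    · rw [h2] at hm; simp at hm
    · have := le_natDegree_of_ne_zero hm
      omega

lemma X3_natDegree : (X ^ 3 - X : B[X]).natDegree ≤ 3 := by
  refine (natDegree_sub_le _ _).trans ?_
  refine max_le (natDegree_X_pow_le 3) (natDegree_X_le.trans (by norm_num))

lemma top_mul_aux {N M : ℕ} (hN : N ≠ 1) (hM : M ≠ 1) {u w : OO B} (hu : PX N u) (hw : PX M w) :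
    PX (N + M) (u * w) ∧ cf (N + M) (u * w) = cf N u * cf M w := by
  have h1 := hu.re_deg
  have h2 := hw.re_deg
  have h3 := hu.im_deg
  have h4 := hw.im_deg
  have hre : (u * w).re = u.re * w.re + (X ^ 3 - X) * (u.im * w.im) := by
    rw [re_mul']; ring
  have hX := X3_natDegree (B := B)
  -- degree bounds for products
  have d1 : (u.re * w.re).natDegree ≤ N / 2 + M / 2 := natDegree_mul_le.trans (add_le_add h1 h2)
  constructor
  · apply PX_of_deg
    · rw [hre]
      refine (natDegree_add_le _ _).trans (max_le (d1.trans (by omega)) ?_)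
      rcases h3 with h3 | ⟨h3, h3'⟩
      · rw [h3]; simp
      rcases h4 with h4 | ⟨h4, h4'⟩
      · rw [h4]; simp
      refine natDegree_mul_le.trans ?_
      have : (u.im * w.im).natDegree ≤ (N - 3) / 2 + (M - 3) / 2 :=
        natDegree_mul_le.trans (add_le_add h3' h4')
      omega
    · rw [im_mul']
      rcases h3 with h3 | ⟨h3, h3'⟩
      · rcases h4 with h4 | ⟨h4, h4'⟩
        · left; rw [h3, h4]; simp
        · right
          refine ⟨by omega, ?_⟩
          rw [h3, zero_mul, add_zero]
          refine natDegree_mul_le.trans ?_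
          omega
      · rcases h4 with h4 | ⟨h4, h4'⟩
        · right
          refine ⟨by omega, ?_⟩
          rw [h4, mul_zero, zero_add]
          refine natDegree_mul_le.trans ?_
          omega
        · right
          refine ⟨by omega, ?_⟩
          refine (natDegree_add_le _ _).trans (max_le ?_ ?_)
          · refine natDegree_mul_le.trans ?_
            omega
          · refine natDegree_mul_le.trans ?_
            omega
  · rcases Nat.even_or_odd' N with ⟨a, ha | ha⟩
    · rcases Nat.even_or_odd' M with ⟨b, hb | hb⟩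
      · -- even, even
        subst ha hb
        have e1 : (2 * a + 2 * b) % 2 = 0 := by omega
        have e2 : (2 * a) % 2 = 0 := by omega
        have e3 : (2 * b) % 2 = 0 := by omega
        have e4 : (2 * a + 2 * b) / 2 = a + b := by omega
        have e5 : (2 * a) / 2 = a := by omega
        have e6 : (2 * b) / 2 = b := by omega
        simp only [cf, e1, e2, e3, if_true, e4, e5, e6]
        rw [e5] at h1; rw [e6] at h2
        rw [hre, coeff_add, coeff_mul_add_eq_of_natDegree_le h1 h2]
        have : ((X ^ 3 - X) * (u.im * w.im)).coeff (a + b) = 0 := by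
          rcases h3 with h3 | ⟨h3, h3'⟩
          · rw [h3]; simp
          rcases h4 with h4 | ⟨h4, h4'⟩
          · rw [h4]; simp
          apply coeff_eq_zero_of_natDegree_lt
          have : (u.im * w.im).natDegree ≤ (2 * a - 3) / 2 + (2 * b - 3) / 2 :=
            natDegree_mul_le.trans (add_le_add h3' h4')
          refine lt_of_le_of_lt natDegree_mul_le ?_
          omega
        rw [this, add_zero]
      · -- even, odd
        obtain ⟨b, rfl⟩ : ∃ c, b = c + 1 := ⟨b - 1, by omega⟩
        subst ha hb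
        have e1 : (2 * a + (2 * (b + 1) + 1)) % 2 = 1 := by omega
        have e2 : (2 * a) % 2 = 0 := by omega
        have e3 : (2 * (b + 1) + 1) % 2 = 1 := by omega
        have e4 : (2 * a + (2 * (b + 1) + 1) - 3) / 2 = a + b := by omega
        have e5 : (2 * a) / 2 = a := by omega
        have e6 : (2 * (b + 1) + 1 - 3) / 2 = b := by omega
        simp only [cf, e1, e2, e3, if_true, e4, e5, e6, one_ne_zero, if_false]
        rw [e5] at h1; rw [e6] at h4
        rw [im_mul', coeff_add]
        have : (u.im * w.re).coeff (a + b) = 0 := by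
          rcases h3 with h3 | ⟨h3, h3'⟩
          · rw [h3]; simp
          apply coeff_eq_zero_of_natDegree_lt
          refine lt_of_le_of_lt natDegree_mul_le ?_
          omega
        rw [this, add_zero]
        rcases h4 with h4 | ⟨h4, h4'⟩
        · rw [h4]; simp
        · exact coeff_mul_add_eq_of_natDegree_le h1 h4'
    · rcases Nat.even_or_odd' M with ⟨b, hb | hb⟩
      · -- odd, even
        obtain ⟨a, rfl⟩ : ∃ c, a = c + 1 := ⟨a - 1, by omega⟩
        subst ha hb
        have e1 : ((2 * (a + 1) + 1) + 2 * b) % 2 = 1 := by omega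
        have e2 : (2 * b) % 2 = 0 := by omega
        have e3 : (2 * (a + 1) + 1) % 2 = 1 := by omega
        have e4 : ((2 * (a + 1) + 1) + 2 * b - 3) / 2 = a + b := by omega
        have e5 : (2 * b) / 2 = b := by omega
        have e6 : (2 * (a + 1) + 1 - 3) / 2 = a := by omega
        simp only [cf, e1, e2, e3, if_true, e4, e5, e6, one_ne_zero, if_false]
        rw [e5] at h2; rw [e6] at h3
        rw [im_mul', coeff_add]
        have : (u.re * w.im).coeff (a + b) = 0 := by
          rcases h4 with h4 | ⟨h4, h4'⟩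
          · rw [h4]; simp
          apply coeff_eq_zero_of_natDegree_lt
          refine lt_of_le_of_lt natDegree_mul_le ?_
          omega
        rw [this, zero_add]
        rcases h3 with h3 | ⟨h3, h3'⟩
        · rw [h3]; simp
        · exact coeff_mul_add_eq_of_natDegree_le h3' h2
      · -- odd, odd
        obtain ⟨a, rfl⟩ : ∃ c, a = c + 1 := ⟨a - 1, by omega⟩
        obtain ⟨b, rfl⟩ : ∃ c, b = c + 1 := ⟨b - 1, by omega⟩
        subst ha hb
        have e1 : ((2 * (a + 1) + 1) + (2 * (b + 1) + 1)) % 2 = 0 := by omega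
        have e2 : (2 * (b + 1) + 1) % 2 = 1 := by omega
        have e3 : (2 * (a + 1) + 1) % 2 = 1 := by omega
        have e4 : ((2 * (a + 1) + 1) + (2 * (b + 1) + 1)) / 2 = 3 + (a + b) := by omega
        have e5 : (2 * (b + 1) + 1 - 3) / 2 = b := by omega
        have e6 : (2 * (a + 1) + 1 - 3) / 2 = a := by omega
        simp only [cf, e1, e2, e3, if_true, e4, e5, e6, one_ne_zero, if_false]
        rw [e5] at h4; rw [e6] at h3
        rw [hre, coeff_add]
        have : (u.re * w.re).coeff (3 + (a + b)) = 0 := by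
          apply coeff_eq_zero_of_natDegree_lt
          omega
        rw [this, zero_add]
        rcases h3 with h3 | ⟨h3, h3'⟩
        · rw [h3]; simp
        rcases h4 with h4 | ⟨h4, h4'⟩
        · rw [h4]; simp
        have hd : (u.im * w.im).natDegree ≤ a + b := natDegree_mul_le.trans (add_le_add h3' h4')
        rw [coeff_mul_add_eq_of_natDegree_le hX hd, coeff_mul_add_eq_of_natDegree_le h3' h4']
        simp [coeff_X]

lemma exists_top {h : OO B} (hh : h ≠ 0) : ∃ N, Top N h := by
  by_cases h1 : h.im = 0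
  · have h2 : h.re ≠ 0 := by
      intro h2; exact hh (QuadraticAlgebra.ext h2 h1)
    refine ⟨2 * h.re.natDegree, by omega, ?_, ?_⟩
    · exact PX_of_deg (by omega) (Or.inl h1)
    · have e1 : (2 * h.re.natDegree) % 2 = 0 := by omega
      have e2 : (2 * h.re.natDegree) / 2 = h.re.natDegree := by omega
      simp only [cf, e1, if_true, e2]
      simpa using h2
  · by_cases h3 : 2 * h.re.natDegree ≤ 2 * h.im.natDegree + 3
    · refine ⟨2 * h.im.natDegree + 3, by omega, ?_, ?_⟩
      · exact PX_of_deg (by omega) (Or.inr ⟨by omega, by omega⟩)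
      · have e1 : (2 * h.im.natDegree + 3) % 2 = 1 := by omega
        have e2 : (2 * h.im.natDegree + 3 - 3) / 2 = h.im.natDegree := by omega
        simp only [cf, e1, one_ne_zero, if_false, e2]
        simpa using h1
    · refine ⟨2 * h.re.natDegree, by omega, ?_, ?_⟩
      · exact PX_of_deg (by omega) (Or.inr ⟨by omega, by omega⟩)
      · have e1 : (2 * h.re.natDegree) % 2 = 0 := by omega
        have e2 : (2 * h.re.natDegree) / 2 = h.re.natDegree := by omega
        simp only [cf, e1, if_true, e2]
        have : h.re ≠ 0 := by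
          intro h4; rw [h4] at h3; simp at h3
        simpa using this

lemma Top.ne_zero {N : ℕ} {h : OO B} (hh : Top N h) : h ≠ 0 := by
  rintro rfl
  apply hh.2.2
  unfold cf; split_ifs <;> simp

lemma Top.le_of_PX {N n : ℕ} {h : OO B} (hh : Top N h) (hn : PX n h) : N ≤ n := by
  obtain ⟨h1, h2, h3⟩ := hh
  unfold cf at h3
  split_ifs at h3 with h4
  · have := hn.1 _ h3
    omega
  · have := hn.2 _ h3
    omega

lemma Top.mul [IsDomain B] {N M : ℕ} {u w : OO B} (hu : Top N u) (hw : Top M w) :
    Top (N + M) (u * w) := by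
  obtain ⟨h1, h2⟩ := top_mul_aux hu.1 hw.1 hu.2.1 hw.2.1
  refine ⟨?_, h1, ?_⟩
  · have := hu.1; have := hw.1; omega
  · rw [h2]; exact mul_ne_zero hu.2.2 hw.2.2

lemma Top.unique {N M : ℕ} {u : OO B} (hu : Top N u) (hw : Top M u) : N = M :=
  le_antisymm (hu.le_of_PX hw.2.1) (hw.le_of_PX hu.2.1)

instance [IsDomain B] : IsDomain (OO B) := by
  have : NoZeroDivisors (OO B) := by
    constructor
    intro a b hab
    by_contra hne
    push Not at hne
    obtain ⟨N, hN⟩ := exists_top hne.1
    obtain ⟨M, hM⟩ := exists_top hne.2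
    exact (hN.mul hM).ne_zero hab
  exact NoZeroDivisors.to_isDomain _

lemma Top.pow [IsDomain B] {N : ℕ} {u : OO B} (hu : Top N u) (n : ℕ) : Top (n * N) (u ^ n) := by
  induction n with
  | zero =>
    simp only [zero_mul, pow_zero]
    refine ⟨by norm_num, ?_, ?_⟩
    · exact PX_of_deg (by simp) (Or.inl (by simp))
    · simp [cf]
  | succ n ih =>
    rw [pow_succ, Nat.succ_mul]
    exact ih.mul hu

lemma PX.mul {n m : ℕ} {u w : OO B} (hu : PX n u) (hw : PX m w) : PX (n + m) (u * w) := by
  by_cases h1 : n = 1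
  · by_cases h2 : m = 1
    · subst h1 h2
      have hu' : PX 0 u := ⟨fun k hk => by have := hu.1 k hk; omega, fun k hk => by have := hu.2 k hk; omega⟩
      have hw' : PX 0 w := ⟨fun k hk => by have := hw.1 k hk; omega, fun k hk => by have := hw.2 k hk; omega⟩
      exact (top_mul_aux (by norm_num) (by norm_num) hu' hw').1.mono (by norm_num)
    · subst h1
      have hu' : PX 0 u := ⟨fun k hk => by have := hu.1 k hk; omega, fun k hk => by have := hu.2 k hk; omega⟩
      exact (top_mul_aux (by norm_num) h2 hu' hw).1.mono (by omega)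
  · by_cases h2 : m = 1
    · subst h2
      have hw' : PX 0 w := ⟨fun k hk => by have := hw.1 k hk; omega, fun k hk => by have := hw.2 k hk; omega⟩
      exact (top_mul_aux h1 (by norm_num) hu hw').1.mono (by omega)
    · exact (top_mul_aux h1 h2 hu hw).1

lemma PX_iff_top [IsDomain B] {N n : ℕ} {h : OO B} (hh : Top N h) : PX n h ↔ N ≤ n :=
  ⟨fun hn => hh.le_of_PX hn, fun hn => hh.2.1.mono hn⟩

/-- constants -/
abbrev cc (b : B) : OO B := ⟨C b, 0⟩
/-- the coordinate `x` -/
abbrev Xp : OO B := ⟨X, 0⟩
/-- the coordinate `y` -/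
abbrev Yp : OO B := ⟨0, 1⟩

lemma Yp_sq : (Yp : OO B) ^ 2 = Xp ^ 3 - Xp := by
  rw [pow_two]
  apply QuadraticAlgebra.ext
  · simp [pow_succ]
  · simp [pow_succ]

lemma cc_add (a b : B) : cc (a + b) = cc a + cc b := by
  apply QuadraticAlgebra.ext <;> simp

lemma cc_mul (a b : B) : cc (a * b) = cc a * cc b := by
  apply QuadraticAlgebra.ext <;> simp

lemma cc_one : cc (1 : B) = 1 := by
  apply QuadraticAlgebra.ext <;> simp

lemma cc_zero : cc (0 : B) = 0 := by
  apply QuadraticAlgebra.ext <;> simp

/-- constants as a ring homomorphism -/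
def ccHom : B →+* OO B where
  toFun := cc
  map_one' := cc_one
  map_mul' := cc_mul
  map_zero' := cc_zero
  map_add' := cc_add

@[simp] lemma ccHom_apply (b : B) : ccHom b = cc b := rfl

lemma cc_pow (a : B) (n : ℕ) : cc (a ^ n) = cc a ^ n := map_pow ccHom a n

end basics

end

end Pool.Agent.Helper668.G
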