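import Mathlib
import Pool.Agent.Helper668.GA
namespace Pool.Agent.Helper668.G
open Polynomial

noncomputable section

section sec
variable {B : Type} [CommRing B] (θ : B →+ B)

/-- coefficients in degrees congruent to `j` mod 3, with `θ` applied -/
def sec (j : ℕ) (p : B[X]) : B[X] :=
  p.sum (fun m c => if m % 3 = j then monomial (m / 3) (θ c) else 0)

lemma sec_coeff {j : ℕ} (hj : j < 3) (p : B[X]) (l : ℕ) :
    (sec θ j p).coeff l = θ (p.coeff (3 * l + j)) := by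
  unfold sec
  rw [Polynomial.sum, finsetSum_coeff, Finset.sum_eq_single (3 * l + j)]
  · have h1 : (3 * l + j) % 3 = j := by omega
    have h2 : (3 * l + j) / 3 = l := by omega
    rw [if_pos h1, h2, coeff_monomial, if_pos rfl]
  · intro m _ hm
    split_ifs with h
    · rw [coeff_monomial, if_neg]
      intro h3; apply hm; omega
    · simp
  · intro h
    rw [notMem_support_iff] at h
    rw [h, map_zero]
    split_ifs <;> simp

lemma sec_add {j : ℕ} (hj : j < 3) (p r : B[X]) : sec θ j (p + r) = sec θ j p + sec θ j r := by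
  ext l; simp [sec_coeff θ hj]

lemma sec_zero {j : ℕ} (hj : j < 3) : sec θ j 0 = 0 := by
  ext l; simp [sec_coeff θ hj]

lemma sec_neg {j : ℕ} (hj : j < 3) (p : B[X]) : sec θ j (-p) = -sec θ j p := by
  ext l; simp [sec_coeff θ hj]

lemma sec_sub {j : ℕ} (hj : j < 3) (p r : B[X]) : sec θ j (p - r) = sec θ j p - sec θ j r := by
  ext l; simp [sec_coeff θ hj]

lemma sec2_X (p : B[X]) : sec θ 2 (X * p) = sec θ 1 p := by
  ext l
  rw [sec_coeff θ (by norm_num), sec_coeff θ (by norm_num), show 3 * l + 2 = (3 * l + 1) + 1 by omega,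
    coeff_X_mul]

lemma sec1_X (p : B[X]) : sec θ 1 (X * p) = sec θ 0 p := by
  ext l
  rw [sec_coeff θ (by norm_num), sec_coeff θ (by norm_num), coeff_X_mul, add_zero]

lemma sec0_X (p : B[X]) : sec θ 0 (X * p) = X * sec θ 2 p := by
  ext l
  rw [sec_coeff θ (by norm_num)]
  rcases l with _ | l
  · simp
  · rw [show 3 * (l + 1) + 0 = (3 * l + 2) + 1 by omega, coeff_X_mul, coeff_X_mul,
      sec_coeff θ (by norm_num)]

variable [CharP B 3]

lemma sec_lin (hθ : ∀ c b, θ (c ^ 3 * b) = c * θ b) {j : ℕ} (hj : j < 3) (p a : B[X]) :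
    sec θ j (p ^ 3 * a) = p * sec θ j a := by
  induction p using Polynomial.induction_on' with
  | add p r hp hr =>
    have : (p + r) ^ 3 = p ^ 3 + r ^ 3 := add_pow_char _ _ _
    rw [this, add_mul, sec_add θ hj, hp, hr, add_mul]
  | monomial i c =>
    ext l
    have e1 : (monomial i c : B[X]) ^ 3 = C (c ^ 3) * X ^ (3 * i) := by
      rw [← C_mul_X_pow_eq_monomial, mul_pow, ← pow_mul, C_pow, mul_comm 3 i]
    rw [sec_coeff θ hj, e1, mul_assoc, coeff_C_mul, hθ, ← C_mul_X_pow_eq_monomial, mul_assoc,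
      coeff_C_mul]
    congr 1
    rw [coeff_X_pow_mul', coeff_X_pow_mul']
    by_cases h : i ≤ l
    · rw [if_pos (by omega), if_pos h, sec_coeff θ hj]
      congr 2; omega
    · rw [if_neg (by omega), if_neg h, map_zero]

/-- The Cartier operator on `OO B` over `θ`. -/
def Phi : OO B →+ OO B where
  toFun h := ⟨X * sec θ 2 h.re - sec θ 1 h.re, sec θ 2 h.im⟩
  map_zero' := by
    apply QuadraticAlgebra.ext <;> simp [sec_zero]
  map_add' a b := by
    apply QuadraticAlgebra.ext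
    · simp only [QuadraticAlgebra.re_add]
      rw [sec_add θ (by norm_num), sec_add θ (by norm_num)]; ring
    · simp only [QuadraticAlgebra.im_add]
      rw [sec_add θ (by norm_num)]

omit [CharP B 3] in
lemma Phi_re (h : OO B) : (Phi θ h).re = X * sec θ 2 h.re - sec θ 1 h.re := rfl
omit [CharP B 3] in
lemma Phi_im (h : OO B) : (Phi θ h).im = sec θ 2 h.im := rfl

lemma cube_re_im (r : OO B) : r ^ 3 = ⟨r.re ^ 3, r.im ^ 3 * (X ^ 3 - X)⟩ := by
  have h3 : (3 : B[X]) = 0 := by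
    have : ((3 : ℕ) : B[X]) = 0 := CharP.cast_eq_zero _ 3
    exact_mod_cast this
  apply QuadraticAlgebra.ext
  · simp only [pow_succ, pow_zero, one_mul, re_mul', im_mul']
    linear_combination (r.re * r.im ^ 2 * (X ^ 3 - X)) * h3
  · simp only [pow_succ, pow_zero, one_mul, re_mul', im_mul']
    linear_combination (r.re ^ 2 * r.im) * h3

lemma Phi_lin (hθ : ∀ c b, θ (c ^ 3 * b) = c * θ b) (r h : OO B) :
    Phi θ (r ^ 3 * h) = r * Phi θ h := by
  have h3 : (3 : B[X]) = 0 := by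
    have : ((3 : ℕ) : B[X]) = 0 := CharP.cast_eq_zero _ 3
    exact_mod_cast this
  have l0 : (0 : ℕ) < 3 := by norm_num
  have l1 : (1 : ℕ) < 3 := by norm_num
  have l2 : (2 : ℕ) < 3 := by norm_num
  obtain ⟨p, q⟩ := r
  obtain ⟨a, b⟩ := h
  rw [cube_re_im]
  -- key computations
  have hX3 : ∀ c : B[X], X ^ 3 * c = (X : B[X]) ^ 3 * c := fun _ => rfl
  have k1 : ∀ j, j < 3 → ∀ c : B[X], sec θ j (X ^ 3 * c) = X * sec θ j c :=
    fun j hj c => sec_lin θ hθ hj X c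
  apply QuadraticAlgebra.ext
  · rw [Phi_re]
    simp only [re_mul', im_mul', Phi_re, Phi_im]
    have e1 : (X ^ 3 - X) * (q ^ 3 * (X ^ 3 - X)) * b =
        q ^ 3 * (X ^ 3 * (X ^ 3 * b) - 2 * (X ^ 3 * (X * b)) + X * (X * b)) := by ring
    have e2 : ∀ j, j < 3 → sec θ j ((X ^ 3 - X) * (q ^ 3 * (X ^ 3 - X)) * b) =
        q * (X * (X * sec θ j b) - 2 * (X * sec θ j (X * b)) + sec θ j (X * (X * b))) := by
      intro j hj
      rw [e1, sec_lin θ hθ hj, sec_add θ hj, sec_sub θ hj, two_mul, sec_add θ hj, k1 j hj, k1 j hj,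
        k1 j hj]
      ring
    rw [sec_add θ l2, sec_add θ l1, e2 2 l2, e2 1 l1, sec_lin θ hθ l2, sec_lin θ hθ l1]
    simp only [sec2_X, sec1_X, sec0_X]
    linear_combination (q * (X * sec θ 0 b - X ^ 2 * sec θ 1 b)) * h3
  · rw [Phi_im]
    simp only [re_mul', im_mul', Phi_re, Phi_im]
    have e1 : q ^ 3 * (X ^ 3 - X) * a = q ^ 3 * (X ^ 3 * a - X * a) := by ring
    rw [sec_add θ l2, e1, sec_lin θ hθ l2, sec_lin θ hθ l2, sec_sub θ l2, k1 2 l2]
    simp only [sec2_X]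

/-- `θ` has a finite dual basis. -/
def HasDual {B : Type} [CommRing B] (θ : B → B) (q : ℕ) : Prop :=
  ∃ (ι : Type) (_ : Fintype ι) (b bs : ι → B), ∀ x, x = ∑ i, (θ (x * bs i)) ^ q * b i

lemma cube_coeff (p : B[X]) (n : ℕ) :
    (p ^ 3).coeff n = if 3 ∣ n then (p.coeff (n / 3)) ^ 3 else 0 := by
  rw [← map_frobenius_expand 3 p, coeff_map, coeff_expand (by norm_num)]
  split_ifs with h
  · rw [frobenius_def]
  · rw [map_zero]

lemma sec_dual {ι : Type} [Fintype ι] {b bs : ι → B}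
    (hd : ∀ x, x = ∑ i, (θ (x * bs i)) ^ 3 * b i) (a : B[X]) :
    a = (∑ j, (sec θ 0 (a * C (bs j))) ^ 3 * C (b j)) +
      X * (∑ j, (sec θ 1 (a * C (bs j))) ^ 3 * C (b j)) +
      X ^ 2 * (∑ j, (sec θ 2 (a * C (bs j))) ^ 3 * C (b j)) := by
  have key : ∀ i, i < 3 → ∀ n, (∑ j, (sec θ i (a * C (bs j))) ^ 3 * C (b j)).coeff n =
      if 3 ∣ n then a.coeff (n + i) else 0 := by
    intro i hi n
    rw [finsetSum_coeff]
    by_cases h : 3 ∣ n
    · rw [if_pos h]
      conv_rhs => rw [hd (a.coeff (n + i))]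
      apply Finset.sum_congr rfl
      intro j _
      rw [coeff_mul_C, cube_coeff, if_pos h, sec_coeff θ hi, coeff_mul_C]
      congr 5; omega
    · rw [if_neg h]
      apply Finset.sum_eq_zero
      intro j _
      rw [coeff_mul_C, cube_coeff, if_neg h, zero_mul]
  ext n
  rw [coeff_add, coeff_add, key 0 (by norm_num)]
  rcases n with _ | _ | n
  · simp
  · rw [zero_add, pow_two, mul_assoc, show (1 : ℕ) = 0 + 1 by norm_num, coeff_X_mul, coeff_X_mul,
      key 1 (by norm_num)]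
    simp
  · rw [pow_two, mul_assoc, coeff_X_mul, coeff_X_mul, coeff_X_mul, key 1 (by norm_num),
      key 2 (by norm_num)]
    have h3 : n % 3 = 0 ∨ n % 3 = 1 ∨ n % 3 = 2 := by omega
    rcases h3 with h | h | h
    · rw [if_neg (by omega), if_neg (by omega), if_pos (by omega)]
      simp
    · rw [if_pos (by omega), if_neg (by omega), if_neg (by omega)]
      simp
    · rw [if_neg (by omega), if_pos (by omega), if_neg (by omega)]
      simp

lemma Phi_dual (h3 : (3 : B[X]) = 0) (a b : B[X]) (a0 a1 a2 b0 b1 b2 : B[X])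
    (ha0 : sec θ 0 a = a0) (ha1 : sec θ 1 a = a1) (ha2 : sec θ 2 a = a2)
    (hb0 : sec θ 0 b = b0) (hb1 : sec θ 1 b = b1) (hb2 : sec θ 2 b = b2)
    (hθ : ∀ c b, θ (c ^ 3 * b) = c * θ b) :
    (Phi θ ((⟨a, b⟩ : OO B) * Yp ^ 2)) ^ 3 + (Phi θ ((⟨a, b⟩ : OO B) * Yp)) ^ 3 * Yp +
      (Phi θ (⟨a, b⟩ : OO B)) ^ 3 * Yp ^ 2 =
      ⟨a0 ^ 3 + X * a1 ^ 3 + X ^ 2 * a2 ^ 3, b0 ^ 3 + X * b1 ^ 3 + X ^ 2 * b2 ^ 3⟩ := by
  have l1 : (1 : ℕ) < 3 := by norm_num
  have l2 : (2 : ℕ) < 3 := by norm_num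
  have k1 : ∀ j, j < 3 → ∀ c : B[X], sec θ j (X ^ 3 * c) = X * sec θ j c :=
    fun j hj c => sec_lin θ hθ hj X c
  have e1 : ((⟨a, b⟩ : OO B) * Yp ^ 2) = ⟨(X ^ 3 - X) * a, (X ^ 3 - X) * b⟩ := by
    apply QuadraticAlgebra.ext
    · simp only [pow_two, re_mul', im_mul']; ring
    · simp only [pow_two, re_mul', im_mul']; ring
  have e2 : ((⟨a, b⟩ : OO B) * Yp) = ⟨(X ^ 3 - X) * b, a⟩ := by
    apply QuadraticAlgebra.ext
    · simp only [re_mul']; ring
    · simp only [im_mul']; ring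
  have s2 : ∀ c : B[X], sec θ 2 ((X ^ 3 - X) * c) = X * sec θ 2 c - sec θ 1 c := by
    intro c
    rw [sub_mul, sec_sub θ l2, k1 2 l2, sec2_X]
  have s1 : ∀ c : B[X], sec θ 1 ((X ^ 3 - X) * c) = X * sec θ 1 c - sec θ 0 c := by
    intro c
    rw [sub_mul, sec_sub θ l1, k1 1 l1, sec1_X]
  have p1 : Phi θ ((⟨a, b⟩ : OO B) * Yp ^ 2) = ⟨X ^ 2 * a2 - 2 * X * a1 + a0, X * b2 - b1⟩ := by
    rw [e1]
    apply QuadraticAlgebra.ext
    · rw [Phi_re]; simp only [s2, s1, ha0, ha1, ha2]; ring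
    · rw [Phi_im]; simp only [s2, hb1, hb2]
  have p2 : Phi θ ((⟨a, b⟩ : OO B) * Yp) = ⟨X ^ 2 * b2 - 2 * X * b1 + b0, a2⟩ := by
    rw [e2]
    apply QuadraticAlgebra.ext
    · rw [Phi_re]; simp only [s2, s1, hb0, hb1, hb2]; ring
    · rw [Phi_im]; simp only [ha2]
  have p3 : Phi θ (⟨a, b⟩ : OO B) = ⟨X * a2 - a1, b2⟩ := by
    apply QuadraticAlgebra.ext
    · rw [Phi_re]; simp only [ha1, ha2]
    · rw [Phi_im]
      simp only [hb2]
  rw [p1, p2, p3, cube_re_im, cube_re_im, cube_re_im]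
  apply QuadraticAlgebra.ext
  · simp only [pow_two, re_mul', im_mul', QuadraticAlgebra.re_add, QuadraticAlgebra.im_add]
    simp only [mul_zero, mul_one, add_zero, zero_mul, zero_add]
    have e : ∀ u v w : B[X], (X ^ 2 * u - 2 * X * v + w) ^ 3 + u ^ 3 * (X ^ 3 - X) ^ 2 +
        (X * u - v) ^ 3 * (X ^ 3 - X) = w ^ 3 + X * v ^ 3 + X ^ 2 * u ^ 3 := by
      intro u v w
      have hu : (X ^ 2 * u - 2 * X * v + w) ^ 3 = (X ^ 2 * u) ^ 3 - 8 * X ^ 3 * v ^ 3 + w ^ 3 := by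
        have q1 : (X ^ 2 * u - 2 * X * v + w) ^ 3 = (X ^ 2 * u - 2 * X * v) ^ 3 + w ^ 3 :=
          add_pow_char _ _ _
        have q2 : (X ^ 2 * u - 2 * X * v) ^ 3 = (X ^ 2 * u) ^ 3 - (2 * X * v) ^ 3 :=
          sub_pow_char _ _
        rw [q1, q2]; ring
      have hv : (X * u - v) ^ 3 = X ^ 3 * u ^ 3 - v ^ 3 := by
        have q3 : (X * u - v) ^ 3 = (X * u) ^ 3 - v ^ 3 := sub_pow_char _ _
        rw [q3, mul_pow]
      rw [hu, hv]
      linear_combination (u ^ 3 * X ^ 6 - u ^ 3 * X ^ 4 - 3 * X ^ 3 * v ^ 3) * h3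
    have := e a2 a1 a0
    linear_combination this
  · simp only [pow_two, re_mul', im_mul', QuadraticAlgebra.re_add, QuadraticAlgebra.im_add]
    simp only [mul_zero, mul_one, add_zero, zero_mul, zero_add]
    have e : ∀ u v w : B[X], (X ^ 2 * u - 2 * X * v + w) ^ 3 + u ^ 3 * (X ^ 3 - X) ^ 2 +
        (X * u - v) ^ 3 * (X ^ 3 - X) = w ^ 3 + X * v ^ 3 + X ^ 2 * u ^ 3 := by
      intro u v w
      have hu : (X ^ 2 * u - 2 * X * v + w) ^ 3 = (X ^ 2 * u) ^ 3 - 8 * X ^ 3 * v ^ 3 + w ^ 3 := by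
        have q1 : (X ^ 2 * u - 2 * X * v + w) ^ 3 = (X ^ 2 * u - 2 * X * v) ^ 3 + w ^ 3 :=
          add_pow_char _ _ _
        have q2 : (X ^ 2 * u - 2 * X * v) ^ 3 = (X ^ 2 * u) ^ 3 - (2 * X * v) ^ 3 :=
          sub_pow_char _ _
        rw [q1, q2]; ring
      have hv : (X * u - v) ^ 3 = X ^ 3 * u ^ 3 - v ^ 3 := by
        have q3 : (X * u - v) ^ 3 = (X * u) ^ 3 - v ^ 3 := sub_pow_char _ _
        rw [q3, mul_pow]
      rw [hu, hv]
      linear_combination (u ^ 3 * X ^ 6 - u ^ 3 * X ^ 4 - 3 * X ^ 3 * v ^ 3) * h3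
    have := e b2 b1 b0
    linear_combination this

lemma Phi_hasDual (hθ : ∀ c b, θ (c ^ 3 * b) = c * θ b) (hd : HasDual θ 3) :
    HasDual (Phi θ) 3 := by
  obtain ⟨ι, _, b, bs, hb⟩ := hd
  have h3 : (3 : B[X]) = 0 := by
    have : ((3 : ℕ) : B[X]) = 0 := CharP.cast_eq_zero _ 3
    exact_mod_cast this
  refine ⟨Fin 3 × ι, inferInstance, fun i => Yp ^ (i.1 : ℕ) * cc (b i.2),
    fun i => Yp ^ (2 - (i.1 : ℕ)) * cc (bs i.2), ?_⟩
  rintro ⟨x, y⟩
  rw [Fintype.sum_prod_type_right]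
  have hj : ∀ j : ι, ∑ i : Fin 3, (Phi θ ((⟨x, y⟩ : OO B) * (Yp ^ (2 - (i : ℕ)) * cc (bs j)))) ^ 3 *
      (Yp ^ (i : ℕ) * cc (b j)) =
      (⟨sec θ 0 (x * C (bs j)) ^ 3 + X * sec θ 1 (x * C (bs j)) ^ 3 + X ^ 2 * sec θ 2 (x * C (bs j)) ^ 3,
       sec θ 0 (y * C (bs j)) ^ 3 + X * sec θ 1 (y * C (bs j)) ^ 3 + X ^ 2 * sec θ 2 (y * C (bs j)) ^ 3⟩ : OO B)
        * cc (b j) := by
    intro j
    rw [← Phi_dual θ h3 (x * C (bs j)) (y * C (bs j)) _ _ _ _ _ _ rfl rfl rfl rfl rfl rfl hθ]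
    have hxy : (⟨x * C (bs j), y * C (bs j)⟩ : OO B) = (⟨x, y⟩ : OO B) * cc (bs j) := by
      apply QuadraticAlgebra.ext
      · simp
      · simp
    rw [Fin.sum_univ_three, hxy]
    simp only [Fin.val_zero, Fin.val_one, Fin.val_two, pow_zero, pow_one, one_mul, Nat.sub_zero,
      Nat.sub_self, show 2 - 1 = 1 by norm_num]
    rw [show (⟨x, y⟩ : OO B) * (Yp ^ 2 * cc (bs j)) = (⟨x, y⟩ : OO B) * cc (bs j) * Yp ^ 2 by ring,
      show (⟨x, y⟩ : OO B) * (Yp * cc (bs j)) = (⟨x, y⟩ : OO B) * cc (bs j) * Yp by ring]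
    ring
  rw [Finset.sum_congr rfl (fun j _ => hj j)]
  have sre : ∀ g : ι → OO B, (∑ j, g j).re = ∑ j, (g j).re := fun g => by
    rw [← QuadraticAlgebra.reₗ_apply, map_sum]; rfl
  have sim : ∀ g : ι → OO B, (∑ j, g j).im = ∑ j, (g j).im := fun g => by
    rw [← QuadraticAlgebra.imₗ_apply, map_sum]; rfl
  apply QuadraticAlgebra.ext
  · rw [sre]
    conv_lhs => rw [show (⟨x, y⟩ : OO B).re = x from rfl, sec_dual θ hb x]
    rw [Finset.mul_sum, Finset.mul_sum, ← Finset.sum_add_distrib, ← Finset.sum_add_distrib]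
    apply Finset.sum_congr rfl
    intro j _
    simp only [re_mul', mul_zero, add_zero]
    ring
  · rw [sim]
    conv_lhs => rw [show (⟨x, y⟩ : OO B).im = y from rfl, sec_dual θ hb y]
    rw [Finset.mul_sum, Finset.mul_sum, ← Finset.sum_add_distrib, ← Finset.sum_add_distrib]
    apply Finset.sum_congr rfl
    intro j _
    simp only [im_mul', mul_zero, zero_add]
    ring

omit [CharP B 3] in
lemma Phi_PX {m : ℕ} {h : OO B} (hh : PX (3 * m) h) : PX m (Phi θ h) := by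
  constructor
  · intro l hl
    rw [Phi_re, coeff_sub, sec_coeff θ (by norm_num)] at hl
    by_contra hlt
    apply hl
    have h1 : h.re.coeff (3 * l + 1) = 0 := by
      by_contra hne; have := hh.1 _ hne; omega
    rw [h1, map_zero, sub_zero]
    rcases l with _ | l
    · simp
    · rw [coeff_X_mul, sec_coeff θ (by norm_num)]
      have h2 : h.re.coeff (3 * l + 2) = 0 := by
        by_contra hne; have := hh.1 _ hne; omega
      rw [h2, map_zero]
  · intro l hl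
    rw [Phi_im, sec_coeff θ (by norm_num)] at hl
    by_contra hlt
    apply hl
    have h1 : h.im.coeff (3 * l + 2) = 0 := by
      by_contra hne; have := hh.2 _ hne; omega
    rw [h1, map_zero]

omit [CharP B 3] in
lemma Phi_cf {m : ℕ} (hm : 2 ≤ m) {h : OO B} (hh : PX (3 * m - 2) h) :
    cf m (Phi θ h) = θ (cf (3 * m - 2) h) := by
  unfold cf
  rcases Nat.even_or_odd' m with ⟨l, hl | hl⟩
  · have e1 : m % 2 = 0 := by omega
    have e2 : (3 * m - 2) % 2 = 0 := by omega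
    rw [if_pos e1, if_pos e2]
    obtain ⟨l, rfl⟩ : ∃ c, l = c + 1 := ⟨l - 1, by omega⟩
    have e3 : m / 2 = l + 1 := by omega
    have e4 : (3 * m - 2) / 2 = 3 * l + 2 := by omega
    rw [e3, e4, Phi_re, coeff_sub, coeff_X_mul, sec_coeff θ (by norm_num), sec_coeff θ (by norm_num)]
    have h1 : h.re.coeff (3 * (l + 1) + 1) = 0 := by
      by_contra hne; have := hh.1 _ hne; omega
    rw [h1, map_zero, sub_zero]
  · have e1 : ¬ m % 2 = 0 := by omega
    have e2 : ¬ (3 * m - 2) % 2 = 0 := by omega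
    rw [if_neg e1, if_neg e2, Phi_im, sec_coeff θ (by norm_num)]
    congr 2
    omega

omit [CharP B 3] in
lemma Phi_iter_PX (e : ℕ) {m : ℕ} {h : OO B} (hh : PX (3 ^ e * m) h) : PX m ((Phi θ)^[e] h) := by
  induction e generalizing h with
  | zero => simpa using hh
  | succ e ih =>
    rw [Function.iterate_succ_apply]
    apply ih
    apply Phi_PX
    rw [pow_succ] at hh
    exact hh.mono (by ring_nf; omega)

omit [CharP B 3] in
lemma Phi_iter_cf (e : ℕ) {m : ℕ} (hm : 2 ≤ m) {h : OO B} (hh : PX (3 ^ e * (m - 1) + 1) h) :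
    cf m ((Phi θ)^[e] h) = θ^[e] (cf (3 ^ e * (m - 1) + 1) h) := by
  induction e generalizing h with
  | zero =>
    simp only [pow_zero, one_mul, Function.iterate_zero, id_eq]
    congr 1; omega
  | succ e ih =>
    rw [Function.iterate_succ_apply, Function.iterate_succ_apply]
    have e1 : 3 ^ (e + 1) * (m - 1) + 1 = 3 * (3 ^ e * (m - 1) + 1) - 2 := by
      rw [pow_succ]; ring_nf; omega
    have e2 : 2 ≤ 3 ^ e * (m - 1) + 1 := by
      have : 1 ≤ 3 ^ e * (m - 1) := Nat.one_le_iff_ne_zero.mpr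
        (Nat.mul_ne_zero (by positivity) (by omega))
      omega
    rw [e1] at hh ⊢
    rw [ih (Phi_PX θ (hh.mono (by omega))), Phi_cf θ e2 hh]

omit [CharP B 3] in
lemma iter_lin (hθ : ∀ c b, θ (c ^ 3 * b) = c * θ b) (e : ℕ) (c b : B) :
    θ^[e] (c ^ (3 ^ e) * b) = c * θ^[e] b := by
  induction e generalizing b with
  | zero => simp
  | succ e ih =>
    rw [Function.iterate_succ_apply, Function.iterate_succ_apply, pow_succ, pow_mul, hθ, ih]

omit [CharP B 3] in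
lemma iter_add (e : ℕ) (a b : B) : θ^[e] (a + b) = θ^[e] a + θ^[e] b := by
  induction e generalizing a b with
  | zero => simp
  | succ e ih => rw [Function.iterate_succ_apply, Function.iterate_succ_apply,
      Function.iterate_succ_apply, map_add, ih]

/-- iterate as an additive homomorphism -/
def iterHom (e : ℕ) : B →+ B where
  toFun := θ^[e]
  map_zero' := by
    have := iter_add θ e 0 0
    simpa using this
  map_add' := iter_add θ e

omit [CharP B 3] in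
@[simp] lemma iterHom_apply (e : ℕ) (b : B) : iterHom θ e b = θ^[e] b := rfl

lemma iter_hasDual (hθ : ∀ c b, θ (c ^ 3 * b) = c * θ b) (hd : HasDual θ 3) (e : ℕ) :
    HasDual θ^[e] (3 ^ e) := by
  induction e with
  | zero =>
    exact ⟨Unit, inferInstance, fun _ => 1, fun _ => 1, fun x => by simp⟩
  | succ e ih =>
    obtain ⟨ι, _, b, bs, hb⟩ := ih
    obtain ⟨κ, _, c, cs, hc⟩ := hd
    refine ⟨κ × ι, inferInstance, fun i => b i.2 ^ 3 * c i.1, fun i => bs i.2 ^ 3 * cs i.1, ?_⟩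
    intro x
    rw [Fintype.sum_prod_type]
    conv_lhs => rw [hc x]
    apply Finset.sum_congr rfl
    intro j _
    conv_lhs => rw [hb (θ (x * cs j))]
    rw [sum_pow_char 3, Finset.sum_mul]
    apply Finset.sum_congr rfl
    intro i _
    have e1 : θ (x * (bs i ^ 3 * cs j)) = θ (x * cs j) * bs i := by
      rw [show x * (bs i ^ 3 * cs j) = bs i ^ 3 * (x * cs j) by ring, hθ, mul_comm]
    rw [Function.iterate_succ_apply]
    simp only
    rw [e1, pow_succ 3 e, pow_mul]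
    ring

end sec

end

end Pool.Agent.Helper668.G
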