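import Mathlib
import Pool.Agent.Helper668.GA
namespace Pool.Agent.Helper668.G
open Polynomial

noncomputable section

section pts
variable {B : Type} [CommRing B]

/-- evaluation at the point `(a, b)` -/
def ev (a b : B) (h : OO B) : B := h.re.eval a + h.im.eval a * b

lemma ev_add (a b : B) (h h' : OO B) : ev a b (h + h') = ev a b h + ev a b h' := by
  simp only [ev, QuadraticAlgebra.re_add, QuadraticAlgebra.im_add, eval_add]; ring

lemma ev_mul {a b : B} (hab : b ^ 2 = a ^ 3 - a) (h h' : OO B) :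
    ev a b (h * h') = ev a b h * ev a b h' := by
  simp only [ev, re_mul', im_mul', eval_add, eval_mul, eval_sub, eval_pow, eval_X]
  linear_combination (-(eval a h.im * eval a h'.im)) * hab

lemma ev_one (a b : B) : ev a b (1 : OO B) = 1 := by simp [ev]
lemma ev_zero (a b : B) : ev a b (0 : OO B) = 0 := by simp [ev]

/-- evaluation as ring hom -/
def evHom (a b : B) (hab : b ^ 2 = a ^ 3 - a) : OO B →+* B where
  toFun := ev a b
  map_one' := ev_one a b
  map_zero' := ev_zero a b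
  map_add' := ev_add a b
  map_mul' := ev_mul hab

@[simp] lemma evHom_apply (a b : B) (hab : b ^ 2 = a ^ 3 - a) (h : OO B) :
    evHom a b hab h = ev a b h := rfl

lemma ev_cc (a b c : B) : ev a b (cc c) = c := by simp [ev]
lemma ev_Xp (a b : B) : ev a b (Xp : OO B) = a := by simp [ev]
lemma ev_Yp (a b : B) : ev a b (Yp : OO B) = b := by simp [ev]

/-- the tangent function -/
def fB (a b : B) : OO B := (Yp - cc b) ^ 2 - (Xp - cc a) ^ 3

/-- function with divisor `3(-Z) + (3Z) - 4(0)` -/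
def GZ (a b : B) : OO B := (Xp - cc (a ^ 3)) ^ 2 + cc (b ^ 3) * Yp

/-- companion of `GZ` -/
def GZ' (a b : B) : OO B :=
  Yp * ((cc (b ^ 2) - (Xp - cc a)) ^ 2 - 1) +
    cc (b ^ 3) * ((Xp - cc a) ^ 3 - (cc (b ^ 2) - (Xp - cc a)))

lemma cc_sub' (a b : B) : cc (a - b) = cc a - cc b := map_sub ccHom a b

instance [CharP B 3] : CharP (OO B) 3 := by
  refine charP_of_injective_ringHom (f := (ccHom : B →+* OO B)) ?_ 3
  intro a b hab
  have := congrArg QuadraticAlgebra.re hab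
  simpa using this

lemma GZ_id [CharP B 3] {a b : B} (hab : b ^ 2 = a ^ 3 - a) :
    (Yp - cc b) ^ 3 * GZ a b = (Xp - cc a) ^ 3 * GZ' a b := by
  have h3 : (3 : OO B) = 0 := by
    have : ((3 : ℕ) : OO B) = 0 := CharP.cast_eq_zero _ 3
    exact_mod_cast this
  have hD : (cc b : OO B) ^ 2 = cc a ^ 3 - cc a := by
    rw [← cc_pow, hab, cc_sub', cc_pow]
  unfold GZ GZ'
  rw [cc_pow, cc_pow, cc_pow]
  generalize (cc a : OO B) = α at *
  generalize (cc b : OO B) = β at *
  have hY := Yp_sq (B := B)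
  generalize (Yp : OO B) = Y at *
  generalize (Xp : OO B) = Z at *
  obtain ⟨A, hA⟩ : ∃ A, A = Z - α := ⟨_, rfl⟩
  obtain ⟨t, ht⟩ : ∃ t, t = β ^ 2 - A := ⟨_, rfl⟩
  have hA3 : A ^ 3 = Z ^ 3 - α ^ 3 := by rw [hA]; exact sub_pow_char _ _
  have h1 : Y ^ 2 = A ^ 3 + t := by
    rw [hY, hA3, ht, hD, hA]; ring
  have h2 : t ^ 3 = β ^ 6 - A ^ 3 := by
    have : t ^ 3 = (β ^ 2) ^ 3 - A ^ 3 := by rw [ht]; exact sub_pow_char _ _
    rw [this]; ring
  have h4 : Z - α ^ 3 = -t := by rw [ht, hD, hA]; ring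
  have h5 : (Y - β) ^ 3 = Y ^ 3 - β ^ 3 := sub_pow_char _ _
  rw [← hA, ← ht, h4, h5]
  linear_combination (Y * t ^ 2 + β ^ 3 * (Y ^ 2 + A ^ 3 + t)) * h1 + Y * h2 + (β ^ 3 * A ^ 3 * t) * h3

lemma ev_GZ [CharP B 3] {a b : B} (hab : b ^ 2 = a ^ 3 - a) : ev (a ^ 9) (-b ^ 9) (GZ a b) = 0 := by
  have : ev (a ^ 9) (-b ^ 9) (GZ a b) = (a ^ 9 - a ^ 3) ^ 2 - b ^ 12 := by
    simp only [ev, GZ, QuadraticAlgebra.re_add, QuadraticAlgebra.im_add, pow_two, re_mul', im_mul',
      QuadraticAlgebra.re_sub, QuadraticAlgebra.im_sub]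
    simp
    ring
  rw [this]
  have h9 : a ^ 9 - a ^ 3 = (b ^ 2) ^ 3 := by
    rw [hab]
    have : (a ^ 3 - a) ^ 3 = (a ^ 3) ^ 3 - a ^ 3 := sub_pow_char _ _
    rw [this]; ring
  rw [h9]; ring

lemma exists_decomp {a b : B} (u : OO B) (hu : ev a b u = 0) :
    ∃ α β : OO B, u = (Xp - cc a) * α + (Yp - cc b) * β := by
  have h1 : (X - C a) ∣ (u.re + u.im * C b) := by
    rw [dvd_iff_isRoot, IsRoot.def]
    simpa [ev] using hu
  obtain ⟨α, hα⟩ := h1
  refine ⟨⟨α, 0⟩, ⟨u.im, 0⟩, ?_⟩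
  apply QuadraticAlgebra.ext
  · simp only [QuadraticAlgebra.re_add, re_mul', QuadraticAlgebra.re_sub, QuadraticAlgebra.im_sub]
    simp only [sub_zero, mul_zero, add_zero, zero_sub]
    linear_combination hα
  · simp only [QuadraticAlgebra.im_add, im_mul', QuadraticAlgebra.re_sub, QuadraticAlgebra.im_sub]
    simp

lemma Top_of_X [Nontrivial B] (a : B) : Top 2 (Xp - cc a : OO B) := by
  refine ⟨by norm_num, ?_, ?_⟩
  · apply PX_of_deg
    · simp only [QuadraticAlgebra.re_sub]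
      exact (natDegree_X_sub_C a).le
    · left; simp
  · simp [cf]

lemma Top_GZ [Nontrivial B] (a b : B) : Top 4 (GZ a b) := by
  have e1 : (GZ a b).re = (X - C (a ^ 3)) ^ 2 := by
    simp [GZ, pow_two]
  have e2 : (GZ a b).im = C (b ^ 3) := by
    simp [GZ, pow_two]
  have this : ((X - C (a ^ 3)) ^ 2 : B[X]).Monic := (monic_X_sub_C _).pow 2
  have h2 : ((X - C (a ^ 3)) ^ 2 : B[X]).natDegree = 2 := by
    rw [(monic_X_sub_C _).natDegree_pow, natDegree_X_sub_C]
  have h3 : ((X - C (a ^ 3)) ^ 2 : B[X]).coeff 2 = 1 := by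
    have h3 := this.coeff_natDegree
    rwa [h2] at h3
  refine ⟨by norm_num, ?_, ?_⟩
  · apply PX_of_deg
    · rw [e1, h2]
    · right
      rw [e2, natDegree_C]; norm_num
  · have e3 : cf 4 (GZ a b) = (GZ a b).re.coeff 2 := by simp [cf]
    rw [e3, e1, h3]
    exact one_ne_zero

variable [IsDomain B] [CharP B 3]

lemma X_ne (a : B) : (Xp - cc a : OO B) ≠ 0 := (Top_of_X a).ne_zero

/-- one step of the recursion -/
lemma step {a b : B} (hab : b ^ 2 = a ^ 3 - a) (ha : a ^ 9 ≠ a) (u : OO B) (hu : ev a b u = 0) :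
    ∃ u' : OO B, (Xp - cc a) ^ 3 * u' = u ^ 3 * GZ a b ∧ ev (a ^ 9) (-b ^ 9) u' = 0 := by
  obtain ⟨α, β, hαβ⟩ := exists_decomp u hu
  have h1 : (Xp - cc a) ^ 3 * (α ^ 3 * GZ a b + β ^ 3 * GZ' a b) = u ^ 3 * GZ a b := by
    have : u ^ 3 = ((Xp - cc a) * α) ^ 3 + ((Yp - cc b) * β) ^ 3 := by
      rw [hαβ]; exact add_pow_char _ _ _
    rw [this]
    linear_combination (-β ^ 3) * GZ_id hab
  refine ⟨_, h1, ?_⟩
  have hab' : (-b ^ 9) ^ 2 = (a ^ 9) ^ 3 - a ^ 9 := by
    have h9 : (b ^ 2) ^ 9 = (a ^ 3) ^ 9 - a ^ 9 := by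
      rw [hab]
      exact sub_pow_char_pow (p := 3) (a ^ 3) a 2
    linear_combination h9
  have h2 := congrArg (ev (a ^ 9) (-b ^ 9)) h1
  rw [ev_mul hab', ev_mul hab' (u ^ 3), ev_GZ hab, mul_zero] at h2
  rcases mul_eq_zero.mp h2 with h | h
  · exfalso
    have h' : ev (a ^ 9) (-b ^ 9) ((Xp - cc a : OO B) ^ 3) = (a ^ 9 - a) ^ 3 := by
      have := map_pow (evHom (a ^ 9) (-b ^ 9) hab') (Xp - cc a : OO B) 3
      rw [evHom_apply, map_sub] at this
      rw [this]
      simp [ev]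
    rw [h'] at h
    exact ha (sub_eq_zero.mp (pow_eq_zero_iff (by norm_num) |>.mp h))
  · exact h

/-- coordinates of the point `3^e (x, y)` -/
def za (x : B) (e : ℕ) : B := x ^ (9 ^ e)
/-- coordinates of the point `3^e (x, y)` -/
def zb (y : B) (e : ℕ) : B := (-1) ^ e * y ^ (9 ^ e)

omit [IsDomain B] in
lemma z_curve {x y : B} (hxy : y ^ 2 = x ^ 3 - x) (e : ℕ) : zb y e ^ 2 = za x e ^ 3 - za x e := by
  unfold za zb
  have h : (y ^ 2) ^ (9 ^ e) = (x ^ 3) ^ (9 ^ e) - x ^ (9 ^ e) := by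
    rw [hxy]
    have := sub_pow_char_pow (p := 3) (x ^ 3) x (2 * e)
    rwa [pow_mul, show 3 ^ 2 = 9 by norm_num] at this
  have h1 : ((-1 : B) ^ e) ^ 2 = 1 := by rw [← pow_mul, mul_comm, pow_mul]; simp
  rw [mul_pow, h1, one_mul, ← pow_mul, mul_comm (9 ^ e) 2, pow_mul, h]
  ring

theorem exists_u {x y : B} (hxy : y ^ 2 = x ^ 3 - x) (hx : ∀ e, x ^ (9 ^ (e + 1)) ≠ x ^ (9 ^ e))
    (e : ℕ) : ∃ u gA gB : OO B, Top (2 * 3 ^ e + 1) u ∧
      ev (za x e) (zb y e) u = 0 ∧ ev (za x e) (zb y e) gA = 0 ∧ ev (za x e) (zb y e) gB = 0 ∧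
      u * (Xp - cc x) ^ (3 ^ e) = fB x y ^ (3 ^ e) * gA ∧
      u * (Yp - cc y) ^ (3 ^ e) = fB x y ^ (3 ^ e) * gB := by
  induction e with
  | zero =>
    have hz1 : za x 0 = x := by simp [za]
    have hz2 : zb y 0 = y := by simp [zb]
    have hX : ev x y (Xp - cc x : OO B) = 0 := by simp [ev]
    have hY : ev x y (Yp - cc y : OO B) = 0 := by simp [ev]
    refine ⟨fB x y, Xp - cc x, Yp - cc y, ?_, ?_, ?_, ?_, ?_, ?_⟩
    · have hre : (fB x y).re = X ^ 3 - X + C y ^ 2 - (X - C x) ^ 3 := by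
        simp [fB, pow_succ, pow_two]
        ring
      have hre2 : (fB x y).re = - X - C x - C x ^ 3 := by
        rw [hre]
        have : (X - C x : B[X]) ^ 3 = X ^ 3 - C x ^ 3 := sub_pow_char _ _
        rw [this, ← C_pow, hxy]
        have h3 : (3 : B[X]) = 0 := by
          have : ((3 : ℕ) : B[X]) = 0 := CharP.cast_eq_zero _ 3
          exact_mod_cast this
        simp only [C_sub, C_pow]
        linear_combination (C x ^ 3) * h3
      have him : (fB x y).im = C y := by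
        have h3 : (3 : B[X]) = 0 := by
          have : ((3 : ℕ) : B[X]) = 0 := CharP.cast_eq_zero _ 3
          exact_mod_cast this
        have : (fB x y).im = - C y - C y := by
          simp [fB, pow_succ, pow_two]
          ring
        rw [this]
        linear_combination (-C y) * h3
      have hy : y ≠ 0 := by
        rintro rfl
        have h1 : x ^ 3 = x := by
          have := hxy; simp at this; exact (sub_eq_zero.mp this.symm)
        have := hx 0
        apply this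
        simp only [zero_add, pow_one, pow_zero]
        calc x ^ 9 = (x ^ 3) ^ 3 := by ring
          _ = x := by rw [h1, h1]
      refine ⟨by norm_num, ?_, ?_⟩
      · apply PX_of_deg
        · rw [hre2]
          norm_num
          refine (natDegree_sub_le _ _).trans (max_le ((natDegree_sub_le _ _).trans (max_le ?_ ?_)) ?_)
          · rw [natDegree_neg]; exact natDegree_X_le
          · rw [natDegree_C]; norm_num
          · rw [← C_pow, natDegree_C]; norm_num
        · right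
          rw [him, natDegree_C]; norm_num
      · simp [cf, him, hy]
    · rw [hz1, hz2]
      have := map_sub (evHom x y hxy) ((Yp - cc y : OO B) ^ 2) ((Xp - cc x) ^ 3)
      rw [map_pow, map_pow, evHom_apply, evHom_apply, evHom_apply, hX, hY] at this
      unfold fB; rw [this]; ring
    · rw [hz1, hz2, hX]
    · rw [hz1, hz2, hY]
    · simp
    · simp
  | succ e ih =>
    obtain ⟨u, gA, gB, h1, h2, h3, h4, h5, h6⟩ := ih
    have hc := z_curve hxy e
    have hne : za x e ^ 9 ≠ za x e := by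
      have := hx e
      unfold za
      rwa [← pow_mul, ← pow_succ]
    have hza : za x (e + 1) = za x e ^ 9 := by unfold za; rw [pow_succ, pow_mul]
    have hzb : zb y (e + 1) = -zb y e ^ 9 := by
      unfold zb
      rw [pow_succ, pow_succ 9 e, pow_mul, mul_pow, ← pow_mul ((-1 : B))]
      have : (-1 : B) ^ (e * 9) = (-1) ^ e := by
        rw [mul_comm, pow_mul]; norm_num
      rw [this]; ring
    obtain ⟨u', hu1, hu2⟩ := step hc hne u h2
    obtain ⟨gA', hA1, hA2⟩ := step hc hne gA h3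
    obtain ⟨gB', hB1, hB2⟩ := step hc hne gB h4
    have hX0 : (Xp - cc (za x e) : OO B) ^ 3 ≠ 0 := pow_ne_zero 3 (X_ne _)
    refine ⟨u', gA', gB', ?_, ?_, ?_, ?_, ?_, ?_⟩
    · obtain ⟨N, hN⟩ := exists_top (h := u') (by
        rintro rfl
        rw [mul_zero] at hu1
        exact ((h1.pow 3).mul (Top_GZ _ _)).ne_zero hu1.symm)
      have t1 := ((Top_of_X (za x e)).pow 3).mul hN
      rw [hu1] at t1
      have := t1.unique ((h1.pow 3).mul (Top_GZ _ _))
      have hN2 : N = 2 * 3 ^ (e + 1) + 1 := by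
        rw [pow_succ]; omega
      rwa [hN2] at hN
    · rw [hza, hzb]; exact hu2
    · rw [hza, hzb]; exact hA2
    · rw [hza, hzb]; exact hB2
    · apply mul_left_cancel₀ hX0
      rw [pow_succ 3 e, pow_mul (Xp - cc x : OO B), pow_mul (fB x y)]
      calc _ = ((Xp - cc (za x e)) ^ 3 * u') * ((Xp - cc x) ^ 3 ^ e) ^ 3 := by ring
        _ = (u * (Xp - cc x) ^ 3 ^ e) ^ 3 * GZ (za x e) (zb y e) := by rw [hu1]; ring
        _ = (fB x y ^ 3 ^ e) ^ 3 * (gA ^ 3 * GZ (za x e) (zb y e)) := by rw [h5]; ring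
        _ = _ := by rw [← hA1]; ring
    · apply mul_left_cancel₀ hX0
      rw [pow_succ 3 e, pow_mul (Yp - cc y : OO B), pow_mul (fB x y)]
      calc _ = ((Xp - cc (za x e)) ^ 3 * u') * ((Yp - cc y) ^ 3 ^ e) ^ 3 := by ring
        _ = (u * (Yp - cc y) ^ 3 ^ e) ^ 3 * GZ (za x e) (zb y e) := by rw [hu1]; ring
        _ = (fB x y ^ 3 ^ e) ^ 3 * (gB ^ 3 * GZ (za x e) (zb y e)) := by rw [h6]; ring
        _ = _ := by rw [← hB1]; ring

end pts

end

end Pool.Agent.Helper668.G
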