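import Mathlib
import Pool.Agent.Helper668.GB
import Pool.Agent.Helper668.GC
namespace Pool.Agent.Helper668.G
open Polynomial

noncomputable section

section alg

lemma alg_i {R : Type} [CommRing R] {A D f ρ r1 r2 : R} (hf : f = D ^ 2 - A ^ 3) (h1 : A * ρ = f * r1)
    (h2 : D * ρ = f * r2) : f * ρ ^ 2 = f * (f * (r2 ^ 2 - r1 ^ 2 * A)) := by
  linear_combination ρ ^ 2 * hf + (D * ρ + f * r2) * h2 - A * (A * ρ + f * r1) * h1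

lemma alg_rel {R : Type} [CommRing R] {X Y x y A D : R} (hA : A = X - x) (hD : D = Y - y)
    (hY : Y ^ 2 = X ^ 3 - X) (hy : y ^ 2 = x ^ 3 - x) (h3 : A ^ 3 = X ^ 3 - x ^ 3) :
    A * (1 - A ^ 2) = -(D * (Y + y)) := by
  subst hD
  linear_combination (-1) * h3 + hA + hY - hy

lemma alg_f1 {R : Type} [CommRing R] {A D P f : R} (hf : f = D ^ 2 - A ^ 3)
    (h : A * (1 - A ^ 2) = -(D * P)) :
    (1 - A ^ 2) ^ 3 * f = D ^ 2 * ((1 - A ^ 2) ^ 3 + D * P ^ 3) := by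
  have : (A * (1 - A ^ 2)) ^ 3 = (-(D * P)) ^ 3 := by rw [h]
  rw [hf]
  linear_combination (-1) * this

lemma alg_div {R : Type} [CommRing R] {E D f f1 β c : R} (h : E ^ 3 * f = D ^ 2 * f1)
    (hc : β ^ 2 = f * c) : (E ^ 2 * β) ^ 2 = D ^ 2 * (E * f1 * c) := by
  linear_combination E ^ 4 * hc + E * c * h

lemma alg_ii {R : Type} [CommRing R] {E D f f1 β β1 u gB : R} {q m : ℕ} (hm : q = 2 * m + 1)
    (h : E ^ 3 * f = D ^ 2 * f1) (hβ : E ^ 2 * β = D * β1) (hu : u * D ^ q = f ^ q * gB) :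
    (E ^ 2) ^ q * (u * β * f ^ m) = f ^ q * (gB * (E ^ m * β1 * f1 ^ m)) := by
  have e1 : (E ^ 2) ^ q = E ^ m * E ^ 2 * (E ^ 3) ^ m := by
    rw [hm, ← pow_mul, ← pow_mul, ← pow_add, ← pow_add]
    congr 1; ring
  have e2 : D ^ q = (D ^ 2) ^ m * D := by
    rw [hm, pow_succ, pow_mul]
  have e3 : (E ^ 3) ^ m * f ^ m = (D ^ 2) ^ m * f1 ^ m := by
    rw [← mul_pow, h, mul_pow]
  rw [e2] at hu
  calc (E ^ 2) ^ q * (u * β * f ^ m) = u * E ^ m * (E ^ 2 * β) * ((E ^ 3) ^ m * f ^ m) := by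
        rw [e1]; ring
    _ = (u * ((D ^ 2) ^ m * D)) * (E ^ m * β1 * f1 ^ m) := by rw [hβ, e3]; ring
    _ = _ := by rw [hu]; ring

lemma alg_fin {R : Type} [CommRing R] (A ρ : R) :
    ρ = (1 - A ^ 2) ^ 2 * ρ - (A ^ 3 - 2 * A) * (A * ρ) := by ring

end alg

section memb
variable {B : Type} [CommRing B] [IsDomain B] [CharP B 3] (θ : B →+ B)

/-- `f | (Φ_e(uh))^2` -/
lemma cond_i (hθ : ∀ c b, θ (c ^ 3 * b) = c * θ b) {x y : B} (hf : fB x y ≠ 0) {e : ℕ}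
    {u gA gB : OO B}
    (h5 : u * (Xp - cc x) ^ (3 ^ e) = fB x y ^ (3 ^ e) * gA)
    (h6 : u * (Yp - cc y) ^ (3 ^ e) = fB x y ^ (3 ^ e) * gB) (h : OO B) :
    fB x y ∣ ((Phi θ)^[e] (u * h)) ^ 2 := by
  have hl := iter_lin (Phi θ) (Phi_lin θ hθ) e
  have h1 : (Xp - cc x) * (Phi θ)^[e] (u * h) = fB x y * (Phi θ)^[e] (gA * h) := by
    rw [← hl, ← hl, ← mul_assoc, ← mul_assoc, mul_comm _ u, h5]
  have h2 : (Yp - cc y) * (Phi θ)^[e] (u * h) = fB x y * (Phi θ)^[e] (gB * h) := by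
    rw [← hl, ← hl, ← mul_assoc, ← mul_assoc, mul_comm _ u, h6]
  exact ⟨_, mul_left_cancel₀ hf (alg_i rfl h1 h2)⟩

/-- the second membership condition -/
lemma cond_ii [IsIntegrallyClosed (OO B)] (hθ : ∀ c b, θ (c ^ 3 * b) = c * θ b) {x y : B}
    (hxy : y ^ 2 = x ^ 3 - x) {e m : ℕ} (hm : 3 ^ e = 2 * m + 1)
    {u gA gB : OO B}
    (h5 : u * (Xp - cc x) ^ (3 ^ e) = fB x y ^ (3 ^ e) * gA)
    (h6 : u * (Yp - cc y) ^ (3 ^ e) = fB x y ^ (3 ^ e) * gB) (β : OO B)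
    (hβ : fB x y ∣ β ^ 2) :
    fB x y ∣ (Phi θ)^[e] (u * β * fB x y ^ m) := by
  have hl := iter_lin (Phi θ) (Phi_lin θ hθ) e
  have h1 : (Xp - cc x) * (Phi θ)^[e] (u * β * fB x y ^ m) =
      fB x y * (Phi θ)^[e] (gA * (β * fB x y ^ m)) := by
    rw [← hl, ← hl, mul_assoc u, ← mul_assoc, ← mul_assoc (fB x y ^ 3 ^ e), mul_comm _ u, h5]
  have hxy' : (cc y : OO B) ^ 2 = cc x ^ 3 - cc x := by
    rw [← cc_pow, hxy, cc_sub', cc_pow]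
  have hA3 : (Xp - cc x : OO B) ^ 3 = Xp ^ 3 - cc x ^ 3 := sub_pow_char _ _
  have hrel := alg_rel (A := (Xp - cc x : OO B)) (D := (Yp - cc y : OO B)) rfl rfl Yp_sq hxy' hA3
  have hf1 := alg_f1 (f := fB x y) rfl hrel
  obtain ⟨c, hc⟩ := hβ
  have hdiv : (Yp - cc y : OO B) ^ 2 ∣ ((1 - (Xp - cc x : OO B) ^ 2) ^ 2 * β) ^ 2 :=
    ⟨_, alg_div hf1 hc⟩
  obtain ⟨β1, hβ1⟩ := (IsIntegrallyClosed.pow_dvd_pow_iff (by norm_num)).mp hdiv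
  have h2 := alg_ii hm hf1 hβ1 h6
  have h3 : (1 - (Xp - cc x : OO B) ^ 2) ^ 2 * (Phi θ)^[e] (u * β * fB x y ^ m) = fB x y *
      (Phi θ)^[e] (gB * ((1 - (Xp - cc x : OO B) ^ 2) ^ m * β1 *
        ((1 - (Xp - cc x : OO B) ^ 2) ^ 3 + (Yp - cc y) * (Yp + cc y) ^ 3) ^ m)) := by
    rw [← hl, ← hl, h2]
  rw [alg_fin (Xp - cc x : OO B) ((Phi θ)^[e] (u * β * fB x y ^ m)), h3, h1]
  refine dvd_sub (dvd_mul_right _ _) ?_
  exact (dvd_mul_right _ _).mul_left _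

end memb

end

end Pool.Agent.Helper668.G
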