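import Mathlib
import Pool.Agent.Helper668.GA
import Pool.Agent.Helper668.GC
namespace Pool.Agent.Helper668.G
open Polynomial

private lemma Top_Xp' {B : Type} [CommRing B] [Nontrivial B] : Top 2 (Xp : OO B) := by
  have h := Top_of_X (0 : B)
  rwa [cc_zero, sub_zero] at h

private lemma Top_Yp' {B : Type} [CommRing B] [Nontrivial B] : Top 3 (Yp : OO B) := by
  refine ⟨by norm_num, ?_, ?_⟩
  · apply PX_of_deg
    · simp
    · right; simp
  · simp [cf]

private lemma Top.neg' {B : Type} [CommRing B] {N : ℕ} {h : OO B} (hh : Top N h) : Top N (-h) := by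
  obtain ⟨h1, h2, h3⟩ := hh
  refine ⟨h1, h2.neg, ?_⟩
  unfold cf at h3 ⊢
  split_ifs at h3 ⊢ with h4
  · simpa using h3
  · simpa using h3

private lemma PX_sum' {B : Type} [CommRing B] {ι : Type*} (s : Finset ι) (f : ι → OO B) (n : ℕ)
    (h : ∀ i ∈ s, PX n (f i)) : PX n (∑ i ∈ s, f i) := by
  classical
  induction s using Finset.induction_on with
  | empty => rw [Finset.sum_empty]; exact PX_zero n
  | insert a s ha ih =>
    rw [Finset.sum_insert ha]
    exact (h a (Finset.mem_insert_self a s)).add (ih (fun i hi => h i (Finset.mem_insert_of_mem hi)))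

private lemma PX_eval' {B : Type} [CommRing B] [IsDomain B] (p : (OO B)[X]) (A : OO B) (P k n : ℕ)
    (hA : PX k A) (hp : ∀ m, PX P (p.coeff m)) (hn : ∀ m, p.coeff m ≠ 0 → P + m * k ≤ n) :
    PX n (p.eval A) := by
  rw [eval_eq_sum_range]
  apply PX_sum'
  intro m _
  by_cases h0 : p.coeff m = 0
  · rw [h0, zero_mul]; exact PX_zero n
  · have hpow : ∀ m : ℕ, PX (m * k) (A ^ m) := by
      intro m
      induction m with
      | zero =>
        rw [zero_mul, pow_zero]
        exact PX_of_deg (by simp) (Or.inl (by simp))
      | succ m ih =>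
        rw [pow_succ, Nat.succ_mul]
        exact ih.mul hA
    exact ((hp m).mul (hpow m)).mono (hn m h0)

/-- TARGET. -/
theorem eval_ne {u : OO (OO (ZMod 3))} (hu : u ≠ 0) (e P : ℕ) (hP : P < 9 ^ e)
    (hc : ∀ m, PX P (u.re.coeff m) ∧ PX P (u.im.coeff m)) :
    ev (za (Xp : OO (ZMod 3)) e) (zb (Yp : OO (ZMod 3)) e) u ≠ 0 := by
  obtain ⟨N, hN⟩ := exists_top hu
  obtain ⟨hN1, hN2, hN3⟩ := hN
  have hA : Top (9 ^ e * 2) (za (Xp : OO (ZMod 3)) e) := Top_Xp'.pow (9 ^ e)
  have hB : Top (9 ^ e * 3) (zb (Yp : OO (ZMod 3)) e) := by
    have h1 : Top (9 ^ e * 3) ((Yp : OO (ZMod 3)) ^ (9 ^ e)) := Top_Yp'.pow (9 ^ e)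
    unfold zb
    rcases neg_one_pow_eq_or (OO (ZMod 3)) e with h | h
    · rw [h, one_mul]; exact h1
    · rw [h, neg_one_mul]; exact h1.neg'
  generalize za (Xp : OO (ZMod 3)) e = A at hA
  generalize zb (Yp : OO (ZMod 3)) e = Bz at hB
  have h9 : 1 ≤ 9 ^ e := Nat.one_le_pow _ _ (by norm_num)
  generalize 9 ^ e = q at *
  unfold ev
  rcases Nat.even_or_odd' N with ⟨a, ha | ha⟩
  · -- even
    subst ha
    have e1 : (2 * a) % 2 = 0 := by omega
    have e2 : (2 * a) / 2 = a := by omega
    simp only [cf, e1, if_true, e2] at hN3
    have hsplit : u.re.eval A = u.re.coeff a * A ^ a + (u.re.erase a).eval A := by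
      conv_lhs => rw [← monomial_add_erase u.re a]
      rw [eval_add, eval_monomial]
    rw [hsplit]
    obtain ⟨t, ht⟩ := exists_top hN3
    have htP : t ≤ P := ht.le_of_PX (hc a).1
    have hT := ht.mul (hA.pow a)
    intro h0
    by_cases ha0 : a = 0
    · subst ha0
      have hre : (u.re.erase 0).eval A = 0 := by
        have : u.re.erase 0 = 0 := by
          ext1 m
          rw [coeff_erase, coeff_zero]
          split_ifs with hm
          · rfl
          · by_contra hne
            have := hN2.1 m hne
            omega
        rw [this, eval_zero]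
      have him : u.im.eval A = 0 := by
        have : u.im = 0 := by
          ext1 m
          rw [coeff_zero]
          by_contra hne
          have := hN2.2 m hne
          omega
        rw [this, eval_zero]
      rw [hre, him, zero_mul, add_zero, add_zero] at h0
      exact hT.ne_zero h0
    · have h1 : PX (2 * a * q - 1) ((u.re.erase a).eval A) := by
        apply PX_eval' (u.re.erase a) A P (q * 2) _ hA.2.1
        · intro m
          rw [coeff_erase]
          split_ifs
          · exact PX_zero P
          · exact (hc m).1
        · intro m hm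
          rw [coeff_erase] at hm
          split_ifs at hm with hma
          · exact absurd rfl hm
          · have h2 := hN2.1 m hm
            have h3 : m + 1 ≤ a := by omega
            have h4 : (m + 1) * (q * 2) ≤ a * (q * 2) := Nat.mul_le_mul_right _ h3
            have h5 : (m + 1) * (q * 2) = m * (q * 2) + q * 2 := by ring
            have h6 : a * (q * 2) = 2 * a * q := by ring
            omega
      have h2 : PX (2 * a * q - 1) (u.im.eval A * Bz) := by
        by_cases ha1 : a = 1
        · have : u.im = 0 := by
            ext1 m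
            rw [coeff_zero]
            by_contra hne
            have := hN2.2 m hne
            omega
          rw [this, eval_zero, zero_mul]; exact PX_zero _
        · have h3 : PX (P + (a - 2) * (q * 2)) (u.im.eval A) := by
            apply PX_eval' u.im A P (q * 2) _ hA.2.1
            · intro m; exact (hc m).2
            · intro m hm
              have h2 := hN2.2 m hm
              have h3 : m ≤ a - 2 := by omega
              have h4 : m * (q * 2) ≤ (a - 2) * (q * 2) := Nat.mul_le_mul_right _ h3
              omega
          refine (h3.mul hB.2.1).mono ?_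
          obtain ⟨c, rfl⟩ : ∃ c, a = c + 2 := ⟨a - 2, by omega⟩
          have h5 : (c + 2 - 2) * (q * 2) = c * (q * 2) := by congr 1
          have h6 : 2 * (c + 2) * q = c * (q * 2) + 4 * q := by ring
          rw [h5, h6]
          omega
      have h3 : u.re.coeff a * A ^ a = -((u.re.erase a).eval A + u.im.eval A * Bz) := by
        linear_combination h0
      rw [h3] at hT
      have h4 := hT.le_of_PX (h1.add h2).neg
      have h5 : a * (q * 2) = 2 * a * q := by ring
      have h6 : 1 ≤ 2 * a * q := by
        have : 1 ≤ 2 * a := by omega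
        exact Nat.one_le_iff_ne_zero.2 (by positivity)
      omega
  · -- odd
    obtain ⟨b, rfl⟩ : ∃ b, a = b + 1 := ⟨a - 1, by omega⟩
    subst ha
    have e1 : (2 * (b + 1) + 1) % 2 = 1 := by omega
    have e2 : (2 * (b + 1) + 1 - 3) / 2 = b := by omega
    simp only [cf, e1, one_ne_zero, if_false, e2] at hN3
    have hsplit : u.im.eval A = u.im.coeff b * A ^ b + (u.im.erase b).eval A := by
      conv_lhs => rw [← monomial_add_erase u.im b]
      rw [eval_add, eval_monomial]
    rw [hsplit]
    obtain ⟨t, ht⟩ := exists_top hN3
    have htP : t ≤ P := ht.le_of_PX (hc b).2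
    have hT := (ht.mul (hA.pow b)).mul hB
    intro h0
    have hval : t + b * (q * 2) + q * 3 = t + (2 * (b + 1) + 1) * q := by ring
    rw [hval] at hT
    have h1 : PX ((2 * (b + 1) + 1) * q - 1) (u.re.eval A) := by
      apply PX_eval' u.re A P (q * 2) _ hA.2.1
      · intro m; exact (hc m).1
      · intro m hm
        have h2 := hN2.1 m hm
        have h3 : m ≤ b + 1 := by omega
        have h4 : m * (q * 2) ≤ (b + 1) * (q * 2) := Nat.mul_le_mul_right _ h3
        have h5 : (2 * (b + 1) + 1) * q = (b + 1) * (q * 2) + q := by ring
        rw [h5]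
        omega
    have h2 : PX ((2 * (b + 1) + 1) * q - 1) ((u.im.erase b).eval A * Bz) := by
      by_cases hb0 : b = 0
      · have : u.im.erase b = 0 := by
          ext1 m
          rw [coeff_erase, coeff_zero]
          split_ifs with hm
          · rfl
          · by_contra hne
            have := hN2.2 m hne
            omega
        rw [this, eval_zero, zero_mul]; exact PX_zero _
      · have h3 : PX (P + (b - 1) * (q * 2)) ((u.im.erase b).eval A) := by
          apply PX_eval' (u.im.erase b) A P (q * 2) _ hA.2.1
          · intro m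
            rw [coeff_erase]
            split_ifs
            · exact PX_zero P
            · exact (hc m).2
          · intro m hm
            rw [coeff_erase] at hm
            split_ifs at hm with hma
            · exact absurd rfl hm
            · have h2 := hN2.2 m hm
              have h3 : m ≤ b - 1 := by omega
              have h4 : m * (q * 2) ≤ (b - 1) * (q * 2) := Nat.mul_le_mul_right _ h3
              omega
        refine (h3.mul hB.2.1).mono ?_
        obtain ⟨c, rfl⟩ : ∃ c, b = c + 1 := ⟨b - 1, by omega⟩
        have h5 : (c + 1 - 1) * (q * 2) = c * (q * 2) := by congr 1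
        have h6 : (2 * (c + 1 + 1) + 1) * q = c * (q * 2) + 5 * q := by ring
        rw [h5, h6]
        omega
    have h3 : u.im.coeff b * A ^ b * Bz = -(u.re.eval A + (u.im.erase b).eval A * Bz) := by
      linear_combination h0
    rw [h3] at hT
    have h4 := hT.le_of_PX (h1.add h2).neg
    have h6 : 1 ≤ (2 * (b + 1) + 1) * q := Nat.one_le_iff_ne_zero.2 (by positivity)
    omega

end Pool.Agent.Helper668.G
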