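import Mathlib

namespace Pool.Agent.Helper668.G

noncomputable section

/-- basis monomial of pole order `n` -/
def emon {A : Type} [CommRing A] (X Y : A) (n : ℕ) : A :=
  if n % 2 = 0 then X ^ (n / 2) else X ^ ((n - 3) / 2) * Y

/-- Two degree functions (pole orders) on a domain, with the data used in the construction. -/
structure BD (A : Type) [CommRing A] [Algebra (ZMod 3) A] where
  dx : A → ℕ
  dy : A → ℕ
  dx_zero : dx 0 = 0
  dy_zero : dy 0 = 0
  dx_mul : ∀ a b, a ≠ 0 → b ≠ 0 → dx (a * b) = dx a + dx b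
  dy_mul : ∀ a b, a ≠ 0 → b ≠ 0 → dy (a * b) = dy a + dy b
  dx_add : ∀ a b, dx (a + b) ≤ max (dx a) (dx b)
  dy_add : ∀ a b, dy (a + b) ≤ max (dy a) (dy b)
  f : A
  dx_f : dx f = 3
  dy_f : dy f = 6
  X1 : A
  Y1 : A
  X2 : A
  Y2 : A
  rel1 : Y1 ^ 2 = X1 ^ 3 - X1
  rel2 : Y2 ^ 2 = X2 ^ 3 - X2
  dx_X1 : dx X1 = 2
  dy_X1 : dy X1 = 0
  dx_Y1 : dx Y1 = 3
  dy_Y1 : dy Y1 = 0
  dx_X2 : dx X2 = 0
  dy_X2 : dy X2 = 2
  dx_Y2 : dx Y2 = 0
  dy_Y2 : dy Y2 = 3
  span_e : ∀ h, h ∈ Submodule.span (ZMod 3)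
    {z | ∃ m n, m ≠ 1 ∧ n ≠ 1 ∧ m ≤ dx h ∧ n ≤ dy h ∧ z = emon X1 Y1 m * emon X2 Y2 n}

namespace BD

variable {A : Type} [CommRing A] [IsDomain A] [Algebra (ZMod 3) A] (D : BD A)

include D in
lemma f_ne : D.f ≠ 0 := by
  intro h
  have := D.dx_f
  rw [h, D.dx_zero] at this
  norm_num at this

lemma dx_one : D.dx 1 = 0 := by
  have := D.dx_mul 1 1 one_ne_zero one_ne_zero
  rw [mul_one] at this; omega

lemma dy_one : D.dy 1 = 0 := by
  have := D.dy_mul 1 1 one_ne_zero one_ne_zero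
  rw [mul_one] at this; omega

lemma dx_neg (a : A) : D.dx (-a) = D.dx a := by
  by_cases ha : a = 0
  · simp [ha]
  have h1 := D.dx_mul (-1) (-1) (by simp) (by simp)
  have h2 := D.dx_mul (-1) a (by simp) ha
  simp only [neg_mul, one_mul, neg_neg] at h1 h2
  rw [D.dx_one] at h1
  omega

lemma dy_neg (a : A) : D.dy (-a) = D.dy a := by
  by_cases ha : a = 0
  · simp [ha]
  have h1 := D.dy_mul (-1) (-1) (by simp) (by simp)
  have h2 := D.dy_mul (-1) a (by simp) ha
  simp only [neg_mul, one_mul, neg_neg] at h1 h2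
  rw [D.dy_one] at h1
  omega

lemma dx_mul_le (a b : A) : D.dx (a * b) ≤ D.dx a + D.dx b := by
  by_cases ha : a = 0
  · simp [ha, D.dx_zero]
  by_cases hb : b = 0
  · simp [hb, D.dx_zero]
  exact (D.dx_mul a b ha hb).le

lemma dy_mul_le (a b : A) : D.dy (a * b) ≤ D.dy a + D.dy b := by
  by_cases ha : a = 0
  · simp [ha, D.dy_zero]
  by_cases hb : b = 0
  · simp [hb, D.dy_zero]
  exact (D.dy_mul a b ha hb).le

lemma dx_pow (a : A) (n : ℕ) : D.dx (a ^ n) = n * D.dx a := by
  by_cases ha : a = 0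
  · rcases n with _ | n
    · simp [D.dx_one]
    · simp [ha, D.dx_zero]
  induction n with
  | zero => simp [D.dx_one]
  | succ n ih => rw [pow_succ, D.dx_mul _ _ (pow_ne_zero _ ha) ha, ih]; ring

lemma dy_pow (a : A) (n : ℕ) : D.dy (a ^ n) = n * D.dy a := by
  by_cases ha : a = 0
  · rcases n with _ | n
    · simp [D.dy_one]
    · simp [ha, D.dy_zero]
  induction n with
  | zero => simp [D.dy_one]
  | succ n ih => rw [pow_succ, D.dy_mul _ _ (pow_ne_zero _ ha) ha, ih]; ring

/-- `1/f` is not a square in the fraction field -/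
instance fact_nonsq : Fact (∀ r : FractionRing A,
    r ^ 2 ≠ (algebraMap A (FractionRing A) D.f)⁻¹ + 0 * r) := by
  constructor
  intro r hr
  rw [zero_mul, add_zero] at hr
  obtain ⟨a, b, hb, rfl⟩ := IsFractionRing.div_surjective (A := A) r
  have hb' : b ≠ 0 := nonZeroDivisors.ne_zero hb
  have hinj := IsFractionRing.injective A (FractionRing A)
  have hbL : algebraMap A (FractionRing A) b ≠ 0 := by
    rw [Ne, ← map_zero (algebraMap A (FractionRing A)), hinj.eq_iff]; exact hb'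
  have hfL : algebraMap A (FractionRing A) D.f ≠ 0 := by
    rw [Ne, ← map_zero (algebraMap A (FractionRing A)), hinj.eq_iff]; exact D.f_ne
  have h1 : algebraMap A (FractionRing A) (a ^ 2 * D.f) = algebraMap A (FractionRing A) (b ^ 2) := by
    rw [map_mul, map_pow, map_pow]
    field_simp at hr
    linear_combination hr
  have h2 := hinj h1
  have ha : a ≠ 0 := by
    rintro rfl
    simp at h2
    exact hb' (by simpa using h2.symm)
  have h3 := congrArg D.dx h2
  rw [D.dx_mul _ _ (pow_ne_zero _ ha) D.f_ne, D.dx_pow, D.dx_pow, D.dx_f] at h3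
  omega

/-- the quadratic extension `L(v)`, `v^2 = 1/f` -/
abbrev L2 (D : BD A) : Type :=
  QuadraticAlgebra (FractionRing A) (algebraMap A (FractionRing A) D.f)⁻¹ 0

/-- index set of the variables: `none` is `s`, `some l` is `z_l` -/
abbrev sg : Type := Option (Fin 6)

/-- exponent of `s` -/
def w1 (g : sg →₀ ℕ) : ℕ := g none

/-- total exponent of the `z_l` -/
def w2 (g : sg →₀ ℕ) : ℕ := ∑ l : Fin 6, g (some l)

lemma w1_add (g h : sg →₀ ℕ) : w1 (g + h) = w1 g + w1 h := rfl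
lemma w2_add (g h : sg →₀ ℕ) : w2 (g + h) = w2 g + w2 h := by
  simp [w2, Finset.sum_add_distrib]
lemma w1_zero : w1 0 = 0 := rfl
lemma w2_zero : w2 0 = 0 := by simp [w2]

/-- membership in the homogeneous piece of bidegree `(i, n)` -/
def InC (D : BD A) (i n : ℕ) (c : D.L2) : Prop :=
  ∃ a b : A, c.re = algebraMap A (FractionRing A) a ∧ c.im = algebraMap A (FractionRing A) b ∧
    D.dx a ≤ 2 * i ∧ D.dy a ≤ 2 * n ∧ D.dx b ≤ 2 * i + 1 ∧ D.dy b ≤ 2 * n + 3 ∧ D.f ∣ b ^ 2

variable {D}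

lemma InC_one : InC D 0 0 (1 : D.L2) :=
  ⟨1, 0, by rw [map_one]; rfl, by rw [map_zero]; rfl, by simp [D.dx_one], by simp [D.dy_one],
    by simp [D.dx_zero], by simp [D.dy_zero], by simp⟩

lemma InC_zero (i n : ℕ) : InC D i n (0 : D.L2) :=
  ⟨0, 0, by simp, by simp, by simp [D.dx_zero], by simp [D.dy_zero],
    by simp [D.dx_zero], by simp [D.dy_zero], by simp⟩

variable [IsIntegrallyClosed A]

lemma dvd_mul_of {b b' : A} (hb : D.f ∣ b ^ 2) (hb' : D.f ∣ b' ^ 2) : D.f ∣ b * b' := by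
  have : D.f ^ 2 ∣ (b * b') ^ 2 := by
    rw [mul_pow, pow_two D.f]; exact mul_dvd_mul hb hb'
  exact (IsIntegrallyClosed.pow_dvd_pow_iff (by norm_num)).mp this

lemma InC.add {i n : ℕ} {c c' : D.L2} (h : InC D i n c) (h' : InC D i n c') :
    InC D i n (c + c') := by
  obtain ⟨a, b, h1, h2, h3, h4, h5, h6, h7⟩ := h
  obtain ⟨a', b', h1', h2', h3', h4', h5', h6', h7'⟩ := h'
  refine ⟨a + a', b + b', by simp [h1, h1'], by simp [h2, h2'], ?_, ?_, ?_, ?_, ?_⟩
  · exact (D.dx_add _ _).trans (max_le h3 h3')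
  · exact (D.dy_add _ _).trans (max_le h4 h4')
  · exact (D.dx_add _ _).trans (max_le h5 h5')
  · exact (D.dy_add _ _).trans (max_le h6 h6')
  · have e : (b + b') ^ 2 = b ^ 2 + 2 * (b * b') + b' ^ 2 := by ring
    rw [e]
    exact dvd_add (dvd_add h7 (Dvd.dvd.mul_left (dvd_mul_of h7 h7') 2)) h7'

omit [IsIntegrallyClosed A] in
lemma InC.neg {i n : ℕ} {c : D.L2} (h : InC D i n c) : InC D i n (-c) := by
  obtain ⟨a, b, h1, h2, h3, h4, h5, h6, h7⟩ := h
  refine ⟨-a, -b, by simp [h1], by simp [h2], ?_, ?_, ?_, ?_, ?_⟩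
  · rwa [D.dx_neg]
  · rwa [D.dy_neg]
  · rwa [D.dx_neg]
  · rwa [D.dy_neg]
  · simpa using h7

omit [IsIntegrallyClosed A] in
lemma InC.mono {i n i' n' : ℕ} {c : D.L2} (h : InC D i n c) (hi : i ≤ i') (hn : n ≤ n') :
    InC D i' n' c := by
  obtain ⟨a, b, h1, h2, h3, h4, h5, h6, h7⟩ := h
  exact ⟨a, b, h1, h2, by omega, by omega, by omega, by omega, h7⟩

lemma InC.mul {i n i' n' : ℕ} {c c' : D.L2} (h : InC D i n c) (h' : InC D i' n' c') :
    InC D (i + i') (n + n') (c * c') := by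
  obtain ⟨a, b, h1, h2, h3, h4, h5, h6, h7⟩ := h
  obtain ⟨a', b', h1', h2', h3', h4', h5', h6', h7'⟩ := h'
  obtain ⟨d, hd⟩ := dvd_mul_of h7 h7'
  have hfL : algebraMap A (FractionRing A) D.f ≠ 0 := by
    rw [Ne, ← map_zero (algebraMap A (FractionRing A)),
      (IsFractionRing.injective A (FractionRing A)).eq_iff]
    exact D.f_ne
  have hdx : D.dx d ≤ 2 * (i + i') := by
    by_cases hd0 : d = 0
    · simp [hd0, D.dx_zero]
    have := D.dx_mul_le b b'
    rw [hd, D.dx_mul _ _ D.f_ne hd0, D.dx_f] at this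
    omega
  have hdy : D.dy d ≤ 2 * (n + n') := by
    by_cases hd0 : d = 0
    · simp [hd0, D.dy_zero]
    have := D.dy_mul_le b b'
    rw [hd, D.dy_mul _ _ D.f_ne hd0, D.dy_f] at this
    omega
  refine ⟨a * a' + d, a * b' + b * a', ?_, ?_, ?_, ?_, ?_, ?_, ?_⟩
  · rw [QuadraticAlgebra.re_mul, h1, h1', h2, h2', map_add, map_mul, mul_assoc,
      ← map_mul (algebraMap A (FractionRing A)) b b', hd, map_mul,
      inv_mul_cancel_left₀ hfL]
  · rw [QuadraticAlgebra.im_mul, h1, h1', h2, h2']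
    simp
  · refine (D.dx_add _ _).trans (max_le ((D.dx_mul_le _ _).trans (by omega)) hdx)
  · refine (D.dy_add _ _).trans (max_le ((D.dy_mul_le _ _).trans (by omega)) hdy)
  · refine (D.dx_add _ _).trans (max_le ((D.dx_mul_le _ _).trans (by omega))
      ((D.dx_mul_le _ _).trans (by omega)))
  · refine (D.dy_add _ _).trans (max_le ((D.dy_mul_le _ _).trans (by omega))
      ((D.dy_mul_le _ _).trans (by omega)))
  · have e : (a * b' + b * a') ^ 2 = a ^ 2 * b' ^ 2 + 2 * a * a' * (b * b') + a' ^ 2 * b ^ 2 := by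
      ring
    rw [e, hd]
    exact dvd_add (dvd_add (Dvd.dvd.mul_left h7' _) (Dvd.dvd.mul_left (dvd_mul_right _ _) _))
      (Dvd.dvd.mul_left h7 _)

variable (D)

/-- The graded normal ring `R`. -/
def RR : Subalgebra (ZMod 3) (MvPolynomial sg D.L2) where
  carrier := {p | ∀ g, InC D (w1 g) (w2 g) (p.coeff g)}
  mul_mem' := by
    intro p q hp hq g
    rw [MvPolynomial.coeff_mul]
    have : ∀ s : Finset ((sg →₀ ℕ) × (sg →₀ ℕ)), (∀ x ∈ s, x.1 + x.2 = g) →
        InC D (w1 g) (w2 g) (∑ x ∈ s, p.coeff x.1 * q.coeff x.2) := by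
      intro s
      induction s using Finset.induction_on with
      | empty => intro _; simpa using InC_zero _ _
      | insert x s hx ih =>
        intro hs
        rw [Finset.sum_insert hx]
        refine InC.add ?_ (ih fun y hy => hs y (Finset.mem_insert_of_mem hy))
        have hxg := hs x (Finset.mem_insert_self x s)
        have := (hp x.1).mul (hq x.2)
        rwa [← w1_add, ← w2_add, hxg] at this
    exact this _ fun x hx => by simpa using hx
  add_mem' := by
    intro p q hp hq g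
    rw [MvPolynomial.coeff_add]
    exact (hp g).add (hq g)
  algebraMap_mem' := by
    intro r g
    have h3 : ∀ r : ZMod 3, InC D (w1 g) (w2 g) ((algebraMap (ZMod 3) (MvPolynomial sg D.L2) r).coeff g) := by
      intro r
      have h1 : InC D (w1 g) (w2 g) ((1 : MvPolynomial sg D.L2).coeff g) := by
        rw [MvPolynomial.coeff_one]
        split_ifs with h
        · exact InC_one.mono (Nat.zero_le _) (Nat.zero_le _)
        · exact InC_zero _ _
      have hr : r = 0 ∨ r = 1 ∨ r = 1 + 1 := by revert r; decide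
      rcases hr with rfl | rfl | rfl
      · simpa using InC_zero _ _
      · rw [map_one]; exact h1
      · rw [map_add, map_one, MvPolynomial.coeff_add]; exact h1.add h1
    exact h3 r

instance instCommRingRR : CommRing D.RR := Subalgebra.toCommRing _

/-- The homogeneous maximal ideal: constant coefficient zero. -/
def mm : Ideal D.RR :=
  RingHom.ker ((MvPolynomial.constantCoeff (σ := sg) (R := D.L2)).comp D.RR.val.toRingHom)

instance : D.mm.IsPrime := RingHom.ker_isPrime _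

/-- The local ring. -/
abbrev AA : Type := Localization.AtPrime D.mm

end BD

end

end Pool.Agent.Helper668.G
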