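import Mathlib
import Pool.Agent.Helper668.GR
namespace Pool.Agent.Helper668.G

noncomputable section

namespace BD

variable {A : Type} [CommRing A] [IsDomain A] [Algebra (ZMod 3) A] [IsIntegrallyClosed A] (D : BD A)

/-- TARGETS. (The hypothesis is proved elsewhere.) -/
theorem AA_charP : CharP D.AA 3 :=
  charP_of_injective_algebraMap (algebraMap (ZMod 3) D.AA).injective 3

private lemma InC_constF {c : D.L2} (h : InC D 0 0 c) : c = 0 ∨ c = 1 ∨ c = 1 + 1 := by
  obtain ⟨a, b, h1, h2, h3, h4, h5, h6, h7⟩ := h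
  have hb : b = 0 := by
    by_contra hb
    obtain ⟨d, hd⟩ := h7
    have hd0 : d ≠ 0 := by
      rintro rfl
      rw [mul_zero] at hd
      exact hb (by simpa using hd)
    have := congrArg D.dx hd
    rw [D.dx_pow, D.dx_mul _ _ D.f_ne hd0, D.dx_f] at this
    omega
  have ha : ∃ r : ZMod 3, a = r • (1 : A) := by
    have hs := D.span_e a
    have hsub : {z | ∃ m n, m ≠ 1 ∧ n ≠ 1 ∧ m ≤ D.dx a ∧ n ≤ D.dy a ∧
        z = emon D.X1 D.Y1 m * emon D.X2 D.Y2 n} ⊆ ({1} : Set A) := by
      rintro z ⟨m, n, _, _, hm, hn, rfl⟩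
      have hm0 : m = 0 := by omega
      have hn0 : n = 0 := by omega
      subst hm0
      subst hn0
      simp [emon]
    have := Submodule.span_mono hsub hs
    obtain ⟨r, hr⟩ := Submodule.mem_span_singleton.1 this
    exact ⟨r, hr.symm⟩
  obtain ⟨r, rfl⟩ := ha
  have hr : r = 0 ∨ r = 1 ∨ r = 1 + 1 := by
    have : ∀ r : ZMod 3, r = 0 ∨ r = 1 ∨ r = 1 + 1 := by decide
    exact this r
  subst hb
  rw [map_zero] at h2
  rcases hr with rfl | rfl | rfl
  · left
    rw [zero_smul, map_zero] at h1
    exact QuadraticAlgebra.ext h1 h2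
  · right; left
    rw [one_smul, map_one] at h1
    exact QuadraticAlgebra.ext h1 h2
  · right; right
    rw [add_smul, one_smul, map_add, map_one] at h1
    apply QuadraticAlgebra.ext
    · rw [h1, QuadraticAlgebra.re_add, QuadraticAlgebra.re_one]
    · rw [h2, QuadraticAlgebra.im_add, QuadraticAlgebra.im_one, add_zero]

private lemma mem_mm {p : D.RR} : p ∈ D.mm ↔ MvPolynomial.constantCoeff (p : MvPolynomial sg D.L2) = 0 :=
  Iff.rfl

private lemma exists_const (p : D.RR) : ∃ r : ZMod 3, p - algebraMap (ZMod 3) D.RR r ∈ D.mm := by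
  have h := p.2 0
  rw [w1_zero, w2_zero] at h
  have h0 : MvPolynomial.constantCoeff (p : MvPolynomial sg D.L2) =
      (p : MvPolynomial sg D.L2).coeff 0 := rfl
  rcases InC_constF D h with hc | hc | hc
  · refine ⟨0, ?_⟩
    rw [map_zero, sub_zero, mem_mm, h0, hc]
  · refine ⟨1, ?_⟩
    rw [map_one, mem_mm]
    have : ((p - 1 : D.RR) : MvPolynomial sg D.L2) = (p : MvPolynomial sg D.L2) - 1 := rfl
    rw [this, map_sub, map_one, h0, hc, sub_self]
  · refine ⟨1 + 1, ?_⟩
    rw [map_add, map_one, mem_mm]
    have : ((p - (1 + 1) : D.RR) : MvPolynomial sg D.L2) =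
      (p : MvPolynomial sg D.L2) - (1 + 1) := rfl
    rw [this, map_sub, map_add, map_one, h0, hc, sub_self]

/-- every element of the local ring is congruent to a constant -/
theorem AA_residue : Finite (IsLocalRing.ResidueField D.AA) := by
  have hres : ∀ p : D.RR, ∃ r : ZMod 3, IsLocalRing.residue D.AA (algebraMap D.RR D.AA p) =
      algebraMap (ZMod 3) (IsLocalRing.ResidueField D.AA) r := by
    intro p
    obtain ⟨r, hr⟩ := exists_const D p
    refine ⟨r, ?_⟩
    have h1 : algebraMap D.RR D.AA (p - algebraMap (ZMod 3) D.RR r) ∈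
        IsLocalRing.maximalIdeal D.AA :=
      (IsLocalization.AtPrime.to_map_mem_maximal_iff D.AA D.mm _).2 hr
    have h2 := (IsLocalRing.residue_eq_zero_iff _).2 h1
    rw [map_sub, map_sub, sub_eq_zero] at h2
    rw [h2]
    have : ((IsLocalRing.residue D.AA).comp (algebraMap D.RR D.AA)).comp
        (algebraMap (ZMod 3) D.RR) = algebraMap (ZMod 3) (IsLocalRing.ResidueField D.AA) :=
      RingHom.ext_zmod _ _
    exact RingHom.congr_fun this r
  have hsurj : Function.Surjective (algebraMap (ZMod 3) (IsLocalRing.ResidueField D.AA)) := by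
    intro z
    obtain ⟨y, rfl⟩ := IsLocalRing.residue_surjective z
    obtain ⟨a, s, rfl⟩ := IsLocalization.exists_mk'_eq D.mm.primeCompl y
    obtain ⟨r1, h1⟩ := hres a
    obtain ⟨r2, h2⟩ := hres s
    refine ⟨r1 / r2, ?_⟩
    have h3 : IsLocalRing.residue D.AA (IsLocalization.mk' D.AA a s) *
        IsLocalRing.residue D.AA (algebraMap D.RR D.AA s) =
        IsLocalRing.residue D.AA (algebraMap D.RR D.AA a) := by
      rw [← map_mul, IsLocalization.mk'_spec]
    have hne : IsLocalRing.residue D.AA (algebraMap D.RR D.AA s) ≠ 0 := by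
      rw [Ne, IsLocalRing.residue_eq_zero_iff,
        IsLocalization.AtPrime.to_map_mem_maximal_iff D.AA D.mm]
      exact s.2
    rw [map_div₀, ← h1, ← h2, div_eq_iff hne, h3]
  exact Finite.of_surjective _ hsurj

end BD

private lemma frob_finite_of {R B : Type*} [CommRing R] [Algebra (ZMod 3) R] [CommRing B]
    [Algebra R B] [CharP B 3] (M : Submonoid R) [IsLocalization M B]
    (h : Algebra.FiniteType (ZMod 3) R) : (frobenius B 3).Finite := by
  apply RingHom.IsIntegral.to_finite
  · intro x
    refine ⟨Polynomial.X ^ 3 - Polynomial.C x, Polynomial.monic_X_pow_sub_C x (by norm_num), ?_⟩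
    simp [frobenius_def]
  · obtain ⟨n, f, hf⟩ := Algebra.FiniteType.iff_quotient_mvPolynomial''.1 h
    set v : Fin n → B := fun i => algebraMap R B (f (MvPolynomial.X i)) with hv
    set φ0 : ZMod 3 →+* B := (algebraMap R B).comp (algebraMap (ZMod 3) R) with hφ0
    have hC : (MvPolynomial.C : B →+* MvPolynomial (Fin n) B).FiniteType := by
      have : Algebra.FiniteType B (MvPolynomial (Fin n) B) := inferInstance
      exact (RingHom.finiteType_algebraMap).2 this
    have hev : ∀ p : MvPolynomial (Fin n) (ZMod 3),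
        MvPolynomial.eval₂Hom (frobenius B 3) v (MvPolynomial.map φ0 p) =
          algebraMap R B (f p) := by
      intro p
      have : (MvPolynomial.eval₂Hom (frobenius B 3) v).comp (MvPolynomial.map φ0) =
          (algebraMap R B).comp (f : MvPolynomial (Fin n) (ZMod 3) →+* R) := by
        apply MvPolynomial.ringHom_ext'
        · exact RingHom.ext_zmod _ _
        · intro i
          simp [hv]
      exact RingHom.congr_fun this p
    have hs : Function.Surjective (MvPolynomial.eval₂Hom (frobenius B 3) v) := by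
      intro z
      obtain ⟨a, t, rfl⟩ := IsLocalization.exists_mk'_eq M z
      obtain ⟨p, hp⟩ := hf (a * (t : R) ^ 2)
      refine ⟨MvPolynomial.C (IsLocalization.mk' B 1 t) * MvPolynomial.map φ0 p, ?_⟩
      rw [map_mul, hev, hp, MvPolynomial.eval₂Hom_C, frobenius_def, map_mul, map_pow]
      have h1 : IsLocalization.mk' B (1 : R) t * algebraMap R B t = 1 := by
        rw [IsLocalization.mk'_spec, map_one]
      have h2 : IsLocalization.mk' B a t = algebraMap R B a *
          IsLocalization.mk' B (1 : R) t := IsLocalization.mk'_eq_mul_mk'_one _ _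
      rw [h2]
      linear_combination (algebraMap R B a * IsLocalization.mk' B (1 : R) t *
        (IsLocalization.mk' B (1 : R) t * algebraMap R B t + 1)) * h1
    have := (RingHom.FiniteType.of_surjective _ hs).comp hC
    rwa [MvPolynomial.eval₂Hom_comp_C] at this

namespace BD

variable {A : Type} [CommRing A] [IsDomain A] [Algebra (ZMod 3) A] (D : BD A)
  [IsIntegrallyClosed A]

theorem AA_ffinite (h : Algebra.FiniteType (ZMod 3) D.RR) :
    letI := AA_charP D
    (frobenius D.AA 3).Finite := by
  letI := AA_charP D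
  exact frob_finite_of D.mm.primeCompl h

end BD

end

end Pool.Agent.Helper668.G
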