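import Mathlib
import Pool.Agent.Helper668.GR
namespace Pool.Agent.Helper668.G

noncomputable section

/-- `Θ` has a finite dual basis. -/
def HasDualA {B : Type} [CommRing B] (θ : B → B) (q : ℕ) : Prop :=
  ∃ (ι : Type) (_ : Fintype ι) (b bs : ι → B), ∀ x, x = ∑ i, (θ (x * bs i)) ^ q * b i

/-- Frobenius data for the exponent `3^e = 2m+1`. -/
structure HD {A : Type} [CommRing A] [Algebra (ZMod 3) A] (D : BD A) (e m : ℕ) where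
  Th : A →+ A
  hq : 3 ^ e = 2 * m + 1
  he : 1 ≤ e
  lin : ∀ r h, Th (r ^ (3 ^ e) * h) = r * Th h
  bx : ∀ h k, D.dx h ≤ 3 ^ e * k → D.dx (Th h) ≤ k
  by' : ∀ h k, D.dy h ≤ 3 ^ e * k → D.dy (Th h) ≤ k
  dual : HasDualA Th (3 ^ e)
  nx : ∀ u : A, u ≠ 0 → ∀ (a : ℤ) (c i0 : ℕ),
    (∀ i' : ℕ, i0 ≤ i' → ∀ h, (D.dx h : ℤ) ≤ 2 * (3 ^ e * i' - a) → D.dx (Th (u * h)) ≤ 2 * i' + c) →
    (D.dx u : ℤ) ≤ 2 * a + 3 ^ e * c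
  ny : ∀ u : A, u ≠ 0 → ∀ (a : ℤ) (c i0 : ℕ),
    (∀ i' : ℕ, i0 ≤ i' → ∀ h, (D.dy h : ℤ) ≤ 2 * (3 ^ e * i' - a) → D.dy (Th (u * h)) ≤ 2 * i' + c) →
    (D.dy u : ℤ) ≤ 2 * a + 3 ^ e * c
  K1 : ∀ u, (∀ h, D.f ∣ (Th (u * h)) ^ 2) → D.dx u < 2 * 3 ^ e → u = 0
  K2 : ∃ u, u ≠ 0 ∧ (∀ h, D.f ∣ (Th (u * h)) ^ 2) ∧
    (∀ b, D.f ∣ b ^ 2 → D.f ∣ Th (u * b * D.f ^ m)) ∧ D.dx u ≤ 2 * 3 ^ e + 1
  K3 : ∀ u, u ≠ 0 → (∀ h, D.f ∣ (Th (u * h)) ^ 2) → D.dx u ≤ 2 * 3 ^ e + 1 →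
    (3 ^ e) ^ 2 ≤ D.dy u

namespace BD

variable {A : Type} [CommRing A] [IsDomain A] [Algebra (ZMod 3) A] [IsIntegrallyClosed A] (D : BD A)

/-- real homogeneous element `h x^g` of `R` -/
def mon (g : sg →₀ ℕ) (h : A) (h1 : D.dx h ≤ 2 * w1 g) (h2 : D.dy h ≤ 2 * w2 g) : D.RR :=
  ⟨MvPolynomial.monomial g (⟨algebraMap A (FractionRing A) h, 0⟩ : D.L2), by
    intro g'
    rw [MvPolynomial.coeff_monomial]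
    split_ifs with hg
    · subst hg
      exact ⟨h, 0, rfl, by rw [map_zero], h1, h2, by simp [D.dx_zero], by simp [D.dy_zero], by simp⟩
    · exact InC_zero _ _⟩

end BD

end

end Pool.Agent.Helper668.G
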