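import Mathlib
import Pool.Agent.Helper668.GH
namespace Pool.Agent.Helper668.G

noncomputable section

namespace BD

variable {A : Type} [CommRing A] [IsDomain A] [Algebra (ZMod 3) A] [IsIntegrallyClosed A] (D : BD A)

/-- `R → L2[[s,z]]` -/
def toPS : D.RR →+* MvPowerSeries sg D.L2 :=
  (MvPolynomial.coeToMvPowerSeries.ringHom (σ := sg) (R := D.L2)).comp D.RR.val.toRingHom

lemma toPS_coeff (r : D.RR) (g : sg →₀ ℕ) :
    MvPowerSeries.coeff g (D.toPS r) = (r : MvPolynomial sg D.L2).coeff g := by
  simp [toPS, MvPolynomial.coeff_coe]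

lemma toPS_isUnit (t : D.mm.primeCompl) : IsUnit (D.toPS t) := by
  rw [MvPowerSeries.isUnit_iff_constantCoeff, isUnit_iff_ne_zero]
  intro h
  apply t.2
  show (t : D.RR) ∈ D.mm
  unfold mm
  rw [RingHom.mem_ker]
  rw [← MvPowerSeries.coeff_zero_eq_constantCoeff_apply, toPS_coeff] at h
  exact h

/-- `AA → L2[[s,z]]` -/
def io : D.AA →+* MvPowerSeries sg D.L2 :=
  IsLocalization.lift (M := D.mm.primeCompl) (g := D.toPS) D.toPS_isUnit

lemma io_alg (r : D.RR) : D.io (algebraMap D.RR D.AA r) = D.toPS r :=
  IsLocalization.lift_eq _ _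

variable {D}

/-- `C_{0,0}` consists of constants, and elements of `C_{0,n}` are real. -/
lemma InC_im_zero {n : ℕ} {c : D.L2} (h : InC D 0 n c) : c.im = 0 := by
  obtain ⟨a, b, h1, h2, h3, h4, h5, h6, h7⟩ := h
  have hb : b = 0 := by
    by_contra hb
    obtain ⟨d, hd⟩ := h7
    have hd0 : d ≠ 0 := by
      rintro rfl
      rw [mul_zero] at hd
      exact hb (pow_eq_zero_iff (by norm_num) |>.mp hd)
    have := congrArg D.dx hd
    rw [D.dx_pow, D.dx_mul _ _ D.f_ne hd0, D.dx_f] at this
    omega
  rw [h2, hb, map_zero]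

lemma InC_const {c : D.L2} (h : InC D 0 0 c) : ∃ z : ZMod 3, c = algebraMap (ZMod 3) D.L2 z := by
  have him := InC_im_zero h
  obtain ⟨a, b, h1, h2, h3, h4, h5, h6, h7⟩ := h
  have hs := D.span_e a
  have hle : Submodule.span (ZMod 3) {z | ∃ m n, m ≠ 1 ∧ n ≠ 1 ∧ m ≤ D.dx a ∧ n ≤ D.dy a ∧
      z = emon D.X1 D.Y1 m * emon D.X2 D.Y2 n} ≤ Submodule.span (ZMod 3) {(1 : A)} := by
    rw [Submodule.span_le]
    rintro z ⟨m, n, hm, hn, hm2, hn2, rfl⟩
    have hm0 : m = 0 := by omega
    have hn0 : n = 0 := by omega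
    subst hm0 hn0
    apply Submodule.subset_span
    simp [emon]
  obtain ⟨z, hz⟩ := Submodule.mem_span_singleton.mp (hle hs)
  refine ⟨z, ?_⟩
  apply QuadraticAlgebra.ext
  · rw [h1, ← hz, Algebra.smul_def, mul_one]
    rw [← IsScalarTower.algebraMap_apply]
    rfl
  · rw [him]
    rfl

/-- coefficients of elements of the local ring -/
lemma io_InC (a : D.AA) (g : sg →₀ ℕ) : InC D (w1 g) (w2 g) (MvPowerSeries.coeff g (D.io a)) := by
  obtain ⟨⟨r, t⟩, hrt⟩ := IsLocalization.surj D.mm.primeCompl a
  simp only at hrt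
  have h1 : D.io a * D.toPS t = D.toPS r := by
    rw [← io_alg, ← io_alg, ← map_mul, hrt]
  have ht0 : InC D 0 0 (MvPowerSeries.coeff 0 (D.toPS t)) := by
    rw [toPS_coeff]
    have := (t : D.RR).2 0
    rwa [w1_zero, w2_zero] at this
  obtain ⟨z, hz⟩ := InC_const ht0
  have hzne : z ≠ 0 := by
    rintro rfl
    apply t.2
    show (t : D.RR) ∈ D.mm
    unfold mm
    rw [RingHom.mem_ker]
    rw [toPS_coeff, map_zero] at hz
    exact hz
  have hzz : z * z = 1 := by
    have : ∀ z : ZMod 3, z ≠ 0 → z * z = 1 := by decide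
    exact this z hzne
  have key : ∀ N : ℕ, ∀ g : sg →₀ ℕ, (∑ i, g i) = N →
      InC D (w1 g) (w2 g) (MvPowerSeries.coeff g (D.io a)) := by
    intro N
    induction N using Nat.strong_induction_on with
    | _ N ih =>
      intro g hg
      have h2 := congrArg (MvPowerSeries.coeff g) h1
      rw [MvPowerSeries.coeff_mul] at h2
      have hmem : (g, (0 : sg →₀ ℕ)) ∈ Finset.HasAntidiagonal.antidiagonal g := by simp
      rw [← Finset.add_sum_erase _ _ hmem] at h2
      simp only at h2
      have h3 : InC D (w1 g) (w2 g) (MvPowerSeries.coeff g (D.toPS r)) := by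
        rw [toPS_coeff]; exact r.2 g
      have h4 : ∀ s : Finset ((sg →₀ ℕ) × (sg →₀ ℕ)), s ⊆ (Finset.HasAntidiagonal.antidiagonal g).erase (g, 0) →
          InC D (w1 g) (w2 g) (∑ x ∈ s, MvPowerSeries.coeff x.1 (D.io a) *
            MvPowerSeries.coeff x.2 (D.toPS t)) := by
        intro s
        induction s using Finset.induction_on with
        | empty => intro _; simpa using InC_zero _ _
        | insert x s hx ih2 =>
          intro hs
          rw [Finset.sum_insert hx]
          refine InC.add ?_ (ih2 fun y hy => hs (Finset.mem_insert_of_mem hy))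
          have hxm := hs (Finset.mem_insert_self x s)
          rw [Finset.mem_erase, Finset.HasAntidiagonal.mem_antidiagonal] at hxm
          obtain ⟨hx1, hx2⟩ := hxm
          have hlt : (∑ i, x.1 i) < N := by
            rw [← hg, ← hx2]
            have : 0 < ∑ i, x.2 i := by
              rw [Nat.pos_iff_ne_zero]
              intro h0
              apply hx1
              have hx20 : x.2 = 0 := by
                ext i
                have := (Finset.sum_eq_zero_iff.mp h0) i (Finset.mem_univ i)
                simpa using this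
              ext1
              · simp only; rw [← hx2, hx20, add_zero]
              · exact hx20
            simp only [Finsupp.add_apply, Finset.sum_add_distrib]
            omega
          have i1 := ih _ hlt x.1 rfl
          have i2 : InC D (w1 x.2) (w2 x.2) (MvPowerSeries.coeff x.2 (D.toPS t)) := by
            rw [toPS_coeff]; exact (t : D.RR).2 _
          have := i1.mul i2
          rwa [← w1_add, ← w2_add, hx2] at this
      have h5 := h4 _ (Finset.Subset.refl _)
      have h6 : MvPowerSeries.coeff g (D.io a) = MvPowerSeries.coeff 0 (D.toPS t) *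
          (MvPowerSeries.coeff g (D.toPS r) + -(∑ x ∈ (Finset.HasAntidiagonal.antidiagonal g).erase (g, 0),
            MvPowerSeries.coeff x.1 (D.io a) * MvPowerSeries.coeff x.2 (D.toPS t))) := by
        rw [← h2, add_neg_cancel_right, mul_comm, mul_assoc, hz, ← map_mul, hzz, map_one, mul_one]
      rw [h6]
      have := ht0.mul (h3.add h5.neg)
      rwa [zero_add, zero_add] at this
  exact key _ g rfl

end BD

end

end Pool.Agent.Helper668.G
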