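import Mathlib
import Pool.Agent.Helper668.GI
namespace Pool.Agent.Helper668.G

noncomputable section

/-- the exponent `q G - ε` -/
def ex (q : ℕ) (ε : BD.sg → ℤ) (G : BD.sg →₀ ℕ) : BD.sg →₀ ℕ :=
  Finsupp.equivFunOnFinite.symm (fun i => ((q : ℤ) * G i - ε i).toNat)

lemma ex_apply (q : ℕ) (ε : BD.sg → ℤ) (G : BD.sg →₀ ℕ) (i : BD.sg) :
    ex q ε G i = ((q : ℤ) * G i - ε i).toNat := rfl

lemma ex_add {q : ℕ} {ε : BD.sg → ℤ} {G : BD.sg →₀ ℕ} (hG : ∀ i, ε i ≤ (q : ℤ) * G i)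
    (G' : BD.sg →₀ ℕ) : ex q ε (G + G') = q • G' + ex q ε G := by
  ext i
  rw [Finsupp.add_apply, Finsupp.smul_apply, ex_apply, ex_apply, Finsupp.add_apply, smul_eq_mul]
  have := hG i
  push_cast
  have h1 : (q : ℤ) * (G i + G' i) - ε i = (q : ℤ) * G' i + (q * G i - ε i) := by ring
  rw [h1]
  have h2 : (0 : ℤ) ≤ (q : ℤ) * G' i := by positivity
  have h3 : ((q * G' i : ℕ) : ℤ) = (q : ℤ) * G' i := by push_cast; ring
  omega

namespace BD

variable {A : Type} [CommRing A] [IsDomain A] [Algebra (ZMod 3) A] [IsIntegrallyClosed A] (D : BD A)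

omit [IsIntegrallyClosed A] [IsDomain A] in
lemma w1_smul (q : ℕ) (g : sg →₀ ℕ) : w1 (q • g) = q * w1 g := rfl

omit [IsIntegrallyClosed A] [IsDomain A] in
lemma w2_smul (q : ℕ) (g : sg →₀ ℕ) : w2 (q • g) = q * w2 g := by
  simp [w2, Finset.mul_sum]

/-- validity of the output exponent `G` -/
def Valid (q : ℕ) (ε : sg → ℤ) (h : A) (G : sg →₀ ℕ) : Prop :=
  (∀ i, ε i ≤ (q : ℤ) * G i) ∧ D.dx h ≤ 2 * w1 (ex q ε G) ∧ D.dy h ≤ 2 * w2 (ex q ε G)

variable {D}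

lemma Valid.step {q : ℕ} {ε : sg → ℤ} {h : A} {G : sg →₀ ℕ} (hG : D.Valid q ε h G)
    {G' : sg →₀ ℕ} {r : A} (h1 : D.dx r ≤ 2 * w1 G') (h2 : D.dy r ≤ 2 * w2 G') :
    D.Valid q ε (r ^ q * h) (G + G') := by
  refine ⟨fun i => ?_, ?_, ?_⟩
  · have := hG.1 i
    rw [Finsupp.add_apply]; push_cast
    have h2 : (0 : ℤ) ≤ (q : ℤ) * G' i := by positivity
    linarith
  · rw [ex_add hG.1, w1_add, w1_smul]
    refine (D.dx_mul_le _ _).trans ?_
    rw [D.dx_pow]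
    have := Nat.mul_le_mul_left q h1
    have := hG.2.1
    linarith
  · rw [ex_add hG.1, w2_add, w2_smul]
    refine (D.dy_mul_le _ _).trans ?_
    rw [D.dy_pow]
    have := Nat.mul_le_mul_left q h2
    have := hG.2.2
    linarith

lemma Valid.mono {q : ℕ} {ε : sg → ℤ} {h : A} {G : sg →₀ ℕ} (hG : D.Valid q ε h G)
    (G' : sg →₀ ℕ) : D.Valid q ε h (G + G') := by
  have := hG.step (G' := G') (r := 1) (by rw [D.dx_one]; exact Nat.zero_le _)
    (by rw [D.dy_one]; exact Nat.zero_le _)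
  simpa using this

lemma exists_valid {q : ℕ} (hq : 1 ≤ q) (ε : sg → ℤ) (h : A) : ∃ G, D.Valid q ε h G := by
  set C : ℕ := (∑ i, (ε i).natAbs) + D.dx h + D.dy h with hC
  have hi : ∀ i, (ε i).natAbs ≤ ∑ i, (ε i).natAbs := fun i =>
    Finset.single_le_sum (f := fun i => (ε i).natAbs) (fun _ _ => Nat.zero_le _) (Finset.mem_univ i)
  have hex : ∀ i, D.dx h + D.dy h ≤ ex q ε (Finsupp.equivFunOnFinite.symm (fun _ => C)) i := by
    intro i
    rw [ex_apply]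
    have h1 := hi i
    have h2 : (C : ℤ) ≤ (q : ℤ) * C := by
      have : (1 : ℤ) ≤ q := by exact_mod_cast hq
      nlinarith [Int.natCast_nonneg C]
    have h3 : (Finsupp.equivFunOnFinite.symm (fun _ => C) : sg →₀ ℕ) i = C := rfl
    rw [h3]
    omega
  refine ⟨Finsupp.equivFunOnFinite.symm (fun _ => C), fun i => ?_, ?_, ?_⟩
  · have h1 := hi i
    have h2 : (C : ℤ) ≤ (q : ℤ) * C := by
      have : (1 : ℤ) ≤ q := by exact_mod_cast hq
      nlinarith [Int.natCast_nonneg C]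
    have h3 : (Finsupp.equivFunOnFinite.symm (fun _ => C) : sg →₀ ℕ) i = C := rfl
    rw [h3]
    omega
  · have := hex none
    unfold w1; omega
  · have := hex (some 0)
    have h4 : ex q ε (Finsupp.equivFunOnFinite.symm (fun _ => C)) (some 0) ≤
        w2 (ex q ε (Finsupp.equivFunOnFinite.symm (fun _ => C))) :=
      Finset.single_le_sum (f := fun l : Fin 6 =>
        ex q ε (Finsupp.equivFunOnFinite.symm (fun _ => C)) (some l))
        (fun _ _ => Nat.zero_le _) (Finset.mem_univ 0)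
    omega

lemma mon_step {q : ℕ} {ε : sg → ℤ} {h : A} {G : sg →₀ ℕ} (hG : D.Valid q ε h G)
    {G' : sg →₀ ℕ} {r : A} (h1 : D.dx r ≤ 2 * w1 G') (h2 : D.dy r ≤ 2 * w2 G') :
    D.mon (ex q ε (G + G')) (r ^ q * h) (hG.step h1 h2).2.1 (hG.step h1 h2).2.2 =
      (D.mon G' r h1 h2) ^ q * D.mon (ex q ε G) h hG.2.1 hG.2.2 := by
  apply Subtype.ext
  show MvPolynomial.monomial (ex q ε (G + G')) (⟨algebraMap A (FractionRing A) (r ^ q * h), 0⟩ : D.L2) =
    (MvPolynomial.monomial G' (⟨algebraMap A (FractionRing A) r, 0⟩ : D.L2)) ^ q *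
      MvPolynomial.monomial (ex q ε G) (⟨algebraMap A (FractionRing A) h, 0⟩ : D.L2)
  rw [MvPolynomial.monomial_pow, MvPolynomial.monomial_mul, ex_add hG.1]
  congr 1
  have : (⟨algebraMap A (FractionRing A) r, 0⟩ : D.L2) ^ q =
      ⟨algebraMap A (FractionRing A) r ^ q, 0⟩ := (QuadraticAlgebra.C_pow q _).symm
  rw [this]
  apply QuadraticAlgebra.ext
  · simp
  · simp

variable (φ : D.AA →+ D.AA)

/-- coefficient at `G` of `φ (h x^{qG-ε})` -/
def val {q : ℕ} {ε : sg → ℤ} {h : A} {G : sg →₀ ℕ} (hG : D.Valid q ε h G) : D.L2 :=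
  MvPowerSeries.coeff G (D.io (φ (algebraMap D.RR D.AA (D.mon (ex q ε G) h hG.2.1 hG.2.2))))

lemma val_step {q : ℕ} (hφ : ∀ c x, φ (c ^ q * x) = c * φ x) {ε : sg → ℤ} {h : A} {G : sg →₀ ℕ}
    (hG : D.Valid q ε h G) {G' : sg →₀ ℕ} {r : A} (h1 : D.dx r ≤ 2 * w1 G')
    (h2 : D.dy r ≤ 2 * w2 G') :
    val φ (hG.step h1 h2) = ⟨algebraMap A (FractionRing A) r, 0⟩ * val φ hG := by
  unfold val
  rw [mon_step hG h1 h2, map_mul, map_pow, hφ, map_mul, io_alg]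
  have : D.toPS (D.mon G' r h1 h2) =
      MvPowerSeries.monomial G' (⟨algebraMap A (FractionRing A) r, 0⟩ : D.L2) := by
    show ((MvPolynomial.monomial G' (⟨algebraMap A (FractionRing A) r, 0⟩ : D.L2) :
      MvPolynomial sg D.L2) : MvPowerSeries sg D.L2) = _
    rw [MvPolynomial.coe_monomial]
  rw [this, add_comm G G', MvPowerSeries.coeff_add_monomial_mul]

lemma val_congr {q : ℕ} {ε : sg → ℤ} {h h' : A} {G : sg →₀ ℕ} (hh : h = h')
    (hG : D.Valid q ε h G) (hG' : D.Valid q ε h' G) : val φ hG = val φ hG' := by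
  subst hh; rfl

lemma val_mono {q : ℕ} (hφ : ∀ c x, φ (c ^ q * x) = c * φ x) {ε : sg → ℤ} {h : A} {G : sg →₀ ℕ}
    (hG : D.Valid q ε h G) (G' : sg →₀ ℕ) : val φ (hG.mono G') = val φ hG := by
  have h1 : D.dx (1 : A) ≤ 2 * w1 G' := by rw [D.dx_one]; exact Nat.zero_le _
  have h2 : D.dy (1 : A) ≤ 2 * w2 G' := by rw [D.dy_one]; exact Nat.zero_le _
  have := val_step φ hφ hG h1 h2
  rw [map_one] at this
  have h3 : (⟨1, 0⟩ : D.L2) = 1 := rfl
  rw [h3, one_mul] at this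
  rw [← this]
  exact val_congr φ (by simp) _ _

lemma val_indep {q : ℕ} (hφ : ∀ c x, φ (c ^ q * x) = c * φ x) {ε : sg → ℤ} {h : A}
    {G G' : sg →₀ ℕ} (hG : D.Valid q ε h G) (hG' : D.Valid q ε h G') :
    val φ hG = val φ hG' := by
  rw [← val_mono φ hφ hG G', ← val_mono φ hφ hG' G]
  have : ∀ {G₁ G₂ : sg →₀ ℕ} (h12 : G₁ = G₂) (v1 : D.Valid q ε h G₁) (v2 : D.Valid q ε h G₂),
      val φ v1 = val φ v2 := by
    intro G₁ G₂ h12 v1 v2; subst h12; rfl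
  exact this (add_comm _ _) _ _

/-- `ψ_ε(h)` -/
def psi (q : ℕ) (hq : 1 ≤ q) (ε : sg → ℤ) (h : A) : D.L2 :=
  val φ (exists_valid (D := D) hq ε h).choose_spec

lemma psi_eq {q : ℕ} (hq : 1 ≤ q) (hφ : ∀ c x, φ (c ^ q * x) = c * φ x) {ε : sg → ℤ} {h : A}
    {G : sg →₀ ℕ} (hG : D.Valid q ε h G) : psi φ q hq ε h = val φ hG :=
  val_indep φ hφ _ hG

lemma psi_InC {q : ℕ} (hq : 1 ≤ q) (hφ : ∀ c x, φ (c ^ q * x) = c * φ x) {ε : sg → ℤ} {h : A}
    {G : sg →₀ ℕ} (hG : D.Valid q ε h G) : InC D (w1 G) (w2 G) (psi φ q hq ε h) := by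
  rw [psi_eq φ hq hφ hG]
  exact io_InC _ _

lemma psi_lin {q : ℕ} (hq : 1 ≤ q) (hφ : ∀ c x, φ (c ^ q * x) = c * φ x) (ε : sg → ℤ) (r h : A) :
    psi φ q hq ε (r ^ q * h) = ⟨algebraMap A (FractionRing A) r, 0⟩ * psi φ q hq ε h := by
  obtain ⟨G, hG⟩ := exists_valid (D := D) hq ε h
  obtain ⟨G', hG'⟩ := exists_valid (D := D) (le_refl 1) 0 r
  have e0 : ex 1 0 G' = G' := by
    ext i
    rw [ex_apply]; simp
  have h1 : D.dx r ≤ 2 * w1 G' := by have := hG'.2.1; rwa [e0] at this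
  have h2 : D.dy r ≤ 2 * w2 G' := by have := hG'.2.2; rwa [e0] at this
  rw [psi_eq φ hq hφ hG, psi_eq φ hq hφ (hG.step h1 h2), val_step φ hφ hG h1 h2]

lemma psi_add {q : ℕ} (hq : 1 ≤ q) (hφ : ∀ c x, φ (c ^ q * x) = c * φ x) (ε : sg → ℤ) (h h' : A) :
    psi φ q hq ε (h + h') = psi φ q hq ε h + psi φ q hq ε h' := by
  obtain ⟨G1, hG1⟩ := exists_valid (D := D) hq ε h
  obtain ⟨G2, hG2⟩ := exists_valid (D := D) hq ε h'
  have v1 : D.Valid q ε h (G1 + G2) := hG1.mono G2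
  have v2 : D.Valid q ε h' (G1 + G2) := by rw [add_comm]; exact hG2.mono G1
  have v3 : D.Valid q ε (h + h') (G1 + G2) :=
    ⟨v1.1, (D.dx_add _ _).trans (max_le v1.2.1 v2.2.1), (D.dy_add _ _).trans (max_le v1.2.2 v2.2.2)⟩
  rw [psi_eq φ hq hφ v1, psi_eq φ hq hφ v2, psi_eq φ hq hφ v3]
  unfold val
  rw [← map_add, ← map_add, ← map_add, ← map_add]
  congr 4
  apply Subtype.ext
  show MvPolynomial.monomial _ _ = MvPolynomial.monomial _ _ + MvPolynomial.monomial _ _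
  rw [← map_add]
  congr 1
  apply QuadraticAlgebra.ext
  · simp
  · simp

/-- module structure -/
lemma psi_smul {q : ℕ} (hq : 1 ≤ q) (hφ : ∀ c x, φ (c ^ q * x) = c * φ x) (ψ : D.AA →+ D.AA)
    (c : D.AA) (hψ : ∀ x, ψ x = c * φ x) {ε : sg → ℤ} {h : A}
    {G : sg →₀ ℕ} (hG : D.Valid q ε h G) :
    psi ψ q hq ε h = ∑ x ∈ Finset.HasAntidiagonal.antidiagonal G,
      MvPowerSeries.coeff x.1 (D.io c) * psi φ q hq (fun i => ε i - q * x.1 i) h := by
  have hψ' : ∀ c x, ψ (c ^ q * x) = c * ψ x := by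
    intro c' x
    rw [hψ, hψ, hφ]; ring
  rw [psi_eq ψ hq hψ' hG]
  unfold val
  rw [hψ, map_mul, MvPowerSeries.coeff_mul]
  apply Finset.sum_congr rfl
  intro x hx
  rw [Finset.HasAntidiagonal.mem_antidiagonal] at hx
  have hex : ex q (fun i => ε i - q * x.1 i) x.2 = ex q ε G := by
    ext i
    rw [ex_apply, ex_apply, ← hx, Finsupp.add_apply]
    congr 1
    push_cast; ring
  have hv : D.Valid q (fun i => ε i - q * x.1 i) h x.2 := by
    refine ⟨fun i => ?_, ?_, ?_⟩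
    · have := hG.1 i
      rw [← hx, Finsupp.add_apply] at this
      push_cast at this
      linarith
    · rw [hex]; exact hG.2.1
    · rw [hex]; exact hG.2.2
  rw [psi_eq φ hq hφ hv]
  unfold val
  congr 5
  apply Subtype.ext
  show MvPolynomial.monomial _ _ = MvPolynomial.monomial _ _
  rw [hex]

end BD

end

end Pool.Agent.Helper668.G
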