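import Mathlib
import Pool.Agent.Helper668.GJ
namespace Pool.Agent.Helper668.G

noncomputable section

namespace BD

variable {A : Type} [CommRing A] [IsDomain A] [Algebra (ZMod 3) A] [IsIntegrallyClosed A] {D : BD A}

/-- sum of the `z`-components of an integer vector -/
def W2 (ε : sg → ℤ) : ℤ := ∑ l : Fin 6, ε (some l)

omit [IsIntegrallyClosed A] in
lemma algL_inj : Function.Injective (algebraMap A (FractionRing A)) :=
  IsFractionRing.injective A (FractionRing A)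

section parts
variable (φ : D.AA →+ D.AA) {q : ℕ} (hq : 1 ≤ q) (hφ : ∀ c x, φ (c ^ q * x) = c * φ x)
include hφ

lemma exists_parts (ε : sg → ℤ) (h : A) : ∃ ab : A × A,
    (psi φ q hq ε h).re = algebraMap A (FractionRing A) ab.1 ∧
    (psi φ q hq ε h).im = algebraMap A (FractionRing A) ab.2 := by
  obtain ⟨G, hG⟩ := exists_valid (D := D) hq ε h
  obtain ⟨a, b, h1, h2, _⟩ := psi_InC φ hq hφ hG
  exact ⟨(a, b), h1, h2⟩

/-- real part -/
def p0 (ε : sg → ℤ) (h : A) : A := (exists_parts φ hq hφ ε h).choose.1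
/-- imaginary part -/
def p1 (ε : sg → ℤ) (h : A) : A := (exists_parts φ hq hφ ε h).choose.2

lemma p0_spec (ε : sg → ℤ) (h : A) :
    (psi φ q hq ε h).re = algebraMap A (FractionRing A) (p0 φ hq hφ ε h) :=
  (exists_parts φ hq hφ ε h).choose_spec.1

lemma p1_spec (ε : sg → ℤ) (h : A) :
    (psi φ q hq ε h).im = algebraMap A (FractionRing A) (p1 φ hq hφ ε h) :=
  (exists_parts φ hq hφ ε h).choose_spec.2

lemma parts_bounds {ε : sg → ℤ} {h : A} {G : sg →₀ ℕ} (hG : D.Valid q ε h G) :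
    D.dx (p0 φ hq hφ ε h) ≤ 2 * w1 G ∧ D.dy (p0 φ hq hφ ε h) ≤ 2 * w2 G ∧
    D.dx (p1 φ hq hφ ε h) ≤ 2 * w1 G + 1 ∧ D.dy (p1 φ hq hφ ε h) ≤ 2 * w2 G + 3 ∧
    D.f ∣ (p1 φ hq hφ ε h) ^ 2 := by
  obtain ⟨a, b, h1, h2, h3, h4, h5, h6, h7⟩ := psi_InC φ hq hφ hG
  rw [p0_spec φ hq hφ] at h1
  rw [p1_spec φ hq hφ] at h2
  rw [algL_inj h1, algL_inj h2]
  exact ⟨h3, h4, h5, h6, h7⟩

lemma p0_lin (ε : sg → ℤ) (r h : A) :
    p0 φ hq hφ ε (r ^ q * h) = r * p0 φ hq hφ ε h := by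
  apply algL_inj (A := A)
  rw [← p0_spec, psi_lin φ hq hφ, map_mul, ← p0_spec, QuadraticAlgebra.re_mul]
  simp

lemma p1_lin (ε : sg → ℤ) (r h : A) :
    p1 φ hq hφ ε (r ^ q * h) = r * p1 φ hq hφ ε h := by
  apply algL_inj (A := A)
  rw [← p1_spec, psi_lin φ hq hφ, map_mul, ← p1_spec, QuadraticAlgebra.im_mul]
  simp

lemma p0_add (ε : sg → ℤ) (h h' : A) :
    p0 φ hq hφ ε (h + h') = p0 φ hq hφ ε h + p0 φ hq hφ ε h' := by
  apply algL_inj (A := A)
  rw [← p0_spec, psi_add φ hq hφ, map_add, ← p0_spec, ← p0_spec, QuadraticAlgebra.re_add]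

lemma p1_add (ε : sg → ℤ) (h h' : A) :
    p1 φ hq hφ ε (h + h') = p1 φ hq hφ ε h + p1 φ hq hφ ε h' := by
  apply algL_inj (A := A)
  rw [← p1_spec, psi_add φ hq hφ, map_add, ← p1_spec, ← p1_spec, QuadraticAlgebra.im_add]

end parts

lemma exists_rep {q : ℕ} (Th : A →+ A) (hlin : ∀ r h, Th (r ^ q * h) = r * Th h)
    (hd : HasDualA Th q) (F : A → A) (hadd : ∀ x y, F (x + y) = F x + F y)
    (hF : ∀ r h, F (r ^ q * h) = r * F h) : ∃ u, ∀ h, F h = Th (u * h) := by
  obtain ⟨ι, _, b, bs, hb⟩ := hd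
  let F' : A →+ A := AddMonoidHom.mk' F hadd
  have hF' : ∀ x, F' x = F x := fun x => rfl
  refine ⟨∑ i, (F (b i)) ^ q * bs i, fun h => ?_⟩
  have h1 : F h = ∑ i, Th (h * bs i) * F (b i) := by
    conv_lhs => rw [hb h]
    rw [← hF', map_sum]
    apply Finset.sum_congr rfl
    intro i _
    rw [hF', hF]
  rw [h1, Finset.sum_mul, map_sum]
  apply Finset.sum_congr rfl
  intro i _
  rw [mul_assoc, hlin, mul_comm, mul_comm h]

lemma exists_G1 {q : ℕ} (hq : 1 ≤ q) (ε : sg → ℤ) (h : A) (i' : ℕ) (hi : (ε none).natAbs ≤ i')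
    (hd : (D.dx h : ℤ) ≤ 2 * (q * i' - ε none)) : ∃ G, D.Valid q ε h G ∧ w1 G = i' := by
  set C : ℕ := (∑ i, (ε i).natAbs) + D.dy h with hC
  have hle : ∀ i, (ε i).natAbs ≤ ∑ i, (ε i).natAbs := fun i =>
    Finset.single_le_sum (f := fun i => (ε i).natAbs) (fun _ _ => Nat.zero_le _) (Finset.mem_univ i)
  let G : sg →₀ ℕ := Finsupp.equivFunOnFinite.symm (fun i => Option.elim i i' (fun _ => C))
  have hG0 : G none = i' := rfl
  have hGl : ∀ l, G (some l) = C := fun l => rfl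
  have hq' : (1 : ℤ) ≤ q := by exact_mod_cast hq
  refine ⟨G, ⟨fun i => ?_, ?_, ?_⟩, rfl⟩
  · rcases i with _ | l
    · rw [hG0]
      have : (i' : ℤ) ≤ q * i' := by nlinarith [Int.natCast_nonneg i']
      omega
    · rw [hGl]
      have := hle (some l)
      have : (C : ℤ) ≤ q * C := by nlinarith [Int.natCast_nonneg C]
      omega
  · show D.dx h ≤ 2 * (ex q ε G none)
    rw [ex_apply, hG0]
    omega
  · have h4 : ex q ε G (some 0) ≤ w2 (ex q ε G) :=
      Finset.single_le_sum (f := fun l : Fin 6 => ex q ε G (some l))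
        (fun _ _ => Nat.zero_le _) (Finset.mem_univ 0)
    have h5 : D.dy h ≤ ex q ε G (some 0) := by
      rw [ex_apply, hGl]
      have := hle (some 0)
      have : (C : ℤ) ≤ q * C := by nlinarith [Int.natCast_nonneg C]
      omega
    omega

lemma exists_G2 {q : ℕ} (hq : 1 ≤ q) (ε : sg → ℤ) (h : A) (i' : ℕ)
    (hi : 6 * (∑ i, (ε i).natAbs) ≤ i')
    (hd : (D.dy h : ℤ) ≤ 2 * (q * i' - W2 ε)) : ∃ G, D.Valid q ε h G ∧ w2 G = i' := by
  set C : ℕ := (∑ i, (ε i).natAbs) with hC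
  have hle : ∀ i, (ε i).natAbs ≤ C := fun i =>
    Finset.single_le_sum (f := fun i => (ε i).natAbs) (fun _ _ => Nat.zero_le _) (Finset.mem_univ i)
  let G : sg →₀ ℕ := Finsupp.equivFunOnFinite.symm (fun i => Option.elim i (C + D.dx h)
    (fun l => if l = 0 then i' - 5 * C else C))
  have hG0 : G none = C + D.dx h := rfl
  have hGl : ∀ l, G (some l) = if l = 0 then i' - 5 * C else C := fun l => rfl
  have hq' : (1 : ℤ) ≤ q := by exact_mod_cast hq
  have hw2 : w2 G = i' := by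
    unfold w2
    rw [Fin.sum_univ_six]
    simp only [hGl]
    simp
    omega
  have hval : ∀ i, ε i ≤ (q : ℤ) * G i := by
    intro i
    rcases i with _ | l
    · rw [hG0]
      have := hle none
      have : ((C + D.dx h : ℕ) : ℤ) ≤ q * (C + D.dx h : ℕ) := by
        nlinarith [Int.natCast_nonneg (C + D.dx h)]
      push_cast at *
      omega
    · rw [hGl]
      have := hle (some l)
      split_ifs
      · have : ((i' - 5 * C : ℕ) : ℤ) ≤ q * (i' - 5 * C : ℕ) := by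
          nlinarith [Int.natCast_nonneg (i' - 5 * C)]
        omega
      · have : (C : ℤ) ≤ q * C := by nlinarith [Int.natCast_nonneg C]
        omega
  refine ⟨G, ⟨hval, ?_, ?_⟩, hw2⟩
  · show D.dx h ≤ 2 * (ex q ε G none)
    rw [ex_apply, hG0]
    have := hle none
    have : ((C + D.dx h : ℕ) : ℤ) ≤ q * (C + D.dx h : ℕ) := by
      nlinarith [Int.natCast_nonneg (C + D.dx h)]
    push_cast at *
    omega
  · have h6 : ((w2 (ex q ε G) : ℕ) : ℤ) = q * i' - W2 ε := by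
      unfold w2 W2
      push_cast
      have : ∀ l : Fin 6, ((ex q ε G (some l) : ℕ) : ℤ) = q * G (some l) - ε (some l) := by
        intro l
        rw [ex_apply]
        have := hval (some l)
        omega
      rw [Finset.sum_congr rfl (fun l _ => this l), Finset.sum_sub_distrib, ← Finset.mul_sum]
      congr 2
      rw [← hw2]; unfold w2; push_cast; rfl
    zify
    rw [h6]; exact hd

end BD

end

end Pool.Agent.Helper668.G
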