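import Mathlib
import Pool.Agent.Helper668.GK
namespace Pool.Agent.Helper668.G

noncomputable section

namespace BD

variable {A : Type} [CommRing A] [IsDomain A] [Algebra (ZMod 3) A] [IsIntegrallyClosed A] {D : BD A}

omit [IsIntegrallyClosed A] in
lemma fLne1 : algebraMap A (FractionRing A) D.f ≠ 0 := by
  rw [Ne, ← map_zero (algebraMap A (FractionRing A)), (algL_inj (A := A)).eq_iff]
  exact D.f_ne

/-- imaginary homogeneous element `b v x^g` of `R` -/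
def imon (g : sg →₀ ℕ) (b : A) (h1 : D.dx b ≤ 2 * w1 g + 1) (h2 : D.dy b ≤ 2 * w2 g + 3)
    (h3 : D.f ∣ b ^ 2) : D.RR :=
  ⟨MvPolynomial.monomial g (⟨0, algebraMap A (FractionRing A) b⟩ : D.L2), by
    intro g'
    rw [MvPolynomial.coeff_monomial]
    split_ifs with hg
    · subst hg
      exact ⟨0, b, by rw [map_zero], rfl, by simp [D.dx_zero], by simp [D.dy_zero], h1, h2, h3⟩
    · exact InC_zero _ _⟩

omit [IsIntegrallyClosed A] in
lemma im_pow1 (b : FractionRing A) (m : ℕ) :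
    (⟨0, b⟩ : D.L2) ^ (2 * m + 1) =
      ⟨0, b ^ (2 * m + 1) * (algebraMap A (FractionRing A) D.f)⁻¹ ^ m⟩ := by
  induction m with
  | zero =>
    apply QuadraticAlgebra.ext
    · simp
    · simp
  | succ m ih =>
    rw [show 2 * (m + 1) + 1 = (2 * m + 1) + 1 + 1 by ring, pow_succ, pow_succ, ih]
    apply QuadraticAlgebra.ext
    · simp
    · simp only [QuadraticAlgebra.im_mul, QuadraticAlgebra.re_mul]
      ring

lemma psi_im {e m : ℕ} (hq : 3 ^ e = 2 * m + 1) (φ : D.AA →+ D.AA)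
    (hφ : ∀ c x, φ (c ^ (3 ^ e) * x) = c * φ x) (ε : sg → ℤ) (b : A) (hb : D.f ∣ b ^ 2) :
    D.f ∣ p1 φ (Nat.one_le_pow _ _ (by norm_num)) hφ ε (b * D.f ^ m) := by
  have hq1 : 1 ≤ 3 ^ e := Nat.one_le_pow _ _ (by norm_num)
  by_cases hb0 : b = 0
  · have : p1 φ hq1 hφ ε 0 = 0 := by
      have := p1_add φ hq1 hφ ε 0 0
      simpa using this
    rw [hb0, zero_mul, this]
    exact dvd_zero _
  obtain ⟨G, hG⟩ := exists_valid (D := D) hq1 ε (b * D.f ^ m)
  have hdx : D.dx b ≤ 2 * w1 (ex (3 ^ e) ε G) := by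
    have := hG.2.1
    rw [D.dx_mul _ _ hb0 (pow_ne_zero _ D.f_ne)] at this
    omega
  have hdy : D.dy b ≤ 2 * w2 (ex (3 ^ e) ε G) := by
    have := hG.2.2
    rw [D.dy_mul _ _ hb0 (pow_ne_zero _ D.f_ne)] at this
    omega
  obtain ⟨G0, hG0⟩ := exists_valid (D := D) (le_refl 1) 0 D.f
  have e0 : ex 1 0 G0 = G0 := by
    ext i
    rw [ex_apply]; simp
  have hf1 : D.dx D.f ≤ 2 * w1 G0 := by have := hG0.2.1; rwa [e0] at this
  have hf2 : D.dy D.f ≤ 2 * w2 G0 := by have := hG0.2.2; rwa [e0] at this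
  set g := ex (3 ^ e) ε G with hg
  let P1 : D.RR := D.mon g (b * D.f ^ m) hG.2.1 hG.2.2
  let P2 : D.RR := imon g b (by omega) (by omega) hb
  let Fv : D.RR := imon G0 D.f (by omega) (by omega) (dvd_pow_self _ (by norm_num))
  let F1 : D.RR := D.mon G0 D.f hf1 hf2
  have hrel : Fv ^ (3 ^ e) * P1 = F1 ^ (3 ^ e) * P2 := by
    apply Subtype.ext
    show (MvPolynomial.monomial G0 (⟨0, algebraMap A (FractionRing A) D.f⟩ : D.L2)) ^ (3 ^ e) *
        MvPolynomial.monomial g (⟨algebraMap A (FractionRing A) (b * D.f ^ m), 0⟩ : D.L2) =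
      (MvPolynomial.monomial G0 (⟨algebraMap A (FractionRing A) D.f, 0⟩ : D.L2)) ^ (3 ^ e) *
        MvPolynomial.monomial g (⟨0, algebraMap A (FractionRing A) b⟩ : D.L2)
    rw [MvPolynomial.monomial_pow, MvPolynomial.monomial_pow, MvPolynomial.monomial_mul,
      MvPolynomial.monomial_mul]
    congr 1
    have e1 : (⟨algebraMap A (FractionRing A) D.f, 0⟩ : D.L2) ^ (3 ^ e) =
        ⟨algebraMap A (FractionRing A) D.f ^ (3 ^ e), 0⟩ := (QuadraticAlgebra.C_pow _ _).symm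
    rw [e1, hq, im_pow1]
    have hfL := fLne1 (D := D)
    apply QuadraticAlgebra.ext
    · simp
    · simp only [QuadraticAlgebra.im_mul, map_mul, map_pow, mul_zero, zero_mul, add_zero, zero_add]
      rw [inv_pow]
      field_simp
  have h1 : φ (algebraMap D.RR D.AA (Fv ^ (3 ^ e) * P1)) =
      algebraMap D.RR D.AA Fv * φ (algebraMap D.RR D.AA P1) := by
    rw [map_mul, map_pow, hφ]
  have h2 : φ (algebraMap D.RR D.AA (F1 ^ (3 ^ e) * P2)) =
      algebraMap D.RR D.AA F1 * φ (algebraMap D.RR D.AA P2) := by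
    rw [map_mul, map_pow, hφ]
  have h3 := congrArg (fun z => MvPowerSeries.coeff (G0 + G) (D.io z))
    (h1.symm.trans ((congrArg _ (congrArg _ hrel)).trans h2))
  simp only [map_mul, io_alg] at h3
  have e2 : D.toPS Fv = MvPowerSeries.monomial G0 (⟨0, algebraMap A (FractionRing A) D.f⟩ : D.L2) := by
    show ((MvPolynomial.monomial G0 (⟨0, algebraMap A (FractionRing A) D.f⟩ : D.L2) :
      MvPolynomial sg D.L2) : MvPowerSeries sg D.L2) = _
    rw [MvPolynomial.coe_monomial]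
  have e3 : D.toPS F1 = MvPowerSeries.monomial G0 (⟨algebraMap A (FractionRing A) D.f, 0⟩ : D.L2) := by
    show ((MvPolynomial.monomial G0 (⟨algebraMap A (FractionRing A) D.f, 0⟩ : D.L2) :
      MvPolynomial sg D.L2) : MvPowerSeries sg D.L2) = _
    rw [MvPolynomial.coe_monomial]
  rw [e2, e3, MvPowerSeries.coeff_add_monomial_mul, MvPowerSeries.coeff_add_monomial_mul] at h3
  have h4 : MvPowerSeries.coeff G (D.io (φ (algebraMap D.RR D.AA P1))) =
      psi φ (3 ^ e) hq1 ε (b * D.f ^ m) := (psi_eq φ hq1 hφ hG).symm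
  rw [h4] at h3
  obtain ⟨a', b', h5, h6, _⟩ := io_InC (φ (algebraMap D.RR D.AA P2)) G
  have h7 := congrArg QuadraticAlgebra.re h3
  rw [QuadraticAlgebra.re_mul, QuadraticAlgebra.re_mul, h5, p1_spec φ hq1 hφ] at h7
  refine ⟨a', ?_⟩
  apply algL_inj (A := A)
  have hfL := fLne1 (D := D)
  rw [map_mul]
  simp only [zero_mul, zero_add, mul_zero, add_zero] at h7
  rwa [inv_mul_cancel₀ hfL, one_mul] at h7

section van
variable {e m : ℕ} (H : HD D e m) (φ : D.AA →+ D.AA) (hφ : ∀ c x, φ (c ^ (3 ^ e) * x) = c * φ x)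

lemma one_le_q (e : ℕ) : 1 ≤ 3 ^ e := Nat.one_le_pow _ _ (by norm_num)

include H in
lemma van0 (ε : sg → ℤ) (hε : ε none < 0) (h : A) : p0 φ (one_le_q e) hφ ε h = 0 := by
  obtain ⟨u, hu⟩ := exists_rep H.Th H.lin H.dual (p0 φ (one_le_q e) hφ ε)
    (p0_add φ _ hφ ε) (p0_lin φ _ hφ ε)
  by_cases hu0 : u = 0
  · rw [hu, hu0, zero_mul, map_zero]
  exfalso
  have := H.nx u hu0 (ε none) 0 (ε none).natAbs (by
    intro i' hi' h' hh'
    obtain ⟨G, hG, hG2⟩ := exists_G1 (D := D) (one_le_q e) ε h' i' hi' (by exact_mod_cast hh')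
    rw [← hu]
    have := (parts_bounds φ (one_le_q e) hφ hG).1
    rw [hG2] at this
    omega)
  push_cast at this
  omega

lemma rep1 (ε : sg → ℤ) : ∃ u, (∀ h, p1 φ (one_le_q e) hφ ε h = H.Th (u * h)) ∧
    (∀ h, D.f ∣ (H.Th (u * h)) ^ 2) ∧ (∀ b, D.f ∣ b ^ 2 → D.f ∣ H.Th (u * b * D.f ^ m)) ∧
    (u ≠ 0 → (D.dx u : ℤ) ≤ 2 * ε none + 3 ^ e ∧ (D.dy u : ℤ) ≤ 2 * W2 ε + 3 ^ e * 3) := by
  obtain ⟨u, hu⟩ := exists_rep H.Th H.lin H.dual (p1 φ (one_le_q e) hφ ε)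
    (p1_add φ _ hφ ε) (p1_lin φ _ hφ ε)
  refine ⟨u, hu, fun h => ?_, fun b hb => ?_, fun hu0 => ⟨?_, ?_⟩⟩
  · rw [← hu]
    obtain ⟨G, hG⟩ := exists_valid (D := D) (one_le_q e) ε h
    exact (parts_bounds φ (one_le_q e) hφ hG).2.2.2.2
  · rw [mul_assoc, ← hu]
    exact psi_im H.hq φ hφ ε b hb
  · have := H.nx u hu0 (ε none) 1 (ε none).natAbs (by
      intro i' hi' h' hh'
      obtain ⟨G, hG, hG2⟩ := exists_G1 (D := D) (one_le_q e) ε h' i' hi' (by exact_mod_cast hh')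
      rw [← hu]
      have := (parts_bounds φ (one_le_q e) hφ hG).2.2.1
      rw [hG2] at this
      omega)
    push_cast at this
    linarith
  · have := H.ny u hu0 (W2 ε) 3 (6 * (∑ i, (ε i).natAbs)) (by
      intro i' hi' h' hh'
      obtain ⟨G, hG, hG2⟩ := exists_G2 (D := D) (one_le_q e) ε h' i' hi' (by exact_mod_cast hh')
      rw [← hu]
      have := (parts_bounds φ (one_le_q e) hφ hG).2.2.2.1
      rw [hG2] at this
      omega)
    push_cast at this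
    linarith

include H in
lemma van1 (ε : sg → ℤ) (hε : ε none ≤ m) (h : A) : p1 φ (one_le_q e) hφ ε h = 0 := by
  obtain ⟨u, hu, hi, hii, hb⟩ := rep1 H φ hφ ε
  have hu0 : u = 0 := by
    by_contra hu0
    have := (hb hu0).1
    apply hu0
    apply H.K1 u hi
    have hq := H.hq
    zify
    zify at hq
    linarith
  rw [hu, hu0, zero_mul, map_zero]

/-- admissible bidegrees -/
def WW : Set ℕ := {n | ∃ u, u ≠ 0 ∧ (∀ h, D.f ∣ (H.Th (u * h)) ^ 2) ∧
  (∀ b, D.f ∣ b ^ 2 → D.f ∣ H.Th (u * b * D.f ^ m)) ∧ D.dx u ≤ 2 * 3 ^ e + 1 ∧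
  D.dy u ≤ 2 * n + 3 * 3 ^ e}

lemma WW_nonempty : (WW H).Nonempty := by
  obtain ⟨u, h1, h2, h3, h4⟩ := H.K2
  exact ⟨D.dy u, u, h1, h2, h3, h4, by omega⟩

/-- minimal admissible bidegree -/
def N0 : ℕ := sInf (WW H)

lemma N0_mem : N0 H ∈ WW H := Nat.sInf_mem (WW_nonempty H)

lemma N0_bound : (3 ^ e) ^ 2 ≤ 2 * N0 H + 3 * 3 ^ e := by
  obtain ⟨u, h1, h2, h3, h4, h5⟩ := N0_mem H
  exact (H.K3 u h1 h2 h4).trans h5

lemma van2 (ε : sg → ℤ) (hε : ε none = m + 1) (hε2 : W2 ε < N0 H) (h : A) :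
    p1 φ (one_le_q e) hφ ε h = 0 := by
  obtain ⟨u, hu, hi, hii, hb⟩ := rep1 H φ hφ ε
  have hq := H.hq
  have he := H.he
  have hq3 : 3 ≤ 3 ^ e := by
    calc 3 = 3 ^ 1 := by norm_num
      _ ≤ 3 ^ e := Nat.pow_le_pow_right (by norm_num) he
  have hu0 : u = 0 := by
    by_contra hu0
    obtain ⟨h1, h2⟩ := hb hu0
    have hdx : D.dx u ≤ 2 * 3 ^ e + 1 := by
      zify
      zify at hq
      linarith
    have hk3 := H.K3 u hu0 hi hdx
    have hpos : 0 ≤ W2 ε := by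
      by_contra hneg
      have h4 : ((3 ^ e) ^ 2 : ℤ) ≤ 2 * W2 ε + 3 ^ e * 3 := by
        refine le_trans ?_ h2
        exact_mod_cast hk3
      have h5 : (3 : ℤ) ≤ 3 ^ e := by exact_mod_cast hq3
      nlinarith
    have hmem : (W2 ε).toNat ∈ WW H := by
      refine ⟨u, hu0, hi, hii, hdx, ?_⟩
      zify
      rw [Int.toNat_of_nonneg hpos]
      linarith
    have := Nat.sInf_le hmem
    unfold N0 at hε2
    omega
  rw [hu, hu0, zero_mul, map_zero]

end van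

end BD

end

end Pool.Agent.Helper668.G
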