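import Mathlib
import Pool.Agent.Helper668.GR
import Pool.Agent.Helper668.GH
namespace Pool.Agent.Helper668.G
section
variable {R' : Type} [CommRing R'] (M : Submonoid R')

private lemma exists_ext (T : R' →+ R') (q : ℕ) (hq : 1 ≤ q) (hT : ∀ r h, T (r ^ q * h) = r * T h) :
    ∃ T' : Localization M →+ Localization M,
      (∀ a (t : M), T' (Localization.mk a t) = Localization.mk (T (a * (t : R') ^ (q - 1))) t) ∧
      (∀ c x, T' (c ^ q * x) = c * T' x) ∧
      (∀ a, T' (algebraMap R' (Localization M) a) = algebraMap R' (Localization M) (T a)) := by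
  have hq1 : ∀ x : R', x ^ q = x ^ (q - 1) * x := by
    intro x
    rw [← pow_succ]; congr 1; omega
  let F : Localization M → Localization M := fun x =>
    Localization.liftOn x (fun a t => Localization.mk (T (a * (t : R') ^ (q - 1))) t) (by
      intro a c b d h
      rw [Localization.r_iff_exists] at h
      obtain ⟨k, hk⟩ := h
      rw [Localization.mk_eq_mk_iff, Localization.r_iff_exists]
      refine ⟨k, ?_⟩
      have e1 : (k : R') * ((d : R') * T (a * (b : R') ^ (q - 1)))
          = T ((k * d) ^ q * (a * (b : R') ^ (q - 1))) := by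
        rw [hT]; ring
      have e2 : (k : R') * ((b : R') * T (c * (d : R') ^ (q - 1)))
          = T ((k * b) ^ q * (c * (d : R') ^ (q - 1))) := by
        rw [hT]; ring
      rw [e1, e2]
      congr 1
      rw [hq1, hq1]
      linear_combination (k * d : R') ^ (q - 1) * (b : R') ^ (q - 1) * hk)
  have hF : ∀ a (t : M), F (Localization.mk a t) = Localization.mk (T (a * (t : R') ^ (q - 1))) t := by
    intro a t
    rfl
  have hadd : ∀ x y, F (x + y) = F x + F y := by
    intro x y
    induction x using Localization.induction_on with | _ x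
    induction y using Localization.induction_on with | _ y
    obtain ⟨a, s⟩ := x
    obtain ⟨b, t⟩ := y
    simp only
    rw [Localization.add_mk, hF, hF, hF, Localization.add_mk]
    congr 1
    have e1 : (s : R') * T (b * (t : R') ^ (q - 1)) = T ((s : R') ^ q * (b * (t : R') ^ (q - 1))) := by
      rw [hT]
    have e2 : (t : R') * T (a * (s : R') ^ (q - 1)) = T ((t : R') ^ q * (a * (s : R') ^ (q - 1))) := by
      rw [hT]
    rw [e1, e2, ← map_add]
    congr 1
    rw [hq1, hq1, Submonoid.coe_mul]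
    ring
  have hzero : F 0 = 0 := by
    have := hadd 0 0
    rw [add_zero] at this
    simpa using this
  refine ⟨⟨⟨F, hzero⟩, hadd⟩, hF, ?_, ?_⟩
  · intro c x
    change F (c ^ q * x) = c * F x
    induction x using Localization.induction_on with | _ x
    induction c using Localization.induction_on with | _ c
    obtain ⟨a, t⟩ := x
    obtain ⟨r, s⟩ := c
    simp only
    rw [Localization.mk_pow, Localization.mk_mul, hF, hF, Localization.mk_mul]
    have e : r ^ q * a * ((s ^ q * t : M) : R') ^ (q - 1)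
        = (r * (s : R') ^ (q - 1)) ^ q * (a * (t : R') ^ (q - 1)) := by
      rw [Submonoid.coe_mul, SubmonoidClass.coe_pow]
      ring
    rw [e, hT]
    rw [Localization.mk_eq_mk_iff, Localization.r_iff_exists]
    refine ⟨1, ?_⟩
    rw [Submonoid.coe_mul, Submonoid.coe_mul, SubmonoidClass.coe_pow, hq1 (s : R')]
    ring
  · intro a
    change F (algebraMap R' (Localization M) a) = _
    rw [← Localization.mk_one_eq_algebraMap, hF]
    simp [← Localization.mk_one_eq_algebraMap]
end
end Pool.Agent.Helper668.G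
namespace Pool.Agent.Helper668.G
namespace BD
variable {A : Type} [CommRing A] [IsDomain A] [Algebra (ZMod 3) A] (D : BD A)

/-- `f` in the fraction field -/
private noncomputable def fL : FractionRing A := algebraMap A (FractionRing A) D.f

private lemma fL_ne : D.fL ≠ 0 := by
  unfold fL
  rw [Ne, ← map_zero (algebraMap A (FractionRing A)),
      (IsFractionRing.injective A (FractionRing A)).eq_iff]
  exact D.f_ne

private lemma charP_L : CharP (FractionRing A) 3 := by
  have : CharP A 3 := charP_of_injective_algebraMap (algebraMap (ZMod 3) A).injective 3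
  exact charP_of_injective_algebraMap (IsFractionRing.injective A (FractionRing A)) 3

private lemma charP_L2 : CharP D.L2 3 := by
  have := charP_L (A := A)
  exact charP_of_injective_algebraMap (QuadraticAlgebra.algebraMap_injective) 3

private lemma mk_eq (a b : FractionRing A) : (⟨a, b⟩ : D.L2) = algebraMap (FractionRing A) D.L2 a
    + algebraMap (FractionRing A) D.L2 b * (⟨0, 1⟩ : D.L2) := by
  ext
  · simp
  · simp

private lemma L2_pow (e m : ℕ) (hq : 3 ^ e = 2 * m + 1) (c : D.L2) :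
    c ^ (3 ^ e) = ⟨c.re ^ (3 ^ e), c.im ^ (3 ^ e) * (D.fL⁻¹) ^ m⟩ := by
  have := D.charP_L2
  have h3 : Fact (Nat.Prime 3) := ⟨Nat.prime_three⟩
  have hc : c = algebraMap (FractionRing A) D.L2 c.re
      + algebraMap (FractionRing A) D.L2 c.im * (⟨0, 1⟩ : D.L2) := D.mk_eq c.re c.im
  have hv : (⟨0, 1⟩ : D.L2) ^ 2 = algebraMap (FractionRing A) D.L2 (D.fL⁻¹) := by
    rw [pow_two]
    ext
    · rw [QuadraticAlgebra.re_mul]
      change 0 * 0 + D.fL⁻¹ * 1 * 1 = D.fL⁻¹
      ring
    · simp
  have hvq : (⟨0, 1⟩ : D.L2) ^ (3 ^ e) = algebraMap (FractionRing A) D.L2 ((D.fL⁻¹) ^ m) * ⟨0, 1⟩ := by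
    rw [hq, pow_succ, pow_mul, hv, map_pow]
  conv_lhs => rw [hc]
  rw [add_pow_char_pow, mul_pow, hvq, ← map_pow, ← map_pow, ← mul_assoc, ← map_mul,
    ← mk_eq]

/-- the `q`-linear map on `L2` -/
private noncomputable def Psi (T : FractionRing A →+ FractionRing A) (u : FractionRing A) (m : ℕ) :
    D.L2 →+ D.L2 where
  toFun c := ⟨T (u * c.im * D.fL ^ m) * D.fL⁻¹, T (u * c.re)⟩
  map_zero' := by
    ext <;> simp
  map_add' c d := by
    ext
    · simp only [QuadraticAlgebra.im_add, QuadraticAlgebra.re_add]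
      rw [← add_mul, ← map_add]
      congr 2; ring
    · simp only [QuadraticAlgebra.im_add, QuadraticAlgebra.re_add]
      rw [← map_add]
      congr 1; ring

private lemma Psi_lin (e m : ℕ) (hq : 3 ^ e = 2 * m + 1) (T : FractionRing A →+ FractionRing A)
    (hT : ∀ c x, T (c ^ (3 ^ e) * x) = c * T x) (u : FractionRing A) (c x : D.L2) :
    D.Psi T u m (c ^ (3 ^ e) * x) = c * D.Psi T u m x := by
  have hf := D.fL_ne
  rw [L2_pow D e m hq]
  ext
  · change T (u * _ * D.fL ^ m) * D.fL⁻¹ = _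
    rw [QuadraticAlgebra.re_mul, QuadraticAlgebra.im_mul]
    change T (u * (c.re ^ 3 ^ e * x.im + c.im ^ 3 ^ e * D.fL⁻¹ ^ m * x.re + 0 * _ * _) * D.fL ^ m) * D.fL⁻¹
      = c.re * (T (u * x.im * D.fL ^ m) * D.fL⁻¹) + D.fL⁻¹ * c.im * T (u * x.re)
    have e1 : u * (c.re ^ 3 ^ e * x.im + c.im ^ 3 ^ e * D.fL⁻¹ ^ m * x.re +
        0 * (c.im ^ 3 ^ e * D.fL⁻¹ ^ m) * x.im) * D.fL ^ m
        = c.re ^ 3 ^ e * (u * x.im * D.fL ^ m) + c.im ^ 3 ^ e * (u * x.re) := by
      have : D.fL⁻¹ ^ m * D.fL ^ m = 1 := by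
        rw [← mul_pow, inv_mul_cancel₀ hf, one_pow]
      linear_combination (u * c.im ^ 3 ^ e * x.re) * this
    rw [e1, map_add, hT, hT]
    ring
  · change T (u * _) = _
    rw [QuadraticAlgebra.re_mul, QuadraticAlgebra.im_mul]
    change T (u * (c.re ^ 3 ^ e * x.re + D.fL⁻¹ * (c.im ^ 3 ^ e * D.fL⁻¹ ^ m) * x.im))
      = c.re * T (u * x.re) + c.im * (T (u * x.im * D.fL ^ m) * D.fL⁻¹)
        + 0 * c.im * T (u * x.re)
    have e1 : u * (c.re ^ 3 ^ e * x.re + D.fL⁻¹ * (c.im ^ 3 ^ e * D.fL⁻¹ ^ m) * x.im)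
        = c.re ^ 3 ^ e * (u * x.re) + (D.fL⁻¹ * c.im) ^ 3 ^ e * (u * x.im * D.fL ^ m) := by
      have : (D.fL⁻¹) ^ (3 ^ e) * D.fL ^ m = D.fL⁻¹ * D.fL⁻¹ ^ m := by
        rw [hq, show 2 * m + 1 = m + (m + 1) by ring, pow_add, mul_right_comm, ← mul_pow,
          inv_mul_cancel₀ hf, one_pow, one_mul, pow_succ, mul_comm]
      rw [mul_pow]
      linear_combination (-(u * c.im ^ 3 ^ e * x.im)) * this
    rw [e1, map_add, hT, hT]
    ring

end BD
end Pool.Agent.Helper668.G
namespace Pool.Agent.Helper668.G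
section
variable {σ R : Type} [CommRing R]

private lemma exists_P (q : ℕ) (e : ℕ) (hqe : q = 3 ^ e) (hR : CharP R 3) (Ψ : R →+ R)
    (hΨ : ∀ c x, Ψ (c ^ q * x) = c * Ψ x) (ep : σ →₀ ℕ) :
    ∃ P : MvPolynomial σ R →+ MvPolynomial σ R,
      (∀ p g', (P p).coeff g' = if ep ≤ q • g' then Ψ (p.coeff (q • g' - ep)) else 0) ∧
      (∀ r p, P (r ^ q * p) = r * P p) := by
  classical
  have h3 : Fact (Nat.Prime 3) := ⟨Nat.prime_three⟩
  have hq : 0 < q := by rw [hqe]; positivity
  have hq1 : q ≠ 0 := hq.ne'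
  let dv : (σ →₀ ℕ) → (σ →₀ ℕ) := fun g => g.mapRange (fun k => k / q) (by simp)
  have hdv : ∀ g g', (q • dv g = g ∧ dv g = g') ↔ q • g' = g := by
    intro g g'
    constructor
    · rintro ⟨h1, h2⟩
      rw [← h2]; exact h1
    · intro h
      have : dv g = g' := by
        ext i
        rw [← h]
        simp [dv, hq]
      exact ⟨by rw [this]; exact h, this⟩
  have key : ∀ g' g : σ →₀ ℕ, q • g' = g + ep ↔ (ep ≤ q • g' ∧ q • g' - ep = g) := by
    intro g' g
    constructor
    · intro h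
      rw [h]
      exact ⟨le_add_self, by simp⟩
    · rintro ⟨h1, h2⟩
      rw [← h2]
      exact (tsub_add_cancel_of_le h1).symm
  let F : MvPolynomial σ R → MvPolynomial σ R := fun p =>
    ∑ g ∈ p.support, if q • dv (g + ep) = g + ep then
      MvPolynomial.monomial (dv (g + ep)) (Ψ (p.coeff g)) else 0
  have hF : ∀ p g', (F p).coeff g' = if ep ≤ q • g' then Ψ (p.coeff (q • g' - ep)) else 0 := by
    intro p g'
    simp only [F, MvPolynomial.coeff_sum]
    have e1 : ∀ g ∈ p.support, MvPolynomial.coeff g' (if q • dv (g + ep) = g + ep then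
        MvPolynomial.monomial (dv (g + ep)) (Ψ (p.coeff g)) else 0)
        = if ep ≤ q • g' then (if q • g' - ep = g then Ψ (p.coeff g) else 0) else 0 := by
      intro g _
      have h1 : MvPolynomial.coeff g' (if q • dv (g + ep) = g + ep then
        MvPolynomial.monomial (dv (g + ep)) (Ψ (p.coeff g)) else 0) =
        if q • g' = g + ep then Ψ (p.coeff g) else 0 := by
        by_cases hh : q • g' = g + ep
        · have h2 := (hdv (g + ep) g').mpr hh
          rw [if_pos h2.1, if_pos hh, h2.2, MvPolynomial.coeff_monomial, if_pos rfl]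
        · rw [if_neg hh]
          split_ifs with h3
          · rw [MvPolynomial.coeff_monomial, if_neg]
            intro h4
            exact hh ((hdv (g + ep) g').mp ⟨h3, h4⟩)
          · simp
      rw [h1]
      by_cases hh : q • g' = g + ep
      · have h2 := (key g' g).mp hh
        rw [if_pos hh, if_pos h2.1, if_pos h2.2]
      · rw [if_neg hh]
        split_ifs with h3 h4
        · exact absurd ((key g' g).mpr ⟨h3, h4⟩) hh
        · rfl
        · rfl
    rw [Finset.sum_congr rfl e1]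
    by_cases hle : ep ≤ q • g'
    · simp only [hle, if_true]
      rw [Finset.sum_ite_eq]
      split_ifs with h
      · rfl
      · rw [MvPolynomial.notMem_support_iff.mp h, map_zero]
    · simp [hle]
  have hadd : ∀ x y, F (x + y) = F x + F y := by
    intro x y
    ext g'
    rw [MvPolynomial.coeff_add, hF, hF, hF, MvPolynomial.coeff_add]
    split_ifs with h
    · rw [map_add]
    · simp
  have hzero : F 0 = 0 := by
    have := hadd 0 0
    rw [add_zero] at this
    simpa using this
  refine ⟨⟨⟨F, hzero⟩, hadd⟩, hF, ?_⟩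
  intro r p
  change F (r ^ q * p) = r * F p
  induction r using MvPolynomial.induction_on' with
  | monomial a c =>
    ext g'
    rw [MvPolynomial.monomial_pow, hF, MvPolynomial.coeff_monomial_mul',
      MvPolynomial.coeff_monomial_mul', hF]
    by_cases h1 : a ≤ g'
    · rw [if_pos h1]
      have e0 : q • g' = q • (g' - a) + q • a := by
        rw [← smul_add, tsub_add_cancel_of_le h1]
      by_cases h2 : ep ≤ q • (g' - a)
      · have h3 : ep ≤ q • g' := by rw [e0]; exact h2.trans le_self_add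
        have e1 : q • g' - ep = (q • (g' - a) - ep) + q • a := by
          rw [e0, tsub_add_eq_add_tsub h2]
        rw [if_pos h3, if_pos h2, e1, if_pos le_add_self, add_tsub_cancel_right, hΨ]
      · rw [if_neg h2, mul_zero]
        split_ifs with h3 h4
        · exfalso
          apply h2
          intro i
          have h3i := h3 i
          have h4i := h4 i
          simp only [Finsupp.smul_apply, Finsupp.tsub_apply, smul_eq_mul] at h3i h4i ⊢
          rw [Nat.mul_sub]
          omega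
        · simp
        · rfl
    · rw [if_neg h1]
      split_ifs with h3 h4
      · exfalso
        apply h1
        intro i
        have h3i := h3 i
        have h4i := h4 i
        simp only [Finsupp.smul_apply, Finsupp.tsub_apply, smul_eq_mul] at h3i h4i ⊢
        have : q * a i ≤ q * g' i := by omega
        exact Nat.le_of_mul_le_mul_left this hq
      · simp
      · rfl
  | add r s hr hs =>
    have : (r + s) ^ q = r ^ q + s ^ q := by
      rw [hqe]; exact add_pow_char_pow r s 3 e
    rw [this, add_mul, hadd, hr, hs, add_mul]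
end
end Pool.Agent.Helper668.G
namespace Pool.Agent.Helper668.G
namespace BD
variable {A : Type} [CommRing A] [IsDomain A] [Algebra (ZMod 3) A] (D : BD A)

private lemma Psi_InC {e m : ℕ} (H : HD D e m) (u : A) (hi : ∀ h, D.f ∣ (H.Th (u * h)) ^ 2)
    (hii : ∀ b, D.f ∣ b ^ 2 → D.f ∣ H.Th (u * b * D.f ^ m)) (hdx : D.dx u ≤ 2 * 3 ^ e + 1)
    (n : ℕ) (hdy : D.dy u ≤ 2 * n + 3 * 3 ^ e)
    (T : FractionRing A →+ FractionRing A)
    (hT : ∀ a, T (algebraMap A (FractionRing A) a) = algebraMap A (FractionRing A) (H.Th a))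
    (i N i' n' : ℕ) (c : D.L2) (hc : InC D i N c) (h1 : i + (m + 1) = 3 ^ e * i')
    (h2 : N + n = 3 ^ e * n') :
    InC D i' n' (D.Psi T (algebraMap A (FractionRing A) u) m c) := by
  obtain ⟨a, b, ha, hb, ha1, ha2, hb1, hb2, hb3⟩ := hc
  obtain ⟨a', ha'⟩ := hii b hb3
  have hq := H.hq
  refine ⟨a', H.Th (u * a), ?_, ?_, ?_, ?_, ?_, ?_, hi a⟩
  · change T (algebraMap A (FractionRing A) u * c.im * D.fL ^ m) * D.fL⁻¹ = _
    rw [hb, fL, ← map_pow, ← map_mul, ← map_mul, hT, ha', map_mul, mul_right_comm,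
      mul_inv_cancel₀ (by simpa [fL] using D.fL_ne), one_mul]
  · change T (algebraMap A (FractionRing A) u * c.re) = _
    rw [ha, ← map_mul, hT]
  · by_cases h0 : a' = 0
    · simp [h0, D.dx_zero]
    have h3 : D.dx (u * b * D.f ^ m) ≤ 3 ^ e * (2 * i' + 3) := by
      have e1 := D.dx_mul_le (u * b) (D.f ^ m)
      have e2 := D.dx_mul_le u b
      rw [D.dx_pow, D.dx_f] at e1
      have e3 : 3 ^ e * (2 * i' + 3) = 2 * (3 ^ e * i') + 3 * 3 ^ e := by ring
      rw [e3, ← h1]
      omega
    have h4 := H.bx _ _ h3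
    rw [ha', D.dx_mul _ _ D.f_ne h0, D.dx_f] at h4
    omega
  · by_cases h0 : a' = 0
    · simp [h0, D.dy_zero]
    have h3 : D.dy (u * b * D.f ^ m) ≤ 3 ^ e * (2 * n' + 6) := by
      have e1 := D.dy_mul_le (u * b) (D.f ^ m)
      have e2 := D.dy_mul_le u b
      rw [D.dy_pow, D.dy_f] at e1
      have e3 : 3 ^ e * (2 * n' + 6) = 2 * (3 ^ e * n') + 6 * 3 ^ e := by ring
      rw [e3, ← h2]
      omega
    have h4 := H.by' _ _ h3
    rw [ha', D.dy_mul _ _ D.f_ne h0, D.dy_f] at h4
    omega
  · apply H.bx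
    have e2 := D.dx_mul_le u a
    have e3 : 3 ^ e * (2 * i' + 1) = 2 * (3 ^ e * i') + 3 ^ e := by ring
    rw [e3, ← h1]
    omega
  · apply H.by'
    have e2 := D.dy_mul_le u a
    have e3 : 3 ^ e * (2 * n' + 3) = 2 * (3 ^ e * n') + 3 * 3 ^ e := by ring
    rw [e3, ← h2]
    omega

end BD
end Pool.Agent.Helper668.G

namespace Pool.Agent.Helper668.G
namespace BD
variable {A : Type} [CommRing A] [IsDomain A] [Algebra (ZMod 3) A] [IsIntegrallyClosed A] (D : BD A)

/-- TARGET. Elements of `Hom(F^e_* AA, AA)`. -/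
theorem exists_phi {e m : ℕ} (H : HD D e m) (u : A) (hi : ∀ h, D.f ∣ (H.Th (u * h)) ^ 2)
    (hii : ∀ b, D.f ∣ b ^ 2 → D.f ∣ H.Th (u * b * D.f ^ m)) (hdx : D.dx u ≤ 2 * 3 ^ e + 1)
    (n : ℕ) (hdy : D.dy u ≤ 2 * n + 3 * 3 ^ e) (ep : sg →₀ ℕ) (h1 : w1 ep = m + 1)
    (h2 : w2 ep = n) :
    ∃ φ : D.AA →+ D.AA, (∀ c x, φ (c ^ (3 ^ e) * x) = c * φ x) ∧
      ∀ (g : sg →₀ ℕ) (h : A) (hg1 : D.dx h ≤ 2 * w1 g) (hg2 : D.dy h ≤ 2 * w2 g),
        ∃ p' : D.RR, φ (algebraMap D.RR D.AA (D.mon g h hg1 hg2)) = algebraMap D.RR D.AA p' ∧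
          ∀ g', (p' : MvPolynomial sg D.L2).coeff g' =
            if (3 ^ e) • g' = g + ep then
              (⟨0, algebraMap A (FractionRing A) (H.Th (u * h))⟩ : D.L2) else 0 := by
  classical
  obtain ⟨T, -, hT1, hT2⟩ := exists_ext (nonZeroDivisors A) H.Th (3 ^ e)
    (Nat.one_le_pow _ _ (by norm_num)) H.lin
  have hT2' : ∀ a, T (algebraMap A (FractionRing A) a) = algebraMap A (FractionRing A) (H.Th a) := hT2
  obtain ⟨P, hP1, hP2⟩ := exists_P (σ := sg) (R := D.L2) (3 ^ e) e rfl D.charP_L2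
    (D.Psi T (algebraMap A (FractionRing A) u) m)
    (D.Psi_lin e m H.hq T hT1 (algebraMap A (FractionRing A) u)) ep
  have hPR : ∀ p ∈ D.RR, P p ∈ D.RR := by
    intro p hp g'
    rw [hP1]
    split_ifs with hle
    · refine D.Psi_InC H u hi hii hdx n hdy T hT2' (w1 (3 ^ e • g' - ep)) (w2 (3 ^ e • g' - ep)) _ _ _
        (hp _) ?_ ?_
      · rw [← h1, ← w1_add, tsub_add_cancel_of_le hle]
        simp [w1]
      · rw [← h2, ← w2_add, tsub_add_cancel_of_le hle]
        simp [w2, Finset.mul_sum]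
    · exact InC_zero _ _
  let T2 : D.RR →+ D.RR :=
    { toFun := fun p => ⟨P p, hPR p p.2⟩
      map_zero' := by
        apply Subtype.ext
        simp
      map_add' := by
        intro x y
        apply Subtype.ext
        simp }
  have hT2l : ∀ r h, T2 (r ^ (3 ^ e) * h) = r * T2 h := by
    intro r h
    apply Subtype.ext
    change P ((r ^ (3 ^ e) * h : D.RR) : MvPolynomial sg D.L2) = (r : MvPolynomial sg D.L2) * P h
    rw [← hP2]
    rfl
  obtain ⟨φ, -, hφ1, hφ2⟩ := exists_ext (R' := D.RR) D.mm.primeCompl T2 (3 ^ e)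
    (Nat.one_le_pow _ _ (by norm_num)) hT2l
  refine ⟨φ, hφ1, ?_⟩
  intro g h hg1 hg2
  refine ⟨T2 (D.mon g h hg1 hg2), hφ2 _, ?_⟩
  intro g'
  change (P (MvPolynomial.monomial g (⟨algebraMap A (FractionRing A) h, 0⟩ : D.L2))).coeff g' = _
  rw [hP1]
  by_cases hh : 3 ^ e • g' = g + ep
  · rw [if_pos hh, hh, if_pos le_add_self, add_tsub_cancel_right, MvPolynomial.coeff_monomial,
      if_pos rfl]
    ext
    · change T (algebraMap A (FractionRing A) u * 0 * D.fL ^ m) * D.fL⁻¹ = 0
      simp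
    · change T (algebraMap A (FractionRing A) u * algebraMap A (FractionRing A) h) = _
      rw [← map_mul, hT2']
  · rw [if_neg hh]
    split_ifs with h3
    · rw [MvPolynomial.coeff_monomial, if_neg, map_zero]
      intro h4
      apply hh
      rw [h4, tsub_add_cancel_of_le h3]
    · rfl

end BD
end Pool.Agent.Helper668.G
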