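import Mathlib

namespace Pool.Agent.Helper668.R

theorem algMap_inj (R : Type) [CommRing R] [IsDomain R] :
    Function.Injective (algebraMap R (AlgebraicClosure (FractionRing R))) := by
  rw [IsScalarTower.algebraMap_eq R (FractionRing R) (AlgebraicClosure (FractionRing R))]
  exact (algebraMap (FractionRing R) (AlgebraicClosure (FractionRing R))).injective.comp
    (IsFractionRing.injective R (FractionRing R))

theorem charP_cl (p : ℕ) (R : Type) [CommRing R] [IsDomain R] [CharP R p] :
    CharP (AlgebraicClosure (FractionRing R)) p :=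
  charP_of_injective_algebraMap (algMap_inj R) p

/-- The ring `R^{1/p^e}` of `p^e`-th roots of elements of the domain `R` of characteristic `p`,
inside an algebraic closure of the fraction field, as an `R`-subalgebra. -/
noncomputable def rootAlg (p e : ℕ) [Fact p.Prime] (R : Type) [CommRing R] [IsDomain R]
    [CharP R p] : Subalgebra R (AlgebraicClosure (FractionRing R)) where
  carrier := {x | ∃ r : R, algebraMap R (AlgebraicClosure (FractionRing R)) r = x ^ (p ^ e)}
  mul_mem' := by
    rintro a b ⟨r, hr⟩ ⟨s, hs⟩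
    exact ⟨r * s, by rw [map_mul, hr, hs, mul_pow]⟩
  add_mem' := by
    rintro a b ⟨r, hr⟩ ⟨s, hs⟩
    have := charP_cl p R
    exact ⟨r + s, by rw [map_add, hr, hs, add_pow_char_pow]⟩
  algebraMap_mem' := by
    intro r
    exact ⟨r ^ (p ^ e), by rw [map_pow]⟩

/-- additive maps `φ : R → R` with `φ (r^{p^e} x) = r φ(x)`, i.e. `Hom_R(F^e_* R, R)` -/
def QL (p e : ℕ) (R : Type) [CommRing R] : Submodule R (R → R) where
  carrier := {φ | (∀ x y, φ (x + y) = φ x + φ y) ∧ ∀ r x, φ (r ^ (p ^ e) * x) = r * φ x}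
  add_mem' := by
    rintro φ ψ ⟨h1, h2⟩ ⟨h3, h4⟩
    refine ⟨fun x y => ?_, fun r x => ?_⟩
    · simp only [Pi.add_apply, h1, h3]; ring
    · simp only [Pi.add_apply, h2, h4]; ring
  zero_mem' := ⟨fun x y => by simp, fun r x => by simp⟩
  smul_mem' := by
    rintro c φ ⟨h1, h2⟩
    refine ⟨fun x y => ?_, fun r x => ?_⟩
    · simp only [Pi.smul_apply, smul_eq_mul, h1]; ring
    · simp only [Pi.smul_apply, smul_eq_mul, h2]; ring

variable (p e : ℕ) [Fact p.Prime] (R : Type) [CommRing R] [IsDomain R] [CharP R p]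

theorem pow_inj {x y : AlgebraicClosure (FractionRing R)} (h : x ^ (p ^ e) = y ^ (p ^ e)) :
    x = y := by
  have := charP_cl p R
  have h1 : iterateFrobenius (AlgebraicClosure (FractionRing R)) p e x =
      iterateFrobenius (AlgebraicClosure (FractionRing R)) p e y := h
  exact iterateFrobenius_inj _ p e h1

theorem exists_rho : ∃ ρ : R → rootAlg p e R,
    (∀ r, ((ρ r : AlgebraicClosure (FractionRing R))) ^ (p ^ e) =
      algebraMap R (AlgebraicClosure (FractionRing R)) r) ∧
    (∀ x y, ρ (x + y) = ρ x + ρ y) ∧ (∀ c x, ρ (c ^ (p ^ e) * x) = c • ρ x) ∧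
    Function.Bijective ρ := by
  have hp : 0 < p ^ e := Nat.pos_of_ne_zero (pow_ne_zero e (Fact.out : p.Prime).ne_zero)
  have hch := charP_cl p R
  choose f hf using fun r : R => IsAlgClosed.exists_pow_nat_eq
    (algebraMap R (AlgebraicClosure (FractionRing R)) r) hp
  refine ⟨fun r => ⟨f r, r, (hf r).symm⟩, fun r => hf r, ?_, ?_, ?_, ?_⟩
  · intro x y
    apply Subtype.ext
    apply pow_inj p e R
    show f (x + y) ^ (p ^ e) = (f x + f y) ^ (p ^ e)
    rw [hf, add_pow_char_pow, hf, hf, map_add]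
  · intro c x
    apply Subtype.ext
    apply pow_inj p e R
    show f (c ^ (p ^ e) * x) ^ (p ^ e) = (c • f x) ^ (p ^ e)
    rw [hf, Algebra.smul_def, mul_pow, hf, map_mul, map_pow]
  · intro x y hxy
    apply algMap_inj R
    rw [← hf x, ← hf y]
    have h1 : f x = f y := congrArg Subtype.val hxy
    rw [h1]
  · rintro ⟨y, r, hr⟩
    refine ⟨r, ?_⟩
    apply Subtype.ext
    apply pow_inj p e R
    show f r ^ (p ^ e) = y ^ (p ^ e)
    rw [hf, hr]

/-- TARGET 1: `Hom_R(R^{1/q}, R)` is `R`-isomorphic to the module of `q`-linear maps. -/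
theorem hom_equiv : Nonempty ((rootAlg p e R →ₗ[R] R) ≃ₗ[R] QL p e R) := by
  obtain ⟨ρ, _, hadd, hsmul, hbij⟩ := exists_rho p e R
  let T : (rootAlg p e R →ₗ[R] R) →ₗ[R] QL p e R :=
    { toFun := fun φ => ⟨fun x => φ (ρ x), fun x y => by
          show φ (ρ (x + y)) = φ (ρ x) + φ (ρ y)
          rw [hadd, map_add],
        fun r x => by
          show φ (ρ (r ^ (p ^ e) * x)) = r * φ (ρ x)
          rw [hsmul, map_smul, smul_eq_mul]⟩
      map_add' := fun φ ψ => rfl
      map_smul' := fun c φ => rfl }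
  refine ⟨LinearEquiv.ofBijective T ⟨?_, ?_⟩⟩
  · intro φ ψ h
    apply LinearMap.ext
    intro y
    obtain ⟨x, rfl⟩ := hbij.2 y
    have h1 := congrArg Subtype.val h
    exact congrFun h1 x
  · rintro ⟨ψ, h1, h2⟩
    let σ : rootAlg p e R → R := Function.surjInv hbij.2
    have hσ : ∀ y, ρ (σ y) = y := Function.surjInv_eq hbij.2
    have hσ' : ∀ x, σ (ρ x) = x := fun x => hbij.1 (hσ (ρ x))
    refine ⟨{ toFun := fun y => ψ (σ y), map_add' := ?_, map_smul' := ?_ }, ?_⟩
    · intro y z
      have h3 : σ (y + z) = σ y + σ z := by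
        apply hbij.1
        rw [hσ, hadd, hσ, hσ]
      rw [h3, h1]
    · intro c y
      have h3 : σ (c • y) = c ^ (p ^ e) * σ y := by
        apply hbij.1
        rw [hσ, hsmul, hσ]
      rw [h3, h2]
      rfl
    · apply Subtype.ext
      funext x
      show ψ (σ (ρ x)) = ψ x
      rw [hσ']

/-- TARGET 2: F-finiteness in terms of Frobenius. -/
theorem rootAlg_finite (h : (frobenius R p).Finite) : Module.Finite R (rootAlg p e R) := by
  obtain ⟨ρ, _, hadd, hsmul, hbij⟩ := exists_rho p e R
  have hfin : (iterateFrobenius R p e).Finite := by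
    rw [iterateFrobenius_eq_pow]
    have hn : ∀ k : ℕ, (frobenius R p ^ k : R →+* R).Finite := by
      intro k
      induction k with
      | zero => rw [pow_zero]; exact RingHom.Finite.id R
      | succ k ihk => rw [pow_succ]; exact RingHom.Finite.comp ihk h
    exact hn e
  obtain ⟨n, g, hg⟩ : ∃ (n : ℕ) (g : Fin n → R), ∀ x, ∃ c : Fin n → R,
      ∑ i, c i ^ (p ^ e) * g i = x := by
    obtain ⟨n, g, hg⟩ := @Module.Finite.exists_fin R R _ _
      (iterateFrobenius R p e).toAlgebra.toModule hfin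
    refine ⟨n, g, fun x => ?_⟩
    have hx : x ∈ @Submodule.span R R _ _ (iterateFrobenius R p e).toAlgebra.toModule
        (Set.range g) := by rw [hg]; trivial
    rw [Submodule.mem_span_range_iff_exists_fun] at hx
    obtain ⟨c, hc⟩ := hx
    exact ⟨c, hc⟩
  have hρ0 : ρ 0 = 0 := by
    have := hadd 0 0
    rw [add_zero] at this
    exact left_eq_add.mp this
  have hsum : ∀ (s : Finset (Fin n)) (c : Fin n → R),
      ρ (∑ i ∈ s, c i ^ (p ^ e) * g i) = ∑ i ∈ s, c i • ρ (g i) := by
    intro s c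
    induction s using Finset.cons_induction with
    | empty => rw [Finset.sum_empty, Finset.sum_empty, hρ0]
    | cons a s ha ih => rw [Finset.sum_cons, Finset.sum_cons, hadd, hsmul, ih]
  apply Module.Finite.of_surjective (Fintype.linearCombination R (fun i => ρ (g i)))
  intro y
  obtain ⟨x, rfl⟩ := hbij.2 y
  obtain ⟨c, hc⟩ := hg x
  refine ⟨c, ?_⟩
  rw [Fintype.linearCombination_apply, ← hsum, hc]

end Pool.Agent.Helper668.R
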