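import Mathlib
import Pool.Agent.Helper668.GL
import Pool.Agent.Helper668.GP
import Pool.Agent.Helper668.GQ
namespace Pool.Agent.Helper668.G

noncomputable section

namespace BD

open Pool.Agent.Helper668.R

variable {A : Type} [CommRing A] [IsDomain A] [Algebra (ZMod 3) A] [IsIntegrallyClosed A] {D : BD A}

/-- exponent vector attached to a box point -/
def epN (m N : ℕ) (γ : Fin 5 → Fin (N / 5 + 1)) : sg →₀ ℕ :=
  Finsupp.equivFunOnFinite.symm (fun i => Option.elim i (m + 1)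
    (Fin.cons (N - ∑ l, (γ l : ℕ)) (fun l => (γ l : ℕ)) : Fin 6 → ℕ))

lemma epN_none (m N : ℕ) (γ : Fin 5 → Fin (N / 5 + 1)) : epN m N γ none = m + 1 := rfl

lemma epN_succ (m N : ℕ) (γ : Fin 5 → Fin (N / 5 + 1)) (l : Fin 5) :
    epN m N γ (some l.succ) = γ l := rfl

lemma epN_zero (m N : ℕ) (γ : Fin 5 → Fin (N / 5 + 1)) :
    epN m N γ (some 0) = N - ∑ l, (γ l : ℕ) := rfl

lemma epN_w1 (m N : ℕ) (γ : Fin 5 → Fin (N / 5 + 1)) : w1 (epN m N γ) = m + 1 := rfl

lemma sum_le (N : ℕ) (γ : Fin 5 → Fin (N / 5 + 1)) : ∑ l, (γ l : ℕ) ≤ N := by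
  have h : ∀ l, (γ l : ℕ) ≤ N / 5 := fun l => by have := (γ l).2; omega
  rw [Fin.sum_univ_five]
  have h0 := h 0; have h1 := h 1; have h2 := h 2; have h3 := h 3; have h4 := h 4
  omega

lemma epN_w2 (m N : ℕ) (γ : Fin 5 → Fin (N / 5 + 1)) : w2 (epN m N γ) = N := by
  unfold w2
  rw [Fin.sum_univ_succ]
  simp only [epN_succ, epN_zero]
  have := sum_le N γ
  omega

lemma epN_inj (m N : ℕ) {γ γ' : Fin 5 → Fin (N / 5 + 1)} (h : epN m N γ = epN m N γ') : γ = γ' := by
  funext l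
  have := DFunLike.congr_fun h (some l.succ)
  rw [epN_succ, epN_succ] at this
  exact Fin.ext this

/-- the shift as an integer vector -/
def epZ (m N : ℕ) (γ : Fin 5 → Fin (N / 5 + 1)) : sg → ℤ := fun i => (epN m N γ i : ℤ)

lemma W2_epZ (m N : ℕ) (γ : Fin 5 → Fin (N / 5 + 1)) : W2 (epZ m N γ) = N := by
  unfold W2 epZ
  have := epN_w2 m N γ
  unfold w2 at this
  exact_mod_cast this

/-- additive hom of an element of `QL` -/
def homOf {e : ℕ} (Φ : QL 3 e D.AA) : D.AA →+ D.AA := AddMonoidHom.mk' Φ.1 Φ.2.1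

lemma homOf_lin {e : ℕ} (Φ : QL 3 e D.AA) (c x : D.AA) :
    homOf Φ (c ^ (3 ^ e) * x) = c * homOf Φ x := Φ.2.2 c x

section lam
variable {e m : ℕ} (H : HD D e m) (h0 : A)

/-- the detecting functionals -/
def lam (Φ : QL 3 e D.AA) (γ : Fin 5 → Fin (N0 H / 5 + 1)) : A :=
  p1 (homOf Φ) (one_le_q e) (homOf_lin Φ) (epZ m (N0 H) γ) h0

lemma lam_add (Φ Ψ : QL 3 e D.AA) : lam H h0 (Φ + Ψ) = lam H h0 Φ + lam H h0 Ψ := by
  funext γ
  apply algL_inj (A := A)
  rw [Pi.add_apply, map_add]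
  unfold lam
  rw [← p1_spec, ← p1_spec, ← p1_spec]
  obtain ⟨G, hG⟩ := exists_valid (D := D) (one_le_q e) (epZ m (N0 H) γ) h0
  rw [psi_eq _ _ (homOf_lin _) hG, psi_eq _ _ (homOf_lin _) hG, psi_eq _ _ (homOf_lin _) hG]
  rw [← QuadraticAlgebra.im_add]
  congr 1
  unfold val
  rw [← map_add, ← map_add]
  rfl

lemma lam_smul (c : D.AA) (Φ : QL 3 e D.AA) :
    ∃ z : ZMod 3, lam H h0 (c • Φ) = z • lam H h0 Φ := by
  have hc0 : InC D 0 0 (MvPowerSeries.coeff 0 (D.io c)) := io_InC c 0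
  obtain ⟨z, hz⟩ := InC_const hc0
  refine ⟨z, ?_⟩
  funext γ
  apply algL_inj (A := A)
  rw [Pi.smul_apply, Algebra.smul_def, map_mul]
  unfold lam
  rw [← p1_spec, ← p1_spec]
  set ε := epZ m (N0 H) γ with hε
  obtain ⟨G, hG⟩ := exists_valid (D := D) (one_le_q e) ε h0
  have hq := H.hq
  have hq3 : 3 ≤ 3 ^ e := by
    calc 3 = 3 ^ 1 := by norm_num
      _ ≤ 3 ^ e := Nat.pow_le_pow_right (by norm_num) H.he
  rw [psi_smul (homOf Φ) (one_le_q e) (homOf_lin Φ) (homOf (c • Φ)) c (fun x => rfl) hG]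
  have hmem : ((0 : sg →₀ ℕ), G) ∈ Finset.HasAntidiagonal.antidiagonal G := by
    rw [Finset.HasAntidiagonal.mem_antidiagonal]; simp
  rw [← Finset.add_sum_erase _ _ hmem, QuadraticAlgebra.im_add]
  have hzero : (∑ x ∈ (Finset.HasAntidiagonal.antidiagonal G).erase ((0 : sg →₀ ℕ), G),
      MvPowerSeries.coeff x.1 (D.io c) *
        psi (homOf Φ) (3 ^ e) (one_le_q e) (fun i => ε i - ((3 ^ e : ℕ) : ℤ) * x.1 i) h0).im = 0 := by
    rw [← QuadraticAlgebra.imₗ_apply, map_sum]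
    apply Finset.sum_eq_zero
    intro x hx
    rw [Finset.mem_erase, Finset.HasAntidiagonal.mem_antidiagonal] at hx
    obtain ⟨hx1, hx2⟩ := hx
    have hx0 : x.1 ≠ 0 := by
      intro h
      apply hx1
      ext1
      · exact h
      · simp only; rw [← hx2, h, zero_add]
    rw [QuadraticAlgebra.imₗ_apply, QuadraticAlgebra.im_mul]
    have hInC := io_InC c x.1
    have hε0 : ε none = m + 1 := rfl
    by_cases hw : w1 x.1 = 0
    · rw [hw] at hInC
      have ha := InC_im_zero hInC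
      have hw0 : x.1 none = 0 := hw
      have hpos : 1 ≤ w2 x.1 := by
        rw [Nat.one_le_iff_ne_zero]
        intro h2
        apply hx0
        ext i
        rcases i with _ | l
        · exact hw0
        · unfold w2 at h2
          exact (Finset.sum_eq_zero_iff.mp h2) l (Finset.mem_univ l)
      have h1 : p1 (homOf Φ) (one_le_q e) (homOf_lin Φ)
          (fun i => ε i - ((3 ^ e : ℕ) : ℤ) * x.1 i) h0 = 0 := by
        apply van2 H
        · simp only [hε0, hw0]; push_cast; ring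
        · have hW : W2 (fun i => ε i - ((3 ^ e : ℕ) : ℤ) * x.1 i) =
              W2 ε - ((3 ^ e : ℕ) : ℤ) * w2 x.1 := by
            unfold W2 w2
            rw [Finset.sum_sub_distrib, ← Finset.mul_sum]
            push_cast; rfl
          rw [hW, hε, W2_epZ]
          have : (1 : ℤ) ≤ ((3 ^ e : ℕ) : ℤ) * w2 x.1 := by
            have h1 : 1 ≤ 3 ^ e * w2 x.1 := Nat.one_le_iff_ne_zero.mpr
              (Nat.mul_ne_zero (by omega) (by omega))
            exact_mod_cast h1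
          omega
      rw [ha, p1_spec _ (one_le_q e) (homOf_lin Φ), h1, map_zero]
      simp
    · have hneg : ε none - ((3 ^ e : ℕ) : ℤ) * x.1 none < 0 := by
        rw [hε0]
        have h1 : (1 : ℤ) ≤ x.1 none := by
          have : w1 x.1 = x.1 none := rfl
          omega
        have h2 : (3 : ℤ) ≤ ((3 ^ e : ℕ) : ℤ) := by exact_mod_cast hq3
        have h3 : ((3 ^ e : ℕ) : ℤ) = 2 * m + 1 := by exact_mod_cast hq
        nlinarith
      have h1 : p1 (homOf Φ) (one_le_q e) (homOf_lin Φ)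
          (fun i => ε i - ((3 ^ e : ℕ) : ℤ) * x.1 i) h0 = 0 :=
        van1 H _ _ _ (by
          show ε none - ((3 ^ e : ℕ) : ℤ) * (x.1 none : ℤ) ≤ m
          omega) _
      have h2 : p0 (homOf Φ) (one_le_q e) (homOf_lin Φ)
          (fun i => ε i - ((3 ^ e : ℕ) : ℤ) * x.1 i) h0 = 0 :=
        van0 H _ _ _ (by
          show ε none - ((3 ^ e : ℕ) : ℤ) * (x.1 none : ℤ) < 0
          omega) _
      rw [p1_spec _ (one_le_q e) (homOf_lin Φ), p0_spec _ (one_le_q e) (homOf_lin Φ), h1, h2,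
        map_zero]
      simp
  rw [hzero, add_zero, hz]
  have hε' : (fun i => ε i - ((3 ^ e : ℕ) : ℤ) * ((0 : sg →₀ ℕ) i : ℤ)) = ε := by
    funext i; simp
  simp only
  rw [hε', QuadraticAlgebra.im_mul]
  have h1 : (algebraMap (ZMod 3) D.L2 z).im = 0 := rfl
  have h2 : (algebraMap (ZMod 3) D.L2 z).re = algebraMap A (FractionRing A) (algebraMap (ZMod 3) A z) := by
    rw [← IsScalarTower.algebraMap_apply]; rfl
  rw [h1, h2]
  simp

/-- the explicit element attached to a box point -/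
lemma exists_PHI {u : A} (hi : ∀ h, D.f ∣ (H.Th (u * h)) ^ 2)
    (hii : ∀ b, D.f ∣ b ^ 2 → D.f ∣ H.Th (u * b * D.f ^ m)) (hdx : D.dx u ≤ 2 * 3 ^ e + 1)
    (hdy : D.dy u ≤ 2 * N0 H + 3 * 3 ^ e) (γ : Fin 5 → Fin (N0 H / 5 + 1)) :
    ∃ Φ : QL 3 e D.AA, lam H h0 Φ = Pi.single γ (H.Th (u * h0)) := by
  obtain ⟨φ, hφ1, hφ2⟩ := exists_phi D H u hi hii hdx (N0 H) hdy (epN m (N0 H) γ)
    (epN_w1 m (N0 H) γ) (epN_w2 m (N0 H) γ)
  refine ⟨⟨φ, fun x y => map_add φ x y, fun r x => hφ1 r x⟩, ?_⟩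
  funext γ'
  apply algL_inj (A := A)
  unfold lam
  rw [← p1_spec]
  obtain ⟨G, hG⟩ := exists_valid (D := D) (one_le_q e) (epZ m (N0 H) γ') h0
  rw [psi_eq _ _ (homOf_lin _) hG]
  obtain ⟨p', hp1, hp2⟩ := hφ2 (ex (3 ^ e) (epZ m (N0 H) γ') G) h0 hG.2.1 hG.2.2
  have h1 : val (homOf (⟨φ, fun x y => map_add φ x y, fun r x => hφ1 r x⟩ : QL 3 e D.AA)) hG =
      (p' : MvPolynomial sg D.L2).coeff G := by
    unfold val
    have : homOf (⟨φ, fun x y => map_add φ x y, fun r x => hφ1 r x⟩ : QL 3 e D.AA)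
        (algebraMap D.RR D.AA (D.mon (ex (3 ^ e) (epZ m (N0 H) γ') G) h0 hG.2.1 hG.2.2)) =
        algebraMap D.RR D.AA p' := hp1
    rw [this, io_alg, toPS_coeff]
  rw [h1, hp2 G]
  have hex : ex (3 ^ e) (epZ m (N0 H) γ') G + epN m (N0 H) γ' = 3 ^ e • G := by
    ext i
    rw [Finsupp.add_apply, ex_apply, Finsupp.smul_apply, smul_eq_mul]
    have h2 := hG.1 i
    have h3 : epZ m (N0 H) γ' i = (epN m (N0 H) γ' i : ℤ) := rfl
    rw [h3] at h2 ⊢
    have h4 : (((3 ^ e * G i : ℕ)) : ℤ) = ((3 ^ e : ℕ) : ℤ) * G i := by push_cast; ring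
    omega
  by_cases hγ : γ' = γ
  · subst hγ
    rw [if_pos hex.symm, Pi.single_eq_same]
  · rw [if_neg, Pi.single_eq_of_ne hγ, map_zero]
    · rfl
    · intro h
      apply hγ
      rw [← hex] at h
      exact epN_inj m (N0 H) (add_left_cancel h)

include H in
lemma exists_h0 {u : A} (hu : u ≠ 0) : ∃ h0, H.Th (u * h0) ≠ 0 := by
  by_contra hne
  push Not at hne
  obtain ⟨ι, _, b, bs, hb⟩ := H.dual
  apply hu
  rw [hb u]
  apply Finset.sum_eq_zero
  intro i _
  rw [hne, zero_pow (by have := one_le_q e; omega), zero_mul]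

end lam

/-- Lower bound for the number of generators. -/
theorem lower_bound {e m : ℕ} (H : HD D e m) (n : ℕ) (f : Fin n → QL 3 e D.AA)
    (hf : Submodule.span D.AA (Set.range f) = ⊤) : (N0 H / 5 + 1) ^ 5 ≤ n := by
  classical
  obtain ⟨u, hu0, hi, hii, hdx, hdy⟩ := N0_mem H
  obtain ⟨h0, hh0⟩ := exists_h0 H hu0
  choose Φ hΦ using exists_PHI H h0 hi hii hdx hdy
  -- all values of lam lie in the span of n vectors
  have hspan : ∀ Ψ : QL 3 e D.AA, lam H h0 Ψ ∈ Submodule.span (ZMod 3)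
      (Set.range (fun i => lam H h0 (f i))) := by
    intro Ψ
    have hΨ : Ψ ∈ Submodule.span D.AA (Set.range f) := by rw [hf]; trivial
    induction hΨ using Submodule.span_induction with
    | mem x hx =>
      obtain ⟨i, rfl⟩ := hx
      exact Submodule.subset_span ⟨i, rfl⟩
    | zero =>
      have : lam H h0 (0 : QL 3 e D.AA) = 0 := by
        have := lam_add H h0 (0 : QL 3 e D.AA) 0
        simpa using this
      rw [this]; exact Submodule.zero_mem _
    | add x y _ _ hx hy => rw [lam_add]; exact Submodule.add_mem _ hx hy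
    | smul c x _ hx =>
      obtain ⟨z, hz⟩ := lam_smul H h0 c x
      rw [hz]; exact Submodule.smul_mem _ _ hx
  have hli : LinearIndependent (ZMod 3) (fun γ => lam H h0 (Φ γ)) := by
    rw [Fintype.linearIndependent_iff]
    intro g hg γ
    have h1 := congrFun hg γ
    rw [Finset.sum_apply] at h1
    simp only [Pi.smul_apply, hΦ] at h1
    rw [Finset.sum_eq_single γ] at h1
    · rw [Pi.single_eq_same] at h1
      have h2 := smul_eq_zero.mp h1
      rcases h2 with h2 | h2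
      · exact h2
      · exact absurd h2 hh0
    · intro γ' _ hγ'
      rw [Pi.single_eq_of_ne (Ne.symm hγ'), smul_zero]
    · intro h; exact absurd (Finset.mem_univ _) h
  have h1 := linearIndependent_le_span_aux' (fun γ => lam H h0 (Φ γ)) hli
    (Set.range (fun i => lam H h0 (f i))) (by
      rintro _ ⟨γ, rfl⟩
      exact hspan _)
  have h2 : Fintype.card (Fin 5 → Fin (N0 H / 5 + 1)) = (N0 H / 5 + 1) ^ 5 := by simp
  rw [h2] at h1
  refine h1.trans ?_
  have h3 := Fintype.card_le_of_surjective _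
    (Set.rangeFactorization_surjective (f := fun i => lam H h0 (f i)))
  simpa using h3

end BD

end

end Pool.Agent.Helper668.G
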