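import Mathlib
import Pool.Agent.Helper668.GA
namespace Pool.Agent.Helper668.G
open Polynomial

noncomputable section



/-- an element of the base ring which becomes divisible with integral quotient is divisible -/
private theorem int_div {A : Type} [CommRing A] [IsDomain A] [IsIntegrallyClosed A] {L : Type} [Field L]
    [Algebra A L] (hinj : Function.Injective (algebraMap A L)) {a n : A} (hn : n ≠ 0)
    (h : IsIntegral A (algebraMap A L a / algebraMap A L n)) : ∃ c, a = n * c := by
  have hofId : Function.Injective (Algebra.ofId A L) := hinj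
  let f : FractionRing A →ₐ[A] L := IsFractionRing.liftAlgHom (g := Algebra.ofId A L) hofId
  have hf : Function.Injective f := f.toRingHom.injective
  have e : f (algebraMap A (FractionRing A) a / algebraMap A (FractionRing A) n) =
      algebraMap A L a / algebraMap A L n := by
    rw [map_div₀, AlgHom.commutes, AlgHom.commutes]
  rw [← e, isIntegral_algHom_iff f hf] at h
  obtain ⟨y, hy⟩ := IsIntegrallyClosed.isIntegral_iff.1 h
  refine ⟨y, ?_⟩
  have hn' : algebraMap A (FractionRing A) n ≠ 0 := by
    intro h0
    apply hn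
    exact IsFractionRing.injective A (FractionRing A) (by rw [h0, map_zero])
  apply IsFractionRing.injective A (FractionRing A)
  rw [map_mul, hy, mul_div_cancel₀ _ hn']

section norm
variable {B : Type} [CommRing B]

/-- conjugation -/
private def conjO : OO B →ₐ[B[X]] OO B where
  toFun z := ⟨z.re, -z.im⟩
  map_one' := by apply QuadraticAlgebra.ext <;> simp
  map_mul' z w := by apply QuadraticAlgebra.ext <;> simp; ring
  map_zero' := by apply QuadraticAlgebra.ext <;> simp
  map_add' z w := by apply QuadraticAlgebra.ext <;> simp; ring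
  commutes' r := by apply QuadraticAlgebra.ext <;> simp

private theorem dvd_aux [IsDomain B] [CharP B 3] {g c : B[X]} (h : g ^ 2 = (X ^ 3 - X) * c) :
    ∃ g', g = (X ^ 3 - X) * g' := by
  have h3 : (3 : B) = 0 := by exact_mod_cast CharP.cast_eq_zero B 3
  have e0 : g.IsRoot 0 := by
    have := congrArg (Polynomial.eval 0) h
    simp at this
    exact this
  have e1 : g.IsRoot 1 := by
    have := congrArg (Polynomial.eval 1) h
    simp at this
    exact this
  have e2 : g.IsRoot (-1) := by
    have := congrArg (Polynomial.eval (-1)) h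
    simp at this
    have h5 : ((-1 : B) ^ 3 + 1) = 0 := by ring
    rw [h5, zero_mul] at this
    exact pow_eq_zero_iff (two_ne_zero) |>.1 this
  have d0 : X ∣ g := by
    have := dvd_iff_isRoot.2 e0
    simpa using this
  have d1 : (X - 1) ∣ g := by
    have := dvd_iff_isRoot.2 e1
    simpa using this
  have d2 : (X + 1) ∣ g := by
    have := dvd_iff_isRoot.2 e2
    simpa using this
  have c01 : IsCoprime (X : B[X]) (X - 1) := ⟨1, -1, by ring⟩
  have c02 : IsCoprime (X : B[X]) (X + 1) := ⟨-1, 1, by ring⟩
  have c12 : IsCoprime (X - 1 : B[X]) (X + 1) := by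
    refine ⟨1, -1, ?_⟩
    have h3' : (3 : B[X]) = 0 := by
      have : (C (3 : B) : B[X]) = 3 := map_ofNat C 3
      rw [← this, h3, map_zero]
    linear_combination -h3'
  have d01 := c01.mul_dvd d0 d1
  have c012 : IsCoprime ((X : B[X]) * (X - 1)) (X + 1) := c02.mul_left c12
  obtain ⟨g', hg'⟩ := c012.mul_dvd d01 d2
  exact ⟨g', by rw [hg']; ring⟩

end norm

/-- TARGET. Normality of `OO B` for a normal domain `B` of characteristic 3. -/
theorem OO_isIntegrallyClosed (B : Type) [CommRing B] [IsDomain B] [CharP B 3]
    [IsIntegrallyClosed B] : IsIntegrallyClosed (OO B) := by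
  have h3 : (3 : B) = 0 := by exact_mod_cast CharP.cast_eq_zero B 3
  have h3' : (3 : B[X]) = 0 := by
    have : (C (3 : B) : B[X]) = 3 := map_ofNat C 3
    rw [← this, h3, map_zero]
  set K := FractionRing (OO B) with hK
  rw [isIntegrallyClosed_iff K]
  intro z hz
  have hinjO : Function.Injective (algebraMap (OO B) K) := IsFractionRing.injective _ _
  have hinj : Function.Injective (algebraMap B[X] K) := by
    rw [IsScalarTower.algebraMap_eq B[X] (OO B) K]
    exact hinjO.comp QuadraticAlgebra.algebraMap_injective
  have hzA : IsIntegral B[X] z := isIntegral_trans z hz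
  -- conjugation on the fraction field
  have hci : Function.Injective ((IsScalarTower.toAlgHom B[X] (OO B) K).comp conjO) := by
    refine hinjO.comp ?_
    intro u v huv
    have h1 := congrArg QuadraticAlgebra.re huv
    have h2 := congrArg QuadraticAlgebra.im huv
    exact QuadraticAlgebra.ext h1 (neg_injective h2)
  let σ : K →ₐ[B[X]] K := IsFractionRing.liftAlgHom (g := (IsScalarTower.toAlgHom B[X] (OO B) K).comp conjO) hci
  have hσ : ∀ u : OO B, σ (algebraMap (OO B) K u) = algebraMap (OO B) K (conjO u) := by
    intro u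
    exact IsFractionRing.lift_algebraMap (K := K)
      (g := ((IsScalarTower.toAlgHom B[X] (OO B) K).comp conjO).toRingHom) hci u
  have hσz : IsIntegral B[X] (σ z) := hzA.map σ
  -- write z with denominator in B[X]
  obtain ⟨u, v, hv, huv⟩ := IsFractionRing.div_surjective (A := OO B) z
  have hv0 : v ≠ 0 := nonZeroDivisors.ne_zero hv
  set n : B[X] := v.re ^ 2 - (X ^ 3 - X) * v.im ^ 2 with hn
  have hnv : algebraMap B[X] (OO B) n = v * conjO v := by
    apply QuadraticAlgebra.ext
    · rw [QuadraticAlgebra.algebraMap_re, re_mul', hn]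
      simp only [conjO, AlgHom.coe_mk, RingHom.coe_mk, MonoidHom.coe_mk, OneHom.coe_mk]
      ring
    · rw [QuadraticAlgebra.algebraMap_im, im_mul']
      simp only [conjO, AlgHom.coe_mk, RingHom.coe_mk, MonoidHom.coe_mk, OneHom.coe_mk]
      ring
  have hcv : conjO v ≠ 0 := by
    intro h0
    apply hv0
    have h1 := congrArg QuadraticAlgebra.re h0
    have h2 := congrArg QuadraticAlgebra.im h0
    exact QuadraticAlgebra.ext h1 (neg_eq_zero.1 h2)
  have hn0 : n ≠ 0 := by
    intro h0
    rw [h0, map_zero] at hnv
    exact (mul_ne_zero hv0 hcv) hnv.symm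
  set w : OO B := u * conjO v with hw
  have hvK : algebraMap (OO B) K v ≠ 0 := fun h => hv0 (hinjO (by rw [h, map_zero]))
  have hcvK : algebraMap (OO B) K (conjO v) ≠ 0 := fun h => hcv (hinjO (by rw [h, map_zero]))
  have hnK : algebraMap B[X] K n ≠ 0 := fun h => hn0 (hinj (by rw [h, map_zero]))
  have hnK' : algebraMap B[X] K n = algebraMap (OO B) K v * algebraMap (OO B) K (conjO v) := by
    rw [IsScalarTower.algebraMap_apply B[X] (OO B) K, hnv, map_mul]
  have hzw : z * algebraMap B[X] K n = algebraMap (OO B) K w := by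
    rw [← huv, hnK', hw, map_mul, ← mul_assoc, div_mul_cancel₀ _ hvK]
  set Y : K := algebraMap (OO B) K Yp with hY
  have hwd : ∀ q : OO B, algebraMap (OO B) K q = algebraMap B[X] K q.re + algebraMap B[X] K q.im * Y := by
    intro q
    rw [IsScalarTower.algebraMap_apply B[X] (OO B) K, IsScalarTower.algebraMap_apply B[X] (OO B) K,
      hY, ← map_mul, ← map_add]
    congr 1
    apply QuadraticAlgebra.ext <;> simp
  have hY2 : Y ^ 2 = algebraMap B[X] K (X ^ 3 - X) := by
    rw [hY, ← map_pow, Yp_sq, IsScalarTower.algebraMap_apply B[X] (OO B) K]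
    congr 1
    apply QuadraticAlgebra.ext <;> simp [pow_succ]
  set a := w.re with ha
  set b := w.im with hb
  have hz1 : z * algebraMap B[X] K n = algebraMap B[X] K a + algebraMap B[X] K b * Y := by
    rw [hzw, hwd]
  have hz2 : σ z * algebraMap B[X] K n = algebraMap B[X] K a - algebraMap B[X] K b * Y := by
    have h1 := congrArg σ hzw
    rw [map_mul, AlgHom.commutes, hσ, hwd] at h1
    rw [h1]
    show algebraMap B[X] K w.re + algebraMap B[X] K (-w.im) * Y = _
    rw [map_neg]
    ring
  -- real part
  obtain ⟨a', ha'⟩ : ∃ c, a = n * c := by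
    apply int_div hinj hn0
    have e : algebraMap B[X] K a / algebraMap B[X] K n = -(z + σ z) := by
      rw [div_eq_iff hnK]
      have h3K : (3 : K) = 0 := by
        have : algebraMap B[X] K 3 = 3 := map_ofNat _ 3
        rw [← this, h3', map_zero]
      linear_combination hz1 + hz2 + algebraMap B[X] K a * h3K
    rw [e]
    exact (hzA.add hσz).neg
  have hbY : IsIntegral B[X] (algebraMap B[X] K b * Y / algebraMap B[X] K n) := by
    have e : algebraMap B[X] K b * Y / algebraMap B[X] K n = z - algebraMap B[X] K a' := by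
      rw [div_eq_iff hnK]
      have h4 : algebraMap B[X] K a = algebraMap B[X] K n * algebraMap B[X] K a' := by
        rw [ha', map_mul]
      linear_combination -hz1 - h4
    rw [e]
    exact hzA.sub isIntegral_algebraMap
  have hYint : IsIntegral B[X] Y := by
    refine IsIntegral.of_pow (n := 2) (by norm_num) ?_
    rw [hY2]; exact isIntegral_algebraMap
  obtain ⟨g, hg⟩ : ∃ c, b * (X ^ 3 - X) = n * c := by
    apply int_div hinj hn0
    have e : algebraMap B[X] K (b * (X ^ 3 - X)) / algebraMap B[X] K n =
        (algebraMap B[X] K b * Y / algebraMap B[X] K n) * Y := by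
      rw [map_mul, ← hY2]; ring
    rw [e]
    exact hbY.mul hYint
  obtain ⟨c, hc⟩ : ∃ c, b ^ 2 * (X ^ 3 - X) = n ^ 2 * c := by
    apply int_div hinj (pow_ne_zero 2 hn0)
    have e : algebraMap B[X] K (b ^ 2 * (X ^ 3 - X)) / algebraMap B[X] K (n ^ 2) =
        (algebraMap B[X] K b * Y / algebraMap B[X] K n) ^ 2 := by
      rw [map_mul, ← hY2, map_pow, map_pow]; ring
    rw [e]
    exact hbY.pow 2
  have hgc : g ^ 2 = (X ^ 3 - X) * c := by
    apply mul_left_cancel₀ (pow_ne_zero 2 hn0)
    linear_combination (-(n * g) - b * (X ^ 3 - X)) * hg + (X ^ 3 - X) * hc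
  obtain ⟨g', hg'⟩ := dvd_aux hgc
  have hX0 : (X ^ 3 - X : B[X]) ≠ 0 := by
    intro h0
    have := congrArg (fun p => Polynomial.coeff p 3) h0
    simp [coeff_X] at this
  have hb' : b = n * g' := by
    apply mul_right_cancel₀ hX0
    rw [hg, hg']; ring
  refine ⟨⟨a', g'⟩, ?_⟩
  rw [hwd]
  apply mul_right_cancel₀ hnK
  rw [hz1, ha', hb', map_mul, map_mul]
  simp only
  ring

end

end Pool.Agent.Helper668.G
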