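import Mathlib
import Pool.Agent.Helper668.GA
namespace Pool.Agent.Helper668.G
open Polynomial

section swapaux
variable {B : Type} [CommRing B]

/-- inner embedding: coefficients of the inner ring become constants -/
private noncomputable def jj : OO B →+* OO (OO B) where
  toFun h := ⟨h.re.map ccHom, h.im.map ccHom⟩
  map_one' := by
    apply QuadraticAlgebra.ext <;> simp
  map_mul' a b := by
    apply QuadraticAlgebra.ext
    · simp only [re_mul', Polynomial.map_add, Polynomial.map_mul, Polynomial.map_sub,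
        Polynomial.map_pow, Polynomial.map_X]
    · simp only [im_mul', Polynomial.map_add, Polynomial.map_mul]
  map_zero' := by
    apply QuadraticAlgebra.ext <;> simp
  map_add' a b := by
    apply QuadraticAlgebra.ext <;> simp

private lemma jj_re (h : OO B) : (jj h).re = h.re.map ccHom := rfl
private lemma jj_im (h : OO B) : (jj h).im = h.im.map ccHom := rfl

/-- evaluate the outer polynomial at the inner coordinate `x` -/
private noncomputable def EE : (OO B)[X] →+* OO (OO B) := eval₂RingHom jj (cc Xp)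

private lemma EE_monomial (n : ℕ) (a : OO B) : EE (monomial n a) = jj a * cc (Xp ^ n) := by
  rw [EE, coe_eval₂RingHom, eval₂_monomial, cc_pow]

private lemma EE_X : EE (X : (OO B)[X]) = cc Xp := by
  rw [EE, coe_eval₂RingHom, eval₂_X]

private lemma Xp_pow (n : ℕ) : (Xp : OO B) ^ n = ⟨X ^ n, 0⟩ := by
  induction n with
  | zero => apply QuadraticAlgebra.ext <;> simp
  | succ n ih =>
    rw [pow_succ, ih]
    apply QuadraticAlgebra.ext
    · rw [re_mul']; simp [pow_succ]
    · rw [im_mul']; simp

private lemma cc_mul_Xp_pow (b : B) (n : ℕ) : (cc b : OO B) * Xp ^ n = ⟨C b * X ^ n, 0⟩ := by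
  rw [Xp_pow]
  apply QuadraticAlgebra.ext
  · rw [re_mul']; simp
  · rw [im_mul']; simp

private lemma EE_formula (p : (OO B)[X]) : ∀ l : ℕ,
    (∀ m, ((EE p).re.coeff l).re.coeff m = (p.coeff m).re.coeff l) ∧
    ((EE p).re.coeff l).im = 0 ∧
    (∀ m, ((EE p).im.coeff l).re.coeff m = (p.coeff m).im.coeff l) ∧
    ((EE p).im.coeff l).im = 0 := by
  induction p using Polynomial.induction_on' with
  | add p q hp hq =>
    intro l
    obtain ⟨a1, a2, a3, a4⟩ := hp l
    obtain ⟨b1, b2, b3, b4⟩ := hq l
    refine ⟨fun m => ?_, ?_, fun m => ?_, ?_⟩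
    · rw [map_add, QuadraticAlgebra.re_add, coeff_add, QuadraticAlgebra.re_add, coeff_add, a1 m, b1 m,
        coeff_add, QuadraticAlgebra.re_add, coeff_add]
    · rw [map_add, QuadraticAlgebra.re_add, coeff_add, QuadraticAlgebra.im_add, a2, b2, add_zero]
    · rw [map_add, QuadraticAlgebra.im_add, coeff_add, QuadraticAlgebra.re_add, coeff_add, a3 m, b3 m,
        coeff_add, QuadraticAlgebra.im_add, coeff_add]
    · rw [map_add, QuadraticAlgebra.im_add, coeff_add, QuadraticAlgebra.im_add, a4, b4, add_zero]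
  | monomial n a =>
    intro l
    have hre : (EE (monomial n a)).re.coeff l = ⟨C (a.re.coeff l) * X ^ n, 0⟩ := by
      rw [EE_monomial, re_mul']
      simp only [mul_zero, add_zero, jj_re, coeff_mul_C, coeff_map, ccHom_apply]
      exact cc_mul_Xp_pow _ _
    have him : (EE (monomial n a)).im.coeff l = ⟨C (a.im.coeff l) * X ^ n, 0⟩ := by
      rw [EE_monomial, im_mul']
      simp only [mul_zero, zero_add, jj_im, coeff_mul_C, coeff_map, ccHom_apply]
      exact cc_mul_Xp_pow _ _
    rw [hre, him]
    refine ⟨fun m => ?_, rfl, fun m => ?_, rfl⟩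
    · simp only [coeff_C_mul, coeff_X_pow, coeff_monomial]
      by_cases hmn : n = m
      · subst hmn; simp
      · rw [if_neg (fun h => hmn h.symm), if_neg hmn]; simp
    · simp only [coeff_C_mul, coeff_X_pow, coeff_monomial]
      by_cases hmn : n = m
      · subst hmn; simp
      · rw [if_neg (fun h => hmn h.symm), if_neg hmn]; simp

private lemma ccYp_sq : (cc Yp : OO (OO B)) * cc Yp = EE (X ^ 3 - X) := by
  rw [map_sub, map_pow, EE_X, ← cc_mul, ← pow_two, Yp_sq, ← cc_pow]
  have : ∀ a b : OO B, cc (a - b) = cc a - cc b := fun a b => map_sub ccHom a b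
  rw [this]

private lemma swap_mul_aux {R : Type} [CommRing R] (a b c d y w : R) (h : y * y = w) :
    (a * c + w * b * d) + (a * d + b * c) * y = (a + b * y) * (c + d * y) := by
  subst h; ring

/-- the exchange of the two pairs of variables -/
private noncomputable def SW : OO (OO B) →+* OO (OO B) where
  toFun h := EE h.re + EE h.im * cc Yp
  map_one' := by
    rw [re_one', im_one', map_one, map_zero, zero_mul, add_zero]
  map_mul' a b := by
    rw [re_mul', im_mul', map_add, map_add, map_mul, map_mul, map_mul, map_mul, map_mul]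
    exact swap_mul_aux _ _ _ _ _ _ ccYp_sq
  map_zero' := by
    rw [QuadraticAlgebra.re_zero, QuadraticAlgebra.im_zero, map_zero, zero_mul, add_zero]
  map_add' a b := by
    rw [QuadraticAlgebra.re_add, QuadraticAlgebra.im_add, map_add, map_add, add_mul]
    abel

private lemma SW_apply (h : OO (OO B)) : SW h = EE h.re + EE h.im * cc Yp := rfl

private lemma mul_Yp_of_im_zero (e : OO B) (he : e.im = 0) : (e * Yp).re = 0 ∧ (e * Yp).im = e.re := by
  constructor
  · rw [re_mul', he]; simp
  · rw [im_mul', he]; simp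

private lemma SW_re (h : OO (OO B)) (l : ℕ) :
    (SW h).re.coeff l = (EE h.re).re.coeff l + (EE h.im).re.coeff l * Yp := by
  rw [SW_apply, QuadraticAlgebra.re_add, re_mul', mul_zero, add_zero, coeff_add, coeff_mul_C]

private lemma SW_im (h : OO (OO B)) (l : ℕ) :
    (SW h).im.coeff l = (EE h.re).im.coeff l + (EE h.im).im.coeff l * Yp := by
  rw [SW_apply, QuadraticAlgebra.im_add, im_mul', mul_zero, zero_add, coeff_add, coeff_mul_C]

end swapaux

/-- TARGET. The automorphism of `OO (OO F_3)` exchanging the two pairs of variables, described on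
coefficients. -/
theorem exists_swap : ∃ sw : OO (OO (ZMod 3)) →+* OO (OO (ZMod 3)),
    (∀ h l m, ((sw h).re.coeff l).re.coeff m = (h.re.coeff m).re.coeff l) ∧
    (∀ h l m, ((sw h).re.coeff l).im.coeff m = (h.im.coeff m).re.coeff l) ∧
    (∀ h l m, ((sw h).im.coeff l).re.coeff m = (h.re.coeff m).im.coeff l) ∧
    (∀ h l m, ((sw h).im.coeff l).im.coeff m = (h.im.coeff m).im.coeff l) := by
  refine ⟨SW, fun h l m => ?_, fun h l m => ?_, fun h l m => ?_, fun h l m => ?_⟩
  · obtain ⟨a1, a2, a3, a4⟩ := EE_formula h.re l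
    obtain ⟨b1, b2, b3, b4⟩ := EE_formula h.im l
    rw [SW_re, QuadraticAlgebra.re_add, coeff_add, a1, (mul_Yp_of_im_zero _ b2).1, coeff_zero, add_zero]
  · obtain ⟨a1, a2, a3, a4⟩ := EE_formula h.re l
    obtain ⟨b1, b2, b3, b4⟩ := EE_formula h.im l
    rw [SW_re, QuadraticAlgebra.im_add, coeff_add, a2, (mul_Yp_of_im_zero _ b2).2, coeff_zero, zero_add,
      b1]
  · obtain ⟨a1, a2, a3, a4⟩ := EE_formula h.re l
    obtain ⟨b1, b2, b3, b4⟩ := EE_formula h.im l
    rw [SW_im, QuadraticAlgebra.re_add, coeff_add, a3, (mul_Yp_of_im_zero _ b4).1, coeff_zero, add_zero]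
  · obtain ⟨a1, a2, a3, a4⟩ := EE_formula h.re l
    obtain ⟨b1, b2, b3, b4⟩ := EE_formula h.im l
    rw [SW_im, QuadraticAlgebra.im_add, coeff_add, a4, (mul_Yp_of_im_zero _ b4).2, coeff_zero, zero_add,
      b3]

end Pool.Agent.Helper668.G
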