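import Mathlib
import Pool.Agent.Helper668.GB
import Pool.Agent.Helper668.GR
import Pool.Agent.Helper668.GSW
namespace Pool.Agent.Helper668.G
open Polynomial

noncomputable section

section deg
variable {B : Type} [CommRing B]

open Classical in
/-- pole order -/
def deg (h : OO B) : ℕ := if hh : h = 0 then 0 else (exists_top hh).choose

lemma deg_zero : deg (0 : OO B) = 0 := by simp [deg]

lemma deg_spec {h : OO B} (hh : h ≠ 0) : Top (deg h) h := by
  unfold deg
  rw [dif_neg hh]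
  exact (exists_top hh).choose_spec

lemma PX_deg (h : OO B) : PX (deg h) h := by
  by_cases hh : h = 0
  · subst hh; exact PX_zero _
  · exact (deg_spec hh).2.1

lemma deg_le_iff {h : OO B} {n : ℕ} : deg h ≤ n ↔ PX n h := by
  constructor
  · intro hn; exact (PX_deg h).mono hn
  · intro hn
    by_cases hh : h = 0
    · subst hh; rw [deg_zero]; exact Nat.zero_le _
    · exact (deg_spec hh).le_of_PX hn

lemma deg_eq {h : OO B} {n : ℕ} (hn : Top n h) : deg h = n := (deg_spec hn.ne_zero).unique hn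

lemma deg_mul [IsDomain B] {a b : OO B} (ha : a ≠ 0) (hb : b ≠ 0) :
    deg (a * b) = deg a + deg b :=
  deg_eq ((deg_spec ha).mul (deg_spec hb))

lemma deg_add (a b : OO B) : deg (a + b) ≤ max (deg a) (deg b) := by
  rw [deg_le_iff]
  exact ((PX_deg a).mono (le_max_left _ _)).add ((PX_deg b).mono (le_max_right _ _))

lemma le_of_cf {n m : ℕ} {h : OO B} (hm : m ≠ 1) (h1 : cf m h ≠ 0) (h2 : PX n h) : m ≤ n := by
  unfold cf at h1
  split_ifs at h1 with h4
  · have := h2.1 _ h1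
    omega
  · have := h2.2 _ h1
    omega

lemma PX_ee_cc {M : ℕ} (hM : M ≠ 1) (b : B) : PX M (ee M * cc b) := by
  unfold ee
  split_ifs with h
  · apply PX_of_deg
    · rw [re_mul']
      simp only [mul_zero, add_zero]
      refine (natDegree_mul_C_le _ _).trans ((natDegree_X_pow_le _).trans ?_)
      omega
    · left; simp
  · apply PX_of_deg
    · simp
    · right
      refine ⟨by omega, ?_⟩
      rw [im_mul']
      simp only [zero_mul, zero_add, mul_zero]
      exact (natDegree_mul_C_le _ _).trans (natDegree_X_pow_le _)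

lemma cf_ee_cc {M : ℕ} (b : B) : cf M (ee M * cc b) = b := by
  unfold ee cf
  split_ifs with h
  · rw [re_mul']
    simp
  · rw [im_mul']
    simp

lemma nx_gen [IsDomain B] (θ : B →+ B) (e : ℕ) (hd : HasDual θ^[e] (3 ^ e)) (u : OO B) (hu : u ≠ 0)
    (a : ℤ) (c i0 : ℕ)
    (hyp : ∀ i' : ℕ, i0 ≤ i' → ∀ h : OO B, (deg h : ℤ) ≤ 2 * (3 ^ e * i' - a) →
      deg ((Phi θ)^[e] (u * h)) ≤ 2 * i' + c) : (deg u : ℤ) ≤ 2 * a + 3 ^ e * c := by
  have hN := deg_spec hu
  set N := deg u with hNdef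
  obtain ⟨q, hq⟩ : ∃ q : ℕ, q = 3 ^ e := ⟨_, rfl⟩
  have hq1 : 1 ≤ q := by rw [hq]; exact Nat.one_le_pow _ _ (by norm_num)
  have hqz : (3 : ℤ) ^ e = q := by rw [hq]; push_cast; rfl
  -- choose i'
  set i' := i0 + a.natAbs + q + 2 with hi'
  have hb0 : (0 : ℤ) ≤ q * i' - a - (q + 2) := by
    have h1 : (i' : ℤ) ≤ q * i' := by
      have : (1 : ℤ) ≤ q := by exact_mod_cast hq1
      nlinarith [Int.natCast_nonneg i']
    have h2 : (i' : ℤ) = i0 + a.natAbs + q + 2 := by rw [hi']; push_cast; ring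
    omega
  obtain ⟨b, hb⟩ : ∃ b : ℕ, (b : ℤ) = q * i' - a := ⟨((q : ℤ) * i' - a).toNat, by omega⟩
  have hbq : q + 2 ≤ b := by omega
  -- choose M
  obtain ⟨M, hM1, hM2, m, hm, hNM⟩ : ∃ M, 2 * b < M + q ∧ M ≤ 2 * b ∧ ∃ m, 2 ≤ m ∧
      N + M = q * (m - 1) + 1 := by
    set r := (N + 2 * b - 1) % q with hr
    have hr1 : r < q := Nat.mod_lt _ hq1
    have hdm := Nat.div_add_mod (N + 2 * b - 1) q
    refine ⟨2 * b - r, by omega, by omega, (N + 2 * b - 1) / q + 1, ?_, ?_⟩
    · have : 1 ≤ (N + 2 * b - 1) / q := by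
        rw [Nat.one_le_div_iff hq1]; omega
      omega
    · rw [Nat.add_sub_cancel]
      have : q * ((N + 2 * b - 1) / q) = N + 2 * b - 1 - r := by omega
      rw [this]; omega
  have hMne : M ≠ 1 := by omega
  -- dual element
  obtain ⟨bs, hbs⟩ : ∃ bs : B, θ^[e] (cf N u * bs) ≠ 0 := by
    by_contra hne
    push Not at hne
    obtain ⟨ι, _, b', bs', hb'⟩ := hd
    apply hN.2.2
    rw [hb' (cf N u)]
    apply Finset.sum_eq_zero
    intro i _
    rw [hne, zero_pow (by rw [← hq]; omega), zero_mul]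
  obtain ⟨h1, h2⟩ := top_mul_aux hN.1 hMne hN.2.1 (PX_ee_cc hMne bs)
  rw [cf_ee_cc] at h2
  have h3 := hyp i' (by omega) (ee M * cc bs) (by
    have : deg (ee M * cc bs) ≤ M := deg_le_iff.mpr (PX_ee_cc hMne bs)
    rw [hqz]
    have : (M : ℤ) ≤ 2 * b := by exact_mod_cast hM2
    omega)
  rw [deg_le_iff] at h3
  have h4 : cf m ((Phi θ)^[e] (u * (ee M * cc bs))) = θ^[e] (cf N u * bs) := by
    have h5 : 3 ^ e * (m - 1) + 1 = N + M := by rw [← hq]; exact hNM.symm
    rw [Phi_iter_cf θ e hm (by rw [h5]; exact h1), h5, h2]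
  have h6 : m ≤ 2 * i' + c := le_of_cf (m := m) (by omega) (by rw [h4]; exact hbs) h3
  rw [hqz]
  -- N + M - 1 = q (m-1) ≤ q (2i'+c-1)
  have h7 : (q : ℤ) * (m - 1 : ℕ) ≤ q * (2 * i' + c - 1) := by
    apply mul_le_mul_of_nonneg_left _ (by omega)
    omega
  have h8 : (N : ℤ) + M = q * (m - 1 : ℕ) + 1 := by exact_mod_cast hNM
  have h9 : (2 : ℤ) * b + 1 ≤ M + q := by omega
  nlinarith

end deg

/-- `F_3[x2,y2]` -/
abbrev O1 : Type := OO (ZMod 3)
/-- `F_3[x1,y1] ⊗ F_3[x2,y2]` -/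
abbrev O2 : Type := OO O1

/-- the swap -/
def sw : O2 →+* O2 := exists_swap.choose

lemma sw_rr (h : O2) (l m : ℕ) : ((sw h).re.coeff l).re.coeff m = (h.re.coeff m).re.coeff l :=
  exists_swap.choose_spec.1 h l m
lemma sw_ri (h : O2) (l m : ℕ) : ((sw h).re.coeff l).im.coeff m = (h.im.coeff m).re.coeff l :=
  exists_swap.choose_spec.2.1 h l m
lemma sw_ir (h : O2) (l m : ℕ) : ((sw h).im.coeff l).re.coeff m = (h.re.coeff m).im.coeff l :=
  exists_swap.choose_spec.2.2.1 h l m
lemma sw_ii (h : O2) (l m : ℕ) : ((sw h).im.coeff l).im.coeff m = (h.im.coeff m).im.coeff l :=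
  exists_swap.choose_spec.2.2.2 h l m

lemma O2_ext {a b : O2} (h1 : ∀ l m, (a.re.coeff l).re.coeff m = (b.re.coeff l).re.coeff m)
    (h2 : ∀ l m, (a.re.coeff l).im.coeff m = (b.re.coeff l).im.coeff m)
    (h3 : ∀ l m, (a.im.coeff l).re.coeff m = (b.im.coeff l).re.coeff m)
    (h4 : ∀ l m, (a.im.coeff l).im.coeff m = (b.im.coeff l).im.coeff m) : a = b := by
  apply QuadraticAlgebra.ext
  · apply Polynomial.ext
    intro l
    apply QuadraticAlgebra.ext
    · apply Polynomial.ext; intro m; exact h1 l m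
    · apply Polynomial.ext; intro m; exact h2 l m
  · apply Polynomial.ext
    intro l
    apply QuadraticAlgebra.ext
    · apply Polynomial.ext; intro m; exact h3 l m
    · apply Polynomial.ext; intro m; exact h4 l m

lemma sw_sw (h : O2) : sw (sw h) = h := by
  apply O2_ext
  · intro l m; rw [sw_rr, sw_rr]
  · intro l m; rw [sw_ri, sw_ir]
  · intro l m; rw [sw_ir, sw_ri]
  · intro l m; rw [sw_ii, sw_ii]

lemma sw_ne {h : O2} (hh : h ≠ 0) : sw h ≠ 0 := by
  intro h0
  apply hh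
  rw [← sw_sw h, h0, map_zero]

/-- Cartier operator on constants -/
def th0 : ZMod 3 →+ ZMod 3 := AddMonoidHom.id _
/-- Cartier operator on `O1` -/
def th1 : O1 →+ O1 := Phi th0
/-- Cartier operator on `O2` -/
def th2 : O2 →+ O2 := Phi th1

lemma th0_lin (c b : ZMod 3) : th0 (c ^ 3 * b) = c * th0 b := by
  show c ^ 3 * b = c * b
  have : ∀ c : ZMod 3, c ^ 3 = c := by decide
  rw [this]

instance : CharP O1 3 := charP_of_injective_algebraMap (algebraMap (ZMod 3) O1).injective 3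
instance : CharP O2 3 := charP_of_injective_algebraMap (algebraMap (ZMod 3) O2).injective 3

lemma th1_lin (c b : O1) : th1 (c ^ 3 * b) = c * th1 b := Phi_lin th0 th0_lin c b
lemma th2_lin (c b : O2) : th2 (c ^ 3 * b) = c * th2 b := Phi_lin th1 th1_lin c b

lemma th0_dual : HasDual th0 3 := by
  refine ⟨Unit, inferInstance, fun _ => 1, fun _ => 1, fun x => ?_⟩
  have : ∀ c : ZMod 3, c ^ 3 = c := by decide
  simp only [mul_one, Finset.univ_unique, Finset.sum_const, Finset.card_singleton, one_smul]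
  show x = x ^ 3
  rw [this]

lemma th1_dual : HasDual th1 3 := Phi_hasDual th0 th0_lin th0_dual
lemma th2_dual : HasDual th2 3 := Phi_hasDual th1 th1_lin th1_dual

lemma Phi_re_coeff {B : Type} [CommRing B] (θ : B →+ B) (h : OO B) (l : ℕ) :
    (Phi θ h).re.coeff l =
      (if l = 0 then 0 else θ (h.re.coeff (3 * l - 1))) - θ (h.re.coeff (3 * l + 1)) := by
  rw [Phi_re, coeff_sub, sec_coeff θ (by norm_num)]
  congr 1
  rcases l with _ | l
  · simp
  · rw [coeff_X_mul, sec_coeff θ (by norm_num), if_neg (by omega)]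
    congr 2

lemma Phi_im_coeff {B : Type} [CommRing B] (θ : B →+ B) (h : OO B) (l : ℕ) :
    (Phi θ h).im.coeff l = θ (h.im.coeff (3 * l + 2)) := by
  rw [Phi_im, sec_coeff θ (by norm_num)]

lemma sw_th2 (h : O2) : sw (th2 h) = th2 (sw h) := by
  have e0 : ∀ x, th0 x = x := fun x => rfl
  apply O2_ext
  · intro l m
    rw [sw_rr]
    unfold th2
    rw [Phi_re_coeff, Phi_re_coeff]
    unfold th1
    rcases l with _ | l <;> rcases m with _ | m <;>
      simp only [QuadraticAlgebra.re_sub, coeff_sub, Phi_re_coeff, if_true, e0, sw_rr,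
        QuadraticAlgebra.re_zero, coeff_zero, if_neg (Nat.succ_ne_zero _)] <;> ring
  · intro l m
    rw [sw_ri]
    unfold th2
    rw [Phi_re_coeff, Phi_im_coeff]
    unfold th1
    rcases l with _ | l <;>
      simp only [QuadraticAlgebra.im_sub, coeff_sub, Phi_re_coeff, Phi_im_coeff, if_true, e0, sw_ri,
        QuadraticAlgebra.im_zero, coeff_zero, if_neg (Nat.succ_ne_zero _)]
  · intro l m
    rw [sw_ir]
    unfold th2
    rw [Phi_re_coeff, Phi_im_coeff]
    unfold th1
    rcases m with _ | m <;>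
      simp only [QuadraticAlgebra.im_sub, coeff_sub, Phi_re_coeff, Phi_im_coeff, if_true, e0, sw_ir,
        QuadraticAlgebra.im_zero, coeff_zero, if_neg (Nat.succ_ne_zero _)]
  · intro l m
    rw [sw_ii]
    unfold th2
    rw [Phi_im_coeff, Phi_im_coeff]
    unfold th1
    rw [Phi_im_coeff, Phi_im_coeff, e0, e0, sw_ii]

lemma sw_iter (e : ℕ) (h : O2) : sw (th2^[e] h) = th2^[e] (sw h) := by
  induction e generalizing h with
  | zero => rfl
  | succ e ih => rw [Function.iterate_succ_apply, Function.iterate_succ_apply, ih, sw_th2]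

end

end Pool.Agent.Helper668.G
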