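import Mathlib
import Pool.Agent.Helper668.GR
namespace Pool.Agent.Helper668.G

noncomputable section

namespace BD

variable {A : Type} [CommRing A] [IsDomain A] [Algebra (ZMod 3) A] [IsIntegrallyClosed A] (D : BD A)

/-- real elements of `L(v)` -/
private def em (a : A) : D.L2 := ⟨algebraMap A (FractionRing A) a, 0⟩

/-- imaginary elements of `L(v)` -/
private def iv (a : A) : D.L2 := ⟨0, algebraMap A (FractionRing A) a⟩

omit [IsIntegrallyClosed A] in
private lemma em_zero : D.em 0 = 0 := by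
  apply QuadraticAlgebra.ext
  · simp [em]
  · simp [em]

omit [IsIntegrallyClosed A] in
private lemma em_add (a b : A) : D.em (a + b) = D.em a + D.em b := by
  apply QuadraticAlgebra.ext
  · simp [em]
  · simp [em]

omit [IsIntegrallyClosed A] in
private lemma em_sub (a b : A) : D.em (a - b) = D.em a - D.em b := by
  apply QuadraticAlgebra.ext
  · simp [em]
  · simp [em]

omit [IsIntegrallyClosed A] in
private lemma em_mul (a b : A) : D.em (a * b) = D.em a * D.em b := by
  apply QuadraticAlgebra.ext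
  · simp [em]
  · simp [em]

omit [IsIntegrallyClosed A] in
private lemma iv_mul (b d : A) (h : b ^ 2 = D.f * d) : D.iv b * D.iv b = D.em d := by
  have hfL : algebraMap A (FractionRing A) D.f ≠ 0 := by
    rw [Ne, ← map_zero (algebraMap A (FractionRing A)),
      (IsFractionRing.injective A (FractionRing A)).eq_iff]
    exact D.f_ne
  have h' := congrArg (algebraMap A (FractionRing A)) h
  rw [map_pow, map_mul] at h'
  apply QuadraticAlgebra.ext
  · simp only [iv, em, QuadraticAlgebra.re_mul]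
    field_simp
    linear_combination h'
  · simp [em, iv]

omit [IsIntegrallyClosed A] in
private lemma InC_em {i n : ℕ} {a : A} (h1 : D.dx a ≤ 2 * i) (h2 : D.dy a ≤ 2 * n) :
    InC D i n (D.em a) :=
  ⟨a, 0, rfl, (map_zero _).symm, h1, h2, by simp [D.dx_zero], by simp [D.dy_zero], by simp⟩

private lemma mono_mem {g : sg →₀ ℕ} {c : D.L2} (h : InC D (w1 g) (w2 g) c) :
    MvPolynomial.monomial g c ∈ D.RR := by
  intro g'
  rw [MvPolynomial.coeff_monomial]
  split_ifs with hg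
  · rw [← hg]; exact h
  · exact InC_zero _ _

/-- the polynomial `x` is in `R` and belongs to the ideal `P` -/
private def PP (P : Ideal D.RR) (x : MvPolynomial sg D.L2) : Prop :=
  ∃ hx : x ∈ D.RR, (⟨x, hx⟩ : D.RR) ∈ P

variable {D} {P : Ideal D.RR} {x y : MvPolynomial sg D.L2}

private lemma PP.mul_left (hx : x ∈ D.RR) (hy : PP D P y) : PP D P (x * y) := by
  obtain ⟨hy1, hy2⟩ := hy
  have h1 : x * y ∈ D.RR := D.RR.mul_mem hx hy1
  have h2 : (⟨x, hx⟩ : D.RR) * ⟨y, hy1⟩ ∈ P := P.mul_mem_left _ hy2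
  have h3 : (⟨x, hx⟩ : D.RR) * ⟨y, hy1⟩ = ⟨x * y, h1⟩ := rfl
  rw [h3] at h2
  exact ⟨h1, h2⟩

private lemma PP.mul_right (hx : PP D P x) (hy : y ∈ D.RR) : PP D P (x * y) := by
  rw [mul_comm]; exact hx.mul_left hy

private lemma PP.add (hx : PP D P x) (hy : PP D P y) : PP D P (x + y) := by
  obtain ⟨hx1, hx2⟩ := hx
  obtain ⟨hy1, hy2⟩ := hy
  have h1 : x + y ∈ D.RR := D.RR.add_mem hx1 hy1
  have h2 : (⟨x, hx1⟩ : D.RR) + ⟨y, hy1⟩ ∈ P := P.add_mem hx2 hy2
  have h3 : (⟨x, hx1⟩ : D.RR) + ⟨y, hy1⟩ = ⟨x + y, h1⟩ := rfl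
  rw [h3] at h2
  exact ⟨h1, h2⟩

variable (D) in
private lemma neg_one_mem_RR : (-1 : MvPolynomial sg D.L2) ∈ D.RR := by
  have h : (1 : MvPolynomial sg D.L2) ∈ D.RR := D.RR.one_mem
  intro g
  rw [MvPolynomial.coeff_neg]
  exact (h g).neg

private lemma PP.sub (hx : PP D P x) (hy : PP D P y) : PP D P (x - y) := by
  have e : x - y = x + (-1) * y := by ring
  rw [e]
  exact hx.add (hy.mul_left (neg_one_mem_RR D))

private lemma PP.zero : PP D P 0 := ⟨zero_mem _, P.zero_mem⟩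

private lemma PP.of_sq (hP : P.IsPrime) (hx : x ∈ D.RR) (h : PP D P (x * x)) : PP D P x := by
  obtain ⟨h1, h2⟩ := h
  refine ⟨hx, ?_⟩
  have : (⟨x * x, h1⟩ : D.RR) = ⟨x, hx⟩ * ⟨x, hx⟩ := rfl
  rw [this] at h2
  rcases hP.mem_or_mem h2 with h | h <;> exact h

variable (D)

omit [IsDomain A] [IsIntegrallyClosed A] in
private lemma sq_emon {X Y : A} (h : Y ^ 2 = X ^ 3 - X) (m : ℕ) (hm : m ≠ 1) :
    emon X Y m ^ 2 = X ^ m ∨ emon X Y m ^ 2 = X ^ m - X ^ (m - 2) := by
  unfold emon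
  split_ifs with he
  · left
    rw [← pow_mul]
    congr 1; omega
  · right
    obtain ⟨k, hk⟩ : ∃ k, m = 2 * k + 3 := ⟨(m - 3) / 2, by omega⟩
    subst hk
    rw [show (2 * k + 3 - 3) / 2 = k by omega, show 2 * k + 3 - 2 = 2 * k + 1 by omega, mul_pow, h]
    ring

omit [IsIntegrallyClosed A] in
private lemma dx_emon1 (m : ℕ) (hm : m ≠ 1) : D.dx (emon D.X1 D.Y1 m) ≤ m := by
  unfold emon
  split_ifs with he
  · rw [D.dx_pow, D.dx_X1]; omega
  · refine (D.dx_mul_le _ _).trans ?_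
    rw [D.dx_pow, D.dx_X1, D.dx_Y1]; omega

omit [IsIntegrallyClosed A] in
private lemma dy_emon1 (m : ℕ) : D.dy (emon D.X1 D.Y1 m) ≤ 0 := by
  unfold emon
  split_ifs with he
  · rw [D.dy_pow, D.dy_X1]; omega
  · refine (D.dy_mul_le _ _).trans ?_
    rw [D.dy_pow, D.dy_X1, D.dy_Y1]; omega

omit [IsIntegrallyClosed A] in
private lemma dy_emon2 (m : ℕ) (hm : m ≠ 1) : D.dy (emon D.X2 D.Y2 m) ≤ m := by
  unfold emon
  split_ifs with he
  · rw [D.dy_pow, D.dy_X2]; omega
  · refine (D.dy_mul_le _ _).trans ?_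
    rw [D.dy_pow, D.dy_X2, D.dy_Y2]; omega

omit [IsIntegrallyClosed A] in
private lemma dx_emon2 (m : ℕ) : D.dx (emon D.X2 D.Y2 m) ≤ 0 := by
  unfold emon
  split_ifs with he
  · rw [D.dx_pow, D.dx_X2]; omega
  · refine (D.dx_mul_le _ _).trans ?_
    rw [D.dx_pow, D.dx_X2, D.dx_Y2]; omega

/-- real monomials -/
private def mo (g : sg →₀ ℕ) (a : A) : MvPolynomial sg D.L2 := MvPolynomial.monomial g (D.em a)

omit [IsIntegrallyClosed A] in
private lemma mo_mul (g h : sg →₀ ℕ) (a b : A) : D.mo g a * D.mo h b = D.mo (g + h) (a * b) := by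
  unfold mo
  rw [MvPolynomial.monomial_mul, em_mul]

omit [IsIntegrallyClosed A] in
private lemma mo_add (g : sg →₀ ℕ) (a b : A) : D.mo g (a + b) = D.mo g a + D.mo g b := by
  unfold mo
  rw [em_add, map_add]

omit [IsIntegrallyClosed A] in
private lemma mo_sub (g : sg →₀ ℕ) (a b : A) : D.mo g (a - b) = D.mo g a - D.mo g b := by
  unfold mo
  rw [em_sub, map_sub]

private lemma mo_mem {g : sg →₀ ℕ} {a : A} (h1 : D.dx a ≤ 2 * w1 g) (h2 : D.dy a ≤ 2 * w2 g) :
    D.mo g a ∈ D.RR := D.mono_mem (D.InC_em h1 h2)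

private lemma w1_single_none (k : ℕ) : w1 (Finsupp.single none k) = k := by simp [w1]
private lemma w2_single_none (k : ℕ) : w2 (Finsupp.single none k) = 0 := by simp [w2]
private lemma w1_single_some (l : Fin 6) (k : ℕ) : w1 (Finsupp.single (some l) k) = 0 := by simp [w1]
private lemma w2_single_some (l : Fin 6) (k : ℕ) : w2 (Finsupp.single (some l) k) = k := by
  simp [w2, Finsupp.single_apply]

omit [IsIntegrallyClosed A] in
private lemma dx_XX (i j : ℕ) : D.dx (D.X1 ^ i * D.X2 ^ j) ≤ 2 * i := by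
  refine (D.dx_mul_le _ _).trans ?_
  rw [D.dx_pow, D.dx_pow, D.dx_X1, D.dx_X2]; omega

omit [IsIntegrallyClosed A] in
private lemma dy_XX (i j : ℕ) : D.dy (D.X1 ^ i * D.X2 ^ j) ≤ 2 * j := by
  refine (D.dy_mul_le _ _).trans ?_
  rw [D.dy_pow, D.dy_pow, D.dy_X1, D.dy_X2]; omega

variable {D}

/-- the basic elements are in `P` -/
structure Base (P : Ideal D.RR) : Prop where
  s : PP D P (D.mo (Finsupp.single none 1) 1)
  xs : PP D P (D.mo (Finsupp.single none 1) D.X1)
  z : ∀ l : Fin 6, PP D P (D.mo (Finsupp.single (some l) 1) 1)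
  xz : ∀ l : Fin 6, PP D P (D.mo (Finsupp.single (some l) 1) D.X2)

private lemma claimA (hB : Base P) (h : sg →₀ ℕ) (hh : h ≠ 0) (i j : ℕ) (hi : i ≤ w1 h) (hj : j ≤ w2 h) :
    PP D P (D.mo h (D.X1 ^ i * D.X2 ^ j)) := by
  by_cases h0 : h none = 0
  · have hi0 : i = 0 := by
      have : w1 h = 0 := h0
      omega
    subst hi0
    obtain ⟨l, hl⟩ : ∃ l : Fin 6, h (some l) ≠ 0 := by
      by_contra hcon
      push Not at hcon
      apply hh
      ext a
      rcases a with _ | l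
      · exact h0
      · exact hcon l
    obtain ⟨h', hh'⟩ : ∃ h', h = Finsupp.single (some l) 1 + h' := by
      refine ⟨h - Finsupp.single (some l) 1, ?_⟩
      rw [add_tsub_cancel_of_le]
      rw [Finsupp.single_le_iff]; omega
    have hw : w2 h = 1 + w2 h' := by rw [hh', w2_add, w2_single_some]
    have hw' : w1 h = w1 h' := by rw [hh', w1_add, w1_single_some, zero_add]
    rcases j with _ | j
    · have e : D.mo h (D.X1 ^ 0 * D.X2 ^ 0) = D.mo (Finsupp.single (some l) 1) 1 *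
          D.mo h' (D.X1 ^ 0 * D.X2 ^ 0) := by
        rw [mo_mul, ← hh', one_mul]
      rw [e]
      exact (hB.z l).mul_right (D.mo_mem ((D.dx_XX 0 0).trans (by omega))
        ((D.dy_XX 0 0).trans (by omega)))
    · have e : D.mo h (D.X1 ^ 0 * D.X2 ^ (j + 1)) = D.mo (Finsupp.single (some l) 1) D.X2 *
          D.mo h' (D.X1 ^ 0 * D.X2 ^ j) := by
        rw [mo_mul, ← hh']
        congr 1; ring
      rw [e]
      exact (hB.xz l).mul_right (D.mo_mem ((D.dx_XX 0 j).trans (by omega))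
        ((D.dy_XX 0 j).trans (by omega)))
  · obtain ⟨h', hh'⟩ : ∃ h', h = Finsupp.single none 1 + h' := by
      refine ⟨h - Finsupp.single none 1, ?_⟩
      rw [add_tsub_cancel_of_le]
      rw [Finsupp.single_le_iff]; omega
    have hw : w1 h = 1 + w1 h' := by rw [hh', w1_add, w1_single_none]
    have hw' : w2 h = w2 h' := by rw [hh', w2_add, w2_single_none, zero_add]
    rcases i with _ | i
    · have e : D.mo h (D.X1 ^ 0 * D.X2 ^ j) = D.mo (Finsupp.single none 1) 1 *
          D.mo h' (D.X1 ^ 0 * D.X2 ^ j) := by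
        rw [mo_mul, ← hh', one_mul]
      rw [e]
      exact hB.s.mul_right (D.mo_mem ((D.dx_XX 0 j).trans (by omega))
        ((D.dy_XX 0 j).trans (by omega)))
    · have e : D.mo h (D.X1 ^ (i + 1) * D.X2 ^ j) = D.mo (Finsupp.single none 1) D.X1 *
          D.mo h' (D.X1 ^ i * D.X2 ^ j) := by
        rw [mo_mul, ← hh']
        congr 1; ring
      rw [e]
      exact hB.xs.mul_right (D.mo_mem ((D.dx_XX i j).trans (by omega))
        ((D.dy_XX i j).trans (by omega)))

private lemma double_ne {g : sg →₀ ℕ} (hg : g ≠ 0) : g + g ≠ 0 := by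
  intro h
  apply hg
  ext a
  have := DFunLike.congr_fun h a
  simp only [Finsupp.coe_add, Pi.add_apply, Finsupp.coe_zero, Pi.zero_apply] at this ⊢
  omega

private lemma claimB (hP : P.IsPrime) (hB : Base P) (g : sg →₀ ℕ) (hg : g ≠ 0) (a : A)
    (h1 : D.dx a ≤ 2 * w1 g) (h2 : D.dy a ≤ 2 * w2 g) : PP D P (D.mo g a) := by
  refine Submodule.span_induction (p := fun z _ => PP D P (D.mo g z)) ?_ ?_ ?_ ?_ (D.span_e a)
  · rintro z ⟨m, n, hm, hn, hm', hn', rfl⟩
    have k1 : D.dx (emon D.X1 D.Y1 m * emon D.X2 D.Y2 n) ≤ 2 * w1 g := by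
      have := D.dx_mul_le (emon D.X1 D.Y1 m) (emon D.X2 D.Y2 n)
      have := D.dx_emon1 m hm
      have := D.dx_emon2 n
      omega
    have k2 : D.dy (emon D.X1 D.Y1 m * emon D.X2 D.Y2 n) ≤ 2 * w2 g := by
      have := D.dy_mul_le (emon D.X1 D.Y1 m) (emon D.X2 D.Y2 n)
      have := D.dy_emon1 m
      have := D.dy_emon2 n hn
      omega
    apply PP.of_sq hP (D.mo_mem k1 k2)
    rw [mo_mul]
    have key : ∀ i j, i ≤ m → j ≤ n → PP D P (D.mo (g + g) (D.X1 ^ i * D.X2 ^ j)) := by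
      intro i j hi hj
      apply claimA hB (g + g) (double_ne hg)
      · rw [w1_add]; omega
      · rw [w2_add]; omega
    have e : emon D.X1 D.Y1 m * emon D.X2 D.Y2 n * (emon D.X1 D.Y1 m * emon D.X2 D.Y2 n)
        = emon D.X1 D.Y1 m ^ 2 * emon D.X2 D.Y2 n ^ 2 := by ring
    rw [e]
    rcases sq_emon D.rel1 m hm with s1 | s1 <;> rcases sq_emon D.rel2 n hn with s2 | s2 <;>
      rw [s1, s2]
    · exact key m n le_rfl le_rfl
    · rw [mul_sub, mo_sub]
      exact (key m n le_rfl le_rfl).sub (key m (n - 2) le_rfl (by omega))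
    · rw [sub_mul, mo_sub]
      exact (key m n le_rfl le_rfl).sub (key (m - 2) n (by omega) le_rfl)
    · rw [sub_mul, mul_sub, mul_sub, mo_sub, mo_sub, mo_sub]
      exact ((key m n le_rfl le_rfl).sub (key m (n - 2) le_rfl (by omega))).sub
        ((key (m - 2) n (by omega) le_rfl).sub (key (m - 2) (n - 2) (by omega) (by omega)))
  · have : D.mo g 0 = 0 := by unfold mo; rw [em_zero, map_zero]
    rw [this]; exact PP.zero
  · intro x y _ _ hx hy
    rw [mo_add]; exact hx.add hy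
  · intro c x _ hx
    have hc : c = 0 ∨ c = 1 ∨ c = 1 + 1 := by revert c; decide
    rcases hc with rfl | rfl | rfl
    · rw [zero_smul]
      have : D.mo g 0 = 0 := by unfold mo; rw [em_zero, map_zero]
      rw [this]; exact PP.zero
    · rw [one_smul]; exact hx
    · rw [add_smul, one_smul, mo_add]; exact hx.add hx

private lemma claimC (hP : P.IsPrime) (hB : Base P) (g : sg →₀ ℕ) (hg : g ≠ 0) (c : D.L2)
    (hc : InC D (w1 g) (w2 g) c) : PP D P (MvPolynomial.monomial g c) := by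
  obtain ⟨a, b, ha, hb, k1, k2, k3, k4, d, hd⟩ := hc
  have e : c = D.em a + D.iv b := by
    apply QuadraticAlgebra.ext
    · simp [em, iv, ha]
    · simp [em, iv, hb]
  rw [e, map_add]
  refine PP.add (claimB hP hB g hg a k1 k2) ?_
  have hmem : MvPolynomial.monomial g (D.iv b) ∈ D.RR :=
    D.mono_mem ⟨0, b, (map_zero _).symm, rfl, by simp [D.dx_zero], by simp [D.dy_zero], k3, k4,
      ⟨d, hd⟩⟩
  apply PP.of_sq hP hmem
  rw [MvPolynomial.monomial_mul, D.iv_mul b d hd]
  have hdx : D.dx d ≤ 2 * w1 (g + g) := by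
    by_cases hd0 : d = 0
    · simp [hd0, D.dx_zero]
    have h1 : D.dx (b ^ 2) = 3 + D.dx d := by rw [hd, D.dx_mul _ _ D.f_ne hd0, D.dx_f]
    rw [D.dx_pow] at h1
    rw [w1_add]; omega
  have hdy : D.dy d ≤ 2 * w2 (g + g) := by
    by_cases hd0 : d = 0
    · simp [hd0, D.dy_zero]
    have h1 : D.dy (b ^ 2) = 6 + D.dy d := by rw [hd, D.dy_mul _ _ D.f_ne hd0, D.dy_f]
    rw [D.dy_pow] at h1
    rw [w2_add]; omega
  exact claimB hP hB (g + g) (double_ne hg) d hdx hdy

private lemma claimD (hP : P.IsPrime) (hB : Base P) : D.mm ≤ P := by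
  rintro ⟨p, hp⟩ hpm
  have h0 : p.coeff 0 = 0 := by
    have : MvPolynomial.constantCoeff p = 0 := hpm
    rwa [MvPolynomial.constantCoeff_eq] at this
  have key : ∀ s : Finset (sg →₀ ℕ), PP D P (∑ g ∈ s, MvPolynomial.monomial g (p.coeff g)) := by
    classical
    intro s
    induction s using Finset.induction_on with
    | empty => simpa using PP.zero
    | insert g s hgs ih =>
      rw [Finset.sum_insert hgs]
      refine PP.add ?_ ih
      by_cases hg : g = 0
      · rw [hg, h0, map_zero]; exact PP.zero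
      · exact claimC hP hB g hg _ (hp g)
  have := key p.support
  rw [MvPolynomial.support_sum_monomial_coeff] at this
  exact this.2

private lemma mo_mem_mm {g : sg →₀ ℕ} (hg : g ≠ 0) {a : A} (h : D.mo g a ∈ D.RR) :
    (⟨D.mo g a, h⟩ : D.RR) ∈ D.mm := by
  change MvPolynomial.constantCoeff (D.mo g a) = 0
  unfold mo
  rw [MvPolynomial.constantCoeff_monomial, if_neg hg]

variable (D)

/-- the element `s` -/
private def gs : D.RR := ⟨D.mo (Finsupp.single none 1) 1, D.mo_mem (by rw [D.dx_one]; omega)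
  (by rw [D.dy_one]; omega)⟩
/-- the element `X1 s` -/
private def gxs : D.RR := ⟨D.mo (Finsupp.single none 1) D.X1, D.mo_mem
  (by rw [D.dx_X1, w1_single_none]) (by rw [D.dy_X1]; omega)⟩
/-- the element `z_l` -/
private def gz (l : Fin 6) : D.RR := ⟨D.mo (Finsupp.single (some l) 1) 1, D.mo_mem
  (by rw [D.dx_one]; omega) (by rw [D.dy_one]; omega)⟩
/-- the element `X2 z_l` -/
private def gxz (l : Fin 6) : D.RR := ⟨D.mo (Finsupp.single (some l) 1) D.X2, D.mo_mem
  (by rw [D.dx_X2]; omega) (by rw [D.dy_X2, w2_single_some])⟩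

/-- the nine elements -/
private def nine : List D.RR := [D.gs, D.gxs, D.gz 0, D.gz 1 + D.gxz 0, D.gz 2 + D.gxz 1, D.gz 3 + D.gxz 2,
  D.gz 4 + D.gxz 3, D.gz 5 + D.gxz 4, D.gxz 5]

variable {D}

private lemma step (hP : P.IsPrime) {l m : Fin 6} (h1 : D.gz l ∈ P) (h2 : D.gz m + D.gxz l ∈ P) :
    D.gxz l ∈ P ∧ D.gz m ∈ P := by
  have h1' : PP D P (D.mo (Finsupp.single (some l) 1) 1) := ⟨_, h1⟩
  have h2' : PP D P (D.mo (Finsupp.single (some m) 1) 1 + D.mo (Finsupp.single (some l) 1) D.X2) :=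
    ⟨_, h2⟩
  have m1 : D.mo (Finsupp.single (some l) 1) D.X2 ∈ D.RR := (D.gxz l).2
  have m2 : D.mo (Finsupp.single (some m) 1) D.X2 ∈ D.RR := (D.gxz m).2
  have h3 : PP D P (D.mo (Finsupp.single (some l) 1) D.X2 *
      D.mo (Finsupp.single (some l) 1) D.X2) := by
    have e : D.mo (Finsupp.single (some l) 1) D.X2 * D.mo (Finsupp.single (some l) 1) D.X2 =
        (D.mo (Finsupp.single (some m) 1) 1 + D.mo (Finsupp.single (some l) 1) D.X2) *
          D.mo (Finsupp.single (some l) 1) D.X2 -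
        D.mo (Finsupp.single (some l) 1) 1 * D.mo (Finsupp.single (some m) 1) D.X2 := by
      rw [add_mul, mo_mul, mo_mul, mo_mul, one_mul, add_comm (Finsupp.single (some m) 1)]
      ring
    rw [e]
    exact (h2'.mul_right m1).sub (h1'.mul_right m2)
  have h4 : PP D P (D.mo (Finsupp.single (some l) 1) D.X2) := PP.of_sq hP m1 h3
  have h5 : PP D P (D.mo (Finsupp.single (some m) 1) 1) := by
    have e : D.mo (Finsupp.single (some m) 1) 1 =
        (D.mo (Finsupp.single (some m) 1) 1 + D.mo (Finsupp.single (some l) 1) D.X2) -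
          D.mo (Finsupp.single (some l) 1) D.X2 := by ring
    rw [e]
    exact h2'.sub h4
  exact ⟨h4.2, h5.2⟩

private lemma base_of_nine (hP : P.IsPrime) (h : ∀ x ∈ D.nine, x ∈ P) : Base P := by
  have g1 : D.gs ∈ P := h _ (by simp [nine])
  have g2 : D.gxs ∈ P := h _ (by simp [nine])
  have g3 : D.gz 0 ∈ P := h _ (by simp [nine])
  obtain ⟨x0, z1⟩ := step hP g3 (h (D.gz 1 + D.gxz 0) (by simp [nine]))
  obtain ⟨x1, z2⟩ := step hP z1 (h (D.gz 2 + D.gxz 1) (by simp [nine]))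
  obtain ⟨x2, z3⟩ := step hP z2 (h (D.gz 3 + D.gxz 2) (by simp [nine]))
  obtain ⟨x3, z4⟩ := step hP z3 (h (D.gz 4 + D.gxz 3) (by simp [nine]))
  obtain ⟨x4, z5⟩ := step hP z4 (h (D.gz 5 + D.gxz 4) (by simp [nine]))
  have x5 : D.gxz 5 ∈ P := h _ (by simp [nine])
  refine ⟨⟨_, g1⟩, ⟨_, g2⟩, ?_, ?_⟩
  · intro l
    fin_cases l
    · exact ⟨_, g3⟩
    · exact ⟨_, z1⟩
    · exact ⟨_, z2⟩
    · exact ⟨_, z3⟩
    · exact ⟨_, z4⟩
    · exact ⟨_, z5⟩
  · intro l
    fin_cases l
    · exact ⟨_, x0⟩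
    · exact ⟨_, x1⟩
    · exact ⟨_, x2⟩
    · exact ⟨_, x3⟩
    · exact ⟨_, x4⟩
    · exact ⟨_, x5⟩

private lemma single_ne (a : sg) : (Finsupp.single a 1 : sg →₀ ℕ) ≠ 0 := by
  rw [Ne, Finsupp.single_eq_zero]; exact one_ne_zero

private lemma nine_mem (x : D.RR) (hx : x ∈ D.nine) : x ∈ D.mm := by
  have a1 : D.gs ∈ D.mm := mo_mem_mm (single_ne _) _
  have a2 : D.gxs ∈ D.mm := mo_mem_mm (single_ne _) _
  have a3 : ∀ l, D.gz l ∈ D.mm := fun l => mo_mem_mm (single_ne _) _
  have a4 : ∀ l, D.gxz l ∈ D.mm := fun l => mo_mem_mm (single_ne _) _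
  simp only [nine, List.mem_cons, List.not_mem_nil, or_false] at hx
  rcases hx with rfl | rfl | rfl | rfl | rfl | rfl | rfl | rfl | rfl
  · exact a1
  · exact a2
  · exact a3 _
  · exact D.mm.add_mem (a3 _) (a4 _)
  · exact D.mm.add_mem (a3 _) (a4 _)
  · exact D.mm.add_mem (a3 _) (a4 _)
  · exact D.mm.add_mem (a3 _) (a4 _)
  · exact D.mm.add_mem (a3 _) (a4 _)
  · exact a4 _

variable (D)


omit [IsDomain A] [Algebra (ZMod 3) A] [IsIntegrallyClosed A] in
private theorem gen {R : Type*} [CommRing R] [IsNoetherianRing R] (I : Ideal R) [I.IsPrime] (s : Finset R)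
    (n : ℕ) (hs : s.card ≤ n) (hI : ∀ x ∈ s, x ∈ I)
    (hmin : ∀ q : Ideal R, q.IsPrime → (∀ x ∈ s, x ∈ q) → I ≤ q) :
    ringKrullDim (Localization.AtPrime I) ≤ n := by
  rw [IsLocalization.AtPrime.ringKrullDim_eq_height I (Localization.AtPrime I)]
  have hmin' : I ∈ (Ideal.span (s : Set R)).minimalPrimes := by
    refine ⟨⟨inferInstance, ?_⟩, ?_⟩
    · rw [Ideal.span_le]
      intro x hx
      exact hI x (by simpa using hx)
    · rintro q ⟨hq, hIq⟩ _
      apply hmin q hq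
      intro x hx
      exact hIq (Ideal.subset_span (by simpa using hx))
  have h1 := Ideal.height_le_card_of_mem_minimalPrimes_span_finset hmin'
  have h3 : I.height ≤ n := h1.trans (by exact_mod_cast hs)
  exact_mod_cast h3

/-- TARGET. The local ring has Krull dimension at most 9. (The hypothesis is proved elsewhere.) -/
theorem AA_dim (h : Algebra.FiniteType (ZMod 3) D.RR) : ringKrullDim D.AA ≤ 9 := by
  classical
  haveI : IsNoetherianRing D.RR := Algebra.FiniteType.isNoetherianRing (ZMod 3) D.RR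
  have hs : D.nine.toFinset.card ≤ 9 := (List.toFinset_card_le _)
  have hI : ∀ x ∈ D.nine.toFinset, x ∈ D.mm := fun x hx => nine_mem x (by simpa using hx)
  have hmin : ∀ q : Ideal D.RR, q.IsPrime → (∀ x ∈ D.nine.toFinset, x ∈ q) → D.mm ≤ q := by
    intro q hq hIq
    apply claimD hq
    apply base_of_nine hq
    intro x hx
    exact hIq x (by simpa using hx)
  have := gen (R := D.RR) D.mm D.nine.toFinset 9 hs hI hmin
  exact this

end BD

end

end Pool.Agent.Helper668.G
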