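import Mathlib
import Pool.Agent.Helper668.GR
namespace Pool.Agent.Helper668.J1338
section coeff
attribute [local instance] MvPolynomial.algebraMvPolynomial

/-- coefficients of integral elements are integral -/
private lemma coeff_int_aux {σ A K S : Type} [CommRing A] [CommRing K] [Algebra A K] [CommRing S]
    (j : S →+* MvPolynomial σ K)
    (hR : ∀ x : S, ∀ g, IsIntegral A ((j x).coeff g)) {p : MvPolynomial σ K}
    (hp : j.IsIntegralElem p) (g : σ →₀ ℕ) :
    IsIntegral A (p.coeff g) := by
  set B := integralClosure A K with hB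
  let ι : MvPolynomial σ B →+* MvPolynomial σ K := MvPolynomial.map (algebraMap B K)
  have hι : Function.Injective ι := MvPolynomial.map_injective _ Subtype.val_injective
  let e : MvPolynomial σ B ≃+* ι.range := RingEquiv.ofBijective ι.rangeRestrict
    ⟨fun x y hxy => hι (congrArg Subtype.val hxy), ι.rangeRestrict_surjective⟩
  have hR : ∀ x : S, j x ∈ ι.range := by
    intro x
    change j x ∈ Set.range ι
    rw [MvPolynomial.mem_range_map_iff_coeffs_subset]
    intro c hc
    rw [Finset.mem_coe, MvPolynomial.mem_coeffs_iff] at hc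
    obtain ⟨n, hn, rfl⟩ := hc
    exact ⟨⟨_, hR x n⟩, rfl⟩
  let φ : S →+* MvPolynomial σ B := e.symm.toRingHom.comp
    (j.codRestrict ι.range hR)
  have hφ : ι.comp φ = j := by
    apply RingHom.ext
    intro x
    have : e (e.symm (j.codRestrict ι.range hR x)) =
      j.codRestrict ι.range hR x := e.apply_symm_apply _
    exact congrArg Subtype.val this
  have h1 : ι.IsIntegralElem p := by
    apply RingHom.IsIntegralElem.of_comp (f := φ)
    rw [hφ]
    exact hp
  have h2 : IsIntegral (MvPolynomial σ B) p := h1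
  have h3 := MvPolynomial.isIntegral_iff_isIntegral_coeff.mp h2 g
  exact isIntegral_trans _ h3

end coeff

private lemma ic_aux {R P : Type} [CommRing R] [IsDomain R] [CommRing P] [IsDomain P]
    [hPic : IsIntegrallyClosed P] [Algebra R P] (hi : Function.Injective (algebraMap R P))
    (h : ∀ p : P, IsIntegral R p → IsAlmostIntegral R p → ∃ r, algebraMap R P r = p) :
    IsIntegrallyClosed R := by
  rw [isIntegrallyClosed_iff (FractionRing R)]
  intro x hx
  have hinj : Function.Injective (algebraMap R (FractionRing P)) := by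
    rw [IsScalarTower.algebraMap_eq R P (FractionRing P)]
    exact (IsFractionRing.injective P (FractionRing P)).comp hi
  let j : FractionRing R →+* FractionRing P := IsFractionRing.lift (A := R)
    (K := FractionRing R) (L := FractionRing P) (g := algebraMap R (FractionRing P)) hinj
  have hj : ∀ r : R, j (algebraMap R (FractionRing R) r) =
      algebraMap P (FractionRing P) (algebraMap R P r) := by
    intro r
    rw [← IsScalarTower.algebraMap_apply]
    exact IsFractionRing.lift_algebraMap hinj r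
  have hjx : IsIntegral R (j x) := by
    refine IsIntegral.map_of_comp_eq (RingHom.id R) j ?_ hx
    apply RingHom.ext
    intro r
    rw [RingHom.comp_apply, RingHom.comp_apply, hj, ← IsScalarTower.algebraMap_apply]
    rfl
  have hjx2 : IsIntegral P (j x) := hjx.tower_top
  obtain ⟨p, hp⟩ := (isIntegrallyClosed_iff (FractionRing P)).mp hPic hjx2
  have hpi : IsIntegral R p := by
    have h5 : IsIntegral R (algebraMap P (FractionRing P) p) := by rw [hp]; exact hjx
    exact (isIntegral_algebraMap_iff (IsFractionRing.injective _ _)).mp h5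
  have hpa : IsAlmostIntegral R p := by
    apply hpi.isAlmostIntegral_of_exists_smul_mem_range
    obtain ⟨a, b, hb, hab⟩ := IsFractionRing.div_surjective (A := R) x
    refine ⟨b, hb, a, ?_⟩
    have hb0 : algebraMap R (FractionRing R) b ≠ 0 := by
      rw [Ne, ← map_zero (algebraMap R (FractionRing R)),
        (IsFractionRing.injective R (FractionRing R)).eq_iff]
      exact nonZeroDivisors.ne_zero hb
    have h6 : algebraMap R (FractionRing R) a = algebraMap R (FractionRing R) b * x := by
      rw [← hab]; field_simp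
    have h7 := congrArg j h6
    rw [map_mul, hj, hj, ← hp, ← map_mul] at h7
    have h8 := IsFractionRing.injective P (FractionRing P) h7
    rw [Algebra.smul_def]
    exact h8
  obtain ⟨r, hr⟩ := h p hpi hpa
  refine ⟨r, ?_⟩
  apply j.injective
  rw [hj, hr]
  exact hp


end Pool.Agent.Helper668.J1338

namespace Pool.Agent.Helper668.G

noncomputable section

namespace BD

variable {A : Type} [CommRing A] [IsDomain A] [Algebra (ZMod 3) A] [IsIntegrallyClosed A] (D : BD A)



/-! ### auxiliary material for the target -/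

private lemma algInj : Function.Injective (algebraMap A (FractionRing A)) :=
  IsFractionRing.injective A (FractionRing A)

include D in
private lemma fL_ne : algebraMap A (FractionRing A) D.f ≠ 0 := by
  rw [Ne, ← map_zero (algebraMap A (FractionRing A)), algInj.eq_iff]; exact D.f_ne

/-- conjugation on `L2` -/
private def sig : D.L2 →+* D.L2 where
  toFun z := ⟨z.re, -z.im⟩
  map_one' := by
    ext
    · rfl
    · show -(0 : FractionRing A) = 0
      rw [neg_zero]
  map_zero' := by ext <;> simp
  map_add' x y := by ext <;> simp [add_comm]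
  map_mul' x y := by ext <;> simp [add_comm]

private lemma sig_re (z : D.L2) : (D.sig z).re = z.re := rfl
private lemma sig_im (z : D.L2) : (D.sig z).im = -z.im := rfl

/-- conjugation on polynomials -/
private def cj : MvPolynomial sg D.L2 →+* MvPolynomial sg D.L2 := MvPolynomial.map D.sig

private lemma coeff_cj (p : MvPolynomial sg D.L2) (g : sg →₀ ℕ) :
    (D.cj p).coeff g = D.sig (p.coeff g) := MvPolynomial.coeff_map _ _ _

variable {D} in
private lemma InC.sig {i n : ℕ} {c : D.L2} (h : InC D i n c) : InC D i n (D.sig c) := by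
  obtain ⟨a, b, h1, h2, h3, h4, h5, h6, h7⟩ := h
  exact ⟨a, -b, by rw [sig_re, h1], by rw [sig_im, h2, map_neg], h3, h4, by rwa [D.dx_neg],
    by rwa [D.dy_neg], by rwa [neg_sq]⟩

private lemma cj_mem {p : MvPolynomial sg D.L2} (hp : p ∈ D.RR) : D.cj p ∈ D.RR := by
  intro g
  rw [coeff_cj]
  exact (hp g).sig

/-- conjugation on `R` -/
private def cjR : D.RR →+* D.RR := (D.cj.comp D.RR.val.toRingHom).codRestrict D.RR
  (fun x => D.cj_mem x.2)

private lemma cj_isIntegral {p : MvPolynomial sg D.L2} (hp : IsIntegral D.RR p) :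
    IsIntegral D.RR (D.cj p) := by
  refine IsIntegral.map_of_comp_eq (D.cjR) D.cj ?_ hp
  ext <;> rfl

private lemma isAI_iff {p : MvPolynomial sg D.L2} : IsAlmostIntegral D.RR p ↔
    ∃ r ∈ D.RR, r ≠ 0 ∧ ∀ n, r * p ^ n ∈ D.RR := by
  constructor
  · rintro ⟨r, hr, h⟩
    refine ⟨r.1, r.2, ?_, ?_⟩
    · intro h0
      exact nonZeroDivisors.ne_zero hr (Subtype.ext h0)
    · intro n
      obtain ⟨y, hy⟩ := h n
      have : r.1 * p ^ n = y.1 := by
        rw [Algebra.smul_def] at hy
        exact hy.symm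
      rw [this]; exact y.2
  · rintro ⟨r, hr, h0, h⟩
    refine ⟨⟨r, hr⟩, ?_, ?_⟩
    · rw [mem_nonZeroDivisors_iff_ne_zero]
      intro h1
      exact h0 (congrArg Subtype.val h1)
    · intro n
      exact ⟨⟨_, h n⟩, by rw [Algebra.smul_def]; rfl⟩

private lemma cj_isAI {p : MvPolynomial sg D.L2} (hp : IsAlmostIntegral D.RR p) :
    IsAlmostIntegral D.RR (D.cj p) := by
  rw [isAI_iff] at hp ⊢
  obtain ⟨r, hr, h0, h⟩ := hp
  refine ⟨D.cj r, D.cj_mem hr, ?_, ?_⟩
  · intro h1
    apply h0
    have : Function.Injective D.sig := D.sig.injective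
    exact MvPolynomial.map_injective D.sig this (by rw [map_zero]; exact h1)
  · intro n
    have := D.cj_mem (h n)
    rwa [map_mul, map_pow] at this

/-- bound for real leading coefficients -/
private lemma bound_real {a : A} {c0 : D.L2} {i0 n0 i m : ℕ} (hc : c0 ≠ 0) (h0 : InC D i0 n0 c0)
    (h : ∀ n : ℕ, InC D (i0 + n * i) (n0 + n * m) (c0 * (⟨algebraMap A _ a, 0⟩ : D.L2) ^ n)) :
    D.dx a ≤ 2 * i ∧ D.dy a ≤ 2 * m := by
  have hpow : ∀ n : ℕ, (⟨algebraMap A _ a, 0⟩ : D.L2) ^ n = ⟨algebraMap A _ (a ^ n), 0⟩ := by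
    intro n
    induction n with
    | zero =>
      rw [pow_zero, pow_zero, map_one]; rfl
    | succ n ih => rw [pow_succ, ih]; ext <;> simp [pow_succ]
  by_cases ha : a = 0
  · simp [ha, D.dx_zero, D.dy_zero]
  obtain ⟨a', b', h1, h2, h3, h4, h5, h6, h7⟩ := h0
  have key : ∀ n : ℕ, (a' ≠ 0 → D.dx a' + n * D.dx a ≤ 2 * (i0 + n * i) ∧
      D.dy a' + n * D.dy a ≤ 2 * (n0 + n * m)) ∧
      (b' ≠ 0 → D.dx b' + n * D.dx a ≤ 2 * (i0 + n * i) + 1 ∧
      D.dy b' + n * D.dy a ≤ 2 * (n0 + n * m) + 3) := by
    intro n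
    obtain ⟨a'', b'', k1, k2, k3, k4, k5, k6, k7⟩ := h n
    rw [hpow] at k1 k2
    have e1 : a'' = a' * a ^ n := by
      apply algInj
      rw [← k1, map_mul, ← h1]
      simp
    have e2 : b'' = b' * a ^ n := by
      apply algInj
      rw [← k2, map_mul, ← h2]
      simp
    subst e1 e2
    constructor
    · intro ha'
      rw [D.dx_mul _ _ ha' (pow_ne_zero _ ha), D.dx_pow] at k3
      rw [D.dy_mul _ _ ha' (pow_ne_zero _ ha), D.dy_pow] at k4
      exact ⟨k3, k4⟩
    · intro hb'
      rw [D.dx_mul _ _ hb' (pow_ne_zero _ ha), D.dx_pow] at k5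
      rw [D.dy_mul _ _ hb' (pow_ne_zero _ ha), D.dy_pow] at k6
      exact ⟨k5, k6⟩
  have key2 : ∀ n : ℕ, n * D.dx a ≤ 2 * (i0 + n * i) + 1 ∧
      n * D.dy a ≤ 2 * (n0 + n * m) + 3 := by
    intro n
    by_cases ha' : a' = 0
    · by_cases hb' : b' = 0
      · exfalso
        apply hc
        ext
        · rw [h1, ha']; simp
        · rw [h2, hb']; simp
      · have := (key n).2 hb'
        omega
    · have := (key n).1 ha'
      omega
  constructor
  · by_contra hlt
    push Not at hlt
    have h8 := (key2 (2 * i0 + 2)).1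
    have h9 : (2 * i0 + 2) * (2 * i + 1) ≤ (2 * i0 + 2) * D.dx a := Nat.mul_le_mul_left _ hlt
    nlinarith
  · by_contra hlt
    push Not at hlt
    have h8 := (key2 (2 * n0 + 4)).2
    have h9 : (2 * n0 + 4) * (2 * m + 1) ≤ (2 * n0 + 4) * D.dy a := Nat.mul_le_mul_left _ hlt
    nlinarith


private lemma algA_re (a : A) : (algebraMap A D.L2 a).re = algebraMap A (FractionRing A) a := by
  rw [IsScalarTower.algebraMap_apply A (FractionRing A) D.L2]
  rfl

private lemma algA_im (a : A) : (algebraMap A D.L2 a).im = 0 := by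
  rw [IsScalarTower.algebraMap_apply A (FractionRing A) D.L2]
  rfl


variable (A) in
include D in
omit [IsIntegrallyClosed A] in
private lemma three_L : (3 : FractionRing A) = 0 := by
  have h1 : (3 : A) = 0 := by
    have h := map_natCast (algebraMap (ZMod 3) A) 3
    have h2 : ((3 : ℕ) : ZMod 3) = 0 := by decide
    rw [h2, map_zero] at h
    simpa using h.symm
  have h2 := map_ofNat (algebraMap A (FractionRing A)) 3
  rw [← h2]
  show algebraMap A (FractionRing A) 3 = 0
  rw [h1, map_zero]

private lemma real_eq (x : FractionRing A) : (⟨x, 0⟩ : D.L2) = algebraMap (FractionRing A) D.L2 x := rfl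

private lemma int_real {x : FractionRing A} (h : IsIntegral A (⟨x, 0⟩ : D.L2)) :
    ∃ a : A, x = algebraMap A (FractionRing A) a := by
  rw [real_eq] at h
  have h2 : IsIntegral A x :=
    (isIntegral_algebraMap_iff (algebraMap (FractionRing A) D.L2).injective).mp h
  obtain ⟨a, ha⟩ := IsIntegrallyClosed.isIntegral_iff.mp h2
  exact ⟨a, ha.symm⟩

/-- integral elements of `L2` over `A` -/
private lemma int_coeff {u : D.L2} (hu : IsIntegral A u) : ∃ a b : A,
    u.re = algebraMap A (FractionRing A) a ∧ u.im = algebraMap A (FractionRing A) b ∧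
      D.f ∣ b ^ 2 := by
  have h3 := D.three_L A
  have hs : IsIntegral A (D.sig u) := by
    refine IsIntegral.map_of_comp_eq (RingHom.id A) D.sig ?_ hu
    apply RingHom.ext
    intro a
    ext
    · show _ = (D.sig (algebraMap A D.L2 a)).re
      rw [sig_re]; rfl
    · show (algebraMap A D.L2 a).im = (D.sig (algebraMap A D.L2 a)).im
      rw [sig_im, algA_im, neg_zero]
  have h1 : IsIntegral A (⟨u.re, 0⟩ : D.L2) := by
    have e : (⟨u.re, 0⟩ : D.L2) = -(u + D.sig u) := by
      ext
      · show u.re = -(u.re + u.re)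
        linear_combination u.re * h3
      · show (0 : FractionRing A) = -(u.im + -u.im)
        ring
    rw [e]
    exact (hu.add hs).neg
  have h2 : IsIntegral A (⟨0, u.im⟩ : D.L2) := by
    have e : (⟨0, u.im⟩ : D.L2) = u - ⟨u.re, 0⟩ := by
      ext
      · show (0 : FractionRing A) = u.re - u.re
        ring
      · show u.im = u.im - 0
        ring
    rw [e]
    exact hu.sub h1
  obtain ⟨a, ha⟩ := D.int_real h1
  have h4 : IsIntegral A (⟨(algebraMap A (FractionRing A) D.f)⁻¹ * u.im ^ 2, 0⟩ : D.L2) := by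
    have e : (⟨(algebraMap A (FractionRing A) D.f)⁻¹ * u.im ^ 2, 0⟩ : D.L2) =
        (⟨0, u.im⟩ : D.L2) ^ 2 := by
      rw [pow_two (⟨0, u.im⟩ : D.L2)]
      ext
      · rw [QuadraticAlgebra.re_mul]
        ring
      · rw [QuadraticAlgebra.im_mul]
        ring
    rw [e]
    exact h2.pow 2
  obtain ⟨d, hd⟩ := D.int_real h4
  have hfL := D.fL_ne
  have h5 : u.im ^ 2 = algebraMap A (FractionRing A) (D.f * d) := by
    rw [map_mul, ← hd]
    field_simp
  have h6 : IsIntegral A u.im := by
    apply IsIntegral.of_pow (n := 2) (by norm_num)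
    rw [h5]
    exact isIntegral_algebraMap
  obtain ⟨b, hb⟩ := IsIntegrallyClosed.isIntegral_iff.mp h6
  refine ⟨a, b, ha, hb.symm, d, ?_⟩
  apply algInj
  rw [← h5, map_pow, hb]

/-- `InC` elements are integral -/
private lemma int_of_InC {i n : ℕ} {u : D.L2} (h : InC D i n u) : IsIntegral A u := by
  obtain ⟨a, b, h1, h2, h3, h4, h5, h6, d, hd⟩ := h
  have hfL := D.fL_ne
  have e : u = algebraMap A D.L2 a + (⟨0, u.im⟩ : D.L2) := by
    ext
    · rw [QuadraticAlgebra.re_add, algA_re, h1, add_zero]
    · rw [QuadraticAlgebra.im_add, algA_im, zero_add]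
  rw [e]
  refine isIntegral_algebraMap.add ?_
  apply IsIntegral.of_pow (n := 2) (by norm_num)
  have e2 : (⟨0, u.im⟩ : D.L2) ^ 2 = algebraMap A D.L2 d := by
    rw [pow_two]
    ext
    · rw [algA_re, QuadraticAlgebra.re_mul, h2]
      simp only [mul_zero, zero_add]
      have : algebraMap A (FractionRing A) (b ^ 2) = algebraMap A (FractionRing A) (D.f * d) := by
        rw [hd]
      rw [map_pow, map_mul] at this
      field_simp
      linear_combination this
    · rw [algA_im, QuadraticAlgebra.im_mul]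
      simp
  rw [e2]
  exact isIntegral_algebraMap


/-- coefficients of integral elements are integral -/
private lemma coeff_int {p : MvPolynomial sg D.L2} (hp : IsIntegral D.RR p) (g : sg →₀ ℕ) :
    IsIntegral A (p.coeff g) := by
  have h : RingHom.IsIntegralElem (R := D.RR) (A := MvPolynomial sg D.L2)
    (algebraMap D.RR (MvPolynomial sg D.L2)) p := hp
  exact Pool.Agent.Helper668.J1338.coeff_int_aux (S := D.RR) (K := D.L2) _
    (fun x g => D.int_of_InC (x.2 g)) h g

private lemma monomial_mem {δ : sg →₀ ℕ} {u : D.L2} (h : InC D (w1 δ) (w2 δ) u) :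
    MvPolynomial.monomial δ u ∈ D.RR := by
  intro g
  rw [MvPolynomial.coeff_monomial]
  split_ifs with hg
  · rw [← hg]; exact h
  · exact InC_zero _ _

private lemma isInt_of_mem {p : MvPolynomial sg D.L2} (hp : p ∈ D.RR) : IsIntegral D.RR p :=
  isIntegral_algebraMap (x := (⟨p, hp⟩ : D.RR))

private lemma isAI_of_mem {p : MvPolynomial sg D.L2} (hp : p ∈ D.RR) : IsAlmostIntegral D.RR p :=
  (completeIntegralClosure D.RR (MvPolynomial sg D.L2)).algebraMap_mem ⟨p, hp⟩

private lemma AI_add {p q : MvPolynomial sg D.L2} (hp : IsAlmostIntegral D.RR p)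
    (hq : IsAlmostIntegral D.RR q) : IsAlmostIntegral D.RR (p + q) :=
  (completeIntegralClosure D.RR (MvPolynomial sg D.L2)).add_mem hp hq

private lemma AI_neg {p : MvPolynomial sg D.L2} (hp : IsAlmostIntegral D.RR p) :
    IsAlmostIntegral D.RR (-p) := by
  rw [isAI_iff] at hp ⊢
  obtain ⟨r, hr, h0, h⟩ := hp
  refine ⟨r, hr, h0, fun n => ?_⟩
  have e : r * (-p) ^ n = (-1) ^ n * (r * p ^ n) := by
    rw [neg_pow p n]; ring
  rw [e]
  exact D.RR.mul_mem (D.RR.pow_mem (D.RR.neg_mem D.RR.one_mem) n) (h n)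

private lemma AI_sub {p q : MvPolynomial sg D.L2} (hp : IsAlmostIntegral D.RR p)
    (hq : IsAlmostIntegral D.RR q) : IsAlmostIntegral D.RR (p - q) := by
  rw [sub_eq_add_neg]
  exact D.AI_add hp (D.AI_neg hq)

/-- a monomial order -/
private def mo : MonomialOrder sg :=
  letI : LinearOrder sg := inferInstanceAs (LinearOrder (WithBot (Fin 6)))
  MonomialOrder.lex

private lemma w1_smul (n : ℕ) (g : sg →₀ ℕ) : w1 (n • g) = n * w1 g := by
  simp [w1]

private lemma w2_smul (n : ℕ) (g : sg →₀ ℕ) : w2 (n • g) = n * w2 g := by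
  simp [w2, Finset.mul_sum]

private lemma lead {q : MvPolynomial sg D.L2} (hq : IsAlmostIntegral D.RR q) (h0 : q ≠ 0) :
    ∃ c0 : D.L2, c0 ≠ 0 ∧ ∃ γ : sg →₀ ℕ, InC D (w1 γ) (w2 γ) c0 ∧
      ∀ n : ℕ, InC D (w1 γ + n * w1 (mo.degree q)) (w2 γ + n * w2 (mo.degree q))
        (c0 * (q.coeff (mo.degree q)) ^ n) := by
  rw [isAI_iff] at hq
  obtain ⟨r, hr, hr0, h⟩ := hq
  refine ⟨r.coeff (mo.degree r), ?_, mo.degree r, hr _, ?_⟩
  · rw [MonomialOrder.coeff_degree_ne_zero_iff]; exact hr0
  · intro n
    have h1 := h n (mo.degree (r * q ^ n))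
    have h2 : mo.degree (r * q ^ n) = mo.degree r + n • mo.degree q := by
      rw [MonomialOrder.degree_mul hr0 (pow_ne_zero _ h0), MonomialOrder.degree_pow]
    have h3 : (r * q ^ n).coeff (mo.degree (r * q ^ n)) =
        r.coeff (mo.degree r) * (q.coeff (mo.degree q)) ^ n := by
      have := MonomialOrder.leadingCoeff_mul (m := mo) (f := r) (g := q ^ n)
      rw [MonomialOrder.leadingCoeff_pow] at this
      exact this
    rw [h3, h2, w1_add, w2_add, w1_smul, w2_smul] at h1
    exact h1

private lemma sub_card {q : MvPolynomial sg D.L2} (h0 : q ≠ 0) :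
    (q - MvPolynomial.monomial (mo.degree q) (q.coeff (mo.degree q))).support.card <
      q.support.card := by
  apply Finset.card_lt_card
  rw [Finset.ssubset_iff_of_subset]
  · refine ⟨mo.degree q, ?_, ?_⟩
    · rw [MvPolynomial.mem_support_iff, MonomialOrder.coeff_degree_ne_zero_iff]; exact h0
    · rw [MvPolynomial.mem_support_iff, MvPolynomial.coeff_sub, MvPolynomial.coeff_monomial]
      simp
  · intro g hg
    rw [MvPolynomial.mem_support_iff] at hg ⊢
    rw [MvPolynomial.coeff_sub, MvPolynomial.coeff_monomial] at hg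
    split_ifs at hg with h
    · exact absurd (by rw [h]; ring) hg
    · simpa using hg

private lemma mem_of_lead (P : MvPolynomial sg D.L2 → Prop)
    (hsub : ∀ q, P q → P (q - MvPolynomial.monomial (mo.degree q) (q.coeff (mo.degree q))))
    (hlead : ∀ q, q ≠ 0 → P q → IsIntegral D.RR q → IsAlmostIntegral D.RR q →
      InC D (w1 (mo.degree q)) (w2 (mo.degree q)) (q.coeff (mo.degree q)))
    {q : MvPolynomial sg D.L2} (hP : P q) (h1 : IsIntegral D.RR q)
    (h2 : IsAlmostIntegral D.RR q) : q ∈ D.RR := by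
  induction hk : q.support.card using Nat.strong_induction_on generalizing q with
  | _ k ih =>
    by_cases h0 : q = 0
    · rw [h0]; exact D.RR.zero_mem
    have hl := D.monomial_mem (hlead q h0 hP h1 h2)
    have h3 := ih _ (hk ▸ D.sub_card h0) (hsub q hP) (h1.sub (D.isInt_of_mem hl))
      (D.AI_sub h2 (D.isAI_of_mem hl)) rfl
    have h4 := D.RR.add_mem h3 hl
    rwa [sub_add_cancel] at h4

private lemma real_mem {q : MvPolynomial sg D.L2} (hP : ∀ g, (q.coeff g).im = 0)
    (h1 : IsIntegral D.RR q) (h2 : IsAlmostIntegral D.RR q) : q ∈ D.RR := by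
  refine D.mem_of_lead (fun q => ∀ g, (q.coeff g).im = 0) ?_ ?_ hP h1 h2
  · intro q hq g
    rw [MvPolynomial.coeff_sub, MvPolynomial.coeff_monomial]
    split_ifs with h
    · rw [QuadraticAlgebra.im_sub, hq, hq, sub_zero]
    · rw [sub_zero, hq]
  · intro q h0 hq h1 h2
    obtain ⟨a, b, ha, hb, hfb⟩ := D.int_coeff (D.coeff_int h1 (mo.degree q))
    obtain ⟨c0, hc0, γ, hγ, h⟩ := D.lead h2 h0
    have e : q.coeff (mo.degree q) = ⟨algebraMap A _ a, 0⟩ := by
      ext
      · exact ha
      · exact hq _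
    rw [e] at h
    have hb := D.bound_real hc0 hγ h
    rw [e]
    exact ⟨a, 0, rfl, by rw [map_zero], hb.1, hb.2, by simp [D.dx_zero], by simp [D.dy_zero],
      by simp⟩

private lemma imag_mem {q : MvPolynomial sg D.L2} (hP : ∀ g, (q.coeff g).re = 0)
    (h1 : IsIntegral D.RR q) (h2 : IsAlmostIntegral D.RR q) : q ∈ D.RR := by
  refine D.mem_of_lead (fun q => ∀ g, (q.coeff g).re = 0) ?_ ?_ hP h1 h2
  · intro q hq g
    rw [MvPolynomial.coeff_sub, MvPolynomial.coeff_monomial]
    split_ifs with h
    · rw [QuadraticAlgebra.re_sub, hq, hq, sub_zero]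
    · rw [sub_zero, hq]
  · intro q h0 hq h1 h2
    obtain ⟨a, b, ha, hb, d, hd⟩ := D.int_coeff (D.coeff_int h1 (mo.degree q))
    have h22 : IsAlmostIntegral D.RR (q ^ 2) :=
      (completeIntegralClosure D.RR (MvPolynomial sg D.L2)).pow_mem h2 2
    obtain ⟨c0, hc0, γ, hγ, h⟩ := D.lead h22 (pow_ne_zero 2 h0)
    have e : q.coeff (mo.degree q) = ⟨0, algebraMap A _ b⟩ := by
      ext
      · exact hq _
      · exact hb
    have hfL := D.fL_ne
    have e2 : (q ^ 2).coeff (mo.degree (q ^ 2)) = ⟨algebraMap A _ d, 0⟩ := by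
      have h3 := MonomialOrder.leadingCoeff_pow (m := mo) q 2
      change (q ^ 2).coeff (mo.degree (q ^ 2)) = (q.coeff (mo.degree q)) ^ 2 at h3
      rw [h3, e, pow_two]
      ext
      · rw [QuadraticAlgebra.re_mul]
        have h4 : algebraMap A (FractionRing A) (b ^ 2) =
          algebraMap A (FractionRing A) (D.f * d) := by rw [hd]
        rw [map_pow, map_mul] at h4
        simp only [mul_zero, zero_add]
        field_simp
        linear_combination h4
      · rw [QuadraticAlgebra.im_mul]
        simp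
    have e3 : mo.degree (q ^ 2) = 2 • mo.degree q := MonomialOrder.degree_pow _ _
    rw [e2, e3] at h
    have hbd := D.bound_real hc0 hγ h
    rw [w1_smul, w2_smul] at hbd
    rw [e]
    by_cases hb0 : b = 0
    · subst hb0
      rw [map_zero]
      exact InC_zero _ _
    have hd0 : d ≠ 0 := by
      rintro rfl
      rw [mul_zero] at hd
      exact pow_ne_zero 2 hb0 hd
    have k1 := congrArg D.dx hd
    have k2 := congrArg D.dy hd
    rw [D.dx_pow, D.dx_mul _ _ D.f_ne hd0, D.dx_f] at k1
    rw [D.dy_pow, D.dy_mul _ _ D.f_ne hd0, D.dy_f] at k2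
    exact ⟨0, b, by rw [map_zero], rfl, by simp [D.dx_zero], by simp [D.dy_zero], by omega,
      by omega, d, hd⟩

private lemma mem_of_int {p : MvPolynomial sg D.L2} (h1 : IsIntegral D.RR p)
    (h2 : IsAlmostIntegral D.RR p) : p ∈ D.RR := by
  have h3 := D.three_L A
  have c1 := D.cj_isIntegral h1
  have c2 := D.cj_isAI h2
  have k1 : -(p + D.cj p) ∈ D.RR := by
    apply D.real_mem
    · intro g
      rw [MvPolynomial.coeff_neg, MvPolynomial.coeff_add, coeff_cj, QuadraticAlgebra.im_neg,
        QuadraticAlgebra.im_add, sig_im]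
      ring
    · exact (h1.add c1).neg
    · exact D.AI_neg (D.AI_add h2 c2)
  have k2 : D.cj p - p ∈ D.RR := by
    apply D.imag_mem
    · intro g
      rw [MvPolynomial.coeff_sub, coeff_cj, QuadraticAlgebra.re_sub, sig_re]
      ring
    · exact c1.sub h1
    · exact D.AI_sub c2 h2
  have e : p = -(p + D.cj p) + (D.cj p - p) := by
    apply MvPolynomial.ext
    intro g
    rw [MvPolynomial.coeff_add, MvPolynomial.coeff_neg, MvPolynomial.coeff_add,
      MvPolynomial.coeff_sub, coeff_cj]
    ext
    · rw [QuadraticAlgebra.re_add, QuadraticAlgebra.re_neg, QuadraticAlgebra.re_add,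
        QuadraticAlgebra.re_sub, sig_re]
      linear_combination (p.coeff g).re * h3
    · rw [QuadraticAlgebra.im_add, QuadraticAlgebra.im_neg, QuadraticAlgebra.im_add,
        QuadraticAlgebra.im_sub, sig_im]
      linear_combination (p.coeff g).im * h3
  rw [e]
  exact D.RR.add_mem k1 k2

/-- TARGET. `R` is integrally closed. -/
theorem RR_isIntegrallyClosed : IsIntegrallyClosed D.RR := by
  haveI : IsIntegrallyClosed (MvPolynomial sg D.L2) :=
    UniqueFactorizationMonoid.instIsIntegrallyClosed
  exact Pool.Agent.Helper668.J1338.ic_aux (P := MvPolynomial sg D.L2) Subtype.val_injective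
    (fun p hp hp' => ⟨⟨p, D.mem_of_int hp hp'⟩, rfl⟩)

end BD

end

end Pool.Agent.Helper668.G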