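import Mathlib
import Pool.Agent.Helper668.GR
namespace Pool.Agent.Helper668.G

noncomputable section

namespace BD

variable {A : Type} [CommRing A] [IsDomain A] [Algebra (ZMod 3) A] [IsIntegrallyClosed A] (D : BD A)


/-! ### finite generation -/

/-- the embedding of `A` in `L2` -/
private def jj : A →+* D.L2 :=
  (algebraMap (FractionRing A) D.L2).comp (algebraMap A (FractionRing A))

omit [IsIntegrallyClosed A] in
private lemma jj_re (a : A) : (D.jj a).re = algebraMap A (FractionRing A) a := by
  simp [jj]

omit [IsIntegrallyClosed A] in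
private lemma jj_im (a : A) : (D.jj a).im = 0 := by
  simp [jj]

/-- monomials with coefficient in `A` -/
private def mono (g : sg →₀ ℕ) (a : A) : MvPolynomial sg D.L2 := MvPolynomial.monomial g (D.jj a)

omit [IsIntegrallyClosed A] in
private lemma mono_mul (g h : sg →₀ ℕ) (a b : A) : D.mono g a * D.mono h b = D.mono (g + h) (a * b) := by
  simp [mono, MvPolynomial.monomial_mul]

omit [IsIntegrallyClosed A] in
private lemma mono_zero_one : D.mono 0 1 = 1 := by
  simp [mono]

/-- the generators -/
private def gens : Set (MvPolynomial sg D.L2) :=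
  {D.mono (Finsupp.single none 1) 1, D.mono (Finsupp.single none 1) D.X1,
    D.mono (Finsupp.single none 2) D.Y1} ∪
  (Set.range fun l : Fin 6 => D.mono (Finsupp.single (some l) 1) 1) ∪
  (Set.range fun l : Fin 6 => D.mono (Finsupp.single (some l) 1) D.X2) ∪
  (Set.range fun x : Fin 6 × Fin 6 =>
    D.mono (Finsupp.single (some x.1) 1 + Finsupp.single (some x.2) 1) D.Y2)

omit [IsIntegrallyClosed A] in
private lemma gens_finite : D.gens.Finite := by
  unfold gens
  refine Set.Finite.union (Set.Finite.union (Set.Finite.union ?_ ?_) ?_) ?_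
  · exact Set.toFinite _
  · exact Set.finite_range _
  · exact Set.finite_range _
  · exact Set.finite_range _

/-- the subalgebra generated by the generators -/
private def TT : Subalgebra (ZMod 3) (MvPolynomial sg D.L2) := Algebra.adjoin (ZMod 3) D.gens

omit [IsIntegrallyClosed A] in
private lemma gs : D.mono (Finsupp.single none 1) 1 ∈ D.TT :=
  Algebra.subset_adjoin (Or.inl (Or.inl (Or.inl (by simp))))
omit [IsIntegrallyClosed A] in
private lemma gX1 : D.mono (Finsupp.single none 1) D.X1 ∈ D.TT :=
  Algebra.subset_adjoin (Or.inl (Or.inl (Or.inl (by simp))))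
omit [IsIntegrallyClosed A] in
private lemma gY1 : D.mono (Finsupp.single none 2) D.Y1 ∈ D.TT :=
  Algebra.subset_adjoin (Or.inl (Or.inl (Or.inl (by simp))))
omit [IsIntegrallyClosed A] in
private lemma gz (l : Fin 6) : D.mono (Finsupp.single (some l) 1) 1 ∈ D.TT :=
  Algebra.subset_adjoin (Or.inl (Or.inl (Or.inr ⟨l, rfl⟩)))
omit [IsIntegrallyClosed A] in
private lemma gX2 (l : Fin 6) : D.mono (Finsupp.single (some l) 1) D.X2 ∈ D.TT :=
  Algebra.subset_adjoin (Or.inl (Or.inr ⟨l, rfl⟩))
omit [IsIntegrallyClosed A] in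
private lemma gY2 (l m : Fin 6) :
    D.mono (Finsupp.single (some l) 1 + Finsupp.single (some m) 1) D.Y2 ∈ D.TT :=
  Algebra.subset_adjoin (Or.inr ⟨(l, m), rfl⟩)

omit [IsDomain A] [Algebra (ZMod 3) A] [IsIntegrallyClosed A] in
private lemma emon_add_two (X Y : A) (n : ℕ) (hn : n ≠ 1) : emon X Y (n + 2) = X * emon X Y n := by
  unfold emon
  by_cases h : n % 2 = 0
  · rw [if_pos h, if_pos (by omega), ← pow_succ']
    congr 1; omega
  · rw [if_neg h, if_neg (by omega), ← mul_assoc, ← pow_succ']
    congr 2; omega

omit [IsIntegrallyClosed A] in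
private lemma memA (i : ℕ) : ∀ m, m ≤ 2 * i → m ≠ 1 →
    D.mono (Finsupp.single none i) (emon D.X1 D.Y1 m) ∈ D.TT := by
  induction i with
  | zero =>
    intro m hm _
    have h0 : m = 0 := by omega
    subst h0
    have : D.mono (Finsupp.single none 0) (emon D.X1 D.Y1 0) = 1 := by
      simp [emon, mono_zero_one]
    rw [this]; exact one_mem _
  | succ i ih =>
    intro m hm hm1
    have es : (Finsupp.single none (i + 1) : sg →₀ ℕ) =
        Finsupp.single none 1 + Finsupp.single none i := by
      rw [← Finsupp.single_add]; congr 1; omega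
    by_cases h1 : m ≤ 2 * i
    · have h2 := mul_mem D.gs (ih m h1 hm1)
      rw [mono_mul, one_mul, ← es] at h2
      exact h2
    · by_cases h3 : m = 3
      · subst h3
        have hi : i = 1 := by omega
        subst hi
        have : emon D.X1 D.Y1 3 = D.Y1 := by simp [emon]
        rw [this]
        exact D.gY1
      · obtain ⟨m', rfl⟩ : ∃ m', m = m' + 2 := ⟨m - 2, by omega⟩
        have h2 := mul_mem D.gX1 (ih m' (by omega) (by omega))
        rw [mono_mul, ← emon_add_two _ _ _ (by omega), ← es] at h2
        exact h2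

omit [IsIntegrallyClosed A] in
private lemma memB (N : ℕ) : ∀ γ : sg →₀ ℕ, γ none = 0 → w2 γ = N → ∀ n, n ≤ 2 * N → n ≠ 1 →
    D.mono γ (emon D.X2 D.Y2 n) ∈ D.TT := by
  induction N with
  | zero =>
    intro γ hγ hw n hn _
    have h0 : n = 0 := by omega
    subst h0
    have hg : γ = 0 := by
      ext x
      rcases x with _ | l
      · exact hγ
      · have := (Finset.sum_eq_zero_iff.1 hw) l (Finset.mem_univ _)
        simpa using this
    rw [hg]
    have : D.mono 0 (emon D.X2 D.Y2 0) = 1 := by
      simp [emon, mono_zero_one]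
    rw [this]; exact one_mem _
  | succ N ih =>
    intro γ hγ hw n hn hn1
    have hex : ∃ l : Fin 6, 1 ≤ γ (some l) := by
      by_contra hc
      push Not at hc
      have : w2 γ = 0 := Finset.sum_eq_zero fun l _ => by have := hc l; omega
      omega
    obtain ⟨l, hl⟩ := hex
    have hle : Finsupp.single (some l) 1 ≤ γ := by
      rw [Finsupp.single_le_iff]; exact hl
    obtain ⟨δ, hδ⟩ : ∃ δ, γ = Finsupp.single (some l) 1 + δ := ⟨γ - Finsupp.single (some l) 1, by
      rw [add_tsub_cancel_of_le hle]⟩
    have hδ0 : δ none = 0 := by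
      have := congrArg (fun f : sg →₀ ℕ => f none) hδ
      simp [hγ] at this
      exact this.symm
    have hw1 : w2 (Finsupp.single (some l) 1) = 1 := by
      simp [w2, Finsupp.single_apply]
    have hδw : w2 δ = N := by
      have := congrArg w2 hδ
      rw [w2_add, hw1, hw] at this
      omega
    by_cases h1 : n ≤ 2 * N
    · have h2 := mul_mem (D.gz l) (ih δ hδ0 hδw n h1 hn1)
      rw [mono_mul, one_mul, ← hδ] at h2
      exact h2
    · by_cases h3 : n = 3
      · subst h3
        have hN : N = 1 := by omega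
        subst hN
        have hex2 : ∃ m : Fin 6, 1 ≤ δ (some m) := by
          by_contra hc
          push Not at hc
          have : w2 δ = 0 := Finset.sum_eq_zero fun l _ => by have := hc l; omega
          omega
        obtain ⟨m, hm⟩ := hex2
        have hle' : Finsupp.single (some m) 1 ≤ δ := by
          rw [Finsupp.single_le_iff]; exact hm
        obtain ⟨ε, hε⟩ : ∃ ε, δ = Finsupp.single (some m) 1 + ε :=
          ⟨δ - Finsupp.single (some m) 1, by rw [add_tsub_cancel_of_le hle']⟩
        have hε0 : ε none = 0 := by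
          have := congrArg (fun f : sg →₀ ℕ => f none) hε
          simp [hδ0] at this
          exact this.symm
        have hw1' : w2 (Finsupp.single (some m) 1) = 1 := by
          simp [w2, Finsupp.single_apply]
        have hεw : w2 ε = 0 := by
          have := congrArg w2 hε
          rw [w2_add, hw1', hδw] at this
          omega
        have hε' : ε = 0 := by
          ext x
          rcases x with _ | l
          · exact hε0
          · have := (Finset.sum_eq_zero_iff.1 hεw) l (Finset.mem_univ _)
            simpa using this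
        have : emon D.X2 D.Y2 3 = D.Y2 := by simp [emon]
        rw [this, hδ, hε, hε', add_zero]
        exact D.gY2 l m
      · obtain ⟨n', rfl⟩ : ∃ n', n = n' + 2 := ⟨n - 2, by omega⟩
        have h2 := mul_mem (D.gX2 l) (ih δ hδ0 hδw n' (by omega) (by omega))
        rw [mono_mul, ← emon_add_two _ _ _ (by omega), ← hδ] at h2
        exact h2

omit [IsIntegrallyClosed A] in
private lemma mono_mem (g : sg →₀ ℕ) (a : A) (h1 : D.dx a ≤ 2 * w1 g) (h2 : D.dy a ≤ 2 * w2 g) :
    D.mono g a ∈ D.TT := by
  have key : ∀ z ∈ Submodule.span (ZMod 3)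
      {z | ∃ m n, m ≠ 1 ∧ n ≠ 1 ∧ m ≤ D.dx a ∧ n ≤ D.dy a ∧
        z = emon D.X1 D.Y1 m * emon D.X2 D.Y2 n}, D.mono g z ∈ D.TT := by
    intro z hz
    induction hz using Submodule.span_induction with
    | mem z hz =>
      obtain ⟨m, n, hm, hn, hm', hn', rfl⟩ := hz
      have eg : g = Finsupp.single none (g none) + g.erase none := by
        rw [Finsupp.single_add_erase]
      rw [eg, ← mono_mul]
      apply mul_mem
      · exact D.memA _ m (by have : w1 g = g none := rfl; omega) hm
      · refine D.memB (w2 g) _ (by simp) ?_ n (by omega) hn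
        simp [w2, Finsupp.erase_ne]
    | zero => simp [mono]
    | add x y _ _ hx hy =>
      have : D.mono g (x + y) = D.mono g x + D.mono g y := by simp [mono]
      rw [this]; exact add_mem hx hy
    | smul c x _ hx =>
      let F : A →+ MvPolynomial sg D.L2 :=
        (MvPolynomial.monomial g : D.L2 →ₗ[D.L2] _).toAddMonoidHom.comp D.jj.toAddMonoidHom
      have : D.mono g (c • x) = c • D.mono g x := ZMod.map_smul F c x
      rw [this]; exact D.TT.smul_mem hx c
  exact key a (D.span_e a)

omit [IsIntegrallyClosed A] in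
/-- real polynomials with the right degrees are in `TT` -/
private lemma real_mem (q : MvPolynomial sg D.L2) (hq : ∀ g, ∃ a : A, q.coeff g = D.jj a ∧
    D.dx a ≤ 2 * w1 g ∧ D.dy a ≤ 2 * w2 g) : q ∈ D.TT := by
  rw [q.as_sum]
  apply Subalgebra.sum_mem
  intro g _
  obtain ⟨a, h1, h2, h3⟩ := hq g
  rw [h1]
  exact D.mono_mem g a h2 h3

omit [IsIntegrallyClosed A] in
private lemma mono_mem_RR [IsIntegrallyClosed A] (g : sg →₀ ℕ) (a : A) (h1 : D.dx a ≤ 2 * w1 g)
    (h2 : D.dy a ≤ 2 * w2 g) : D.mono g a ∈ D.RR := by
  intro g'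
  unfold mono
  rw [MvPolynomial.coeff_monomial]
  split_ifs with h
  · subst h
    exact ⟨a, 0, D.jj_re a, by rw [jj_im, map_zero], h1, h2, by simp [D.dx_zero],
      by simp [D.dy_zero], by simp⟩
  · exact InC_zero _ _

private lemma TT_le_RR : D.TT ≤ D.RR := by
  unfold TT
  rw [Algebra.adjoin_le_iff]
  have w1s : ∀ k, w1 (Finsupp.single none k) = k := fun k => by simp [w1]
  have w2s : ∀ l : Fin 6, ∀ k, w2 (Finsupp.single (some l) k) = k := fun l k => by
    simp [w2, Finsupp.single_apply]
  rintro p (((hp | hp) | hp) | hp)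
  · rcases hp with rfl | rfl | rfl
    · exact D.mono_mem_RR _ _ (by rw [D.dx_one]; omega) (by rw [D.dy_one]; omega)
    · exact D.mono_mem_RR _ _ (by rw [D.dx_X1, w1s]) (by rw [D.dy_X1]; omega)
    · exact D.mono_mem_RR _ _ (by rw [D.dx_Y1, w1s]; omega) (by rw [D.dy_Y1]; omega)
  · obtain ⟨l, rfl⟩ := hp
    exact D.mono_mem_RR _ _ (by rw [D.dx_one]; omega) (by rw [D.dy_one]; omega)
  · obtain ⟨l, rfl⟩ := hp
    exact D.mono_mem_RR _ _ (by rw [D.dx_X2]; omega) (by rw [D.dy_X2, w2s])
  · obtain ⟨⟨l, m⟩, rfl⟩ := hp
    exact D.mono_mem_RR _ _ (by rw [D.dx_Y2]; omega) (by rw [D.dy_Y2, w2_add, w2s, w2s]; omega)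

/-- conjugation of polynomials -/
private def cj : MvPolynomial sg D.L2 →+* MvPolynomial sg D.L2 := MvPolynomial.map (starRingEnd D.L2)

omit [IsIntegrallyClosed A] in
private lemma cj_coeff (p : MvPolynomial sg D.L2) (g : sg →₀ ℕ) :
    (D.cj p).coeff g = star (p.coeff g) := by
  simp only [cj, MvPolynomial.coeff_map]
  rfl

omit [IsIntegrallyClosed A] in
private lemma cj_TT (t : MvPolynomial sg D.L2) (ht : t ∈ D.TT) : D.cj t = t := by
  unfold TT at ht
  induction ht using Algebra.adjoin_induction with
  | mem x hx =>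
    have hm : ∀ g a, D.cj (D.mono g a) = D.mono g a := by
      intro g a
      unfold mono cj
      rw [MvPolynomial.map_monomial]
      congr 1
      ext
      · simp [starRingEnd_apply, QuadraticAlgebra.re_star, jj_re]
      · simp [starRingEnd_apply, QuadraticAlgebra.im_star, jj_im]
    rcases hx with ((hp | hp) | hp) | hp
    · rcases hp with rfl | rfl | rfl <;> exact hm _ _
    · obtain ⟨l, rfl⟩ := hp; exact hm _ _
    · obtain ⟨l, rfl⟩ := hp; exact hm _ _
    · obtain ⟨l, rfl⟩ := hp; exact hm _ _
  | algebraMap r =>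
    have : (D.cj.comp (algebraMap (ZMod 3) (MvPolynomial sg D.L2))) =
        algebraMap (ZMod 3) (MvPolynomial sg D.L2) := RingHom.ext_zmod _ _
    exact congrArg (fun f : ZMod 3 →+* MvPolynomial sg D.L2 => f r) this
  | add x y _ _ hx hy => rw [map_add, hx, hy]
  | mul x y _ _ hx hy => rw [map_mul, hx, hy]


omit [IsIntegrallyClosed A] in
private lemma f_field_ne : algebraMap A (FractionRing A) D.f ≠ 0 := by
  rw [Ne, ← map_zero (algebraMap A (FractionRing A)),
    (IsFractionRing.injective A (FractionRing A)).eq_iff]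
  exact D.f_ne

/-- the element `f v` -/
private def fv : D.L2 := ⟨0, algebraMap A (FractionRing A) D.f⟩

omit [IsIntegrallyClosed A] in
private lemma fv_ne : D.fv ≠ 0 := by
  intro h
  have := congrArg QuadraticAlgebra.im h
  exact D.f_field_ne this

/-- the exponent of `s z_0^2` -/
private def ee : sg →₀ ℕ := Finsupp.single none 1 + Finsupp.single (some 0) 2

private lemma phi1_mem (p : MvPolynomial sg D.L2) (hp : p ∈ D.RR) : p + D.cj p ∈ D.TT := by
  apply D.real_mem
  intro g
  obtain ⟨a, b, h1, h2, h3, h4, -⟩ := hp g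
  refine ⟨a + a, ?_, (D.dx_add _ _).trans (max_le h3 h3), (D.dy_add _ _).trans (max_le h4 h4)⟩
  rw [MvPolynomial.coeff_add, cj_coeff]
  ext
  · rw [QuadraticAlgebra.re_add, QuadraticAlgebra.re_star, jj_re, h1, map_add]
    ring
  · rw [QuadraticAlgebra.im_add, QuadraticAlgebra.im_star, jj_im]
    ring

private lemma phi2_mem (p : MvPolynomial sg D.L2) (hp : p ∈ D.RR) :
    MvPolynomial.C D.fv * (p - D.cj p) * MvPolynomial.monomial ee 1 ∈ D.TT := by
  apply D.real_mem
  intro g
  rw [MvPolynomial.coeff_mul_monomial']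
  split_ifs with h
  · obtain ⟨a, b, h1, h2, h3, h4, h5, h6, -⟩ := hp (g - ee)
    have e1 : w1 g = w1 (g - ee) + 1 := by
      have : g = (g - ee) + ee := (tsub_add_cancel_of_le h).symm
      conv_lhs => rw [this]
      rw [w1_add]
      simp [ee, w1]
    have e2 : w2 g = w2 (g - ee) + 2 := by
      have : g = (g - ee) + ee := (tsub_add_cancel_of_le h).symm
      conv_lhs => rw [this]
      rw [w2_add]
      simp [ee, w2, Finsupp.single_apply]
    refine ⟨b + b, ?_, (D.dx_add _ _).trans (max_le (by omega) (by omega)),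
      (D.dy_add _ _).trans (max_le (by omega) (by omega))⟩
    rw [mul_one, MvPolynomial.coeff_C_mul, MvPolynomial.coeff_sub, cj_coeff]
    have hf := D.f_field_ne
    ext
    · rw [QuadraticAlgebra.re_mul, QuadraticAlgebra.im_sub, QuadraticAlgebra.im_star, jj_re, h2,
        map_add]
      simp only [fv]
      field_simp
      ring
    · rw [QuadraticAlgebra.im_mul, QuadraticAlgebra.re_sub, QuadraticAlgebra.re_star, jj_im]
      simp only [fv]
      ring
  · exact ⟨0, by simp, by simp [D.dx_zero], by simp [D.dy_zero]⟩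

/-- TARGET. `R` is a Noetherian ring and a finitely generated algebra over `F_3`. -/
theorem RR_finiteType : Algebra.FiniteType (ZMod 3) D.RR := by
  have hTft : Algebra.FiniteType (ZMod 3) D.TT := by
    rw [← Subalgebra.fg_iff_finiteType]
    refine ⟨D.gens_finite.toFinset, ?_⟩
    rw [Set.Finite.coe_toFinset]
    rfl
  have hNoeth : IsNoetherianRing D.TT := Algebra.FiniteType.isNoetherianRing (ZMod 3) D.TT
  let _ : Algebra D.TT D.RR := (Subalgebra.inclusion D.TT_le_RR).toRingHom.toAlgebra
  have : IsScalarTower (ZMod 3) D.TT D.RR := IsScalarTower.of_algebraMap_eq' (by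
    apply RingHom.ext_zmod)
  have hsm : ∀ (t : D.TT) (p : D.RR), ((t • p : D.RR) : MvPolynomial sg D.L2) = t * p := by
    intro t p
    rw [Algebra.smul_def]
    rfl
  let φ : D.RR →ₗ[D.TT] D.TT × D.TT :=
    { toFun := fun p => (⟨(p : MvPolynomial sg D.L2) + D.cj p, D.phi1_mem _ p.2⟩,
        ⟨MvPolynomial.C D.fv * ((p : MvPolynomial sg D.L2) - D.cj p) * MvPolynomial.monomial ee 1,
          D.phi2_mem _ p.2⟩)
      map_add' := by
        intro p q
        apply Prod.ext
        · apply Subtype.ext
          show ((p + q : D.RR) : MvPolynomial sg D.L2) + D.cj ((p + q : D.RR)) = _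
          rw [Subalgebra.coe_add, map_add]
          show _ = ((p : MvPolynomial sg D.L2) + D.cj p) + ((q : MvPolynomial sg D.L2) + D.cj q)
          ring
        · apply Subtype.ext
          show MvPolynomial.C D.fv * (((p + q : D.RR) : MvPolynomial sg D.L2) - D.cj ((p + q : D.RR)))
            * MvPolynomial.monomial ee 1 = _
          rw [Subalgebra.coe_add, map_add]
          show _ = MvPolynomial.C D.fv * ((p : MvPolynomial sg D.L2) - D.cj p) * MvPolynomial.monomial ee 1
            + MvPolynomial.C D.fv * ((q : MvPolynomial sg D.L2) - D.cj q) * MvPolynomial.monomial ee 1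
          ring
      map_smul' := by
        intro t p
        apply Prod.ext
        · apply Subtype.ext
          show ((t • p : D.RR) : MvPolynomial sg D.L2) + D.cj ((t • p : D.RR)) = _
          rw [hsm, map_mul, D.cj_TT _ t.2]
          show _ = (t : MvPolynomial sg D.L2) * ((p : MvPolynomial sg D.L2) + D.cj p)
          ring
        · apply Subtype.ext
          show MvPolynomial.C D.fv * (((t • p : D.RR) : MvPolynomial sg D.L2) - D.cj ((t • p : D.RR)))
            * MvPolynomial.monomial ee 1 = _
          rw [hsm, map_mul, D.cj_TT _ t.2]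
          show _ = (t : MvPolynomial sg D.L2) * (MvPolynomial.C D.fv *
            ((p : MvPolynomial sg D.L2) - D.cj p) * MvPolynomial.monomial ee 1)
          ring }
  have hφ : Function.Injective φ := by
    rw [injective_iff_map_eq_zero]
    intro p hp
    have h1 : (p : MvPolynomial sg D.L2) + D.cj p = 0 :=
      congrArg (fun x : D.TT × D.TT => (x.1 : MvPolynomial sg D.L2)) hp
    have h2 : MvPolynomial.C D.fv * ((p : MvPolynomial sg D.L2) - D.cj p) *
        MvPolynomial.monomial ee 1 = 0 :=
      congrArg (fun x : D.TT × D.TT => (x.2 : MvPolynomial sg D.L2)) hp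
    have h3 : (p : MvPolynomial sg D.L2) - D.cj p = 0 := by
      rcases mul_eq_zero.1 h2 with h | h
      · rcases mul_eq_zero.1 h with h | h
        · rw [MvPolynomial.C_eq_zero] at h
          exact absurd h D.fv_ne
        · exact h
      · rw [MvPolynomial.monomial_eq_zero] at h
        exact absurd h one_ne_zero
    have h4 : (3 : MvPolynomial sg D.L2) = 0 := by
      have : (3 : MvPolynomial sg D.L2) = algebraMap (ZMod 3) _ 3 := by
        rw [map_ofNat]
      rw [this, show (3 : ZMod 3) = 0 from by decide, map_zero]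
    apply Subtype.ext
    show (p : MvPolynomial sg D.L2) = 0
    linear_combination (p : MvPolynomial sg D.L2) * h4 - h1 - h3
  have hN1 : IsNoetherian D.TT D.TT := hNoeth
  have hN2 : IsNoetherian D.TT (D.TT × D.TT) := by
    exact isNoetherian_prod (R := D.TT) (M := D.TT) (N := D.TT)
  have hfin : Module.Finite D.TT D.RR := Module.Finite.of_injective φ hφ
  exact Algebra.FiniteType.trans hTft inferInstance

end BD

end

end Pool.Agent.Helper668.G
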