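import Mathlib
import Pool.Agent.Helper668.GA
import Pool.Agent.Helper668.GC
namespace Pool.Agent.Helper668.G
open Polynomial


section conj
variable {B : Type} [CommRing B]

/-- conjugation -/
private noncomputable def cj (h : OO B) : OO B := ⟨h.re, -h.im⟩

private lemma cj_mul (h h' : OO B) : cj (h * h') = cj h * cj h' := by
  apply QuadraticAlgebra.ext
  · simp only [cj, re_mul']; ring
  · simp only [cj, im_mul']; ring

private lemma cj_add (h h' : OO B) : cj (h + h') = cj h + cj h' := by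
  apply QuadraticAlgebra.ext
  · simp [cj]
  · simp [cj]; ring

private lemma cj_zero : cj (0 : OO B) = 0 := by
  apply QuadraticAlgebra.ext <;> simp [cj]

private lemma cj_one : cj (1 : OO B) = 1 := by
  apply QuadraticAlgebra.ext <;> simp [cj]

private lemma cj_pow (h : OO B) (n : ℕ) : cj (h ^ n) = cj h ^ n := by
  induction n with
  | zero => simp [cj_one]
  | succ n ih => rw [pow_succ, cj_mul, ih]; exact (pow_succ (cj h) n).symm

private lemma Top_cj {N : ℕ} {h : OO B} (hh : Top N h) : Top N (cj h) := by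
  obtain ⟨h1, h2, h3⟩ := hh
  refine ⟨h1, ⟨fun m hm => h2.1 m hm, fun m hm => h2.2 m ?_⟩, ?_⟩
  · intro h0; apply hm; simp [cj, h0]
  · unfold cf at h3 ⊢
    split_ifs at h3 ⊢ with h4
    · exact h3
    · simpa [cj] using h3

private lemma ev_cj (a b : B) (h : OO B) : ev a (-b) (cj h) = ev a b h := by
  simp [ev, cj]

private lemma ev_cj' (a b : B) (h : OO B) : ev a b (cj h) = ev a (-b) h := by
  simp [ev, cj]

end conj

section field
variable {K : Type} [Field K] [CharP K 3]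

private lemma two_ne : (2 : K) ≠ 0 := by
  intro h
  have h3 : (3 : K) = 0 := by
    have : ((3 : ℕ) : K) = 0 := CharP.cast_eq_zero _ 3
    exact_mod_cast this
  have : (1 : K) = 0 := by linear_combination h3 - h
  exact one_ne_zero this

private lemma three_eq : (3 : K) = 0 := by
  have : ((3 : ℕ) : K) = 0 := CharP.cast_eq_zero _ 3
  exact_mod_cast this

/-- vanishing at two conjugate points -/
private lemma re_im_zero {a b : K} (hb : b ≠ 0) {h : OO K} (h1 : ev a b h = 0) (h2 : ev a (-b) h = 0) :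
    h.re.eval a = 0 ∧ h.im.eval a = 0 := by
  unfold ev at h1 h2
  have h3 : 2 * h.re.eval a = 0 := by linear_combination h1 + h2
  have h4 : h.re.eval a = 0 := by
    rcases mul_eq_zero.mp h3 with h | h
    · exact absurd h two_ne
    · exact h
  refine ⟨h4, ?_⟩
  rw [h4, zero_add] at h1
  rcases mul_eq_zero.mp h1 with h | h
  · exact h
  · exact absurd h hb

private lemma cop {a c : K} (hac : a ≠ c) : IsCoprime (X - C a : K[X]) (X - C c) :=
  isCoprime_X_sub_C_of_isUnit_sub (sub_ne_zero.mpr hac).isUnit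

private lemma dvd_pair {a c : K} (hac : a ≠ c) {p : K[X]} (h1 : p.eval a = 0) (h2 : p.eval c = 0) :
    (X - C a) * (X - C c) ∣ p :=
  (cop hac).mul_dvd (dvd_iff_isRoot.mpr h1) (dvd_iff_isRoot.mpr h2)

/-- the quadratic polynomial as an element -/
private noncomputable def G0 (a c : K) : OO K := ⟨(X - C a) * (X - C c), 0⟩

private lemma G0_dvd {a c b d : K} (hac : a ≠ c) (hb : b ≠ 0) (hd : d ≠ 0) {h : OO K}
    (h1 : ev a b h = 0) (h2 : ev a (-b) h = 0) (h3 : ev c d h = 0) (h4 : ev c (-d) h = 0) :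
    G0 a c ∣ h := by
  obtain ⟨e1, e2⟩ := re_im_zero hb h1 h2
  obtain ⟨e3, e4⟩ := re_im_zero hd h3 h4
  obtain ⟨p, hp⟩ := dvd_pair hac e1 e3
  obtain ⟨r, hr⟩ := dvd_pair hac e2 e4
  refine ⟨⟨p, r⟩, ?_⟩
  apply QuadraticAlgebra.ext
  · rw [re_mul', hp]; simp [G0]
  · rw [im_mul', hr]; simp [G0]

private lemma G0_top (a c : K) : Top 4 (G0 a c) := by
  have hm : ((X - C a) * (X - C c) : K[X]).Monic := (monic_X_sub_C _).mul (monic_X_sub_C _)
  have h2 : ((X - C a) * (X - C c) : K[X]).natDegree = 2 := by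
    rw [(monic_X_sub_C _).natDegree_mul (monic_X_sub_C _), natDegree_X_sub_C, natDegree_X_sub_C]
  have h3 : ((X - C a) * (X - C c) : K[X]).coeff 2 = 1 := by
    have h3 := hm.coeff_natDegree
    rwa [h2] at h3
  refine ⟨by norm_num, ?_, ?_⟩
  · apply PX_of_deg
    · show ((X - C a) * (X - C c) : K[X]).natDegree ≤ 4 / 2
      rw [h2]
    · left; rfl
  · have e3 : cf 4 (G0 a c) = (G0 a c).re.coeff 2 := by simp [cf]
    rw [e3]
    show ((X - C a) * (X - C c) : K[X]).coeff 2 ≠ 0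
    rw [h3]
    exact one_ne_zero

private lemma G0_pow_re (a c : K) (q : ℕ) : G0 a c ^ q = ⟨((X - C a) * (X - C c)) ^ q, 0⟩ := by
  induction q with
  | zero => rfl
  | succ q ih =>
    rw [pow_succ, ih]
    apply QuadraticAlgebra.ext
    · rw [re_mul']; simp [G0, pow_succ]
    · rw [im_mul']; simp [G0]

private lemma ev_G0 (a c s t : K) (q : ℕ) : ev s t (G0 a c ^ q) = ((s - a) * (s - c)) ^ q := by
  rw [G0_pow_re]; simp [ev]

private lemma PX2 {r : OO K} (h : Top 2 r) : ∃ ρ : K[X], r = ⟨ρ, 0⟩ ∧ ρ.natDegree ≤ 1 := by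
  obtain ⟨h1, h2, h3⟩ := h
  refine ⟨r.re, ?_, ?_⟩
  · apply QuadraticAlgebra.ext
    · rfl
    · rcases h2.im_deg with h | h
      · exact h
      · omega
  · have := h2.re_deg
    omega

private theorem U_field {x y : K} (hxy : y ^ 2 = x ^ 3 - x)
    (hy : y ≠ 0) (hy4 : 1 + y ^ 4 ≠ 0) {q : ℕ} {a b : K} (hab : b ^ 2 = a ^ 3 - a) (hb : b ≠ 0)
    (hax : a ≠ x) (hax2 : y ^ 2 * (a - x) ≠ 1) {u w : OO K}
    (hu : u ∈ Ideal.span {j : OO K | ∃ i, fB x y ∣ i ^ 2 ∧ j = i ^ q})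
    (hw : w ∈ Ideal.span {j : OO K | ∃ i, fB x y ∣ i ^ 2 ∧ j = i ^ q})
    (hwT : Top (2 * q + 1) w) (hwZ : ev a b w = 0) :
    (∀ N, Top N u → 2 * q ≤ N) ∧ (∀ N, Top N u → N ≤ 2 * q + 1 → ev a b u = 0) := by
  obtain ⟨ξ, hξ⟩ : ∃ ξ : K, ξ = x + 1 / y ^ 2 := ⟨_, rfl⟩
  obtain ⟨η, hη⟩ : ∃ η : K, η = (1 + y ^ 4) / y ^ 3 := ⟨_, rfl⟩
  have h3 : (3 : K) = 0 := three_eq
  have hη0 : η ≠ 0 := by
    rw [hη]; exact div_ne_zero hy4 (pow_ne_zero 3 hy)
  have hxξ : x ≠ ξ := by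
    rw [hξ]; intro h
    have : (1 : K) / y ^ 2 = 0 := by linear_combination -h
    rw [div_eq_zero_iff] at this
    rcases this with h | h
    · exact one_ne_zero h
    · exact pow_ne_zero 2 hy h
  have hcurve : η ^ 2 = ξ ^ 3 - ξ := by
    have h1 : ξ ^ 3 = x ^ 3 + (1 / y ^ 2) ^ 3 := by rw [hξ]; exact add_pow_char _ _ _
    rw [h1, hη, hξ]
    have h2 : x ^ 3 = y ^ 2 + x := by linear_combination -hxy
    rw [h2]
    field_simp
    linear_combination (y ^ 4) * h3
  have hneg : ∀ s t : K, t ^ 2 = s ^ 3 - s → (-t) ^ 2 = s ^ 3 - s := fun s t h => by rw [neg_sq, h]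
  have hevf : ∀ s t : K, t ^ 2 = s ^ 3 - s → ev s t (fB x y) = (t - y) ^ 2 - (s - x) ^ 3 := by
    intro s t hst
    have h0 : evHom s t hst (fB x y) = (evHom s t hst Yp - evHom s t hst (cc y)) ^ 2 -
        (evHom s t hst Xp - evHom s t hst (cc x)) ^ 3 := by
      unfold fB
      rw [map_sub, map_pow, map_pow, map_sub (evHom s t hst) Yp, map_sub (evHom s t hst) Xp]
    rw [evHom_apply, evHom_apply, evHom_apply, evHom_apply, evHom_apply, ev_Xp, ev_Yp, ev_cc,
      ev_cc] at h0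
    exact h0
  have hf1 : ev x y (fB x y) = 0 := by rw [hevf x y hxy]; ring
  have hf2 : ev ξ η (fB x y) = 0 := by
    rw [hevf ξ η hcurve]
    have e1 : η - y = 1 / y ^ 3 := by rw [hη]; field_simp; ring
    have e2 : ξ - x = 1 / y ^ 2 := by rw [hξ]; ring
    rw [e1, e2]; field_simp; ring
  have hvan : ∀ s t : K, t ^ 2 = s ^ 3 - s → ev s t (fB x y) = 0 → ∀ i : OO K, fB x y ∣ i ^ 2 →
      ev s t i = 0 := by
    intro s t hst h0 i hi
    obtain ⟨r, hr⟩ := hi
    have h1 : ev s t (i ^ 2) = 0 := by rw [hr, ev_mul hst, h0, zero_mul]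
    rw [pow_two, ev_mul hst] at h1
    exact mul_self_eq_zero.mp h1
  have hprod : ∀ i i' : OO K, fB x y ∣ i ^ 2 → fB x y ∣ i' ^ 2 → G0 x ξ ∣ i * cj i' := by
    intro i i' hi hi'
    apply G0_dvd hxξ hy hη0
    · rw [ev_mul hxy, hvan x y hxy hf1 i hi, zero_mul]
    · rw [ev_mul (hneg x y hxy), ev_cj, hvan x y hxy hf1 i' hi', mul_zero]
    · rw [ev_mul hcurve, hvan ξ η hcurve hf2 i hi, zero_mul]
    · rw [ev_mul (hneg ξ η hcurve), ev_cj, hvan ξ η hcurve hf2 i' hi', mul_zero]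
  have hI : ∀ u ∈ Ideal.span {j : OO K | ∃ i, fB x y ∣ i ^ 2 ∧ j = i ^ q},
      ∀ w ∈ Ideal.span {j : OO K | ∃ i, fB x y ∣ i ^ 2 ∧ j = i ^ q}, G0 x ξ ^ q ∣ u * cj w := by
    intro u hu w hw
    refine Submodule.span_induction (p := fun u _ => G0 x ξ ^ q ∣ u * cj w) ?_ ?_ ?_ ?_ hu
    · rintro j ⟨i, hi, rfl⟩
      refine Submodule.span_induction (p := fun w _ => G0 x ξ ^ q ∣ i ^ q * cj w) ?_ ?_ ?_ ?_ hw
      · rintro j ⟨i', hi', rfl⟩
        rw [cj_pow, ← mul_pow]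
        exact pow_dvd_pow_of_dvd (hprod i i' hi hi') q
      · rw [cj_zero, mul_zero]; exact dvd_zero _
      · intro w1 w2 _ _ h1 h2
        rw [cj_add, mul_add]; exact dvd_add h1 h2
      · intro c w1 _ h1
        rw [smul_eq_mul, cj_mul, mul_left_comm]; exact Dvd.dvd.mul_left h1 _
    · rw [zero_mul]; exact dvd_zero _
    · intro w1 w2 _ _ h1 h2
      rw [add_mul]; exact dvd_add h1 h2
    · intro c w1 _ h1
      rw [smul_eq_mul, mul_assoc]; exact Dvd.dvd.mul_left h1 _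
  have hGT : Top (q * 4) (G0 x ξ ^ q) := (G0_top x ξ).pow q
  have hG : ∀ (N M : ℕ) (u w r : OO K), Top N u → Top M w → u * cj w = G0 x ξ ^ q * r →
      ∃ R, Top R r ∧ N + M = q * 4 + R := by
    intro N M u w r hN hM h
    have hT := hN.mul (Top_cj hM)
    have hr : r ≠ 0 := by
      rintro rfl
      rw [mul_zero] at h
      exact hT.ne_zero h
    obtain ⟨R, hR⟩ := exists_top hr
    refine ⟨R, hR, ?_⟩
    rw [h] at hT
    exact hT.unique (hGT.mul hR)
  have part1 : ∀ N, Top N u → 2 * q ≤ N := by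
    intro N hN
    obtain ⟨r, hr⟩ := hI u hu u hu
    obtain ⟨R, hR, hRR⟩ := hG N N u u r hN hN hr
    omega
  refine ⟨part1, ?_⟩
  intro N hN hNq
  have hN2 := part1 N hN
  obtain ⟨r, hr⟩ := hI u hu w hw
  obtain ⟨R, hR, hRR⟩ := hG N (2 * q + 1) u w r hN hwT hr
  have hR1 := hR.1
  have hR2 : R = 2 := by omega
  rw [hR2] at hR
  obtain ⟨ρ, hρ, hρd⟩ := PX2 hR
  have hga : ((a - x) * (a - ξ)) ^ q ≠ 0 := by
    apply pow_ne_zero
    apply mul_ne_zero (sub_ne_zero.mpr hax)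
    intro h
    apply hax2
    rw [hξ] at h
    have : a - x = 1 / y ^ 2 := by linear_combination h
    rw [this]; field_simp
  have hρa : ρ.eval a = 0 := by
    have h1 := congrArg (ev a (-b)) hr
    rw [ev_mul (hneg a b hab), ev_mul (hneg a b hab), ev_cj, hwZ, mul_zero, ev_G0] at h1
    rcases mul_eq_zero.mp h1.symm with h | h
    · exact absurd h hga
    · rw [hρ] at h; simpa [ev] using h
  have h1 := congrArg (ev a b) hr
  rw [ev_mul hab, ev_mul hab, ev_cj'] at h1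
  have h2 : ev a b r = 0 := by rw [hρ]; simp [ev, hρa]
  rw [h2, mul_zero] at h1
  rcases mul_eq_zero.mp h1 with h | h
  · exact h
  exfalso
  obtain ⟨w1, w2⟩ := re_im_zero hb hwZ h
  obtain ⟨p, hp⟩ := dvd_iff_isRoot.mpr (show IsRoot w.re a from w1)
  obtain ⟨s, hs⟩ := dvd_iff_isRoot.mpr (show IsRoot w.im a from w2)
  obtain ⟨r0, hr0⟩ := hI w hw w hw
  obtain ⟨R0, hR0, hRR0⟩ := hG _ _ w w r0 hwT hwT hr0
  have hR02 : R0 = 2 := by omega
  rw [hR02] at hR0
  obtain ⟨ρ0, hρ0, hρ0d⟩ := PX2 hR0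
  have hρ00 : ρ0 ≠ 0 := by
    rintro rfl
    apply hR0.ne_zero
    rw [hρ0]; rfl
  have h4 := congrArg QuadraticAlgebra.re hr0
  rw [re_mul', re_mul', G0_pow_re, hρ0] at h4
  simp only [cj] at h4
  rw [hp, hs] at h4
  have h5 : (X - C a) ^ 2 * (p ^ 2 - (X ^ 3 - X) * s ^ 2) = ((X - C x) * (X - C ξ)) ^ q * ρ0 := by
    linear_combination h4
  have h6 : (X - C a) ^ 2 ∣ ((X - C x) * (X - C ξ)) ^ q * ρ0 := ⟨_, h5.symm⟩
  have haξ : a ≠ ξ := by
    rintro rfl
    apply hax2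
    rw [hξ]; field_simp; ring
  have h7 : IsCoprime ((X - C a : K[X]) ^ 2) (((X - C x) * (X - C ξ)) ^ q) := by
    apply IsCoprime.pow
    exact (cop hax).mul_right (cop haξ)
  have h8 := h7.dvd_of_dvd_mul_left h6
  have h9 := natDegree_le_of_dvd h8 hρ00
  rw [(monic_X_sub_C a).natDegree_pow, natDegree_X_sub_C] at h9
  omega

end field

section transfer
variable {B K : Type} [CommRing B] [Field K]

/-- base change -/
private noncomputable def mp (f : B →+* K) : OO B →+* OO K where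
  toFun h := ⟨h.re.map f, h.im.map f⟩
  map_one' := by
    apply QuadraticAlgebra.ext <;> simp
  map_zero' := by
    apply QuadraticAlgebra.ext <;> simp
  map_add' h h' := by
    apply QuadraticAlgebra.ext <;> simp
  map_mul' h h' := by
    apply QuadraticAlgebra.ext <;> simp

private lemma mp_re (f : B →+* K) (h : OO B) : (mp f h).re = h.re.map f := rfl
private lemma mp_im (f : B →+* K) (h : OO B) : (mp f h).im = h.im.map f := rfl

private lemma mp_ev (f : B →+* K) (a b : B) (h : OO B) : ev (f a) (f b) (mp f h) = f (ev a b h) := by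
  simp [ev, mp_re, mp_im, eval_map, eval₂_hom]

private lemma mp_top (f : B →+* K) (hf : Function.Injective f) {N : ℕ} {h : OO B} (hh : Top N h) :
    Top N (mp f h) := by
  obtain ⟨h1, h2, h3⟩ := hh
  refine ⟨h1, ⟨fun m hm => h2.1 m ?_, fun m hm => h2.2 m ?_⟩, ?_⟩
  · intro h0; apply hm; rw [mp_re, coeff_map, h0, map_zero]
  · intro h0; apply hm; rw [mp_im, coeff_map, h0, map_zero]
  · unfold cf at h3 ⊢
    split_ifs at h3 ⊢ with h4
    · rw [mp_re, coeff_map]; exact (map_ne_zero_iff f hf).mpr h3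
    · rw [mp_im, coeff_map]; exact (map_ne_zero_iff f hf).mpr h3

private lemma mp_fB (f : B →+* K) (x y : B) : mp f (fB x y) = fB (f x) (f y) := by
  have hX : mp f Xp = Xp := by apply QuadraticAlgebra.ext <;> simp [mp_re, mp_im]
  have hY : mp f Yp = Yp := by apply QuadraticAlgebra.ext <;> simp [mp_re, mp_im]
  have hc : ∀ c : B, mp f (cc c) = cc (f c) := fun c => by
    apply QuadraticAlgebra.ext <;> simp [mp_re, mp_im]
  unfold fB
  rw [map_sub, map_pow, map_pow, map_sub, map_sub, hX, hY, hc, hc]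

private lemma mp_span (f : B →+* K) {x y : B} {q : ℕ} {u : OO B}
    (hu : u ∈ Ideal.span {j : OO B | ∃ i, fB x y ∣ i ^ 2 ∧ j = i ^ q}) :
    mp f u ∈ Ideal.span {j : OO K | ∃ i, fB (f x) (f y) ∣ i ^ 2 ∧ j = i ^ q} := by
  have h1 := Ideal.mem_map_of_mem (mp f) hu
  rw [Ideal.map_span] at h1
  refine Ideal.span_mono ?_ h1
  rintro _ ⟨j, ⟨i, hi, rfl⟩, rfl⟩
  refine ⟨mp f i, ?_, by rw [map_pow]⟩
  rw [← mp_fB, ← map_pow]
  exact map_dvd (mp f) hi

end transfer

/-- TARGET. -/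
theorem U_main {B : Type} [CommRing B] [IsDomain B] [CharP B 3] {x y : B} (hxy : y ^ 2 = x ^ 3 - x)
    (hy : y ≠ 0) (hy4 : 1 + y ^ 4 ≠ 0) {q : ℕ} {a b : B} (hab : b ^ 2 = a ^ 3 - a) (hb : b ≠ 0)
    (hax : a ≠ x) (hax2 : y ^ 2 * (a - x) ≠ 1) {u w : OO B}
    (hu : u ∈ Ideal.span {j : OO B | ∃ i, fB x y ∣ i ^ 2 ∧ j = i ^ q})
    (hw : w ∈ Ideal.span {j : OO B | ∃ i, fB x y ∣ i ^ 2 ∧ j = i ^ q})
    (hwT : Top (2 * q + 1) w) (hwZ : ev a b w = 0) :
    (∀ N, Top N u → 2 * q ≤ N) ∧ (∀ N, Top N u → N ≤ 2 * q + 1 → ev a b u = 0) := by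
  let f : B →+* FractionRing B := algebraMap B (FractionRing B)
  have hf : Function.Injective f := IsFractionRing.injective B (FractionRing B)
  haveI : CharP (FractionRing B) 3 := charP_of_injective_ringHom hf 3
  have hne : ∀ {s t : B}, s ≠ t → f s ≠ f t := fun h h' => h (hf h')
  have key := U_field (K := FractionRing B) (x := f x) (y := f y) (q := q) (a := f a) (b := f b)
    (u := mp f u) (w := mp f w) (by rw [← map_pow, hxy, map_sub, map_pow])
    (by rw [← map_zero f]; exact hne hy)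
    (by rw [← map_one f, ← map_pow, ← map_add, ← map_zero f]; exact hne hy4)
    (by rw [← map_pow, hab, map_sub, map_pow])
    (by rw [← map_zero f]; exact hne hb)
    (hne hax)
    (by rw [← map_pow, ← map_sub, ← map_mul, ← map_one f]; exact hne hax2)
    (mp_span f hu) (mp_span f hw) (mp_top f hf hwT) (by rw [mp_ev, hwZ, map_zero])
  refine ⟨fun N hN => key.1 N (mp_top f hf hN), fun N hN hNq => ?_⟩
  have := key.2 N (mp_top f hf hN) hNq
  rw [mp_ev] at this
  exact (map_eq_zero_iff f hf).mp this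

end Pool.Agent.Helper668.G
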