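import Mathlib
import Pool.Agent.Helper668.GO
import Pool.Agent.Helper668.GH
import Pool.Agent.Helper668.GN
import Pool.Agent.Helper668.GU
import Pool.Agent.Helper668.GE
import Pool.Agent.Helper668.GD
namespace Pool.Agent.Helper668.G
open Polynomial

noncomputable section

section decomp
variable {B : Type} [CommRing B]

lemma Xp_pow_eq (n : ℕ) : (Xp : OO B) ^ n = ⟨X ^ n, 0⟩ := by
  induction n with
  | zero => rfl
  | succ n ih =>
    rw [pow_succ, ih]
    apply QuadraticAlgebra.ext <;> simp [pow_succ]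

/-- first coordinate inclusion -/
def inl : B[X] →+ OO B where
  toFun p := ⟨p, 0⟩
  map_zero' := rfl
  map_add' a b := by apply QuadraticAlgebra.ext <;> simp

/-- second coordinate inclusion -/
def inr : B[X] →+ OO B where
  toFun p := ⟨0, p⟩
  map_zero' := rfl
  map_add' a b := by apply QuadraticAlgebra.ext <;> simp

lemma inl_mon (c : B) (l : ℕ) : inl (C c * X ^ l) = cc c * Xp ^ l := by
  rw [Xp_pow_eq]
  apply QuadraticAlgebra.ext
  · rw [re_mul']; simp [inl]
  · rw [im_mul']; simp [inl]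

lemma inr_mon (c : B) (l : ℕ) : inr (C c * X ^ l) = cc c * (Xp ^ l * Yp) := by
  rw [Xp_pow_eq]
  apply QuadraticAlgebra.ext
  · rw [re_mul', re_mul', im_mul']; simp [inr]
  · rw [im_mul', re_mul', im_mul']; simp [inr]

lemma inl_add_inr (h : OO B) : h = inl h.re + inr h.im := by
  apply QuadraticAlgebra.ext <;> simp [inl, inr]

lemma decomp_mem {h : OO B} {N : ℕ} (hN : PX N h) (S : AddSubmonoid (OO B))
    (hS : ∀ m, m ≠ 1 → m ≤ N → cc (cf m h) * emon Xp Yp m ∈ S) : h ∈ S := by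
  rw [inl_add_inr h]
  apply S.add_mem
  · rw [h.re.as_sum_support_C_mul_X_pow, map_sum]
    apply S.sum_mem
    intro l hl
    have h1 := hN.1 l (mem_support_iff.mp hl)
    have h2 := hS (2 * l) (by omega) h1
    rw [inl_mon]
    have e1 : cf (2 * l) h = h.re.coeff l := by
      unfold cf; rw [if_pos (by omega)]; congr 1; omega
    have e2 : emon (Xp : OO B) Yp (2 * l) = Xp ^ l := by
      unfold emon; rw [if_pos (by omega)]; congr 1; omega
    rwa [e1, e2] at h2
  · rw [h.im.as_sum_support_C_mul_X_pow, map_sum]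
    apply S.sum_mem
    intro l hl
    have h1 := hN.2 l (mem_support_iff.mp hl)
    have h2 := hS (2 * l + 3) (by omega) h1
    rw [inr_mon]
    have e1 : cf (2 * l + 3) h = h.im.coeff l := by
      unfold cf; rw [if_neg (by omega)]; congr 1; omega
    have e2 : emon (Xp : OO B) Yp (2 * l + 3) = Xp ^ l * Yp := by
      unfold emon; rw [if_neg (by omega)]; congr 2; omega
    rwa [e1, e2] at h2

lemma cc_emon (a b : B) (n : ℕ) : cc (emon a b n) = emon (cc a) (cc b) n := by
  unfold emon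
  split_ifs
  · exact cc_pow _ _
  · rw [cc_mul, cc_pow]

lemma three_poly [CharP B 3] : (3 : B[X]) = 0 := by
  have : ((3 : ℕ) : B[X]) = 0 := CharP.cast_eq_zero _ 3
  exact_mod_cast this

lemma fB_re [CharP B 3] {x y : B} (hxy : y ^ 2 = x ^ 3 - x) :
    (fB x y).re = - X - C x - C x ^ 3 := by
  have hre : (fB x y).re = X ^ 3 - X + C y ^ 2 - (X - C x) ^ 3 := by
    simp [fB, pow_succ, pow_two]
    ring
  rw [hre]
  have : (X - C x : B[X]) ^ 3 = X ^ 3 - C x ^ 3 := sub_pow_char _ _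
  rw [this, ← C_pow, hxy]
  have h3 : (3 : B[X]) = 0 := three_poly
  simp only [C_sub, C_pow]
  linear_combination (C x ^ 3) * h3

lemma fB_im [CharP B 3] (x y : B) : (fB x y).im = C y := by
  have h3 : (3 : B[X]) = 0 := three_poly
  have : (fB x y).im = - C y - C y := by
    simp [fB, pow_succ, pow_two]
    ring
  rw [this]
  linear_combination (-C y) * h3

lemma Top_fB [CharP B 3] {x y : B} (hxy : y ^ 2 = x ^ 3 - x) (hy : y ≠ 0) : Top 3 (fB x y) := by
  refine ⟨by norm_num, ?_, ?_⟩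
  · apply PX_of_deg
    · rw [fB_re hxy]
      norm_num
      refine (natDegree_sub_le _ _).trans (max_le ((natDegree_sub_le _ _).trans (max_le ?_ ?_)) ?_)
      · rw [natDegree_neg]; exact natDegree_X_le
      · rw [natDegree_C]; norm_num
      · rw [← C_pow, natDegree_C]; norm_num
    · right
      rw [fB_im, natDegree_C]; norm_num
  · simp [cf, fB_im, hy]

lemma Top_fB' [CharP B 3] [Nontrivial B] {x y : B} (hxy : y ^ 2 = x ^ 3 - x) :
    Top 6 ((cc y - Yp : OO B) ^ 2 - (cc x - Xp) ^ 3) := by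
  have h3 : (3 : B[X]) = 0 := three_poly
  have hre : ((cc y - Yp : OO B) ^ 2 - (cc x - Xp) ^ 3).re = - X ^ 3 - X - C x := by
    have : ((cc y - Yp : OO B) ^ 2 - (cc x - Xp) ^ 3).re = X ^ 3 - X + C y ^ 2 - (C x - X) ^ 3 := by
      simp [pow_succ, pow_two]
      ring
    rw [this]
    have : (C x - X : B[X]) ^ 3 = C x ^ 3 - X ^ 3 := sub_pow_char _ _
    rw [this, ← C_pow, hxy]
    simp only [C_sub, C_pow]
    linear_combination (X ^ 3) * h3
  have him : ((cc y - Yp : OO B) ^ 2 - (cc x - Xp) ^ 3).im = C y := by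
    have : ((cc y - Yp : OO B) ^ 2 - (cc x - Xp) ^ 3).im = - C y - C y := by
      simp [pow_succ, pow_two]
      ring
    rw [this]
    linear_combination (-C y) * h3
  generalize ((cc y - Yp : OO B) ^ 2 - (cc x - Xp) ^ 3) = h at hre him
  refine ⟨by norm_num, ?_, ?_⟩
  · apply PX_of_deg
    · rw [hre]
      have e1 : (X ^ 3 : B[X]).natDegree ≤ 6 / 2 := natDegree_X_pow_le _
      have e2 : (X : B[X]).natDegree ≤ 6 / 2 := natDegree_X_le.trans (by norm_num)
      have e3 : (C x : B[X]).natDegree ≤ 6 / 2 := by rw [natDegree_C]; norm_num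
      refine (natDegree_sub_le _ _).trans (max_le ((natDegree_sub_le _ _).trans (max_le ?_ e2)) e3)
      rw [natDegree_neg]; exact e1
    · right
      rw [him, natDegree_C]; norm_num
  · have : cf 6 h = -1 := by
      unfold cf
      rw [if_pos (by norm_num), hre]
      simp [coeff_X, coeff_C]
    rw [this]
    exact neg_ne_zero.mpr one_ne_zero

lemma Top_Xp [Nontrivial B] : Top 2 (Xp : OO B) := by
  refine ⟨by norm_num, PX_of_deg ?_ (by left; rfl), ?_⟩
  · exact natDegree_X_le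
  · simp [cf]

lemma Top_Yp [Nontrivial B] : Top 3 (Yp : OO B) := by
  refine ⟨by norm_num, PX_of_deg (by simp) (by right; simp), ?_⟩
  simp [cf]

lemma Top_cc {b : B} (hb : b ≠ 0) : Top 0 (cc b : OO B) := by
  refine ⟨by norm_num, PX_of_deg (by simp) (by left; rfl), ?_⟩
  simp [cf, hb]

end decomp

lemma sw_Xp : sw Xp = cc Xp := by
  apply O2_ext
  · intro l m; rw [sw_rr]
    rcases m with _ | _ | m <;> rcases l with _ | l <;> simp [coeff_X, coeff_C, coeff_one]
  · intro l m; rw [sw_ri]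
    rcases m with _ | _ | m <;> rcases l with _ | l <;> simp [coeff_X, coeff_C, coeff_one]
  · intro l m; rw [sw_ir]
    rcases m with _ | _ | m <;> rcases l with _ | l <;> simp [coeff_X, coeff_C, coeff_one]
  · intro l m; rw [sw_ii]
    rcases m with _ | _ | m <;> rcases l with _ | l <;> simp [coeff_X, coeff_C, coeff_one]

lemma sw_Yp : sw Yp = cc Yp := by
  apply O2_ext
  · intro l m; rw [sw_rr]
    rcases m with _ | _ | m <;> rcases l with _ | l <;> simp [coeff_X, coeff_C, coeff_one]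
  · intro l m; rw [sw_ri]
    rcases m with _ | _ | m <;> rcases l with _ | l <;> simp [coeff_X, coeff_C, coeff_one]
  · intro l m; rw [sw_ir]
    rcases m with _ | _ | m <;> rcases l with _ | l <;> simp [coeff_X, coeff_C, coeff_one]
  · intro l m; rw [sw_ii]
    rcases m with _ | _ | m <;> rcases l with _ | l <;> simp [coeff_X, coeff_C, coeff_one]

lemma sw_ccXp : sw (cc Xp) = Xp := by rw [← sw_Xp, sw_sw]
lemma sw_ccYp : sw (cc Yp) = Yp := by rw [← sw_Yp, sw_sw]

lemma PX_sw {P : ℕ} {h : O2} (hP : PX P (sw h)) (m : ℕ) :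
    PX P (h.re.coeff m) ∧ PX P (h.im.coeff m) := by
  refine ⟨⟨fun l hl => ?_, fun l hl => ?_⟩, ⟨fun l hl => ?_, fun l hl => ?_⟩⟩
  · apply hP.1
    intro h0
    apply hl
    rw [← sw_rr, h0]; rfl
  · apply hP.2
    intro h0
    apply hl
    rw [← sw_ir, h0]; rfl
  · apply hP.1
    intro h0
    apply hl
    rw [← sw_ri, h0]; rfl
  · apply hP.2
    intro h0
    apply hl
    rw [← sw_ii, h0]; rfl

lemma PX_cf {P : ℕ} {h : O2} (hP : PX P (sw h)) (m : ℕ) : PX P (cf m h) := by
  unfold cf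
  split_ifs
  · exact (PX_sw hP _).1
  · exact (PX_sw hP _).2

lemma smul_cc (c : ZMod 3) (z : O2) : c • z = cc (cc c) * z := by
  rw [Algebra.smul_def]
  have : algebraMap (ZMod 3) O2 = (ccHom (B := O1)).comp (ccHom (B := ZMod 3)) :=
    Subsingleton.elim _ _
  rw [this]; rfl

lemma span_e (h : O2) : h ∈ Submodule.span (ZMod 3)
    {z | ∃ m n, m ≠ 1 ∧ n ≠ 1 ∧ m ≤ deg h ∧ n ≤ deg (sw h) ∧
      z = emon Xp Yp m * emon (cc Xp) (cc Yp) n} := by
  set T : Set O2 := {z | ∃ m n, m ≠ 1 ∧ n ≠ 1 ∧ m ≤ deg h ∧ n ≤ deg (sw h) ∧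
      z = emon Xp Yp m * emon (cc Xp) (cc Yp) n} with hT
  apply decomp_mem (PX_deg h) (Submodule.span (ZMod 3) T).toAddSubmonoid
  intro m hm1 hm2
  let ψ : O1 →+ O2 :=
    { toFun := fun g => cc g * emon Xp Yp m
      map_zero' := by rw [cc_zero, zero_mul]
      map_add' := fun a b => by rw [cc_add, add_mul] }
  have key := decomp_mem (PX_cf (PX_deg (sw h)) m)
    ((Submodule.span (ZMod 3) T).toAddSubmonoid.comap ψ) (fun n hn1 hn2 => by
      show cc (cc (cf n (cf m h)) * emon Xp Yp n) * emon Xp Yp m ∈ Submodule.span (ZMod 3) T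
      rw [cc_mul, cc_emon, mul_assoc, ← smul_cc]
      apply Submodule.smul_mem
      apply Submodule.subset_span
      exact ⟨m, n, hm1, hn1, hm2, hn2, mul_comm _ _⟩)
  exact key

lemma O2_curve : (Yp : O1) ^ 2 = Xp ^ 3 - Xp := Yp_sq

lemma Yp_ne {B : Type} [CommRing B] [Nontrivial B] : (Yp : OO B) ≠ 0 := Top_Yp.ne_zero
lemma Xp_ne {B : Type} [CommRing B] [Nontrivial B] : (Xp : OO B) ≠ 0 := Top_Xp.ne_zero

/-- the concrete data on `F_3[x1,y1] ⊗ F_3[x2,y2]` -/
def bdO : BD O2 where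
  dx := deg
  dy h := deg (sw h)
  dx_zero := deg_zero
  dy_zero := by rw [map_zero, deg_zero]
  dx_mul a b ha hb := deg_mul ha hb
  dy_mul a b ha hb := by rw [map_mul, deg_mul (sw_ne ha) (sw_ne hb)]
  dx_add := deg_add
  dy_add a b := by rw [map_add]; exact deg_add _ _
  f := fB (Xp : O1) (Yp : O1)
  dx_f := deg_eq (Top_fB Yp_sq Yp_ne)
  dy_f := by
    have : sw (fB (Xp : O1) (Yp : O1)) = (cc Yp - Yp) ^ 2 - (cc Xp - Xp) ^ 3 := by
      unfold fB
      rw [map_sub, map_pow, map_pow, map_sub, map_sub, sw_Xp, sw_Yp, sw_ccXp, sw_ccYp]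
    rw [this]
    exact deg_eq (Top_fB' Yp_sq)
  X1 := Xp
  Y1 := Yp
  X2 := cc Xp
  Y2 := cc Yp
  rel1 := Yp_sq
  rel2 := by rw [← cc_pow, ← cc_pow, ← cc_sub', Yp_sq]
  dx_X1 := deg_eq Top_Xp
  dy_X1 := by rw [sw_Xp]; exact deg_eq (Top_cc Xp_ne)
  dx_Y1 := deg_eq Top_Yp
  dy_Y1 := by rw [sw_Yp]; exact deg_eq (Top_cc Yp_ne)
  dx_X2 := deg_eq (Top_cc Xp_ne)
  dy_X2 := by rw [sw_ccXp]; exact deg_eq Top_Xp
  dx_Y2 := deg_eq (Top_cc Yp_ne)
  dy_Y2 := by rw [sw_ccYp]; exact deg_eq Top_Yp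
  span_e := span_e

end

end Pool.Agent.Helper668.G
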