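import Mathlib
import Pool.Agent.Helper668.GT
namespace Pool.Agent.Helper668.G
open Polynomial

noncomputable section

lemma za_top (e : ℕ) : Top (9 ^ e * 2) (za (Xp : O1) e) := Top_Xp.pow (9 ^ e)

lemma hx_O1 (e : ℕ) : (Xp : O1) ^ (9 ^ (e + 1)) ≠ (Xp : O1) ^ (9 ^ e) := by
  intro h
  have h1 := za_top (e + 1)
  have h2 := za_top e
  unfold za at h1 h2
  rw [h] at h1
  have h3 := h1.unique h2
  have h4 : 1 ≤ 9 ^ e := Nat.one_le_pow _ _ (by norm_num)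
  rw [pow_succ] at h3
  omega

lemma mem_J {e : ℕ} {u : O2} (h : ∀ h, fB (Xp : O1) Yp ∣ (th2^[e] (u * h)) ^ 2) :
    u ∈ Ideal.span {j : O2 | ∃ i, fB (Xp : O1) Yp ∣ i ^ 2 ∧ j = i ^ (3 ^ e)} := by
  obtain ⟨ι, _, b, bs, hb⟩ := iter_hasDual th2 th2_lin th2_dual e
  rw [hb u]
  apply Ideal.sum_mem
  intro i _
  apply Ideal.mul_mem_right
  exact Ideal.subset_span ⟨_, h (bs i), rfl⟩

lemma O1_y4 : (1 : O1) + Yp ^ 4 ≠ 0 := by
  intro h
  have h1 : Top (4 * 3) ((Yp : O1) ^ 4) := Top_Yp.pow 4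
  have h2 : (Yp : O1) ^ 4 = cc (-1) := by
    have : (cc (-1) : O1) = -1 := map_neg (ccHom (B := ZMod 3)) 1
    rw [this]
    exact eq_neg_of_add_eq_zero_right h
  rw [h2] at h1
  have h3 := h1.unique (Top_cc (B := ZMod 3) (b := -1) (by decide))
  omega

lemma O1_hb (e : ℕ) : zb (Yp : O1) e ≠ 0 := by
  unfold zb
  apply mul_ne_zero
  · exact pow_ne_zero _ (neg_ne_zero.mpr one_ne_zero)
  · exact pow_ne_zero _ Yp_ne

lemma O1_hax {e : ℕ} (he : 1 ≤ e) : za (Xp : O1) e ≠ Xp := by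
  intro h
  have h1 := za_top e
  rw [h] at h1
  have h2 := h1.unique Top_Xp
  have h3 : 9 ^ 1 ≤ 9 ^ e := Nat.pow_le_pow_right (by norm_num) he
  omega

lemma O1_hax2 {e : ℕ} (he : 1 ≤ e) : (Yp : O1) ^ 2 * (za (Xp : O1) e - Xp) ≠ 1 := by
  intro h
  have h1 := (Top_Yp (B := ZMod 3)).pow 2 |>.mul (za_top e)
  have h2 : (Yp : O1) ^ 2 * za (Xp : O1) e = 1 + Yp ^ 2 * Xp := by
    rw [← h]; ring
  rw [h2] at h1
  have h3 : PX 8 ((1 : O1) + Yp ^ 2 * Xp) := by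
    apply PX.add
    · have : (1 : O1) = cc 1 := cc_one.symm
      rw [this]
      exact (Top_cc (B := ZMod 3) (b := 1) (by decide)).2.1.mono (by norm_num)
    · exact (((Top_Yp (B := ZMod 3)).pow 2).mul Top_Xp).2.1
  have h4 := h1.le_of_PX h3
  have h5 : 9 ^ 1 ≤ 9 ^ e := Nat.pow_le_pow_right (by norm_num) he
  omega

instance icO1 : IsIntegrallyClosed O1 := OO_isIntegrallyClosed (ZMod 3)
instance icO2 : IsIntegrallyClosed O2 := OO_isIntegrallyClosed O1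

lemma U_O2 {e : ℕ} (he : 1 ≤ e) {u : O2}
    (hu : ∀ h, fB (Xp : O1) Yp ∣ (th2^[e] (u * h)) ^ 2) :
    (∀ N, Top N u → 2 * 3 ^ e ≤ N) ∧
    (∀ N, Top N u → N ≤ 2 * 3 ^ e + 1 → ev (za (Xp : O1) e) (zb (Yp : O1) e) u = 0) := by
  obtain ⟨w, gA, gB, hw1, hw2, -, -, hw5, hw6⟩ := exists_u (x := (Xp : O1)) (y := Yp) Yp_sq hx_O1 e
  have hw : ∀ h, fB (Xp : O1) Yp ∣ (th2^[e] (w * h)) ^ 2 :=
    fun h => cond_i th1 th1_lin (Top_fB Yp_sq Yp_ne).ne_zero hw5 hw6 h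
  exact U_main (x := (Xp : O1)) (y := Yp) Yp_sq Yp_ne O1_y4 (z_curve Yp_sq e) (O1_hb e) (O1_hax he)
    (O1_hax2 he) (mem_J hu) (mem_J hw) hw1 hw2

/-- the Frobenius data on `O2` -/
def hdO (e m : ℕ) (hm : 3 ^ e = 2 * m + 1) (he : 1 ≤ e) : HD bdO e m where
  Th := iterHom th2 e
  hq := hm
  he := he
  lin r h := iter_lin th2 th2_lin e r h
  bx h k hk := deg_le_iff.mpr (Phi_iter_PX th1 e (deg_le_iff.mp hk))
  by' h k hk := by
    show deg (sw (th2^[e] h)) ≤ k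
    rw [sw_iter]
    exact deg_le_iff.mpr (Phi_iter_PX th1 e (deg_le_iff.mp hk))
  dual := iter_hasDual th2 th2_lin th2_dual e
  nx u hu a c i0 hyp := nx_gen th1 e (iter_hasDual th1 th1_lin th1_dual e) u hu a c i0 hyp
  ny u hu a c i0 hyp := by
    refine nx_gen th1 e (iter_hasDual th1 th1_lin th1_dual e) (sw u) (sw_ne hu) a c i0
      (fun i' hi' h hh => ?_)
    have h1 : sw u * h = sw (u * sw h) := by rw [map_mul, sw_sw]
    have h2 := hyp i' hi' (sw h) (by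
      show ((deg (sw (sw h)) : ℕ) : ℤ) ≤ _
      rw [sw_sw]; exact hh)
    have h3 : deg (sw (th2^[e] (u * sw h))) ≤ 2 * i' + c := h2
    rw [sw_iter, ← h1] at h3
    exact h3
  K1 u hu hd := by
    by_contra hne
    have h1 := (U_O2 he hu).1 _ (deg_spec hne)
    have h2 : deg u < 2 * 3 ^ e := hd
    omega
  K2 := by
    obtain ⟨w, gA, gB, hw1, hw2, -, -, hw5, hw6⟩ :=
      exists_u (x := (Xp : O1)) (y := Yp) Yp_sq hx_O1 e
    refine ⟨w, hw1.ne_zero, fun h => cond_i th1 th1_lin (Top_fB Yp_sq Yp_ne).ne_zero hw5 hw6 h,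
      fun b hb => cond_ii th1 th1_lin Yp_sq hm hw5 hw6 b hb, ?_⟩
    exact (deg_eq hw1).le
  K3 u hne hu hd := by
    have h1 := (U_O2 he hu).2 _ (deg_spec hne) hd
    by_contra hlt
    push Not at hlt
    have h2 : deg (sw u) < 9 ^ e := by
      have : (3 ^ e) ^ 2 = 9 ^ e := by rw [← pow_mul, mul_comm, pow_mul]; norm_num
      rw [← this]; exact hlt
    exact eval_ne hne e (deg (sw u)) h2 (fun m => PX_sw (PX_deg _) m) h1

end

end Pool.Agent.Helper668.G
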