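import Mathlib
import Pool.Agent.Helper668.GM
import Pool.Agent.Helper668.GF
import Pool.Agent.Helper668.GS
import Pool.Agent.Helper668.GRI
import Pool.Agent.Helper668.GRD
set_option autoImplicit false

namespace Pool.Agent.Helper668.G

open Pool.Agent.Helper668.R

noncomputable section

lemma real_bound {e N : ℕ} (he : 1 ≤ e) (h : (3 ^ e) ^ 2 ≤ 2 * N + 3 * 3 ^ e) :
    ((3 : ℝ) ^ e) ^ 10 / 15 ^ 5 ≤ (((N / 5 + 1) ^ 5 : ℕ) : ℝ) := by
  have h1 : ((3 : ℝ) ^ e) ^ 2 ≤ 2 * N + 3 * 3 ^ e := by exact_mod_cast h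
  have h2 : (N : ℝ) ≤ 5 * (N / 5 : ℕ) + 5 := by
    have : N ≤ 5 * (N / 5) + 5 := by omega
    exact_mod_cast this
  have hq3 : (3 : ℝ) ^ e = 3 ∨ (9 : ℝ) ≤ 3 ^ e := by
    rcases Nat.lt_or_ge e 2 with h3 | h3
    · left
      have : e = 1 := by omega
      rw [this]; norm_num
    · right
      have : (3 : ℝ) ^ 2 ≤ 3 ^ e := pow_le_pow_right₀ (by norm_num) h3
      linarith
  obtain ⟨q, hq⟩ : ∃ q : ℝ, q = 3 ^ e := ⟨_, rfl⟩
  obtain ⟨t, ht⟩ : ∃ t : ℝ, t = (N / 5 : ℕ) := ⟨_, rfl⟩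
  have ht0 : 0 ≤ t := by rw [ht]; positivity
  have key : q ^ 2 / 15 ≤ t + 1 := by
    rw [← hq] at h1 hq3
    rw [← ht] at h2
    rcases hq3 with h4 | h4
    · rw [h4]; nlinarith
    · nlinarith
  push_cast
  rw [← hq, ← ht]
  calc q ^ 10 / 15 ^ 5 = (q ^ 2 / 15) ^ 5 := by ring
    _ ≤ (t + 1) ^ 5 := pow_le_pow_left₀ (by positivity) key 5

namespace BD

variable {A : Type} [CommRing A] [IsDomain A] [Algebra (ZMod 3) A] [IsIntegrallyClosed A] (D : BD A)

lemma domRR : IsDomain D.RR := inferInstance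

lemma noethRR : IsNoetherianRing D.RR :=
  haveI := RR_finiteType D
  Algebra.FiniteType.isNoetherianRing (ZMod 3) D.RR

instance domAA : IsDomain D.AA :=
  IsLocalization.isDomain_localization (Ideal.primeCompl_le_nonZeroDivisors _)

lemma noethAA : IsNoetherianRing D.AA :=
  IsLocalization.isNoetherianRing D.mm.primeCompl D.AA (noethRR D)

lemma icAA : IsIntegrallyClosed D.AA :=
  haveI := RR_isIntegrallyClosed D
  isIntegrallyClosed_of_isLocalization D.AA D.mm.primeCompl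
    (Ideal.primeCompl_le_nonZeroDivisors _) 

lemma hom_bound {e m : ℕ} (H : HD D e m) (n : ℕ) [CharP D.AA 3]
    (g : Fin n → (rootAlg 3 e D.AA →ₗ[D.AA] D.AA))
    (hg : Submodule.span D.AA (Set.range g) = ⊤) : ((3 : ℝ) ^ e) ^ 10 / 15 ^ 5 ≤ n := by
  obtain ⟨E⟩ := hom_equiv 3 e D.AA
  have h0 : (N0 H / 5 + 1) ^ 5 ≤ n := by
    refine lower_bound H _ (fun i => E (g i)) ?_
    have h1 : Set.range (fun i => E (g i)) = E '' Set.range g := by
      rw [← Set.range_comp]; rfl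
    rw [h1]
    have h2 := Submodule.map_span E.toLinearMap (Set.range g)
    have h3 : Submodule.map E.toLinearMap ⊤ = ⊤ := by
      rw [Submodule.map_top, LinearMap.range_eq_top]; exact E.surjective
    rw [← h3, ← hg]
    exact h2.symm
  exact (real_bound H.he (N0_bound H)).trans (by exact_mod_cast h0)

theorem package (HH : ∀ e m : ℕ, 3 ^ e = 2 * m + 1 → 1 ≤ e → Nonempty (HD D e m)) :
    ∃ (R : Type) (_ : CommRing R) (_ : IsDomain R) (_ : IsLocalRing R)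
      (_ : IsNoetherianRing R) (_ : IsIntegrallyClosed R) (_ : CharP R 3),
      ringKrullDim R ≤ 9 ∧ Finite (IsLocalRing.ResidueField R) ∧
      (∀ e : ℕ, Module.Finite R (rootAlg 3 e R)) ∧
      ∀ e : ℕ, 1 ≤ e → ∀ (n : ℕ) (g : Fin n → (rootAlg 3 e R →ₗ[R] R)),
        Submodule.span R (Set.range g) = ⊤ → ((3 : ℝ) ^ e) ^ 10 / 15 ^ 5 ≤ n := by
  have hc : CharP D.AA 3 := AA_charP D
  refine ⟨D.AA, inferInstance, domAA D, inferInstance, noethAA D, icAA D, hc,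
    AA_dim D (RR_finiteType D), AA_residue D, fun e => rootAlg_finite 3 e D.AA
      (AA_ffinite D (RR_finiteType D)), fun e he n g hg => ?_⟩
  obtain ⟨m, hm⟩ : ∃ m, 3 ^ e = 2 * m + 1 := by
    have : Odd (3 ^ e) := Odd.pow (by decide)
    obtain ⟨m, hm⟩ := this
    exact ⟨m, hm⟩
  obtain ⟨H⟩ := HH e m hm he
  exact hom_bound D H n g hg

end BD
end
end Pool.Agent.Helper668.G
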