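import Mathlib

set_option autoImplicit false
set_option linter.unusedVariables false

open scoped Quaternion

namespace Pool.Agent.Helper668.QI

/-- The coefficient of the word `l` in the noncommutative polynomial `p`. -/
noncomputable def coeff {X : Type} (p : FreeAlgebra ℝ X) (l : FreeMonoid X) : ℝ :=
  (FreeAlgebra.equivMonoidAlgebraFreeMonoid p).coeff l

/-- `p` is semihomogeneous: for some non-negative integer weights `w_1, …, w_m` and some integer
`d ≠ 0`, every word occurring in `p` has weighted degree `d`. -/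
def IsSemihomogeneous {m : ℕ} (p : FreeAlgebra ℝ (Fin m)) : Prop :=
  ∃ (w : Fin m → ℕ) (d : ℤ), d ≠ 0 ∧
    ∀ l : FreeMonoid (Fin m), coeff p l ≠ 0 → (((l.toList.map w).sum : ℕ) : ℤ) = d

/-! ### homogeneous elements -/

inductive Homo {X : Type} (w : X → ℕ) : ℕ → FreeAlgebra ℝ X → Prop
  | zero (d : ℕ) : Homo w d 0
  | const (r : ℝ) : Homo w 0 (algebraMap ℝ _ r)
  | var (i : X) : Homo w (w i) (FreeAlgebra.ι ℝ i)
  | add {d : ℕ} {a b : FreeAlgebra ℝ X} : Homo w d a → Homo w d b → Homo w d (a + b)
  | mul {d e : ℕ} {a b : FreeAlgebra ℝ X} : Homo w d a → Homo w e b → Homo w (d + e) (a * b)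

theorem Homo.coeff {X : Type} {w : X → ℕ} {d : ℕ} {p : FreeAlgebra ℝ X} (h : Homo w d p) :
    ∀ l : FreeMonoid X, QI.coeff p l ≠ 0 → (l.toList.map w).sum = d := by
  classical
  induction h with
  | zero d => intro l hl; simp [QI.coeff] at hl
  | const r =>
    intro l hl
    have : l = 1 := by
      by_contra hne
      apply hl
      rw [QI.coeff, AlgEquiv.commutes, MonoidAlgebra.coe_algebraMap]
      simp [Ne.symm hne]
    subst this
    simp
  | var i =>
    intro l hl
    have : l = FreeMonoid.of i := by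
      by_contra hne
      apply hl
      have h1 : FreeAlgebra.equivMonoidAlgebraFreeMonoid (FreeAlgebra.ι ℝ i)
          = MonoidAlgebra.of ℝ (FreeMonoid X) (FreeMonoid.of i) := by
        simp [FreeAlgebra.equivMonoidAlgebraFreeMonoid]
      rw [QI.coeff, h1]
      simp [Ne.symm hne]
    subst this
    simp
  | @add d a b ha hb iha ihb =>
    intro l hl
    rw [QI.coeff, map_add, MonoidAlgebra.coeff_add, Finsupp.add_apply] at hl
    by_cases h0 : (FreeAlgebra.equivMonoidAlgebraFreeMonoid a).coeff l = 0
    · rw [h0, zero_add] at hl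
      exact ihb l hl
    · exact iha l h0
  | @mul d e a b ha hb iha ihb =>
    intro l hl
    rw [QI.coeff, map_mul] at hl
    have h1 := MonoidAlgebra.support_coeff_mul_subset _ _ (Finsupp.mem_support_iff.2 hl)
    rw [Finset.mem_mul] at h1
    obtain ⟨l1, hl1, l2, hl2, rfl⟩ := h1
    have e1 := iha l1 (Finsupp.mem_support_iff.1 hl1)
    have e2 := ihb l2 (Finsupp.mem_support_iff.1 hl2)
    rw [FreeMonoid.toList_mul, List.map_append, List.sum_append, e1, e2]

theorem Homo.cast {X : Type} {w : X → ℕ} {d e : ℕ} {p : FreeAlgebra ℝ X} (h : Homo w d p)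
    (hde : d = e) : Homo w e p := hde ▸ h

theorem Homo.neg {X : Type} {w : X → ℕ} {d : ℕ} {p : FreeAlgebra ℝ X} (h : Homo w d p) :
    Homo w d (-p) := by
  have := (Homo.const (w := w) (-1)).mul h
  simpa using this

theorem Homo.sub {X : Type} {w : X → ℕ} {d : ℕ} {p q : FreeAlgebra ℝ X} (h : Homo w d p)
    (h' : Homo w d q) : Homo w d (p - q) := by
  rw [sub_eq_add_neg]; exact h.add h'.neg

theorem Homo.pow {X : Type} {w : X → ℕ} {d : ℕ} {p : FreeAlgebra ℝ X} (h : Homo w d p) (k : ℕ) :
    Homo w (k * d) (p ^ k) := by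
  induction k with
  | zero => have := (Homo.const (w := w) 1); simpa using this
  | succ k ih => rw [pow_succ, add_mul, one_mul]; exact ih.mul h

theorem Homo.lift {X Y : Type} {w : X → ℕ} {w' : Y → ℕ} {d : ℕ} {p : FreeAlgebra ℝ X}
    (h : Homo w d p) (g : X → FreeAlgebra ℝ Y) (hg : ∀ i, Homo w' (w i) (g i)) :
    Homo w' d (FreeAlgebra.lift ℝ g p) := by
  induction h with
  | zero d => rw [map_zero]; exact Homo.zero d
  | const r => rw [AlgHom.commutes]; exact Homo.const r
  | var i => rw [FreeAlgebra.lift_ι_apply]; exact hg i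
  | add ha hb iha ihb => rw [map_add]; exact iha.add ihb
  | mul ha hb iha ihb => rw [map_mul]; exact iha.mul ihb

/-- every element is a linear combination of its words -/
theorem mem_span_words {X : Type} (p : FreeAlgebra ℝ X) :
    p ∈ Submodule.span ℝ {q : FreeAlgebra ℝ X | ∃ l : FreeMonoid X, coeff p l ≠ 0 ∧
      q = (l.toList.map (FreeAlgebra.ι ℝ)).prod} := by
  classical
  have h1 : p = FreeAlgebra.equivMonoidAlgebraFreeMonoid.symm
      (FreeAlgebra.equivMonoidAlgebraFreeMonoid p) := by simp
  have h2 : ∀ P : MonoidAlgebra ℝ (FreeMonoid X),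
      (FreeAlgebra.equivMonoidAlgebraFreeMonoid (R := ℝ) (X := X)).symm P =
      P.coeff.sum (fun l c => c • (l.toList.map (FreeAlgebra.ι ℝ)).prod) := by
    intro P
    have h3 : (FreeAlgebra.equivMonoidAlgebraFreeMonoid (R := ℝ) (X := X)).symm P =
      (MonoidAlgebra.lift ℝ (FreeAlgebra ℝ X) (FreeMonoid X)
        (FreeMonoid.lift (FreeAlgebra.ι ℝ))) P := rfl
    rw [h3, MonoidAlgebra.lift_apply]
    simp only [FreeMonoid.lift_apply]
  conv => 
    arg 2
    rw [h1, h2]
  refine Submodule.sum_mem _ (fun l hl => Submodule.smul_mem _ _ (Submodule.subset_span ?_))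
  exact ⟨l, Finsupp.mem_support_iff.1 hl, rfl⟩

/-- Semihomogeneous polynomials scale. -/
theorem IsSemihomogeneous.scale {m : ℕ} {p : FreeAlgebra ℝ (Fin m)} (h : IsSemihomogeneous p) :
    ∃ (w : Fin m → ℕ) (d : ℕ), 0 < d ∧ ∀ (c : ℝ) (a : Fin m → ℍ[ℝ]),
      FreeAlgebra.lift ℝ (fun i => c ^ w i • a i) p = c ^ d • FreeAlgebra.lift ℝ a p := by
  obtain ⟨w, d, hd, hw⟩ := h
  by_cases hp : ∀ l, coeff p l = 0
  · refine ⟨w, 1, one_pos, fun c a => ?_⟩
    have : p = 0 := by
      have h1 : FreeAlgebra.equivMonoidAlgebraFreeMonoid p = 0 := by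
        apply MonoidAlgebra.coeff_injective
        ext l
        exact hp l
      simpa using h1
    subst this
    simp
  · push Not at hp
    obtain ⟨l0, hl0⟩ := hp
    have hd0 := hw l0 hl0
    refine ⟨w, (l0.toList.map w).sum, ?_, fun c a => ?_⟩
    · rcases Nat.eq_zero_or_pos (l0.toList.map w).sum with h | h
      · rw [h] at hd0; exact absurd hd0.symm (by simpa using hd)
      · exact h
    · have hmem := mem_span_words p
      have key : ∀ q ∈ {q : FreeAlgebra ℝ (Fin m) | ∃ l : FreeMonoid (Fin m), coeff p l ≠ 0 ∧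
          q = (l.toList.map (FreeAlgebra.ι ℝ)).prod},
          FreeAlgebra.lift ℝ (fun i => c ^ w i • a i) q
            = c ^ (l0.toList.map w).sum • FreeAlgebra.lift ℝ a q := by
        rintro q ⟨l, hl, rfl⟩
        have h1 := hw l hl
        have h2 : (l.toList.map w).sum = (l0.toList.map w).sum := by
          have := h1.trans hd0.symm
          exact_mod_cast this
        rw [← h2]
        generalize l.toList = L
        induction L with
        | nil => simp
        | cons i L ih =>
          simp only [List.map_cons, List.prod_cons, List.sum_cons, map_mul,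
            FreeAlgebra.lift_ι_apply]
          rw [ih, pow_add, smul_mul_smul_comm]
      refine Submodule.span_induction (p := fun q _ =>
        FreeAlgebra.lift ℝ (fun i => c ^ w i • a i) q
            = c ^ (l0.toList.map w).sum • FreeAlgebra.lift ℝ a q) ?_ ?_ ?_ ?_ hmem
      · intro q hq; exact key q hq
      · simp
      · intro x y _ _ hx hy; rw [map_add, map_add, hx, hy, smul_add]
      · intro r x _ hx; rw [map_smul, map_smul, hx, smul_comm]

end Pool.Agent.Helper668.QI
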