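import Pool.Agent.Helper668.QA

set_option autoImplicit false
set_option linter.unusedVariables false

open scoped Quaternion

namespace Pool.Agent.Helper668.QI

/-! ### conjugacy in the quaternions -/

theorem re_mul_comm (a b : ℍ[ℝ]) : (a * b).re = (b * a).re := by
  simp only [Quaternion.re_mul]; ring

theorem re_conj {u : ℍ[ℝ]} (hu : u ≠ 0) (q : ℍ[ℝ]) : (u * q * u⁻¹).re = q.re := by
  rw [re_mul_comm, ← mul_assoc, inv_mul_cancel₀ hu, one_mul]

theorem norm_conj {u : ℍ[ℝ]} (hu : u ≠ 0) (q : ℍ[ℝ]) : ‖u * q * u⁻¹‖ = ‖q‖ := by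
  rw [norm_mul, norm_mul, norm_inv]
  have : ‖u‖ ≠ 0 := norm_ne_zero_iff.2 hu
  field_simp

theorem normSq_eq' (q : ℍ[ℝ]) : Quaternion.normSq q = q.re^2 + q.imI^2 + q.imJ^2 + q.imK^2 :=
  Quaternion.normSq_def' q

/-- two quaternions with the same real part and the same norm are conjugate -/
theorem exists_conj {q q' : ℍ[ℝ]} (hre : q.re = q'.re) (hn : ‖q‖ = ‖q'‖) :
    ∃ u : ℍ[ℝ], u ≠ 0 ∧ u * q * u⁻¹ = q' := by
  have hn2 : Quaternion.normSq q = Quaternion.normSq q' := by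
    rw [Quaternion.normSq_eq_norm_mul_self, Quaternion.normSq_eq_norm_mul_self, hn]
  rw [normSq_eq', normSq_eq', hre] at hn2
  -- it is enough to find u ≠ 0 with u q = q' u
  suffices h : ∃ u : ℍ[ℝ], u ≠ 0 ∧ u * q = q' * u by
    obtain ⟨u, hu, huq⟩ := h
    refine ⟨u, hu, ?_⟩
    rw [huq, mul_assoc, mul_inv_cancel₀ hu, mul_one]
  obtain ⟨r, a, b, c⟩ := q
  obtain ⟨r', a', b', c'⟩ := q'
  simp only at hre hn2
  subst hre
  -- general candidate
  by_cases hneg : a' = -a ∧ b' = -b ∧ c' = -c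
  · obtain ⟨rfl, rfl, rfl⟩ := hneg
    by_cases hab : a = 0 ∧ b = 0
    · obtain ⟨rfl, rfl⟩ := hab
      refine ⟨⟨0, 1, 0, 0⟩, ?_, ?_⟩
      · intro h; have := congrArg (fun q : ℍ[ℝ] => q.imI) h; simp at this
      · ext <;> simp
    · refine ⟨⟨0, b, -a, 0⟩, ?_, ?_⟩
      · intro h
        apply hab
        have h1 := congrArg (fun q : ℍ[ℝ] => q.imI) h
        have h2 := congrArg (fun q : ℍ[ℝ] => q.imJ) h
        simp at h1 h2
        exact ⟨h2, h1⟩
      · ext <;> simp <;> ring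
  · -- u = n - v' v
    set n := a^2 + b^2 + c^2 with hndef
    have hn3 : a'^2 + b'^2 + c'^2 = n := by rw [hndef]; linarith
    refine ⟨⟨n + (a'*a + b'*b + c'*c), -(b'*c - c'*b), -(c'*a - a'*c), -(a'*b - b'*a)⟩, ?_, ?_⟩
    · intro h
      apply hneg
      have h0 := congrArg (fun q : ℍ[ℝ] => q.re) h
      simp only [Quaternion.re_zero] at h0
      have h5 : (a' + a)^2 + (b' + b)^2 + (c' + c)^2 = 0 := by
        have : (a' + a)^2 + (b' + b)^2 + (c' + c)^2
          = (a'^2 + b'^2 + c'^2) + (a^2 + b^2 + c^2) + 2 * (a'*a + b'*b + c'*c) := by ring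
        rw [this, hn3, ← hndef]; linarith
      have e1 : (a' + a)^2 = 0 := by nlinarith [sq_nonneg (a' + a), sq_nonneg (b' + b), sq_nonneg (c' + c)]
      have e2 : (b' + b)^2 = 0 := by nlinarith [sq_nonneg (a' + a), sq_nonneg (b' + b), sq_nonneg (c' + c)]
      have e3 : (c' + c)^2 = 0 := by nlinarith [sq_nonneg (a' + a), sq_nonneg (b' + b), sq_nonneg (c' + c)]
      rw [sq_eq_zero_iff] at e1 e2 e3
      exact ⟨by linarith, by linarith, by linarith⟩
    · ext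
      · simp; ring_nf
      · simp
        have := hn3
        rw [hndef] at this ⊢
        linear_combination (-a) * this
      · simp
        have := hn3
        rw [hndef] at this ⊢
        linear_combination (-b) * this
      · simp
        have := hn3
        rw [hndef] at this ⊢
        linear_combination (-c) * this

/-! ### the trace ring -/

abbrev Om := ℕ → ℍ[ℝ]

inductive TR : (Om → ℍ[ℝ]) → Prop
  | const (r : ℝ) : TR (fun _ => (r : ℍ[ℝ]))
  | var (i : ℕ) : TR (fun x => x i)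
  | add {f g : Om → ℍ[ℝ]} : TR f → TR g → TR (fun x => f x + g x)
  | mul {f g : Om → ℍ[ℝ]} : TR f → TR g → TR (fun x => f x * g x)
  | re {f : Om → ℍ[ℝ]} : TR f → TR (fun x => (((f x).re : ℝ) : ℍ[ℝ]))

theorem TR.conj {P : Om → ℍ[ℝ]} (h : TR P) (u : ℍ[ℝ]) (hu : u ≠ 0) (x : Om) :
    P (fun i => u * x i * u⁻¹) = u * P x * u⁻¹ := by
  induction h with
  | const r =>
    rw [← Quaternion.coe_commutes, mul_assoc, mul_inv_cancel₀ hu, mul_one]
  | var i => rfl
  | @add f g hf hg ihf ihg => simp only [ihf, ihg]; rw [mul_add, add_mul]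
  | @mul f g hf hg ihf ihg =>
    simp only [ihf, ihg]
    have : u * f x * u⁻¹ * (u * g x * u⁻¹) = u * f x * (u⁻¹ * u) * g x * u⁻¹ := by
      simp only [mul_assoc]
    rw [this, inv_mul_cancel₀ hu, mul_one, mul_assoc u]
  | @re f hf ihf =>
    simp only [ihf]
    rw [re_conj hu, ← Quaternion.coe_commutes, mul_assoc, mul_inv_cancel₀ hu, mul_one]

theorem TR.local {P : Om → ℍ[ℝ]} (h : TR P) :
    ∃ N : ℕ, ∀ x x' : Om, (∀ i < N, x i = x' i) → P x = P x' := by
  induction h with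
  | const r => exact ⟨0, fun _ _ _ => rfl⟩
  | var i => exact ⟨i + 1, fun x x' h => h i (Nat.lt_succ_self i)⟩
  | @add f g hf hg ihf ihg =>
    obtain ⟨N, hN⟩ := ihf
    obtain ⟨M, hM⟩ := ihg
    refine ⟨max N M, fun x x' h => ?_⟩
    simp only
    rw [hN x x' (fun i hi => h i (lt_of_lt_of_le hi (le_max_left _ _))),
      hM x x' (fun i hi => h i (lt_of_lt_of_le hi (le_max_right _ _)))]
  | @mul f g hf hg ihf ihg =>
    obtain ⟨N, hN⟩ := ihf
    obtain ⟨M, hM⟩ := ihg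
    refine ⟨max N M, fun x x' h => ?_⟩
    simp only
    rw [hN x x' (fun i hi => h i (lt_of_lt_of_le hi (le_max_left _ _))),
      hM x x' (fun i hi => h i (lt_of_lt_of_le hi (le_max_right _ _)))]
  | @re f hf ihf =>
    obtain ⟨N, hN⟩ := ihf
    refine ⟨N, fun x x' h => ?_⟩
    simp only
    rw [hN x x' h]

/-! ### from the trace ring to the free algebra -/

def wt : ℕ ⊕ Fin 3 → ℕ := Sum.elim (fun _ => 0) (fun _ => 1)

noncomputable def apoly : FreeAlgebra ℝ (ℕ ⊕ Fin 3) :=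
  FreeAlgebra.ι ℝ (Sum.inr 0) * FreeAlgebra.ι ℝ (Sum.inr 1)
    - FreeAlgebra.ι ℝ (Sum.inr 1) * FreeAlgebra.ι ℝ (Sum.inr 0)

noncomputable def wpoly : FreeAlgebra ℝ (ℕ ⊕ Fin 3) := FreeAlgebra.ι ℝ (Sum.inr 2)

noncomputable def bpoly : FreeAlgebra ℝ (ℕ ⊕ Fin 3) := apoly * wpoly - wpoly * apoly

noncomputable def cpoly : FreeAlgebra ℝ (ℕ ⊕ Fin 3) := bpoly * bpoly

theorem homo_a : Homo wt 2 apoly := by
  have h0 : Homo wt 1 (FreeAlgebra.ι ℝ (Sum.inr 0)) := Homo.var (w := wt) (Sum.inr 0)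
  have h1 : Homo wt 1 (FreeAlgebra.ι ℝ (Sum.inr 1)) := Homo.var (w := wt) (Sum.inr 1)
  exact (h0.mul h1).sub (h1.mul h0)

theorem homo_w : Homo wt 1 wpoly := Homo.var (w := wt) (Sum.inr 2)

theorem homo_b : Homo wt 3 bpoly := (homo_a.mul homo_w).sub ((homo_w.mul homo_a).cast (by norm_num))

theorem homo_c : Homo wt 6 cpoly := homo_b.mul homo_b

/-- the values -/
noncomputable def aval (t : Fin 3 → ℍ[ℝ]) : ℍ[ℝ] := t 0 * t 1 - t 1 * t 0
noncomputable def bval (t : Fin 3 → ℍ[ℝ]) : ℍ[ℝ] := aval t * t 2 - t 2 * aval t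
noncomputable def cval (t : Fin 3 → ℍ[ℝ]) : ℝ := (bval t * bval t).re

theorem aval_re (t : Fin 3 → ℍ[ℝ]) : (aval t).re = 0 := by
  rw [aval, Quaternion.re_sub, re_mul_comm, sub_self]

theorem bval_re (t : Fin 3 → ℍ[ℝ]) : (bval t).re = 0 := by
  rw [bval, Quaternion.re_sub, re_mul_comm, sub_self]

theorem sq_of_re_zero {b : ℍ[ℝ]} (hb : b.re = 0) : b * b = (((b * b).re : ℝ) : ℍ[ℝ]) := by
  ext <;> simp [hb] <;> ring

theorem bval_sq (t : Fin 3 → ℍ[ℝ]) : bval t * bval t = ((cval t : ℝ) : ℍ[ℝ]) :=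
  sq_of_re_zero (bval_re t)

theorem lift_a (x : Om) (t : Fin 3 → ℍ[ℝ]) : FreeAlgebra.lift ℝ (Sum.elim x t) apoly = aval t := by
  simp [apoly, aval]

theorem lift_w (x : Om) (t : Fin 3 → ℍ[ℝ]) : FreeAlgebra.lift ℝ (Sum.elim x t) wpoly = t 2 := by
  simp [wpoly]

theorem lift_b (x : Om) (t : Fin 3 → ℍ[ℝ]) : FreeAlgebra.lift ℝ (Sum.elim x t) bpoly = bval t := by
  rw [bpoly, map_sub, map_mul, map_mul, lift_a, lift_w, bval]

theorem lift_c (x : Om) (t : Fin 3 → ℍ[ℝ]) :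
    FreeAlgebra.lift ℝ (Sum.elim x t) cpoly = ((cval t : ℝ) : ℍ[ℝ]) := by
  rw [cpoly, map_mul, lift_b, bval_sq]

theorem trace_identity (a Q w : ℍ[ℝ]) (ha : a.re = 0) :
    (a * Q + Q * a) * w - w * (a * Q + Q * a) = (2 * Q.re) • (a * w - w * a) := by
  ext <;> simp [ha] <;> ring

theorem TR.poly {P : Om → ℍ[ℝ]} (h : TR P) :
    ∃ (k : ℕ) (q : FreeAlgebra ℝ (ℕ ⊕ Fin 3)), Homo wt (6 * k) q ∧
      ∀ (x : Om) (t : Fin 3 → ℍ[ℝ]),
        FreeAlgebra.lift ℝ (Sum.elim x t) q = (cval t) ^ k • P x := by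
  induction h with
  | const r =>
    refine ⟨0, algebraMap ℝ _ r, Homo.const r, fun x t => ?_⟩
    rw [AlgHom.commutes, pow_zero, one_smul]; rfl
  | var i =>
    refine ⟨0, FreeAlgebra.ι ℝ (Sum.inl i), Homo.var (w := wt) (Sum.inl i), fun x t => ?_⟩
    rw [FreeAlgebra.lift_ι_apply, pow_zero, one_smul]; rfl
  | @add f g hf hg ihf ihg =>
    obtain ⟨k1, q1, h1, e1⟩ := ihf
    obtain ⟨k2, q2, h2, e2⟩ := ihg
    refine ⟨k1 + k2, cpoly ^ k2 * q1 + cpoly ^ k1 * q2, ?_, fun x t => ?_⟩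
    · exact (((homo_c.pow k2).mul h1).cast (by ring)).add (((homo_c.pow k1).mul h2).cast (by ring))
    · rw [map_add, map_mul, map_mul, map_pow, map_pow, lift_c, e1, e2, ← Quaternion.coe_pow,
        ← Quaternion.coe_pow, Quaternion.coe_mul_eq_smul, Quaternion.coe_mul_eq_smul, smul_smul,
        smul_smul, smul_add, pow_add]
      congr 2
      ring
  | @mul f g hf hg ihf ihg =>
    obtain ⟨k1, q1, h1, e1⟩ := ihf
    obtain ⟨k2, q2, h2, e2⟩ := ihg
    refine ⟨k1 + k2, q1 * q2, (h1.mul h2).cast (by ring), fun x t => ?_⟩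
    rw [map_mul, e1, e2, smul_mul_smul_comm, pow_add]
  | @re f hf ihf =>
    obtain ⟨k, q, h1, e1⟩ := ihf
    refine ⟨k + 1, algebraMap ℝ _ (1/2) *
      (((apoly * q + q * apoly) * wpoly - wpoly * (apoly * q + q * apoly)) * bpoly), ?_,
      fun x t => ?_⟩
    · have hs : Homo wt (2 + 6 * k) (apoly * q + q * apoly) :=
        (homo_a.mul h1).add ((h1.mul homo_a).cast (by ring))
      have hs2 : Homo wt (2 + 6 * k + 1)
          ((apoly * q + q * apoly) * wpoly - wpoly * (apoly * q + q * apoly)) :=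
        (hs.mul homo_w).sub ((homo_w.mul hs).cast (by ring))
      exact ((Homo.const (w := wt) (1/2)).mul (hs2.mul homo_b)).cast (by ring)
    · rw [map_mul, map_mul, map_sub, map_mul, map_mul, map_add, map_mul, map_mul, lift_a, lift_w,
        lift_b, e1, AlgHom.commutes, trace_identity _ _ _ (aval_re t), ← bval, smul_mul_assoc,
        bval_sq]
      have : (cval t ^ k • f x).re = cval t ^ k * (f x).re := by simp
      rw [this, show algebraMap ℝ ℍ[ℝ] (1/2) = ((1/2 : ℝ) : ℍ[ℝ]) from rfl,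
        ← Quaternion.coe_mul_eq_smul, ← Quaternion.coe_mul_eq_smul, ← Quaternion.coe_mul,
        ← Quaternion.coe_mul, ← Quaternion.coe_mul]
      congr 1
      ring

theorem free_local {X : Type} (p : FreeAlgebra ℝ X) :
    ∃ V : Finset X, ∀ x x' : X → ℍ[ℝ], (∀ i ∈ V, x i = x' i) →
      FreeAlgebra.lift ℝ x p = FreeAlgebra.lift ℝ x' p := by
  classical
  induction p using FreeAlgebra.induction with
  | grade0 r => exact ⟨∅, fun x x' _ => by rw [AlgHom.commutes, AlgHom.commutes]⟩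
  | grade1 i => exact ⟨{i}, fun x x' h => by
      rw [FreeAlgebra.lift_ι_apply, FreeAlgebra.lift_ι_apply, h i (by simp)]⟩
  | mul a b ha hb =>
    obtain ⟨V, hV⟩ := ha
    obtain ⟨W, hW⟩ := hb
    refine ⟨V ∪ W, fun x x' h => ?_⟩
    rw [map_mul, map_mul, hV x x' (fun i hi => h i (Finset.mem_union_left _ hi)),
      hW x x' (fun i hi => h i (Finset.mem_union_right _ hi))]
  | add a b ha hb =>
    obtain ⟨V, hV⟩ := ha
    obtain ⟨W, hW⟩ := hb
    refine ⟨V ∪ W, fun x x' h => ?_⟩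
    rw [map_add, map_add, hV x x' (fun i hi => h i (Finset.mem_union_left _ hi)),
      hW x x' (fun i hi => h i (Finset.mem_union_right _ hi))]

theorem cval_surj (n : ℕ) (hn : n ≠ 0) (c : ℝ) (hc : 0 ≤ c) :
    ∃ t : Fin 3 → ℍ[ℝ], (cval t) ^ (2 * n) = c := by
  set μ := (c ^ (((2 * n : ℕ) : ℝ)⁻¹)) with hμ
  have hμ0 : 0 ≤ μ := Real.rpow_nonneg hc _
  have hμ1 : μ ^ (2 * n) = c := Real.rpow_inv_natCast_pow hc (by omega)
  set r := ((μ / 16) ^ (((6 : ℕ) : ℝ)⁻¹)) with hr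
  have hr1 : r ^ 6 = μ / 16 := Real.rpow_inv_natCast_pow (by positivity) (by norm_num)
  refine ⟨![⟨0, r, 0, 0⟩, ⟨0, 0, r, 0⟩, ⟨0, r, 0, 0⟩], ?_⟩
  have : cval ![⟨0, r, 0, 0⟩, ⟨0, 0, r, 0⟩, ⟨0, r, 0, 0⟩] = - μ := by
    simp only [cval, bval, aval, Matrix.cons_val_zero, Matrix.cons_val_one, Matrix.cons_val]
    simp
    have : μ = 16 * r ^ 6 := by rw [hr1]; ring
    rw [this]; ring
  rw [this, neg_pow, pow_mul (-1 : ℝ)]
  simp [hμ1]

theorem exists_poly_of_TR {P : Om → ℍ[ℝ]} (hP : TR P) :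
    ∃ (m : ℕ) (p : FreeAlgebra ℝ (Fin m)), IsSemihomogeneous p ∧
      Set.range (fun a : Fin m → ℍ[ℝ] => FreeAlgebra.lift ℝ a p) =
        {q | ∃ (c : ℝ) (x : Om), 0 ≤ c ∧ q = c • P x} := by
  classical
  obtain ⟨k, q, hq, hval⟩ := hP.poly
  set p1 : FreeAlgebra ℝ (ℕ ⊕ Fin 3) := cpoly ^ (k + 2) * q with hp1
  have hp1h : Homo wt (6 * (2 * (k + 1))) p1 := ((homo_c.pow (k + 2)).mul hq).cast (by ring)
  have hp1v : ∀ (x : Om) (t : Fin 3 → ℍ[ℝ]),
      FreeAlgebra.lift ℝ (Sum.elim x t) p1 = (cval t) ^ (2 * (k + 1)) • P x := by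
    intro x t
    rw [hp1, map_mul, map_pow, lift_c, hval, ← Quaternion.coe_pow, Quaternion.coe_mul_eq_smul,
      smul_smul, ← pow_add]
    congr 2
    ring
  obtain ⟨V, hV⟩ := free_local p1
  set e := V.equivFin with he
  let g : (ℕ ⊕ Fin 3) → FreeAlgebra ℝ (Fin V.card) := fun i =>
    if h : i ∈ V then FreeAlgebra.ι ℝ (e ⟨i, h⟩) else 0
  let w' : Fin V.card → ℕ := fun j => wt (e.symm j).1
  have hg : ∀ i, Homo w' (wt i) (g i) := by
    intro i
    by_cases h : i ∈ V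
    · simp only [g, dif_pos h]
      have := Homo.var (w := w') (e ⟨i, h⟩)
      simpa [w'] using this
    · simp only [g, dif_neg h]
      exact Homo.zero _
  refine ⟨V.card, FreeAlgebra.lift ℝ g p1, ?_, ?_⟩
  · refine ⟨w', ((6 * (2 * (k + 1)) : ℕ) : ℤ), ?_, ?_⟩
    · have : (0 : ℤ) < ((6 * (2 * (k + 1)) : ℕ) : ℤ) := by exact_mod_cast (by positivity)
      exact this.ne'
    · intro l hl
      exact_mod_cast (hp1h.lift g hg).coeff l hl
  · have hcomp : ∀ y : Fin V.card → ℍ[ℝ], FreeAlgebra.lift ℝ y (FreeAlgebra.lift ℝ g p1)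
        = FreeAlgebra.lift ℝ (fun i => FreeAlgebra.lift ℝ y (g i)) p1 := by
      intro y
      have : (FreeAlgebra.lift ℝ y).comp (FreeAlgebra.lift ℝ g)
          = FreeAlgebra.lift ℝ (fun i => FreeAlgebra.lift ℝ y (g i)) := by
        apply FreeAlgebra.hom_ext
        funext i
        simp
      exact DFunLike.congr_fun this p1
    apply Set.eq_of_subset_of_subset
    · rintro _ ⟨y, rfl⟩
      simp only
      rw [hcomp]
      set z : ℕ ⊕ Fin 3 → ℍ[ℝ] := fun i => FreeAlgebra.lift ℝ y (g i) with hz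
      have hz' : z = Sum.elim (fun i => z (Sum.inl i)) (fun j => z (Sum.inr j)) := by
        funext i; rcases i with i | i <;> rfl
      rw [hz', hp1v]
      exact ⟨_, _, by rw [pow_mul]; positivity, rfl⟩
    · rintro q ⟨c, x, hc, rfl⟩
      obtain ⟨t, ht⟩ := cval_surj (k + 1) (by omega) c hc
      refine ⟨fun j => Sum.elim x t (e.symm j).1, ?_⟩
      simp only
      rw [hcomp, ← ht, ← hp1v]
      apply hV
      intro i hi
      simp only [g, dif_pos hi]
      simp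

/-- a set of the form `{c • P x : c ≥ 0}` is described by the quotients `re / norm` -/
theorem cone_eq {P : Om → ℍ[ℝ]} (hP : TR P) :
    {q | ∃ (c : ℝ) (x : Om), 0 ≤ c ∧ q = c • P x} =
      {q : ℍ[ℝ] | q = 0 ∨ q.re / ‖q‖ ∈ {s : ℝ | ∃ x, P x ≠ 0 ∧ s = (P x).re / ‖P x‖}} := by
  apply Set.eq_of_subset_of_subset
  · rintro _ ⟨c, x, hc, rfl⟩
    rcases hc.eq_or_lt with rfl | hc
    · left; simp
    · by_cases hx : P x = 0
      · left; simp [hx]
      · right
        refine ⟨x, hx, ?_⟩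
        rw [norm_smul, Quaternion.re_smul, Real.norm_of_nonneg hc.le, smul_eq_mul]
        have : ‖P x‖ ≠ 0 := norm_ne_zero_iff.2 hx
        field_simp
  · rintro q (rfl | ⟨x, hx, hq⟩)
    · exact ⟨0, fun _ => 0, le_rfl, by simp⟩
    · have hPx : 0 < ‖P x‖ := norm_pos_iff.2 hx
      by_cases hq0 : q = 0
      · exact ⟨0, x, le_rfl, by rw [hq0]; simp⟩
      have hqn : 0 < ‖q‖ := norm_pos_iff.2 hq0
      set c := ‖q‖ / ‖P x‖ with hc
      have hc0 : 0 < c := by positivity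
      obtain ⟨u, hu, huq⟩ := exists_conj (q := c • P x) (q' := q)
        (by
          rw [Quaternion.re_smul, smul_eq_mul, hc]
          have : q.re = (P x).re / ‖P x‖ * ‖q‖ := by rw [← hq]; field_simp
          rw [this]; ring)
        (by
          rw [norm_smul, Real.norm_of_nonneg hc0.le, hc]
          field_simp)
      refine ⟨c, fun i => u * x i * u⁻¹, hc0.le, ?_⟩
      rw [hP.conj u hu x, ← huq]
      simp

end Pool.Agent.Helper668.QI
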