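import Mathlib

set_option autoImplicit false
set_option linter.unusedVariables false

open Polynomial

namespace Pool.Agent.Helper668.QI

/-- a polynomial in `x ^ 2` with prescribed signs on the complement of a finite set -/
theorem sign_poly (Z : Finset ℝ) : (∀ z ∈ Z, 0 ≤ z) → ∀ D : ℝ → Prop,
    (∀ x y, 0 ≤ x → 0 ≤ y → (∀ z ∈ Z, z ∉ Set.uIcc x y) → (D x ↔ D y)) →
    ∃ a : ℝ[X], (∀ x, 0 ≤ x → x ∉ Z → (D x → 0 < a.eval (x ^ 2)) ∧
      (¬ D x → a.eval (x ^ 2) < 0)) ∧ ∀ z ∈ Z, a.eval (z ^ 2) = 0 := by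
  classical
  induction Z using Finset.induction_on_max with
  | empty =>
    intro _ D hD
    by_cases h : D 0
    · refine ⟨1, fun x hx _ => ⟨fun _ => by simp, fun h' => ?_⟩, by simp⟩
      exact absurd ((hD 0 x le_rfl hx (by simp)).1 h) h'
    · refine ⟨-1, fun x hx _ => ⟨fun h' => ?_, fun _ => by simp⟩, by simp⟩
      exact absurd ((hD 0 x le_rfl hx (by simp)).2 h') h
  | insert z0 Z hmax ih =>
    intro hZ D hD
    have hz0 : 0 ≤ z0 := hZ z0 (Finset.mem_insert_self _ _)
    have hZ' : ∀ z ∈ Z, 0 ≤ z := fun z hz => hZ z (Finset.mem_insert_of_mem hz)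
    rcases hz0.eq_or_lt with h0 | h0
    · subst h0
      have hZe : Z = ∅ := by
        apply Finset.eq_empty_of_forall_notMem
        intro z hz
        exact absurd (hmax z hz) (not_lt.2 (hZ' z hz))
      subst hZe
      have hconst : ∀ x, 0 < x → (D 1 ↔ D x) := by
        intro x hx
        refine hD 1 x zero_le_one hx.le ?_
        intro z hz hz'
        have : z = 0 := by simpa using hz
        subst this
        rw [Set.mem_uIcc] at hz'
        rcases hz' with h | h <;> linarith [h.1, h.2]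
      by_cases h : D 1
      · refine ⟨X, fun x hx hx' => ?_, by simp⟩
        have hx0 : 0 < x := lt_of_le_of_ne hx (fun h => hx' (by simp [← h]))
        refine ⟨fun _ => by rw [eval_X]; positivity, fun h' => absurd ((hconst x hx0).1 h) h'⟩
      · refine ⟨-X, fun x hx hx' => ?_, by simp⟩
        have hx0 : 0 < x := lt_of_le_of_ne hx (fun h => hx' (by simp [← h]))
        refine ⟨fun h' => absurd ((hconst x hx0).2 h') h, fun _ => ?_⟩
        rw [eval_neg, eval_X]
        have : 0 < x ^ 2 := by positivity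
        linarith
    · -- a point m just below z0
      obtain ⟨m, hm0, hmZ, hmz⟩ : ∃ m, 0 ≤ m ∧ (∀ z ∈ Z, z < m) ∧ m < z0 := by
        have hne : (insert 0 Z).Nonempty := ⟨0, Finset.mem_insert_self _ _⟩
        set s := (insert 0 Z).max' hne with hs
        have hs0 : 0 ≤ s := Finset.le_max' _ _ (Finset.mem_insert_self _ _)
        have hsz : s < z0 := by
          rw [hs, Finset.max'_lt_iff]
          intro y hy
          rcases Finset.mem_insert.1 hy with rfl | hy
          · exact h0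
          · exact hmax y hy
        refine ⟨(s + z0) / 2, by linarith, fun z hz => ?_, by linarith⟩
        have : z ≤ s := Finset.le_max' _ _ (Finset.mem_insert_of_mem hz)
        linarith
      let D' : ℝ → Prop := fun x => if x < m then D x else D m
      have hD'1 : ∀ x, x < m → (D' x ↔ D x) := fun x hx => by simp only [D', if_pos hx]
      have hD'2 : ∀ x, m ≤ x → (D' x ↔ D m) := fun x hx => by
        simp only [D', if_neg (not_lt.2 hx)]
      have hmid : ∀ x y, 0 ≤ x → x ≤ y → y < z0 → (∀ z ∈ Z, z ∉ Set.uIcc x y) →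
          (D x ↔ D y) := by
        intro x y hx hxy hy h
        refine hD x y hx (hx.trans hxy) ?_
        intro z hz
        rcases Finset.mem_insert.1 hz with rfl | hz
        · rw [Set.uIcc_of_le hxy]
          intro h'; linarith [h'.2]
        · exact h z hz
      have hloc : ∀ x y, 0 ≤ x → x ≤ y → (∀ z ∈ Z, z ∉ Set.uIcc x y) → (D' x ↔ D' y) := by
        intro x y hx hxy h
        by_cases hym : y < m
        · rw [hD'1 x (by linarith), hD'1 y hym]
          exact hmid x y hx hxy (by linarith) h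
        · push Not at hym
          rw [hD'2 y hym]
          by_cases hxm : x < m
          · rw [hD'1 x hxm]
            refine hmid x m hx hxm.le hmz ?_
            intro z hz hz'
            apply h z hz
            rw [Set.uIcc_of_le hxm.le] at hz'
            rw [Set.uIcc_of_le hxy]
            exact ⟨hz'.1, hz'.2.trans hym⟩
          · push Not at hxm
            rw [hD'2 x hxm]
      obtain ⟨a, ha1, ha2⟩ := ih hZ' D' (by
        intro x y hx hy h
        rcases le_total x y with hxy | hxy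
        · exact hloc x y hx hxy h
        · rw [Set.uIcc_comm] at h
          exact (hloc y x hy hxy h).symm)
      have hbelow : ∀ x, 0 ≤ x → x < z0 → x ∉ Z → (D x ↔ D' x) := by
        intro x hx hxz hxZ
        by_cases hxm : x < m
        · exact (hD'1 x hxm).symm
        · push Not at hxm
          rw [hD'2 x hxm]
          refine (hmid m x hm0 hxm hxz ?_).symm
          intro z hz hz'
          rw [Set.uIcc_of_le hxm] at hz'
          linarith [hz'.1, hmZ z hz]
      have habove : ∀ x, z0 < x → (D x ↔ D (z0 + 1)) := by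
        intro x hx
        refine hD x (z0 + 1) (by linarith) (by linarith) ?_
        intro z hz hz'
        have h1 : z ≤ z0 := by
          rcases Finset.mem_insert.1 hz with rfl | hz
          · exact le_rfl
          · exact (hmax z hz).le
        rw [Set.mem_uIcc] at hz'
        rcases hz' with h | h <;> linarith [h.1, h.2]
      by_cases hsame : D (z0 + 1) ↔ D m
      · refine ⟨a * (X - C (z0 ^ 2)) ^ 2, fun x hx hxZ => ?_, fun z hz => ?_⟩
        · have hxZ' : x ∉ Z := fun h => hxZ (Finset.mem_insert_of_mem h)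
          have hxz : x ≠ z0 := fun h => hxZ (h ▸ Finset.mem_insert_self _ _)
          have hpos : 0 < (x ^ 2 - z0 ^ 2) ^ 2 := by
            have h1 : x ^ 2 - z0 ^ 2 ≠ 0 := by
              intro h
              have h2 : (x - z0) * (x + z0) = 0 := by linarith
              rcases mul_eq_zero.1 h2 with h3 | h3
              · exact hxz (by linarith)
              · linarith
            positivity
          have hDD : D x ↔ D' x := by
            rcases lt_or_gt_of_ne hxz with h | h
            · exact hbelow x hx h hxZ'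
            · rw [habove x h, hsame, hD'2 x (by linarith)]
          simp only [eval_mul, eval_pow, eval_sub, eval_X, eval_C]
          constructor
          · intro h
            exact mul_pos ((ha1 x hx hxZ').1 (hDD.1 h)) hpos
          · intro h
            exact mul_neg_of_neg_of_pos ((ha1 x hx hxZ').2 (fun h' => h (hDD.2 h'))) hpos
        · simp only [eval_mul, eval_pow, eval_sub, eval_X, eval_C]
          rcases Finset.mem_insert.1 hz with rfl | hz
          · simp
          · rw [ha2 z hz, zero_mul]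
      · refine ⟨a * (C (z0 ^ 2) - X), fun x hx hxZ => ?_, fun z hz => ?_⟩
        · have hxZ' : x ∉ Z := fun h => hxZ (Finset.mem_insert_of_mem h)
          have hxz : x ≠ z0 := fun h => hxZ (h ▸ Finset.mem_insert_self _ _)
          simp only [eval_mul, eval_pow, eval_sub, eval_X, eval_C]
          rcases lt_or_gt_of_ne hxz with h | h
          · have hpos : 0 < z0 ^ 2 - x ^ 2 := by nlinarith
            have hDD := hbelow x hx h hxZ'
            constructor
            · intro h
              exact mul_pos ((ha1 x hx hxZ').1 (hDD.1 h)) hpos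
            · intro h
              exact mul_neg_of_neg_of_pos ((ha1 x hx hxZ').2 (fun h' => h (hDD.2 h'))) hpos
          · have hneg : z0 ^ 2 - x ^ 2 < 0 := by nlinarith
            have h1 := habove x h
            have h2 := hD'2 x (by linarith)
            constructor
            · intro h3
              refine mul_pos_of_neg_of_neg ((ha1 x hx hxZ').2 ?_) hneg
              intro h4
              exact hsame (iff_of_true (h1.1 h3) (h2.1 h4))
            · intro h3
              refine mul_neg_of_pos_of_neg ((ha1 x hx hxZ').1 ?_) hneg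
              rw [h2]
              by_contra h4
              exact hsame (iff_of_false (fun h5 => h3 (h1.2 h5)) h4)
        · simp only [eval_mul, eval_pow, eval_sub, eval_X, eval_C]
          rcases Finset.mem_insert.1 hz with rfl | hz
          · simp
          · rw [ha2 z hz, zero_mul]

theorem poly_bound (t0 : ℝ) (q : ℝ[X]) : ∃ K : ℝ, 0 ≤ K ∧ ∀ x ∈ Set.Icc 0 t0, |q.eval x| ≤ K := by
  obtain ⟨K, hK⟩ := (isCompact_Icc (a := (0:ℝ)) (b := t0)).exists_bound_of_continuousOn
    (f := fun x => q.eval x) q.continuous.continuousOn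
  refine ⟨max K 0, le_max_right _ _, fun x hx => ?_⟩
  exact (hK x hx).trans (le_max_left _ _)

theorem bump (t0 : ℝ) (ht0 : 0 < t0) (Z : Finset ℝ) (hZ : ∀ z ∈ Z, 0 ≤ z ∧ z ≤ t0) (e : ℝ)
    (he : e ∈ Z) (ξ0 : ℝ) (h0 : 0 ≤ ξ0) (h0' : ξ0 ≤ t0) (hne : ξ0 ≠ e)
    (hJ : ∀ z ∈ Z, z ≠ e → z ∉ Set.uIcc e ξ0) :
    ∃ μ : ℝ[X],
      (∀ x ∈ Set.Icc 0 t0, 0 ≤ x * (x + e) * μ.eval (x ^ 2) ∧ x * (x + e) * μ.eval (x ^ 2) ≤ 1) ∧
      (∀ z ∈ Z, z * (z + e) * μ.eval (z ^ 2) = 0) ∧
      (∃ x ∈ Set.Ioo (min e ξ0) (max e ξ0), x * (x + e) * μ.eval (x ^ 2) = 1) ∧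
      ∀ x ∈ Set.Icc 0 t0, x ∉ Set.Ioo (min e ξ0) (max e ξ0) → x ∉ Z →
        ∀ c ∈ Z, |x - e| * (x * (x + e) * μ.eval (x ^ 2)) < |x - c| := by
  classical
  obtain ⟨he0, het⟩ := hZ e he
  set w : ℝ[X] := ∏ c ∈ Z, (X - C (c ^ 2)) ^ 2 with hw
  have hwe : ∀ y, w.eval y = ∏ c ∈ Z, (y - c ^ 2) ^ 2 := by
    intro y; rw [hw, eval_prod]; simp
  have hw0 : ∀ y, 0 ≤ w.eval y := by
    intro y; rw [hwe]; exact Finset.prod_nonneg (fun c _ => sq_nonneg _)
  set m0 : ℝ[X] := X * (X + C e) * w.comp (X ^ 2) with hm0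
  have hm0e : ∀ x, m0.eval x = x * (x + e) * w.eval (x ^ 2) := by
    intro x; rw [hm0]; simp
  have hm0nn : ∀ x, 0 ≤ x → 0 ≤ m0.eval x := by
    intro x hx; rw [hm0e]; have := hw0 (x ^ 2); positivity
  have hm0Z : ∀ c ∈ Z, m0.eval c = 0 := by
    intro c hc
    rw [hm0e, hwe, Finset.prod_eq_zero hc (by simp), mul_zero]
  -- the midpoint
  set x1 := (e + ξ0) / 2 with hx1
  set δ := |ξ0 - e| / 2 with hδ
  have hδ0 : 0 < δ := by
    have : 0 < |ξ0 - e| := abs_pos.2 (sub_ne_zero.2 hne)
    positivity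
  have hx1pos : 0 < x1 := by
    rcases lt_or_gt_of_ne hne with h | h <;> rw [hx1] <;> linarith
  have hx1t : x1 ≤ t0 := by rw [hx1]; linarith
  have hx1J : ∀ x, x ∉ Set.Ioo (min e ξ0) (max e ξ0) → δ ≤ |x - x1| := by
    intro x hx
    rw [Set.mem_Ioo, not_and_or, not_lt, not_lt] at hx
    rcases le_total e ξ0 with h | h
    · rw [min_eq_left h, max_eq_right h] at hx
      have : |ξ0 - e| = ξ0 - e := abs_of_nonneg (by linarith)
      rw [hδ, this, hx1]
      rcases hx with hx | hx
      · rw [abs_of_nonpos (by linarith)]; linarith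
      · rw [abs_of_nonneg (by linarith)]; linarith
    · rw [min_eq_right h, max_eq_left h] at hx
      have : |ξ0 - e| = e - ξ0 := by rw [abs_of_nonpos (by linarith)]; ring
      rw [hδ, this, hx1]
      rcases hx with hx | hx
      · rw [abs_of_nonpos (by linarith)]; linarith
      · rw [abs_of_nonneg (by linarith)]; linarith
  have hx1Z : ∀ c ∈ Z, x1 ≠ c := by
    intro c hc h
    by_cases hce : c = e
    · subst hce
      apply hne; rw [hx1] at h; linarith
    · apply hJ c hc hce
      rw [← h, Set.mem_uIcc, hx1]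
      rcases le_total e ξ0 with h | h
      · left; constructor <;> linarith
      · right; constructor <;> linarith
  have hM1 : 0 < m0.eval x1 := by
    rw [hm0e, hwe]
    have h1 : 0 < ∏ c ∈ Z, (x1 ^ 2 - c ^ 2) ^ 2 := by
      apply Finset.prod_pos
      intro c hc
      have h2 : x1 ^ 2 - c ^ 2 ≠ 0 := by
        intro h
        have h3 : (x1 - c) * (x1 + c) = 0 := by linarith
        rcases mul_eq_zero.1 h3 with h4 | h4
        · exact hx1Z c hc (by linarith)
        · have := (hZ c hc).1; linarith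
      positivity
    have : 0 < x1 + e := by linarith
    positivity
  -- constants
  obtain ⟨K, hK0, hK⟩ := poly_bound t0 m0
  have hKc : ∀ c : ℝ, ∃ Kc : ℝ, 0 ≤ Kc ∧ (c ∈ Z → ∀ x ∈ Set.Icc 0 t0,
      |m0.eval x| ≤ Kc * |x - c|) := by
    intro c
    by_cases hc : c ∈ Z
    · obtain ⟨r, hr⟩ := dvd_iff_isRoot.2 (hm0Z c hc : m0.IsRoot c)
      obtain ⟨Kc, hKc0, hKc⟩ := poly_bound t0 r
      refine ⟨Kc, hKc0, fun _ x hx => ?_⟩
      rw [hr, eval_mul, abs_mul]
      simp only [eval_sub, eval_X, eval_C]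
      rw [mul_comm]
      exact mul_le_mul_of_nonneg_right (hKc x hx) (abs_nonneg _)
    · exact ⟨0, le_rfl, fun h => absurd h hc⟩
  choose Kf hKf0 hKf using hKc
  set K1 := ∑ c ∈ Z, Kf c with hK1
  have hK10 : 0 ≤ K1 := Finset.sum_nonneg (fun c _ => hKf0 c)
  have hK1c : ∀ c ∈ Z, ∀ x ∈ Set.Icc 0 t0, |m0.eval x| ≤ K1 * |x - c| := by
    intro c hc x hx
    refine (hKf c hc x hx).trans (mul_le_mul_of_nonneg_right ?_ (abs_nonneg _))
    exact Finset.single_le_sum (f := Kf) (fun c _ => hKf0 c) hc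
  -- the bump
  set W := t0 ^ 2 + 1 with hW
  have hWpos : 0 < W := by positivity
  set b : ℝ[X] := 1 - C ((W ^ 2)⁻¹) * (X - C (x1 ^ 2)) ^ 2 with hb
  have hbe : ∀ y, b.eval y = 1 - (y - x1 ^ 2) ^ 2 / W ^ 2 := by
    intro y; rw [hb]; simp; ring
  have hb01 : ∀ x ∈ Set.Icc 0 t0, 0 ≤ b.eval (x ^ 2) ∧ b.eval (x ^ 2) ≤ 1 := by
    intro x hx
    rw [hbe]
    have h1 : x ^ 2 ≤ t0 ^ 2 := by nlinarith [hx.1, hx.2]
    have h2 : x1 ^ 2 ≤ t0 ^ 2 := by nlinarith
    have h3 : (x ^ 2 - x1 ^ 2) ^ 2 ≤ W ^ 2 := by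
      apply sq_le_sq'
      · rw [hW]; nlinarith [sq_nonneg x]
      · rw [hW]; nlinarith [sq_nonneg x1]
    have h4 : (x ^ 2 - x1 ^ 2) ^ 2 / W ^ 2 ≤ 1 := by
      rw [div_le_one (by positivity)]; exact h3
    have h5 : 0 ≤ (x ^ 2 - x1 ^ 2) ^ 2 / W ^ 2 := by positivity
    constructor <;> linarith
  set d := δ * x1 with hd
  have hdpos : 0 < d := by positivity
  set ρ := 1 - d ^ 2 / W ^ 2 with hρ
  have hρJ : ∀ x ∈ Set.Icc 0 t0, x ∉ Set.Ioo (min e ξ0) (max e ξ0) → b.eval (x ^ 2) ≤ ρ := by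
    intro x hx hxJ
    rw [hbe, hρ]
    have h1 : d ^ 2 ≤ (x ^ 2 - x1 ^ 2) ^ 2 := by
      have h2 := hx1J x hxJ
      have h3 : (x ^ 2 - x1 ^ 2) ^ 2 = (|x - x1| * (x + x1)) ^ 2 := by
        rw [mul_pow, sq_abs]; ring
      rw [h3, hd]
      have hx0 := hx.1
      have h4 : δ * x1 ≤ |x - x1| * (x + x1) := by
        apply mul_le_mul h2 (by linarith) hx1pos.le (abs_nonneg _)
      exact pow_le_pow_left₀ hdpos.le h4 2
    have h5 : d ^ 2 / W ^ 2 ≤ (x ^ 2 - x1 ^ 2) ^ 2 / W ^ 2 := by gcongr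
    linarith
  have hρ1 : ρ < 1 := by
    have : 0 < d ^ 2 / W ^ 2 := by positivity
    rw [hρ]; linarith
  have hρ0 : 0 ≤ ρ := by
    rw [hρ]
    have h1 : d ≤ W := by
      have h2 : δ ≤ t0 / 2 := by
        rw [hδ]
        have : |ξ0 - e| ≤ t0 := by rw [abs_le]; constructor <;> linarith
        linarith
      have h3 : d ≤ t0 / 2 * t0 := by
        rw [hd]; exact mul_le_mul h2 hx1t hx1pos.le (by positivity)
      rw [hW]; nlinarith
    have h4 : d ^ 2 / W ^ 2 ≤ 1 := by
      rw [div_le_one (by positivity)]; exact pow_le_pow_left₀ hdpos.le h1 2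
    linarith
  obtain ⟨N, hN⟩ := exists_pow_lt_of_lt_one
    (show 0 < m0.eval x1 / (K + t0 * K1 + 1) by positivity) hρ1
  rw [lt_div_iff₀ (by positivity)] at hN
  have hρN : 0 ≤ ρ ^ N := pow_nonneg hρ0 N
  have hN1 : K * ρ ^ N < m0.eval x1 := by nlinarith [mul_nonneg (mul_nonneg ht0.le hK10) hρN]
  have hN2 : t0 * K1 * ρ ^ N < m0.eval x1 := by nlinarith [mul_nonneg hK0 hρN]
  -- the function
  set f : ℝ → ℝ := fun x => m0.eval x * (b.eval (x ^ 2)) ^ N with hf
  have hfc : Continuous f := by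
    rw [hf]
    exact m0.continuous.mul ((b.continuous.comp (continuous_pow 2)).pow N)
  obtain ⟨xs, hxs, hmax⟩ := (isCompact_Icc (a := (0:ℝ)) (b := t0)).exists_isMaxOn
    ⟨0, ⟨le_rfl, ht0.le⟩⟩ hfc.continuousOn
  have hfx1 : f x1 = m0.eval x1 := by
    simp only [hf]; rw [hbe]; simp
  have hfxs : m0.eval x1 ≤ f xs := by
    rw [← hfx1]; exact hmax ⟨hx1pos.le, hx1t⟩
  have hfxs0 : 0 < f xs := lt_of_lt_of_le hM1 hfxs
  have hfJ : ∀ x ∈ Set.Icc 0 t0, x ∉ Set.Ioo (min e ξ0) (max e ξ0) →
      f x ≤ m0.eval x * ρ ^ N := by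
    intro x hx hxJ
    simp only [hf]
    exact mul_le_mul_of_nonneg_left (pow_le_pow_left₀ (hb01 x hx).1 (hρJ x hx hxJ) N)
      (hm0nn x hx.1)
  have hxsJ : xs ∈ Set.Ioo (min e ξ0) (max e ξ0) := by
    by_contra h
    have h1 := hfJ xs hxs h
    have h2 : m0.eval xs ≤ K := (le_abs_self _).trans (hK xs hxs)
    have h3 : m0.eval xs * ρ ^ N ≤ K * ρ ^ N := mul_le_mul_of_nonneg_right h2 hρN
    linarith
  have hMeval : ∀ x, x * (x + e) * (C ((f xs)⁻¹) * w * b ^ N).eval (x ^ 2) = f x / f xs := by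
    intro x
    simp only [eval_mul, eval_C, eval_pow]
    rw [show f x = m0.eval x * (b.eval (x ^ 2)) ^ N from rfl, hm0e]
    field_simp
  refine ⟨C ((f xs)⁻¹) * w * b ^ N, ?_, ?_, ?_, ?_⟩
  · intro x hx
    rw [hMeval]
    constructor
    · apply div_nonneg _ hfxs0.le
      exact mul_nonneg (hm0nn x hx.1) (pow_nonneg (hb01 x hx).1 N)
    · rw [div_le_one hfxs0]
      exact hmax hx
  · intro z hz
    rw [hMeval]
    have : f z = 0 := by simp only [hf]; rw [hm0Z z hz, zero_mul]
    rw [this, zero_div]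
  · exact ⟨xs, hxsJ, by rw [hMeval, div_self hfxs0.ne']⟩
  · intro x hx hxJ hxZ c hc
    rw [hMeval]
    have hxc : 0 < |x - c| := abs_pos.2 (sub_ne_zero.2 (fun h => hxZ (h ▸ hc)))
    have hxe : |x - e| ≤ t0 := by rw [abs_le]; constructor <;> linarith [hx.1, hx.2]
    have h1 : f x ≤ K1 * |x - c| * ρ ^ N := by
      refine (hfJ x hx hxJ).trans ?_
      exact mul_le_mul_of_nonneg_right ((le_abs_self _).trans (hK1c c hc x hx)) hρN
    have h2 : 0 ≤ f x := mul_nonneg (hm0nn x hx.1) (pow_nonneg (hb01 x hx).1 N)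
    rw [mul_div_assoc', div_lt_iff₀ hfxs0]
    calc |x - e| * f x ≤ t0 * (K1 * |x - c| * ρ ^ N) := mul_le_mul hxe h1 h2 ht0.le
      _ = |x - c| * (t0 * K1 * ρ ^ N) := by ring
      _ < |x - c| * m0.eval x1 := mul_lt_mul_of_pos_left hN2 hxc
      _ ≤ |x - c| * f xs := mul_le_mul_of_nonneg_left hfxs hxc.le

end Pool.Agent.Helper668.QI
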