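import Pool.Agent.Helper668.QB
import Pool.Agent.Helper668.QC

set_option autoImplicit false
set_option linter.unusedVariables false

open Polynomial
open scoped Quaternion

namespace Pool.Agent.Helper668.QI

/-! ### real-valued elements of the trace ring and their quotients -/

/-- real valued elements of the trace ring -/
def PR (f : Om → ℝ) : Prop := TR (fun x => ((f x : ℝ) : ℍ[ℝ]))

theorem PR.const (r : ℝ) : PR (fun _ => r) := TR.const r

theorem PR.add {f g : Om → ℝ} (hf : PR f) (hg : PR g) : PR (fun x => f x + g x) := by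
  have := TR.add hf hg
  simpa [PR] using this

theorem PR.mul {f g : Om → ℝ} (hf : PR f) (hg : PR g) : PR (fun x => f x * g x) := by
  have := TR.mul hf hg
  simpa [PR] using this

theorem PR.re {f : Om → ℍ[ℝ]} (hf : TR f) : PR (fun x => (f x).re) := TR.re hf

theorem PR.local {f : Om → ℝ} (h : PR f) :
    ∃ N : ℕ, ∀ x x' : Om, (∀ i < N, x i = x' i) → f x = f x' := by
  obtain ⟨N, hN⟩ := TR.local h
  refine ⟨N, fun x x' hx => ?_⟩
  have := congrArg (fun q : ℍ[ℝ] => q.re) (hN x x' hx)
  simpa using this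

/-- regular functions: quotients with positive denominator -/
def RR (f : Om → ℝ) : Prop :=
  ∃ P D : Om → ℝ, PR P ∧ PR D ∧ (∀ x, 0 < D x) ∧ ∀ x, f x = P x / D x

theorem PR.rr {f : Om → ℝ} (hf : PR f) : RR f :=
  ⟨f, fun _ => 1, hf, PR.const 1, fun _ => one_pos, fun x => by simp⟩

theorem RR.const (r : ℝ) : RR (fun _ => r) := (PR.const r).rr

theorem RR.add {f g : Om → ℝ} (hf : RR f) (hg : RR g) : RR (fun x => f x + g x) := by
  obtain ⟨P, D, hP, hD, hD0, h⟩ := hf
  obtain ⟨P', D', hP', hD', hD0', h'⟩ := hg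
  refine ⟨fun x => P x * D' x + P' x * D x, fun x => D x * D' x, (hP.mul hD').add (hP'.mul hD),
    hD.mul hD', fun x => mul_pos (hD0 x) (hD0' x), fun x => ?_⟩
  have h1 := (hD0 x).ne'
  have h2 := (hD0' x).ne'
  simp only [h x, h' x]
  field_simp

theorem RR.mul {f g : Om → ℝ} (hf : RR f) (hg : RR g) : RR (fun x => f x * g x) := by
  obtain ⟨P, D, hP, hD, hD0, h⟩ := hf
  obtain ⟨P', D', hP', hD', hD0', h'⟩ := hg
  refine ⟨fun x => P x * P' x, fun x => D x * D' x, hP.mul hP',
    hD.mul hD', fun x => mul_pos (hD0 x) (hD0' x), fun x => ?_⟩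
  have h1 := (hD0 x).ne'
  have h2 := (hD0' x).ne'
  simp only [h x, h' x]
  field_simp

theorem RR.div {f g : Om → ℝ} (hf : RR f) (hg : RR g) (hpos : ∀ x, 0 < g x) :
    RR (fun x => f x / g x) := by
  obtain ⟨P, D, hP, hD, hD0, h⟩ := hf
  obtain ⟨P', D', hP', hD', hD0', h'⟩ := hg
  have hP'0 : ∀ x, 0 < P' x := by
    intro x
    have h1 := hpos x
    rw [h' x] at h1
    have h2 := mul_pos h1 (hD0' x)
    rwa [div_mul_cancel₀ _ (hD0' x).ne'] at h2
  refine ⟨fun x => P x * D' x, fun x => D x * P' x, hP.mul hD',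
    hD.mul hP', fun x => mul_pos (hD0 x) (hP'0 x), fun x => ?_⟩
  have h1 := (hD0 x).ne'
  have h2 := (hD0' x).ne'
  have h3 := (hP'0 x).ne'
  simp only [h x, h' x]
  field_simp

theorem RR.neg {f : Om → ℝ} (hf : RR f) : RR (fun x => - f x) := by
  have := (RR.const (-1)).mul hf
  simpa using this

theorem RR.sub {f g : Om → ℝ} (hf : RR f) (hg : RR g) : RR (fun x => f x - g x) := by
  have := hf.add hg.neg
  simpa [sub_eq_add_neg] using this

theorem RR.pow {f : Om → ℝ} (hf : RR f) (k : ℕ) : RR (fun x => f x ^ k) := by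
  induction k with
  | zero => simpa using RR.const 1
  | succ k ih => simp only [pow_succ]; exact ih.mul hf

theorem RR.poly {f : Om → ℝ} (hf : RR f) (a : ℝ[X]) : RR (fun x => a.eval (f x)) := by
  induction a using Polynomial.induction_on' with
  | add p q hp hq => simp only [eval_add]; exact hp.add hq
  | monomial n a => simp only [eval_monomial]; exact (RR.const a).mul (hf.pow n)

theorem RR.local {f : Om → ℝ} (h : RR f) :
    ∃ N : ℕ, ∀ x x' : Om, (∀ i < N, x i = x' i) → f x = f x' := by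
  obtain ⟨P, D, hP, hD, hD0, h⟩ := h
  obtain ⟨N, hN⟩ := hP.local
  obtain ⟨M, hM⟩ := hD.local
  refine ⟨max N M, fun x x' hx => ?_⟩
  rw [h x, h x', hN x x' (fun i hi => hx i (lt_of_lt_of_le hi (le_max_left _ _))),
    hM x x' (fun i hi => hx i (lt_of_lt_of_le hi (le_max_right _ _)))]

/-! ### the slope data -/

/-- the norm of the vector part of the variable number 0 -/
noncomputable def sn (x : Om) : ℝ := ‖(x 0).im‖

theorem sn_nonneg (x : Om) : 0 ≤ sn x := norm_nonneg _

theorem sn_sq (x : Om) : sn x ^ 2 = (x 0).imI ^ 2 + (x 0).imJ ^ 2 + (x 0).imK ^ 2 := by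
  have h := Quaternion.normSq_eq_norm_mul_self (x 0).im
  rw [sn, sq, ← h, normSq_eq']
  simp

theorem tr_im : TR (fun x => (x 0).im) := by
  have h1 : TR (fun x => x 0 + ((-1 : ℝ) : ℍ[ℝ]) * (((x 0).re : ℝ) : ℍ[ℝ])) :=
    TR.add (TR.var 0) (TR.mul (TR.const (-1)) (TR.re (TR.var 0)))
  have h2 : (fun x : Om => (x 0).im) =
      (fun x => x 0 + ((-1 : ℝ) : ℍ[ℝ]) * (((x 0).re : ℝ) : ℍ[ℝ])) := by
    funext x
    ext <;> simp
  rw [h2]; exact h1

theorem pr_sq : PR (fun x => sn x ^ 2) := by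
  have h1 : PR (fun x => -1 * ((x 0).im * (x 0).im).re) :=
    (PR.const (-1)).mul (PR.re (tr_im.mul tr_im))
  have h2 : (fun x : Om => sn x ^ 2) = (fun x => -1 * ((x 0).im * (x 0).im).re) := by
    funext x
    rw [sn_sq]
    simp
    ring
  rw [h2]; exact h1

/-- `K ⊆ ℝ × {±1}` is realizable: there are regular functions `g ≥ 0` and `h`, the latter
vanishing when the vector part of `x 0` does, such that `K` is the set of all pairs
`(sn x * g x, sign (h x))` with `h x ≠ 0`. -/
def Realizes (K : Set (ℝ × SignType)) : Prop :=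
  ∃ g h : Om → ℝ, RR g ∧ RR h ∧ (∀ x, 0 ≤ g x) ∧ (∀ x, sn x = 0 → h x = 0) ∧
    K = {k | ∃ x, h x ≠ 0 ∧ k = (sn x * g x, SignType.sign (h x))}

/-- the function theta -/
theorem theta_bounds (z : ℝ) :
    0 ≤ 2 * z ^ 2 * (1 + z) ^ 2 / (1 + z ^ 2) ^ 3 ∧
    2 * z ^ 2 * (1 + z) ^ 2 / (1 + z ^ 2) ^ 3 ≤ 1 ∧
    (2 * z ^ 2 * (1 + z) ^ 2 / (1 + z ^ 2) ^ 3 = 1 → z = 1) := by
  have h0 : 0 < 1 + z ^ 2 := by positivity
  have h1 : 4 * z ^ 2 ≤ (1 + z ^ 2) ^ 2 := by nlinarith [sq_nonneg (1 - z ^ 2)]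
  have h2 : (1 + z) ^ 2 ≤ 2 * (1 + z ^ 2) := by nlinarith [sq_nonneg (1 - z)]
  have h3 : 2 * (2 * z ^ 2 * (1 + z) ^ 2) ≤ 2 * (1 + z ^ 2) ^ 3 := by
    calc 2 * (2 * z ^ 2 * (1 + z) ^ 2) = (4 * z ^ 2) * (1 + z) ^ 2 := by ring
      _ ≤ (1 + z ^ 2) ^ 2 * (2 * (1 + z ^ 2)) := by
        apply mul_le_mul h1 h2 (by positivity) (by positivity)
      _ = 2 * (1 + z ^ 2) ^ 3 := by ring
  refine ⟨by positivity, ?_, ?_⟩
  · rw [div_le_one (by positivity)]; linarith
  · intro h
    rw [div_eq_one_iff_eq (by positivity)] at h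
    -- equality forces both factors to be extremal
    have h4 : (4 * z ^ 2) * (1 + z) ^ 2 = (1 + z ^ 2) ^ 2 * (2 * (1 + z ^ 2)) := by
      linear_combination 2 * h
    have h5 : (1 + z ^ 2) ^ 2 * (2 * (1 + z ^ 2) - (1 + z) ^ 2) ≤ 0 := by
      nlinarith [mul_nonneg (sub_nonneg.2 h1) (sq_nonneg (1 + z))]
    have h6 : 2 * (1 + z ^ 2) - (1 + z) ^ 2 ≤ 0 := by
      by_contra h7
      push Not at h7
      have := mul_pos (pow_pos h0 2) h7
      linarith
    have h8 : (1 - z) ^ 2 ≤ 0 := by nlinarith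
    have h9 : (1 - z) ^ 2 = 0 := le_antisymm h8 (sq_nonneg _)
    rw [sq_eq_zero_iff] at h9
    linarith

theorem sign_pos_or {ε : SignType} (hε : ε ≠ 0) : (ε : ℝ) ^ 2 = 1 := by
  rcases ε with _ | _ | _
  · exact absurd rfl hε
  · simp
  · simp

theorem sign_mul_coe {ε : SignType} (hε : ε ≠ 0) {h : ℝ} (hpos : 0 < (ε : ℝ) * h) :
    SignType.sign h = ε := by
  rcases ε with _ | _ | _
  · exact absurd rfl hε
  · simp at hpos
    exact sign_neg hpos
  · simp at hpos
    exact sign_pos hpos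

/-- Adding one special point. -/
theorem Realizes.step {K : Set (ℝ × SignType)} (hK : Realizes K) (t0 : ℝ) (ht0 : 0 < t0)
    (Z : Finset ℝ) (hZ : ∀ z ∈ Z, 0 ≤ z ∧ z ≤ t0)
    (hKt : ∀ k ∈ K, 0 ≤ k.1 ∧ k.1 ≤ t0)
    (hloc : ∀ (x y : ℝ) (σ : SignType), x ∈ Set.Icc 0 t0 → y ∈ Set.Icc 0 t0 →
      (∀ z ∈ Z, z ∉ Set.uIcc x y) → (x, σ) ∈ K → (y, σ) ∈ K)
    (e : ℝ) (he : e ∈ Z) (ε : SignType) (hε : ε ≠ 0) (ξ0 : ℝ) (hξ0 : (ξ0, ε) ∈ K)
    (hne : ξ0 ≠ e) (hJ : ∀ z ∈ Z, z ≠ e → z ∉ Set.uIcc e ξ0) :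
    Realizes (insert (e, ε) K) := by
  classical
  obtain ⟨he0, het⟩ := hZ e he
  obtain ⟨hξ00, hξ0t⟩ := hKt _ hξ0
  simp only at hξ00 hξ0t
  obtain ⟨μ, hμ1, hμ2, ⟨xs, hxsJ, hxs1⟩, hμ4⟩ := bump t0 ht0 Z hZ e he ξ0 hξ00 hξ0t hne hJ
  obtain ⟨g, h, hg, hh, hg0, hh0, hKeq⟩ := hK
  obtain ⟨N1, hN1⟩ := hg.local
  obtain ⟨N2, hN2⟩ := hh.local
  set N := max (max N1 N2) 1 with hN
  -- new parameter
  let lam : Om → ℝ := fun x => (x N).re
  have hlam : RR lam := (PR.re (TR.var N)).rr
  let z : Om → ℝ := fun x => (ε : ℝ) * ((lam x) ^ 2 * h x)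
  have hz : RR z := (RR.const _).mul ((hlam.pow 2).mul hh)
  let θ : Om → ℝ := fun x => 2 * z x ^ 2 * (1 + z x) ^ 2 / (1 + z x ^ 2) ^ 3
  have hθ : RR θ := (((RR.const 2).mul (hz.pow 2)).mul (((RR.const 1).add hz).pow 2)).div
    (((RR.const 1).add (hz.pow 2)).pow 3) (fun x => by positivity)
  let ξ : Om → ℝ := fun x => sn x * g x
  have hξ2 : RR (fun x => ξ x ^ 2) := by
    have h1 : (fun x => ξ x ^ 2) = fun x => sn x ^ 2 * g x ^ 2 := by
      funext x; simp only [ξ]; ring
    rw [h1]; exact pr_sq.rr.mul (hg.pow 2)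
  let g' : Om → ℝ := fun x => g x * (1 - θ x * ((ξ x ^ 2 - e ^ 2) * μ.eval (ξ x ^ 2)))
  have hg' : RR g' := hg.mul ((RR.const 1).sub (hθ.mul
    ((hξ2.sub (RR.const (e ^ 2))).mul (hξ2.poly μ))))
  let M : ℝ → ℝ := fun y => y * (y + e) * μ.eval (y ^ 2)
  have hξ' : ∀ x, sn x * g' x = ξ x - θ x * ((ξ x - e) * M (ξ x)) := by
    intro x
    simp only [g', M, ξ]
    ring
  have hmem : ∀ x, h x ≠ 0 → (ξ x, SignType.sign (h x)) ∈ K := by
    intro x hx; rw [hKeq]; exact ⟨x, hx, rfl⟩
  have hIcc : ∀ x, h x ≠ 0 → ξ x ∈ Set.Icc 0 t0 := fun x hx => hKt _ (hmem x hx)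
  have hθ01 : ∀ x, 0 ≤ θ x ∧ θ x ≤ 1 := fun x => ⟨(theta_bounds _).1, (theta_bounds _).2.1⟩
  have hθz : ∀ x, θ x = 1 → z x = 1 := fun x => (theta_bounds _).2.2
  have hθ0 : ∀ x, h x = 0 → θ x = 0 := by
    intro x hx
    simp only [θ, z, hx]
    simp
  -- the convexity facts
  have hconv : ∀ x, h x ≠ 0 → 0 ≤ sn x * g' x := by
    intro x hx
    rw [hξ']
    have h1 := hμ1 _ (hIcc x hx)
    have h2 := hθ01 x
    have h3 := hIcc x hx
    have h4 : 0 ≤ θ x * M (ξ x) := mul_nonneg h2.1 h1.1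
    have h5 : θ x * M (ξ x) ≤ 1 := by
      calc θ x * M (ξ x) ≤ 1 * 1 := mul_le_mul h2.2 h1.2 h1.1 zero_le_one
        _ = 1 := one_mul 1
    have h6 : ξ x - θ x * ((ξ x - e) * M (ξ x))
        = (1 - θ x * M (ξ x)) * ξ x + θ x * M (ξ x) * e := by ring
    rw [h6]
    have h7 := h3.1
    have : 0 ≤ 1 - θ x * M (ξ x) := by linarith
    positivity
  refine ⟨g', h, hg', hh, ?_, hh0, ?_⟩
  · intro x
    by_cases hx : h x = 0
    · have : g' x = g x := by simp only [g', hθ0 x hx]; ring
      rw [this]; exact hg0 x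
    · have hs : sn x ≠ 0 := fun h' => hx (hh0 x h')
      have hs' : 0 < sn x := lt_of_le_of_ne (sn_nonneg x) (Ne.symm hs)
      have := hconv x hx
      by_contra hneg
      push Not at hneg
      have := mul_neg_of_pos_of_neg hs' hneg
      linarith
  · apply Set.eq_of_subset_of_subset
    · -- the new point and the old points are attained
      have hupd : ∀ (x : Om) (c : ℝ), let x' := Function.update x N ((c : ℝ) : ℍ[ℝ])
          g x' = g x ∧ h x' = h x ∧ sn x' = sn x ∧ lam x' = c := by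
        intro x c
        have h1 : ∀ i < N, Function.update x N ((c : ℝ) : ℍ[ℝ]) i = x i := by
          intro i hi
          rw [Function.update_of_ne hi.ne]
        refine ⟨hN1 _ _ (fun i hi => h1 i (lt_of_lt_of_le hi
          ((le_max_left _ _).trans (le_max_left _ _)))),
          hN2 _ _ (fun i hi => h1 i (lt_of_lt_of_le hi
          ((le_max_right _ _).trans (le_max_left _ _)))), ?_, ?_⟩
        · simp only [sn]; rw [h1 0 (lt_of_lt_of_le one_pos (le_max_right _ _))]
        · simp only [lam]; simp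
      rintro k (rfl | hk)
      · -- attain (e, ε)
        have h1 : (xs, ε) ∈ K := by
          have hxs0 : 0 < xs := lt_of_le_of_lt (le_min he0 hξ00) hxsJ.1
          have hxst : xs < t0 := lt_of_lt_of_le hxsJ.2 (max_le het hξ0t)
          refine hloc ξ0 xs ε ⟨hξ00, hξ0t⟩ ⟨hxs0.le, hxst.le⟩ ?_ hξ0
          intro c hc hc'
          by_cases hce : c = e
          · subst hce
            rw [Set.mem_uIcc] at hc'
            rcases lt_or_gt_of_ne hne with h1 | h1
            · rw [min_eq_right h1.le, max_eq_left h1.le] at hxsJ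
              rcases hc' with h2 | h2 <;> linarith [h2.1, h2.2, hxsJ.1, hxsJ.2]
            · rw [min_eq_left h1.le, max_eq_right h1.le] at hxsJ
              rcases hc' with h2 | h2 <;> linarith [h2.1, h2.2, hxsJ.1, hxsJ.2]
          · apply hJ c hc hce
            rw [Set.mem_uIcc] at hc' ⊢
            rcases lt_or_gt_of_ne hne with h1 | h1
            · rw [min_eq_right h1.le, max_eq_left h1.le] at hxsJ
              right
              rcases hc' with h2 | h2 <;> constructor <;> linarith [h2.1, h2.2, hxsJ.1, hxsJ.2]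
            · rw [min_eq_left h1.le, max_eq_right h1.le] at hxsJ
              left
              rcases hc' with h2 | h2 <;> constructor <;> linarith [h2.1, h2.2, hxsJ.1, hxsJ.2]
        rw [hKeq] at h1
        obtain ⟨x, hx, hxe⟩ := h1
        rw [Prod.mk.injEq] at hxe
        obtain ⟨hx1, hx2⟩ := hxe
        set c := (Real.sqrt |h x|)⁻¹ with hc
        obtain ⟨e1, e2, e3, e4⟩ := hupd x c
        refine ⟨Function.update x N ((c : ℝ) : ℍ[ℝ]), by rw [e2]; exact hx, ?_⟩
        rw [Prod.mk.injEq]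
        constructor
        · rw [hξ']
          have h2 : ξ (Function.update x N ((c : ℝ) : ℍ[ℝ])) = xs := by
            simp only [ξ]; rw [e1, e3, ← hx1]
          have h3 : z (Function.update x N ((c : ℝ) : ℍ[ℝ])) = 1 := by
            simp only [z]
            rw [e4, e2, hc, inv_pow, Real.sq_sqrt (abs_nonneg _), hx2]
            have h4 := sign_mul_abs (h x)
            have h5 : |h x| ≠ 0 := abs_ne_zero.2 hx
            have h6 : ((SignType.sign (h x) : SignType) : ℝ) * h x = |h x| := by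
              rcases lt_or_gt_of_ne hx with h7 | h7
              · rw [sign_neg h7, abs_of_neg h7]; simp
              · rw [sign_pos h7, abs_of_pos h7]; simp
            field_simp
            linarith
          have h4 : θ (Function.update x N ((c : ℝ) : ℍ[ℝ])) = 1 := by
            simp only [θ]; rw [h3]; norm_num
          rw [h2, h4, show M xs = 1 from hxs1]
          ring
        · rw [e2]; exact hx2
      · rw [hKeq] at hk
        obtain ⟨x, hx, rfl⟩ := hk
        obtain ⟨e1, e2, e3, e4⟩ := hupd x 0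
        refine ⟨Function.update x N ((0 : ℝ) : ℍ[ℝ]), by rw [e2]; exact hx, ?_⟩
        rw [Prod.mk.injEq]
        constructor
        · rw [hξ']
          have h3 : θ (Function.update x N ((0 : ℝ) : ℍ[ℝ])) = 0 := by
            simp only [θ, z]; rw [e4]; norm_num
          rw [h3]
          simp only [ξ]
          rw [e1, e3]; ring
        · rw [e2]
    · -- nothing else
      rintro k ⟨x, hx, rfl⟩
      have hxK := hmem x hx
      have hxI := hIcc x hx
      have hM := hμ1 _ hxI
      have hT := hθ01 x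
      rw [hξ']
      have hMnn : 0 ≤ M (ξ x) := hM.1
      have hMle : M (ξ x) ≤ 1 := hM.2
      by_cases hxZ : ξ x ∈ Z
      · right
        have : M (ξ x) = 0 := hμ2 _ hxZ
        rw [this, mul_zero, mul_zero, sub_zero]
        exact hxK
      by_cases h1 : θ x * M (ξ x) = 1
      · left
        have h2 : θ x = 1 := by
          by_contra h
          have h3 : θ x < 1 := lt_of_le_of_ne hT.2 h
          nlinarith
        have h3 : M (ξ x) = 1 := by rw [h2, one_mul] at h1; exact h1
        have h4 := hθz x h2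
        rw [Prod.mk.injEq]
        constructor
        · rw [h2, h3]; ring
        · apply sign_mul_coe hε
          have h5 : 0 < (ε : ℝ) * (lam x ^ 2 * h x) := by
            have : (ε : ℝ) * (lam x ^ 2 * h x) = 1 := h4
            rw [this]; exact one_pos
          have h6 : (ε : ℝ) * (lam x ^ 2 * h x) = lam x ^ 2 * ((ε : ℝ) * h x) := by ring
          rw [h6] at h5
          by_contra h7
          push Not at h7
          nlinarith [sq_nonneg (lam x)]
      · right
        have h2 : θ x * M (ξ x) < 1 := by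
          refine lt_of_le_of_ne ?_ h1
          calc θ x * M (ξ x) ≤ 1 * 1 := mul_le_mul hT.2 hMle hMnn zero_le_one
            _ = 1 := one_mul 1
        have hyI : ξ x - θ x * ((ξ x - e) * M (ξ x)) ∈ Set.Icc 0 t0 := by
          have h3 : 0 ≤ θ x * M (ξ x) := mul_nonneg hT.1 hMnn
          have h6 : ξ x - θ x * ((ξ x - e) * M (ξ x))
            = (1 - θ x * M (ξ x)) * ξ x + θ x * M (ξ x) * e := by ring
          have h7 : 0 ≤ 1 - θ x * M (ξ x) := by linarith
          rw [h6]
          constructor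
          · have := hxI.1; positivity
          · nlinarith [mul_le_mul_of_nonneg_left hxI.2 h7, mul_le_mul_of_nonneg_left het h3]
        refine hloc (ξ x) _ _ hxI hyI ?_ hxK
        intro c hc hc'
        by_cases hxJ : ξ x ∈ Set.Ioo (min e ξ0) (max e ξ0)
        · -- between e and ξ0
          have h3 : 0 ≤ θ x * M (ξ x) := mul_nonneg hT.1 hMnn
          set y := ξ x with hy
          have h6 : y - θ x * ((y - e) * M y) = y - θ x * M y * (y - e) := by ring
          rw [h6, Set.mem_uIcc] at hc'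
          by_cases hce : c = e
          · subst hce
            rcases lt_or_gt_of_ne hne with h8 | h8
            · rw [min_eq_right h8.le, max_eq_left h8.le] at hxJ
              rcases hc' with h9 | h9 <;> nlinarith [h9.1, h9.2, hxJ.1, hxJ.2]
            · rw [min_eq_left h8.le, max_eq_right h8.le] at hxJ
              rcases hc' with h9 | h9 <;> nlinarith [h9.1, h9.2, hxJ.1, hxJ.2]
          · apply hJ c hc hce
            rw [Set.mem_uIcc]
            rcases lt_or_gt_of_ne hne with h8 | h8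
            · rw [min_eq_right h8.le, max_eq_left h8.le] at hxJ
              right
              rcases hc' with h9 | h9 <;> constructor <;>
                nlinarith [h9.1, h9.2, hxJ.1, hxJ.2]
            · rw [min_eq_left h8.le, max_eq_right h8.le] at hxJ
              left
              rcases hc' with h9 | h9 <;> constructor <;>
                nlinarith [h9.1, h9.2, hxJ.1, hxJ.2]
        · have h3 := hμ4 _ hxI hxJ hxZ c hc
          have h4 : |θ x * ((ξ x - e) * M (ξ x))| < |ξ x - c| := by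
            rw [abs_mul, abs_mul, abs_of_nonneg hT.1, abs_of_nonneg hMnn]
            calc θ x * (|ξ x - e| * M (ξ x)) ≤ 1 * (|ξ x - e| * M (ξ x)) :=
                  mul_le_mul_of_nonneg_right hT.2 (mul_nonneg (abs_nonneg _) hMnn)
              _ = |ξ x - e| * M (ξ x) := one_mul _
              _ < |ξ x - c| := h3
          set y := θ x * ((ξ x - e) * M (ξ x)) with hy
          rw [Set.mem_uIcc] at hc'
          rcases hc' with h9 | h9
          · have h10 : |ξ x - c| = c - ξ x := by rw [abs_of_nonpos (by linarith [h9.1])]; ring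
            rw [h10, abs_lt] at h4
            linarith [h4.1, h4.2, h9.1, h9.2]
          · have h10 : |ξ x - c| = ξ x - c := abs_of_nonneg (by linarith [h9.2])
            rw [h10, abs_lt] at h4
            linarith [h4.1, h4.2, h9.1, h9.2]

end Pool.Agent.Helper668.QI
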