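import Pool.Agent.Helper668.QD

set_option autoImplicit false
set_option linter.unusedVariables false

open Polynomial
open scoped Quaternion

namespace Pool.Agent.Helper668.QI

theorem two_mul_div_bound (s : ℝ) (hs : 0 ≤ s) : 0 ≤ 2 * s / (1 + s ^ 2) ∧ 2 * s / (1 + s ^ 2) ≤ 1 := by
  have : 0 < 1 + s ^ 2 := by positivity
  refine ⟨by positivity, ?_⟩
  rw [div_le_one this]; nlinarith [sq_nonneg (1 - s)]

theorem exists_two_mul_div (c : ℝ) (h0 : 0 ≤ c) (h1 : c ≤ 1) :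
    ∃ s, 0 ≤ s ∧ s ≤ 1 ∧ 2 * s / (1 + s ^ 2) = c := by
  have hcont : ContinuousOn (fun s : ℝ => 2 * s / (1 + s ^ 2)) (Set.Icc 0 1) := by
    apply ContinuousOn.div
    · fun_prop
    · fun_prop
    · intro x _; positivity
  have := intermediate_value_Icc (zero_le_one (α := ℝ)) hcont
  have hc : c ∈ Set.Icc ((fun s : ℝ => 2 * s / (1 + s ^ 2)) 0) ((fun s : ℝ => 2 * s / (1 + s ^ 2)) 1) := by
    constructor
    · simpa using h0
    · norm_num; exact h1
  obtain ⟨s, hs, hs'⟩ := this hc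
  exact ⟨s, hs.1, hs.2, hs'⟩

theorem Realizes.base (t0 : ℝ) (ht0 : 0 < t0) (Z : Finset ℝ) (hZ : ∀ z ∈ Z, 0 ≤ z ∧ z ≤ t0)
    (h0Z : (0 : ℝ) ∈ Z) (ht0Z : t0 ∈ Z) (T : Set (ℝ × SignType))
    (hT : ∀ k ∈ T, k.1 ∈ Set.Icc 0 t0 ∧ k.2 ≠ 0)
    (hloc : ∀ (x y : ℝ) (σ : SignType), x ∈ Set.Icc 0 t0 → y ∈ Set.Icc 0 t0 →
      (∀ z ∈ Z, z ∉ Set.uIcc x y) → (x, σ) ∈ T → (y, σ) ∈ T)
    (hfull : ∀ x ∈ Set.Icc 0 t0, x ∉ Z → (x, (1 : SignType)) ∈ T ∨ (x, (-1 : SignType)) ∈ T) :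
    Realizes {k | k ∈ T ∧ k.1 ∉ Z} := by
  classical
  have hD : ∀ σ : SignType, ∃ a : ℝ[X],
      (∀ x, 0 ≤ x → x ∉ Z → ((x < t0 ∧ (x, σ) ∈ T) → 0 < a.eval (x ^ 2)) ∧
      (¬ (x < t0 ∧ (x, σ) ∈ T) → a.eval (x ^ 2) < 0)) ∧ ∀ z ∈ Z, a.eval (z ^ 2) = 0 := by
    intro σ
    apply sign_poly Z (fun z hz => (hZ z hz).1) (fun x => x < t0 ∧ (x, σ) ∈ T)
    have aux : ∀ x y, 0 ≤ x → 0 ≤ y → (∀ z ∈ Z, z ∉ Set.uIcc x y) →
        (x < t0 ∧ (x, σ) ∈ T) → (y < t0 ∧ (y, σ) ∈ T) := by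
      rintro x y hx hy h ⟨hxt, hxT⟩
      have hyt : y < t0 := by
        by_contra hyt
        push Not at hyt
        apply h t0 ht0Z
        rw [Set.mem_uIcc]
        left; exact ⟨hxt.le, hyt⟩
      exact ⟨hyt, hloc x y σ ⟨hx, hxt.le⟩ ⟨hy, hyt.le⟩ h hxT⟩
    intro x y hx hy h
    exact ⟨aux x y hx hy h, aux y x hy hx (by rw [Set.uIcc_comm]; exact h)⟩
  obtain ⟨a, ha1, ha2⟩ := hD 1
  obtain ⟨b, hb1, hb2⟩ := hD (-1)
  let g : Om → ℝ := fun x => (2 * t0) / (1 + sn x ^ 2)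
  have hg : RR g := (RR.const (2 * t0)).div ((RR.const 1).add pr_sq.rr) (fun x => by positivity)
  let ξ : Om → ℝ := fun x => sn x * g x
  have hξ2 : RR (fun x => ξ x ^ 2) := by
    have h1 : (fun x => ξ x ^ 2) = fun x => sn x ^ 2 * g x ^ 2 := by
      funext x; simp only [ξ]; ring
    rw [h1]; exact pr_sq.rr.mul (hg.pow 2)
  have hξeq : ∀ x, ξ x = t0 * (2 * sn x / (1 + sn x ^ 2)) := by
    intro x; simp only [ξ, g]; ring
  have hξI : ∀ x, ξ x ∈ Set.Icc 0 t0 := by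
    intro x
    have := two_mul_div_bound (sn x) (sn_nonneg x)
    rw [hξeq]
    constructor
    · exact mul_nonneg ht0.le this.1
    · calc t0 * (2 * sn x / (1 + sn x ^ 2)) ≤ t0 * 1 := mul_le_mul_of_nonneg_left this.2 ht0.le
        _ = t0 := mul_one _
  let h : Om → ℝ := fun x => a.eval (ξ x ^ 2) * (x 1).re ^ 2 - b.eval (ξ x ^ 2) * (x 2).re ^ 2
  have hh : RR h := ((hξ2.poly a).mul (((PR.re (TR.var 1)).rr).pow 2)).sub
    ((hξ2.poly b).mul (((PR.re (TR.var 2)).rr).pow 2))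
  have hh0 : ∀ x, ξ x ∈ Z → h x = 0 := by
    intro x hx
    simp only [h, ha2 _ hx, hb2 _ hx]; ring
  refine ⟨g, h, hg, hh, fun x => by positivity, ?_, ?_⟩
  · intro x hx
    apply hh0
    have : ξ x = 0 := by simp only [ξ, hx, zero_mul]
    rw [this]; exact h0Z
  · apply Set.eq_of_subset_of_subset
    · rintro ⟨y, σ⟩ ⟨hk, hkZ⟩
      obtain ⟨hyI, hσ⟩ := hT _ hk
      simp only at hyI hσ hkZ
      have hyt : y < t0 := lt_of_le_of_ne hyI.2 (fun h => hkZ (h ▸ ht0Z))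
      obtain ⟨s, hs0, hs1, hs⟩ := exists_two_mul_div (y / t0) (div_nonneg hyI.1 ht0.le)
        ((div_le_one ht0).2 hyI.2)
      let x : ℝ → ℝ → Om := fun c d i => if i = 0 then ⟨0, s, 0, 0⟩ else
        if i = 1 then ((c : ℝ) : ℍ[ℝ]) else ((d : ℝ) : ℍ[ℝ])
      have hsn : ∀ c d, sn (x c d) = s := by
        intro c d
        have h1 := sn_sq (x c d)
        have h2 : sn (x c d) ^ 2 = s ^ 2 := by rw [h1]; simp [x]
        exact (pow_left_inj₀ (sn_nonneg _) hs0 two_ne_zero).1 h2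
      have hξx : ∀ c d, ξ (x c d) = y := by
        intro c d
        rw [hξeq, hsn, hs]; field_simp
      have hhx : ∀ c d, h (x c d) = a.eval (y ^ 2) * c ^ 2 - b.eval (y ^ 2) * d ^ 2 := by
        intro c d
        simp only [h, hξx]
        simp [x]
      rcases σ with _ | _ | _
      · exact absurd rfl hσ
      · have h1 := (hb1 y hyI.1 hkZ).1 ⟨hyt, hk⟩
        have h2 : h (x 0 1) < 0 := by rw [hhx]; simpa using h1
        refine ⟨x 0 1, h2.ne, ?_⟩
        rw [Prod.mk.injEq]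
        exact ⟨(hξx 0 1).symm, (sign_neg h2).symm⟩
      · have h1 := (ha1 y hyI.1 hkZ).1 ⟨hyt, hk⟩
        have h2 : 0 < h (x 1 0) := by rw [hhx]; simpa using h1
        refine ⟨x 1 0, h2.ne', ?_⟩
        rw [Prod.mk.injEq]
        exact ⟨(hξx 1 0).symm, (sign_pos h2).symm⟩
    · rintro k ⟨x, hx, rfl⟩
      have hxZ : ξ x ∉ Z := fun h' => hx (hh0 x h')
      have hxI := hξI x
      have hxt : ξ x < t0 := lt_of_le_of_ne hxI.2 (fun h => hxZ (h ▸ ht0Z))
      refine ⟨?_, hxZ⟩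
      change (ξ x, SignType.sign (h x)) ∈ T
      rcases lt_or_gt_of_ne hx with hneg | hpos
      · rw [sign_neg hneg]
        by_contra hcon
        have h1 := (hb1 (ξ x) hxI.1 hxZ).2 (fun h' => hcon h'.2)
        have h2 : (ξ x, (1 : SignType)) ∈ T := by
          rcases hfull (ξ x) hxI hxZ with h | h
          · exact h
          · exact absurd h hcon
        have h3 := (ha1 (ξ x) hxI.1 hxZ).1 ⟨hxt, h2⟩
        have h4 : 0 ≤ h x := by
          simp only [h]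
          nlinarith [mul_nonneg h3.le (sq_nonneg (x 1).re),
            mul_nonneg (neg_nonneg.2 h1.le) (sq_nonneg (x 2).re)]
        linarith
      · rw [sign_pos hpos]
        by_contra hcon
        have h1 := (ha1 (ξ x) hxI.1 hxZ).2 (fun h' => hcon h'.2)
        have h2 : (ξ x, (-1 : SignType)) ∈ T := by
          rcases hfull (ξ x) hxI hxZ with h | h
          · exact absurd h hcon
          · exact h
        have h3 := (hb1 (ξ x) hxI.1 hxZ).1 ⟨hxt, h2⟩
        have h4 : h x ≤ 0 := by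
          simp only [h]
          nlinarith [mul_nonneg h3.le (sq_nonneg (x 2).re),
            mul_nonneg (neg_nonneg.2 h1.le) (sq_nonneg (x 1).re)]
        linarith

/-- base + all adjacent special points -/
theorem Realizes.all (t0 : ℝ) (ht0 : 0 < t0) (Z : Finset ℝ) (hZ : ∀ z ∈ Z, 0 ≤ z ∧ z ≤ t0)
    (h0Z : (0 : ℝ) ∈ Z) (ht0Z : t0 ∈ Z) (T : Set (ℝ × SignType))
    (hT : ∀ k ∈ T, k.1 ∈ Set.Icc 0 t0 ∧ k.2 ≠ 0)
    (hloc : ∀ (x y : ℝ) (σ : SignType), x ∈ Set.Icc 0 t0 → y ∈ Set.Icc 0 t0 →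
      (∀ z ∈ Z, z ∉ Set.uIcc x y) → (x, σ) ∈ T → (y, σ) ∈ T)
    (hfull : ∀ x ∈ Set.Icc 0 t0, x ∉ Z → (x, (1 : SignType)) ∈ T ∨ (x, (-1 : SignType)) ∈ T) :
    ∃ K : Set (ℝ × SignType), Realizes K ∧ K ⊆ T ∧ (∀ k ∈ T, k.1 ∉ Z → k ∈ K) ∧
      ∀ k ∈ T, ∀ ξ0 : ℝ, (ξ0, k.2) ∈ T → ξ0 ≠ k.1 → (∀ z ∈ Z, z ≠ k.1 → z ∉ Set.uIcc k.1 ξ0) →
        k ∈ K := by
  classical
  have hbase := Realizes.base t0 ht0 Z hZ h0Z ht0Z T hT hloc hfull
  let Adj : ℝ × SignType → Prop := fun k => k ∈ T ∧ k.1 ∈ Z ∧ ∃ ξ0 : ℝ, (ξ0, k.2) ∈ T ∧ ξ0 ≠ k.1 ∧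
    (∀ z ∈ Z, z ≠ k.1 → z ∉ Set.uIcc k.1 ξ0)
  have hstep : ∀ A : Finset (ℝ × SignType), (∀ k ∈ A, Adj k) →
      Realizes ({k | k ∈ T ∧ k.1 ∉ Z} ∪ (A : Set (ℝ × SignType))) := by
    intro A
    induction A using Finset.induction_on with
    | empty => intro _; simpa using hbase
    | insert k A hkA ih =>
      intro hA
      have hA' : ∀ k ∈ A, Adj k := fun k hk => hA k (Finset.mem_insert_of_mem hk)
      have h1 := ih hA'
      obtain ⟨hkT, hkZ, ξ0, hξ0, hne, hJ⟩ := hA k (Finset.mem_insert_self _ _)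
      have hsub : ({k | k ∈ T ∧ k.1 ∉ Z} ∪ (A : Set (ℝ × SignType))) ⊆ T := by
        rintro k (hk | hk)
        · exact hk.1
        · exact (hA' k hk).1
      have hξ0Z : ξ0 ∉ Z := fun h => hJ ξ0 h hne Set.right_mem_uIcc
      have h2 := h1.step t0 ht0 Z hZ (fun k hk => (hT k (hsub hk)).1)
        (by
          intro x y σ hx hy h hxK
          have hxZ : x ∉ Z := fun h' => h x h' Set.left_mem_uIcc
          have hyZ : y ∉ Z := fun h' => h y h' Set.right_mem_uIcc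
          exact Or.inl ⟨hloc x y σ hx hy h (hsub hxK), hyZ⟩)
        k.1 hkZ k.2 (hT k hkT).2 ξ0 (Or.inl ⟨hξ0, hξ0Z⟩) hne hJ
      have h3 : insert (k.1, k.2) ({k | k ∈ T ∧ k.1 ∉ Z} ∪ (A : Set (ℝ × SignType)))
          = ({k | k ∈ T ∧ k.1 ∉ Z} ∪ ((insert k A : Finset (ℝ × SignType)) : Set (ℝ × SignType))) := by
        rw [Finset.coe_insert]
        ext q
        simp only [Set.mem_insert_iff, Set.mem_union, Prod.mk.eta]
        tauto
      rw [h3] at h2
      exact h2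
  have hfin : {k : ℝ × SignType | Adj k}.Finite := by
    refine Set.Finite.subset ((Z ×ˢ (Finset.univ : Finset SignType)).finite_toSet) ?_
    intro k hk
    simp only [Finset.coe_product, Set.mem_prod, Finset.mem_coe, Finset.mem_univ, and_true]
    exact hk.2.1
  refine ⟨{k | k ∈ T ∧ k.1 ∉ Z} ∪ {k | Adj k}, ?_, ?_, ?_, ?_⟩
  · have := hstep hfin.toFinset (fun k hk => by simpa using hk)
    rwa [Set.Finite.coe_toFinset] at this
  · rintro k (hk | hk)
    · exact hk.1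
    · exact hk.1
  · intro k hk hkZ; exact Or.inl ⟨hk, hkZ⟩
  · intro k hk ξ0 h1 h2 h3
    by_cases hkZ : k.1 ∈ Z
    · exact Or.inr ⟨hk, hkZ, ξ0, h1, h2, h3⟩
    · exact Or.inl ⟨hk, hkZ⟩

/-- frontier of a finite union of order-connected sets -/
theorem ordConnected_frontier_finite {I : Set ℝ} (hI : I.OrdConnected) : (frontier I).Finite := by
  have h : frontier I ⊆ {x | IsGLB I x} ∪ {x | IsLUB I x} := by
    intro x hx
    by_contra hcon
    simp only [Set.mem_union, Set.mem_ofPred_eq, not_or] at hcon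
    obtain ⟨h1, h2⟩ := hcon
    have hcl : x ∈ closure I := frontier_subset_closure hx
    have h3 : ∃ y ∈ I, y < x := by
      by_contra hcon
      push Not at hcon
      exact h1 ⟨hcon, fun b hb => by
        by_contra hbx
        push Not at hbx
        obtain ⟨y, hy1, hy2⟩ := mem_closure_iff.1 hcl (Set.Iio b) isOpen_Iio hbx
        exact absurd (hb hy2) (not_le.2 hy1)⟩
    have h4 : ∃ y ∈ I, x < y := by
      by_contra hcon
      push Not at hcon
      exact h2 ⟨hcon, fun b hb => by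
        by_contra hbx
        push Not at hbx
        obtain ⟨y, hy1, hy2⟩ := mem_closure_iff.1 hcl (Set.Ioi b) isOpen_Ioi hbx
        exact absurd (hb hy2) (not_le.2 hy1)⟩
    obtain ⟨y, hy, hyx⟩ := h3
    obtain ⟨z, hz, hxz⟩ := h4
    have h5 : x ∈ interior I := by
      rw [mem_interior]
      exact ⟨Set.Ioo y z, fun w hw => hI.out hy hz ⟨hw.1.le, hw.2.le⟩, isOpen_Ioo, ⟨hyx, hxz⟩⟩
    exact hx.2 h5
  refine Set.Finite.subset (Set.Finite.union ?_ ?_) h
  · exact Set.Subsingleton.finite (fun x hx y hy => IsGLB.unique hx hy)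
  · exact Set.Subsingleton.finite (fun x hx y hy => IsLUB.unique hx hy)

theorem frontier_sUnion_finite {F : Set (Set ℝ)} (hF : F.Finite)
    (h : ∀ I ∈ F, I.OrdConnected) : (frontier (⋃₀ F)).Finite := by
  induction F, hF using Set.Finite.induction_on with
  | empty => simp
  | @insert I F hI hF ih =>
    rw [Set.sUnion_insert]
    refine Set.Finite.subset ((ordConnected_frontier_finite (h I (Set.mem_insert _ _))).union
      (ih (fun J hJ => h J (Set.mem_insert_of_mem _ hJ)))) ?_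
    refine (frontier_union_subset _ _).trans ?_
    exact Set.union_subset_union Set.inter_subset_left Set.inter_subset_right

theorem exists_near (Z : Finset ℝ) (x x1 : ℝ) (hne : x1 ≠ x) :
    ∃ ξ0 ∈ Set.uIcc x x1, ξ0 ≠ x ∧ ∀ z ∈ Z, z ≠ x → z ∉ Set.uIcc x ξ0 := by
  classical
  have h1 : IsOpen ((Z.erase x : Finset ℝ) : Set ℝ)ᶜ := (Finset.finite_toSet _).isClosed.isOpen_compl
  have h2 : x ∈ ((Z.erase x : Finset ℝ) : Set ℝ)ᶜ := by simp
  obtain ⟨δ, hδ, hball⟩ := Metric.isOpen_iff.1 h1 x h2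
  have h3 : 0 < |x1 - x| := abs_pos.2 (sub_ne_zero.2 hne)
  set η := min 1 (δ / (2 * |x1 - x|)) with hη
  have hη0 : 0 < η := lt_min one_pos (by positivity)
  have hη1 : η ≤ 1 := min_le_left _ _
  have hη2 : η * |x1 - x| < δ := by
    have h4 : η ≤ δ / (2 * |x1 - x|) := min_le_right _ _
    have h5 : η * |x1 - x| ≤ δ / (2 * |x1 - x|) * |x1 - x| :=
      mul_le_mul_of_nonneg_right h4 h3.le
    have h6 : δ / (2 * |x1 - x|) * |x1 - x| = δ / 2 := by field_simp
    linarith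
  refine ⟨x + η * (x1 - x), ?_, ?_, ?_⟩
  · rw [Set.mem_uIcc]
    rcases lt_or_gt_of_ne hne with h | h
    · right; constructor <;> nlinarith
    · left; constructor <;> nlinarith
  · intro h
    have : η * (x1 - x) = 0 := by linarith
    rcases mul_eq_zero.1 this with h4 | h4
    · exact hη0.ne' h4
    · exact hne (by linarith)
  · intro z hz hzx hz'
    have h4 : z ∈ Metric.ball x δ := by
      rw [Metric.mem_ball, Real.dist_eq]
      refine lt_of_le_of_lt ?_ hη2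
      have h5 := Set.abs_sub_left_of_mem_uIcc hz'
      rw [add_sub_cancel_left, abs_mul, abs_of_pos hη0] at h5
      exact h5
    have h5 := hball h4
    apply h5
    simp [hzx, hz]

theorem realize_psi (ψ : ℝ → ℝ) (t0 : ℝ) (ht0 : 0 < t0) (a b : ℝ)
    (hcont : ContinuousOn ψ (Set.Icc 0 t0))
    (hmono : StrictMonoOn ψ (Set.Icc 0 t0) ∨ StrictAntiOn ψ (Set.Icc 0 t0))
    (himg : ψ '' Set.Icc 0 t0 = Set.Icc a b)
    (S : Set ℝ) (F : Set (Set ℝ)) (hF : F.Finite) (hFI : ∀ I ∈ F, I.OrdConnected ∧ I.Nontrivial)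
    (hS : S = ⋃₀ F) (hcl : closure ((fun s => |s|) '' S) = Set.Icc a b) :
    ∃ K : Set (ℝ × SignType), Realizes K ∧ (∀ k ∈ K, k.1 ∈ Set.Icc 0 t0 ∧ k.2 ≠ 0) ∧
      {s | ∃ k ∈ K, s = (k.2 : ℝ) * ψ k.1} = S := by
  classical
  have hinj : Set.InjOn ψ (Set.Icc 0 t0) := by
    rcases hmono with h | h
    · exact h.injOn
    · exact h.injOn
  have hfr : (frontier S).Finite := by
    rw [hS]; exact frontier_sUnion_finite hF (fun I hI => (hFI I hI).1)
  have hZ0fin : {x | x ∈ Set.Icc 0 t0 ∧ (ψ x ∈ frontier S ∨ -ψ x ∈ frontier S)}.Finite := by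
    refine Set.Finite.of_finite_image (f := ψ) (Set.Finite.subset
      (hfr.union (hfr.image (fun x => -x))) ?_) (hinj.mono (fun x hx => hx.1))
    rintro _ ⟨x, ⟨hx, hx' | hx'⟩, rfl⟩
    · exact Or.inl hx'
    · exact Or.inr ⟨-ψ x, hx', by simp⟩
  set Z : Finset ℝ := insert 0 (insert t0 hZ0fin.toFinset) with hZdef
  have hZmem : ∀ x, x ∈ Z ↔ x = 0 ∨ x = t0 ∨
      (x ∈ Set.Icc 0 t0 ∧ (ψ x ∈ frontier S ∨ -ψ x ∈ frontier S)) := by
    intro x
    rw [hZdef, Finset.mem_insert, Finset.mem_insert, Set.Finite.mem_toFinset]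
    rfl
  have hZI : ∀ z ∈ Z, 0 ≤ z ∧ z ≤ t0 := by
    intro z hz
    rcases (hZmem z).1 hz with rfl | rfl | h
    · exact ⟨le_rfl, ht0.le⟩
    · exact ⟨ht0.le, le_rfl⟩
    · exact h.1
  let T : Set (ℝ × SignType) := {k | k.1 ∈ Set.Icc 0 t0 ∧ k.2 ≠ 0 ∧ (k.2 : ℝ) * ψ k.1 ∈ S}
  have hsignfr : ∀ (σ : SignType) (x : ℝ), σ ≠ 0 → (σ : ℝ) * ψ x ∈ frontier S →
      (ψ x ∈ frontier S ∨ -ψ x ∈ frontier S) := by
    intro σ x hσ h
    rcases σ with _ | _ | _
    · exact absurd rfl hσ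
    · right; simpa using h
    · left; simpa using h
  have hloc : ∀ (x y : ℝ) (σ : SignType), x ∈ Set.Icc 0 t0 → y ∈ Set.Icc 0 t0 →
      (∀ z ∈ Z, z ∉ Set.uIcc x y) → (x, σ) ∈ T → (y, σ) ∈ T := by
    intro x y σ hx hy h hxT
    obtain ⟨-, hσ, hxS⟩ := hxT
    refine ⟨hy, hσ, ?_⟩
    by_contra hyS
    simp only at hxS hyS
    have hsub : Set.uIcc x y ⊆ Set.Icc 0 t0 := by
      intro w hw
      rw [Set.mem_uIcc] at hw
      rcases hw with h | h
      · exact ⟨hx.1.trans h.1, h.2.trans hy.2⟩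
      · exact ⟨hy.1.trans h.1, h.2.trans hx.2⟩
    have hpre : IsPreconnected ((fun w => (σ : ℝ) * ψ w) '' Set.uIcc x y) :=
      isPreconnected_uIcc.image _ (continuousOn_const.mul (hcont.mono hsub))
    have hne := isPreconnected_iff_subset_of_disjoint.1 hpre
    have hfrm : (((fun w => (σ : ℝ) * ψ w) '' Set.uIcc x y) ∩ frontier S).Nonempty := by
      by_contra hcon
      rw [Set.not_nonempty_iff_eq_empty] at hcon
      have hcov : ((fun w => (σ : ℝ) * ψ w) '' Set.uIcc x y) ⊆ interior S ∪ (closure S)ᶜ := by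
        intro w hw
        by_contra hw'
        simp only [Set.mem_union, Set.mem_compl_iff, not_or, not_not] at hw'
        have : w ∈ ((fun w => (σ : ℝ) * ψ w) '' Set.uIcc x y) ∩ frontier S :=
          ⟨hw, hw'.2, hw'.1⟩
        rw [hcon] at this
        exact this
      rcases hne (interior S) (closure S)ᶜ isOpen_interior isClosed_closure.isOpen_compl hcov
        (by
          rw [Set.eq_empty_iff_forall_notMem]
          rintro w ⟨_, hw1, hw2⟩
          exact hw2 (subset_closure (interior_subset hw1))) with h1 | h1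
      · exact hyS (interior_subset (h1 ⟨y, Set.right_mem_uIcc, rfl⟩))
      · exact h1 ⟨x, Set.left_mem_uIcc, rfl⟩ (subset_closure hxS)
    obtain ⟨_, ⟨w, hw, rfl⟩, hwf⟩ := hfrm
    exact h w ((hZmem w).2 (Or.inr (Or.inr ⟨hsub hw, hsignfr σ w hσ hwf⟩))) hw
  have hfull : ∀ x ∈ Set.Icc 0 t0, x ∉ Z →
      (x, (1 : SignType)) ∈ T ∨ (x, (-1 : SignType)) ∈ T := by
    intro x hx hxZ
    by_contra hcon
    rw [not_or] at hcon
    have h1 : ψ x ∉ S := by
      intro h; apply hcon.1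
      exact ⟨hx, (show (1 : SignType) ≠ 0 by decide), by simpa using h⟩
    have h2 : -ψ x ∉ S := by
      intro h; apply hcon.2
      exact ⟨hx, (show (-1 : SignType) ≠ 0 by decide), by simpa using h⟩
    have h3 : ψ x ∉ frontier S := fun h => hxZ ((hZmem x).2 (Or.inr (Or.inr ⟨hx, Or.inl h⟩)))
    have h4 : -ψ x ∉ frontier S := fun h => hxZ ((hZmem x).2 (Or.inr (Or.inr ⟨hx, Or.inr h⟩)))
    have h5 : ψ x ∉ closure S := by
      rw [closure_eq_self_union_frontier]; rintro (h | h)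
      · exact h1 h
      · exact h3 h
    have h6 : -ψ x ∉ closure S := by
      rw [closure_eq_self_union_frontier]; rintro (h | h)
      · exact h2 h
      · exact h4 h
    have h7 : ψ x ∈ closure ((fun s => |s|) '' S) := by
      rw [hcl, ← himg]; exact ⟨x, hx, rfl⟩
    obtain ⟨δ1, hδ1, hb1⟩ := Metric.isOpen_iff.1 isClosed_closure.isOpen_compl (ψ x) h5
    obtain ⟨δ2, hδ2, hb2⟩ := Metric.isOpen_iff.1 isClosed_closure.isOpen_compl (-ψ x) h6
    obtain ⟨_, ⟨s, hs, rfl⟩, hd⟩ := Metric.mem_closure_iff.1 h7 (min δ1 δ2) (lt_min hδ1 hδ2)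
    simp only [Real.dist_eq] at hd
    rcases abs_cases s with ⟨h8, _⟩ | ⟨h8, _⟩
    · rw [h8] at hd
      have : s ∈ Metric.ball (ψ x) δ1 := by
        rw [Metric.mem_ball, Real.dist_eq, abs_sub_comm]
        exact lt_of_lt_of_le hd (min_le_left _ _)
      exact hb1 this (subset_closure hs)
    · rw [h8] at hd
      have : s ∈ Metric.ball (-ψ x) δ2 := by
        rw [Metric.mem_ball, Real.dist_eq]
        have h9 : s - -ψ x = ψ x - -s := by ring
        rw [h9]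
        exact lt_of_lt_of_le hd (min_le_right _ _)
      exact hb2 this (subset_closure hs)
  have hT : ∀ k ∈ T, k.1 ∈ Set.Icc 0 t0 ∧ k.2 ≠ 0 := fun k hk => ⟨hk.1, hk.2.1⟩
  obtain ⟨K, hK, hKT, hK1, hK2⟩ := Realizes.all t0 ht0 Z hZI ((hZmem 0).2 (Or.inl rfl))
    ((hZmem t0).2 (Or.inr (Or.inl rfl))) T hT hloc hfull
  refine ⟨K, hK, fun k hk => hT k (hKT hk), ?_⟩
  apply Set.eq_of_subset_of_subset
  · rintro _ ⟨k, hk, rfl⟩
    exact (hKT hk).2.2
  · intro c hc
    have hc' := hc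
    rw [hS] at hc'
    obtain ⟨I, hIF, hcI⟩ := hc'
    obtain ⟨hIo, hIn⟩ := hFI I hIF
    have hIS : I ⊆ S := by rw [hS]; exact Set.subset_sUnion_of_mem hIF
    obtain ⟨c0, hc0I, hc0ne⟩ := hIn.exists_ne c
    -- adjust the second point
    obtain ⟨c1, σ, hc1I, hc1ne, hσ, hσc, hσc1⟩ : ∃ (c1 : ℝ) (σ : SignType), c1 ∈ I ∧ c1 ≠ c ∧
        σ ≠ 0 ∧ |c| = σ * c ∧ |c1| = σ * c1 := by
      rcases lt_trichotomy c 0 with hneg | h0 | hpos
      · by_cases h : c0 < 0
        · exact ⟨c0, -1, hc0I, hc0ne, by decide, by rw [abs_of_neg hneg]; simp,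
            by rw [abs_of_neg h]; simp⟩
        · push Not at h
          refine ⟨c / 2, -1, hIo.out hcI hc0I ⟨by linarith, by linarith⟩, by intro h; linarith,
            by decide, by rw [abs_of_neg hneg]; simp, by rw [abs_of_neg (by linarith)]; simp⟩
      · subst h0
        rcases lt_or_gt_of_ne hc0ne with h | h
        · exact ⟨c0, -1, hc0I, hc0ne, by decide, by simp, by rw [abs_of_neg h]; simp⟩
        · exact ⟨c0, 1, hc0I, hc0ne, by decide, by simp, by rw [abs_of_pos h]; simp⟩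
      · by_cases h : 0 < c0
        · exact ⟨c0, 1, hc0I, hc0ne, by decide, by rw [abs_of_pos hpos]; simp,
            by rw [abs_of_pos h]; simp⟩
        · push Not at h
          refine ⟨c / 2, 1, hIo.out hc0I hcI ⟨by linarith, by linarith⟩, by intro h; linarith,
            by decide, by rw [abs_of_pos hpos]; simp, by rw [abs_of_pos (by linarith)]; simp⟩
    have hσ2 : (σ : ℝ) * (σ : ℝ) = 1 := by
      have := sign_pos_or hσ
      rw [sq] at this; exact this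
    have hmem : ∀ s ∈ S, |s| ∈ ψ '' Set.Icc 0 t0 := by
      intro s hs
      rw [himg, ← hcl]
      exact subset_closure ⟨s, hs, rfl⟩
    obtain ⟨x, hx, hxc⟩ := hmem c hc
    obtain ⟨x1, hx1, hx1c⟩ := hmem c1 (hIS hc1I)
    have hxc' : (σ : ℝ) * ψ x = c := by rw [hxc, hσc, ← mul_assoc, hσ2, one_mul]
    have hx1c' : (σ : ℝ) * ψ x1 = c1 := by rw [hx1c, hσc1, ← mul_assoc, hσ2, one_mul]
    have hxx1 : x1 ≠ x := by
      intro h; apply hc1ne; rw [← hx1c', h, hxc']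
    have hseg : ∀ y ∈ Set.uIcc x x1, (y, σ) ∈ T := by
      intro y hy
      have hyI : y ∈ Set.Icc 0 t0 := by
        rw [Set.mem_uIcc] at hy
        rcases hy with h | h
        · exact ⟨hx.1.trans h.1, h.2.trans hx1.2⟩
        · exact ⟨hx1.1.trans h.1, h.2.trans hx.2⟩
      refine ⟨hyI, hσ, hIS ?_⟩
      have h1 : (σ : ℝ) * ψ y ∈ Set.uIcc c c1 := by
        have h2 : ψ y ∈ Set.uIcc (ψ x) (ψ x1) := by
          rw [Set.mem_uIcc] at hy ⊢
          rcases hmono with hm | hm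
          · rcases hy with h | h
            · left; exact ⟨hm.monotoneOn hx hyI h.1, hm.monotoneOn hyI hx1 h.2⟩
            · right; exact ⟨hm.monotoneOn hx1 hyI h.1, hm.monotoneOn hyI hx h.2⟩
          · rcases hy with h | h
            · right; exact ⟨hm.antitoneOn hyI hx1 h.2, hm.antitoneOn hx hyI h.1⟩
            · left; exact ⟨hm.antitoneOn hyI hx h.2, hm.antitoneOn hx1 hyI h.1⟩
        rw [← hxc', ← hx1c']
        rw [Set.mem_uIcc] at h2 ⊢
        rcases σ with _ | _ | _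
        · exact absurd rfl hσ
        · have e1 : ((SignType.neg : SignType) : ℝ) = -1 := by simp
          rw [e1]
          rcases h2 with h | h
          · right; constructor <;> linarith [h.1, h.2]
          · left; constructor <;> linarith [h.1, h.2]
        · have e1 : ((SignType.pos : SignType) : ℝ) = 1 := by simp
          rw [e1]
          rcases h2 with h | h
          · left; constructor <;> linarith [h.1, h.2]
          · right; constructor <;> linarith [h.1, h.2]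
      exact hIo.uIcc_subset hcI hc1I h1
    obtain ⟨ξ0, hξ0, hξ0x, hξ0Z⟩ := exists_near Z x x1 hxx1
    exact ⟨(x, σ), hK2 (x, σ) (hseg x Set.left_mem_uIcc) ξ0 (hseg ξ0 hξ0) hξ0x hξ0Z, hxc'.symm⟩

end Pool.Agent.Helper668.QI
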