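import Pool.Agent.Helper668.QE

set_option autoImplicit false
set_option linter.unusedVariables false

open Polynomial
open scoped Quaternion

namespace Pool.Agent.Helper668.QI

/-- the directions attained by `P` -/
def Dir (P : Om → ℍ[ℝ]) : Set ℝ := {s : ℝ | ∃ x, P x ≠ 0 ∧ s = (P x).re / ‖P x‖}

theorem norm_sq_aux (F G : ℝ) (x : Om) :
    ‖(F : ℍ[ℝ]) + (G : ℍ[ℝ]) * (x 0).im‖ ^ 2 = F ^ 2 + G ^ 2 * sn x ^ 2 := by
  rw [sq, ← Quaternion.normSq_eq_norm_mul_self, normSq_eq', sn_sq]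
  simp
  ring

theorem re_sq_aux (F G : ℝ) (x : Om) :
    (((F : ℍ[ℝ]) + (G : ℍ[ℝ]) * (x 0).im) * ((F : ℍ[ℝ]) + (G : ℍ[ℝ]) * (x 0).im)).re
      = F ^ 2 - G ^ 2 * sn x ^ 2 := by
  rw [sn_sq]
  simp
  ring

theorem re_v_sq_aux (F G : ℝ) (x : Om) :
    ((x 0).im * (((F : ℍ[ℝ]) + (G : ℍ[ℝ]) * (x 0).im) * ((F : ℍ[ℝ]) + (G : ℍ[ℝ]) * (x 0).im))).re
      = -(2 * F * G * sn x ^ 2) := by
  rw [sn_sq]
  simp
  ring

theorem sign_div_pos {H D : ℝ} (hD : 0 < D) : SignType.sign (H / D) = SignType.sign H := by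
  rcases lt_trichotomy H 0 with h | h | h
  · rw [sign_neg h, sign_neg (div_neg_of_neg_of_pos h hD)]
  · rw [h, zero_div]
  · rw [sign_pos h, sign_pos (div_pos h hD)]

theorem div_abs_eq_sign {H : ℝ} (hH : H ≠ 0) : H / |H| = ((SignType.sign H : SignType) : ℝ) := by
  rcases lt_or_gt_of_ne hH with h | h
  · rw [abs_of_neg h, sign_neg h]
    rw [div_neg, div_self hH]; simp
  · rw [abs_of_pos h, sign_pos h, div_self hH]; simp

theorem Realizes.cos {K : Set (ℝ × SignType)} (hK : Realizes K) :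
    ∃ P : Om → ℍ[ℝ], TR P ∧
      Dir P = {s | ∃ k ∈ K, s = (k.2 : ℝ) * ((1 - k.1 ^ 2) / (1 + k.1 ^ 2))} := by
  obtain ⟨g, h, ⟨G, F, hG, hF, hF0, hgeq⟩, ⟨H, D, hH, hD, hD0, hheq⟩, hg0, hh0, hKeq⟩ := hK
  have hq : TR (fun x => ((F x : ℝ) : ℍ[ℝ]) + ((G x : ℝ) : ℍ[ℝ]) * (x 0).im) := TR.add hF (TR.mul hG tr_im)
  refine ⟨fun x => ((H x : ℝ) : ℍ[ℝ]) *
    ((((F x : ℝ) : ℍ[ℝ]) + ((G x : ℝ) : ℍ[ℝ]) * (x 0).im) *
      (((F x : ℝ) : ℍ[ℝ]) + ((G x : ℝ) : ℍ[ℝ]) * (x 0).im)), TR.mul hH (TR.mul hq hq), ?_⟩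
  have hpos : ∀ x, 0 < F x ^ 2 + G x ^ 2 * sn x ^ 2 := by
    intro x
    have := hF0 x
    positivity
  have hnorm : ∀ x, ‖((H x : ℝ) : ℍ[ℝ]) *
    ((((F x : ℝ) : ℍ[ℝ]) + ((G x : ℝ) : ℍ[ℝ]) * (x 0).im) *
      (((F x : ℝ) : ℍ[ℝ]) + ((G x : ℝ) : ℍ[ℝ]) * (x 0).im))‖
      = |H x| * (F x ^ 2 + G x ^ 2 * sn x ^ 2) := by
    intro x
    rw [norm_mul, norm_mul, ← sq, norm_sq_aux, Quaternion.norm_coe, Real.norm_eq_abs]
  have hre : ∀ x, (((H x : ℝ) : ℍ[ℝ]) *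
    ((((F x : ℝ) : ℍ[ℝ]) + ((G x : ℝ) : ℍ[ℝ]) * (x 0).im) *
      (((F x : ℝ) : ℍ[ℝ]) + ((G x : ℝ) : ℍ[ℝ]) * (x 0).im))).re
      = H x * (F x ^ 2 - G x ^ 2 * sn x ^ 2) := by
    intro x
    rw [Quaternion.coe_mul_eq_smul, Quaternion.re_smul, re_sq_aux, smul_eq_mul]
  have hratio : ∀ x, H x ≠ 0 → H x * (F x ^ 2 - G x ^ 2 * sn x ^ 2) /
      (|H x| * (F x ^ 2 + G x ^ 2 * sn x ^ 2)) =
      ((SignType.sign (h x) : SignType) : ℝ) *
        ((1 - (sn x * g x) ^ 2) / (1 + (sn x * g x) ^ 2)) := by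
    intro x hx
    rw [mul_div_mul_comm, div_abs_eq_sign hx, hheq x, sign_div_pos (hD0 x), hgeq x]
    congr 1
    have h1 := (hF0 x).ne'
    have h2 := (hpos x).ne'
    have h3 : (1 + (sn x * (G x / F x)) ^ 2) ≠ 0 := by positivity
    field_simp
  have hne : ∀ x, h x ≠ 0 ↔ H x ≠ 0 := by
    intro x
    rw [hheq x, ne_eq, div_eq_zero_iff]
    have := (hD0 x).ne'
    tauto
  have hPne : ∀ x, ((H x : ℝ) : ℍ[ℝ]) *
    ((((F x : ℝ) : ℍ[ℝ]) + ((G x : ℝ) : ℍ[ℝ]) * (x 0).im) *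
      (((F x : ℝ) : ℍ[ℝ]) + ((G x : ℝ) : ℍ[ℝ]) * (x 0).im)) ≠ 0 ↔ H x ≠ 0 := by
    intro x
    rw [← norm_ne_zero_iff, hnorm, mul_ne_zero_iff, abs_ne_zero]
    exact ⟨fun h => h.1, fun h => ⟨h, (hpos x).ne'⟩⟩
  apply Set.eq_of_subset_of_subset
  · rintro _ ⟨x, hx, rfl⟩
    simp only at hx ⊢
    have hHx := (hPne x).1 hx
    refine ⟨(sn x * g x, SignType.sign (h x)), ?_, ?_⟩
    · rw [hKeq]; exact ⟨x, (hne x).2 hHx, rfl⟩
    · rw [hnorm, hre]; exact hratio x hHx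
  · rintro _ ⟨k, hk, rfl⟩
    rw [hKeq] at hk
    obtain ⟨x, hx, rfl⟩ := hk
    have hHx := (hne x).1 hx
    refine ⟨x, (hPne x).2 hHx, ?_⟩
    simp only
    rw [hnorm, hre]; exact (hratio x hHx).symm

theorem Realizes.sin {K : Set (ℝ × SignType)} (hK : Realizes K) :
    ∃ P : Om → ℍ[ℝ], TR P ∧
      Dir P = {s | ∃ k ∈ K, s = (k.2 : ℝ) * (2 * k.1 / (1 + k.1 ^ 2))} := by
  obtain ⟨g, h, ⟨G, F, hG, hF, hF0, hgeq⟩, ⟨H, D, hH, hD, hD0, hheq⟩, hg0, hh0, hKeq⟩ := hK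
  have hq : TR (fun x => ((F x : ℝ) : ℍ[ℝ]) + ((G x : ℝ) : ℍ[ℝ]) * (x 0).im) := TR.add hF (TR.mul hG tr_im)
  have hH' : PR (fun x => -1 * H x) := (PR.const (-1)).mul hH
  refine ⟨fun x => (((-1 * H x : ℝ)) : ℍ[ℝ]) * ((x 0).im *
    ((((F x : ℝ) : ℍ[ℝ]) + ((G x : ℝ) : ℍ[ℝ]) * (x 0).im) *
      (((F x : ℝ) : ℍ[ℝ]) + ((G x : ℝ) : ℍ[ℝ]) * (x 0).im))), TR.mul hH' (TR.mul tr_im (TR.mul hq hq)), ?_⟩
  have hpos : ∀ x, 0 < F x ^ 2 + G x ^ 2 * sn x ^ 2 := by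
    intro x
    have := hF0 x
    positivity
  have hnorm : ∀ x, ‖(((-1 * H x : ℝ)) : ℍ[ℝ]) * ((x 0).im *
    ((((F x : ℝ) : ℍ[ℝ]) + ((G x : ℝ) : ℍ[ℝ]) * (x 0).im) *
      (((F x : ℝ) : ℍ[ℝ]) + ((G x : ℝ) : ℍ[ℝ]) * (x 0).im)))‖
      = |H x| * (sn x * (F x ^ 2 + G x ^ 2 * sn x ^ 2)) := by
    intro x
    rw [norm_mul, norm_mul, norm_mul, ← sq, norm_sq_aux, Quaternion.norm_coe, Real.norm_eq_abs,
      neg_one_mul, abs_neg]
    rfl
  have hre : ∀ x, ((((-1 * H x : ℝ)) : ℍ[ℝ]) * ((x 0).im *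
    ((((F x : ℝ) : ℍ[ℝ]) + ((G x : ℝ) : ℍ[ℝ]) * (x 0).im) *
      (((F x : ℝ) : ℍ[ℝ]) + ((G x : ℝ) : ℍ[ℝ]) * (x 0).im)))).re
      = H x * (sn x * (2 * F x * G x * sn x)) := by
    intro x
    rw [Quaternion.coe_mul_eq_smul, Quaternion.re_smul, re_v_sq_aux, smul_eq_mul]
    ring
  have hratio : ∀ x, H x ≠ 0 → sn x ≠ 0 → H x * (sn x * (2 * F x * G x * sn x)) /
      (|H x| * (sn x * (F x ^ 2 + G x ^ 2 * sn x ^ 2))) =
      ((SignType.sign (h x) : SignType) : ℝ) *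
        (2 * (sn x * g x) / (1 + (sn x * g x) ^ 2)) := by
    intro x hx hs
    rw [mul_div_mul_comm, div_abs_eq_sign hx, hheq x, sign_div_pos (hD0 x), hgeq x,
      mul_div_mul_left _ _ hs]
    congr 1
    have h1 := (hF0 x).ne'
    have h2 := (hpos x).ne'
    have h3 : (1 + (sn x * (G x / F x)) ^ 2) ≠ 0 := by positivity
    field_simp
  have hne : ∀ x, h x ≠ 0 ↔ H x ≠ 0 := by
    intro x
    rw [hheq x, ne_eq, div_eq_zero_iff]
    have := (hD0 x).ne'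
    tauto
  have hPne : ∀ x, (((-1 * H x : ℝ)) : ℍ[ℝ]) * ((x 0).im *
    ((((F x : ℝ) : ℍ[ℝ]) + ((G x : ℝ) : ℍ[ℝ]) * (x 0).im) *
      (((F x : ℝ) : ℍ[ℝ]) + ((G x : ℝ) : ℍ[ℝ]) * (x 0).im))) ≠ 0 ↔ H x ≠ 0 := by
    intro x
    rw [← norm_ne_zero_iff, hnorm, mul_ne_zero_iff, mul_ne_zero_iff, abs_ne_zero]
    refine ⟨fun h => h.1, fun h' => ⟨h', ?_, (hpos x).ne'⟩⟩
    intro hs
    exact (hne x).2 h' (hh0 x hs)
  apply Set.eq_of_subset_of_subset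
  · rintro _ ⟨x, hx, rfl⟩
    simp only at hx ⊢
    have hHx := (hPne x).1 hx
    refine ⟨(sn x * g x, SignType.sign (h x)), ?_, ?_⟩
    · rw [hKeq]; exact ⟨x, (hne x).2 hHx, rfl⟩
    · rw [hnorm, hre]; exact hratio x hHx (fun hs => (hne x).2 hHx (hh0 x hs))
  · rintro _ ⟨k, hk, rfl⟩
    rw [hKeq] at hk
    obtain ⟨x, hx, rfl⟩ := hk
    have hHx := (hne x).1 hx
    refine ⟨x, (hPne x).2 hHx, ?_⟩
    simp only
    rw [hnorm, hre]; exact (hratio x hHx (fun hs => hx (hh0 x hs))).symm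

/-- **Realization theorem.** -/
theorem realization (S : Set ℝ) (hS1 : S ⊆ Set.Icc (-1) 1) (hSne : S.Nonempty)
    (F : Set (Set ℝ)) (hF : F.Finite) (hFI : ∀ I ∈ F, I.OrdConnected ∧ I.Nontrivial)
    (hS : S = ⋃₀ F) (a b : ℝ) (hcl : closure ((fun s => |s|) '' S) = Set.Icc a b)
    (hab : a = 0 ∨ b = 1) : ∃ P : Om → ℍ[ℝ], TR P ∧ Dir P = S := by
  have hcl01 : Set.Icc a b ⊆ Set.Icc 0 1 := by
    rw [← hcl]
    apply closure_minimal _ isClosed_Icc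
    rintro _ ⟨s, hs, rfl⟩
    exact ⟨abs_nonneg s, abs_le.2 ⟨(hS1 hs).1, (hS1 hs).2⟩⟩
  have hmem : ∀ s ∈ S, |s| ∈ Set.Icc a b := fun s hs => hcl ▸ subset_closure ⟨s, hs, rfl⟩
  have hlt : a < b := by
    obtain ⟨c, hc⟩ := hSne
    have hc' := hc
    rw [hS] at hc'
    obtain ⟨I, hIF, hcI⟩ := hc'
    obtain ⟨hIo, hIn⟩ := hFI I hIF
    have hIS : I ⊆ S := by rw [hS]; exact Set.subset_sUnion_of_mem hIF
    obtain ⟨c0, hc0I, hc0ne⟩ := hIn.exists_ne c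
    by_contra hcon
    push Not at hcon
    have hle : ∀ s ∈ S, |s| = a := by
      intro s hs
      have := hmem s hs
      exact le_antisymm (this.2.trans hcon) this.1
    have h1 := hle c hc
    have h2 := hle c0 (hIS hc0I)
    have h3 : c0 = -c := by
      rcases abs_eq_abs.1 (h2.trans h1.symm) with h | h
      · exact absurd h hc0ne
      · exact h
    have h4 : (0 : ℝ) ∈ I := by
      rcases le_total c 0 with h | h
      · exact hIo.out hcI hc0I ⟨h, by rw [h3]; linarith⟩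
      · exact hIo.out hc0I hcI ⟨by rw [h3]; linarith, h⟩
    have h5 := hle 0 (hIS h4)
    rw [abs_zero] at h5
    rw [← h5, abs_eq_zero] at h1
    rw [h1, neg_zero] at h3
    exact hc0ne (h3.trans h1.symm)
  have ha0 : 0 ≤ a := (hcl01 ⟨le_rfl, hlt.le⟩).1
  have hb1 : b ≤ 1 := (hcl01 ⟨hlt.le, le_rfl⟩).2
  rcases hab with rfl | rfl
  · -- sine case
    obtain ⟨t0, ht00, ht01, ht0⟩ := exists_two_mul_div b hlt.le hb1
    have ht0pos : 0 < t0 := by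
      rcases ht00.eq_or_lt with h | h
      · subst h; norm_num at ht0; linarith
      · exact h
    have hmono : StrictMonoOn (fun x : ℝ => 2 * x / (1 + x ^ 2)) (Set.Icc 0 t0) := by
      intro x hx y hy hxy
      simp only
      rw [div_lt_div_iff₀ (by positivity) (by positivity)]
      have h1 : x * y < 1 := by nlinarith [hx.1, hx.2, hy.1, hy.2]
      nlinarith [mul_pos (sub_pos.2 hxy) (sub_pos.2 h1)]
    have hcont : ContinuousOn (fun x : ℝ => 2 * x / (1 + x ^ 2)) (Set.Icc 0 t0) := by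
      apply ContinuousOn.div
      · fun_prop
      · fun_prop
      · intro x _; positivity
    obtain ⟨K, hK, -, hKS⟩ := realize_psi (fun x : ℝ => 2 * x / (1 + x ^ 2)) t0 ht0pos 0 b
      hcont (Or.inl hmono) (by
        apply Set.eq_of_subset_of_subset
        · rintro _ ⟨x, hx, rfl⟩
          have h1 := hmono.monotoneOn ⟨le_rfl, ht00⟩ hx hx.1
          have h2 := hmono.monotoneOn hx ⟨ht00, le_rfl⟩ hx.2
          rw [ht0] at h2
          norm_num at h1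
          exact ⟨by linarith, h2⟩
        · have := intermediate_value_Icc ht00 hcont
          rw [ht0] at this
          norm_num at this
          exact this) S F hF hFI hS hcl
    obtain ⟨P, hP, hPD⟩ := hK.sin
    exact ⟨P, hP, by rw [hPD]; exact hKS⟩
  · -- cosine case
    set t0 := Real.sqrt ((1 - a) / (1 + a)) with ht0def
    have h1a : 0 < (1 - a) / (1 + a) := div_pos (by linarith) (by linarith)
    have ht0pos : 0 < t0 := Real.sqrt_pos.2 h1a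
    have ht0sq : t0 ^ 2 = (1 - a) / (1 + a) := Real.sq_sqrt h1a.le
    have ht0 : (1 - t0 ^ 2) / (1 + t0 ^ 2) = a := by
      rw [ht0sq]
      have : 1 + a ≠ 0 := by linarith
      field_simp
      ring
    have hanti : StrictAntiOn (fun x : ℝ => (1 - x ^ 2) / (1 + x ^ 2)) (Set.Icc 0 t0) := by
      intro x hx y hy hxy
      simp only
      rw [div_lt_div_iff₀ (by positivity) (by positivity)]
      nlinarith [hx.1, hy.1]
    have hcont : ContinuousOn (fun x : ℝ => (1 - x ^ 2) / (1 + x ^ 2)) (Set.Icc 0 t0) := by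
      apply ContinuousOn.div
      · fun_prop
      · fun_prop
      · intro x _; positivity
    obtain ⟨K, hK, -, hKS⟩ := realize_psi (fun x : ℝ => (1 - x ^ 2) / (1 + x ^ 2)) t0 ht0pos a 1
      hcont (Or.inr hanti) (by
        apply Set.eq_of_subset_of_subset
        · rintro _ ⟨x, hx, rfl⟩
          have h1 := hanti.antitoneOn ⟨le_rfl, ht0pos.le⟩ hx hx.1
          have h2 := hanti.antitoneOn hx ⟨ht0pos.le, le_rfl⟩ hx.2
          rw [ht0] at h2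
          norm_num at h1
          exact ⟨h2, by linarith⟩
        · have := intermediate_value_Icc' ht0pos.le hcont
          rw [ht0] at this
          norm_num at this
          exact this) S F hF hFI hS hcl
    obtain ⟨P, hP, hPD⟩ := hK.cos
    exact ⟨P, hP, by rw [hPD]; exact hKS⟩

/-- the degenerate images -/
theorem realization_short (X : Set ℍ[ℝ])
    (hX : X = {0} ∨ X = Set.range (fun r : ℝ => (r : ℍ[ℝ])) ∨
      X = (fun r : ℝ => (r : ℍ[ℝ])) '' Set.Ici 0 ∨ X = (fun r : ℝ => (r : ℍ[ℝ])) '' Set.Iic 0 ∨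
      X = {q | q.re = 0}) :
    ∃ P : Om → ℍ[ℝ], TR P ∧ {q | ∃ (c : ℝ) (x : Om), 0 ≤ c ∧ q = c • P x} = X := by
  rcases hX with rfl | rfl | rfl | rfl | rfl
  · refine ⟨_, TR.const 0, ?_⟩
    ext q
    simp only [Set.mem_ofPred_eq, Set.mem_singleton_iff]
    constructor
    · rintro ⟨c, x, hc, rfl⟩; simp
    · rintro rfl; exact ⟨0, fun _ => 0, le_rfl, by simp⟩
  · refine ⟨_, TR.re (TR.var 0), ?_⟩
    ext q
    simp only [Set.mem_ofPred_eq, Set.mem_range]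
    constructor
    · rintro ⟨c, x, hc, rfl⟩; exact ⟨c * (x 0).re, by ext <;> simp⟩
    · rintro ⟨r, rfl⟩; exact ⟨1, fun _ => (r : ℍ[ℝ]), zero_le_one, by simp⟩
  · refine ⟨_, TR.const 1, ?_⟩
    ext q
    simp only [Set.mem_ofPred_eq, Set.mem_image, Set.mem_Ici]
    constructor
    · rintro ⟨c, x, hc, rfl⟩; exact ⟨c, hc, by ext <;> simp⟩
    · rintro ⟨r, hr, rfl⟩; exact ⟨r, fun _ => 0, hr, by ext <;> simp⟩
  · refine ⟨_, TR.const (-1), ?_⟩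
    ext q
    simp only [Set.mem_ofPred_eq, Set.mem_image, Set.mem_Iic]
    constructor
    · rintro ⟨c, x, hc, rfl⟩; exact ⟨-c, by linarith, by ext <;> simp⟩
    · rintro ⟨r, hr, rfl⟩; exact ⟨-r, fun _ => 0, by linarith, by ext <;> simp⟩
  · refine ⟨_, tr_im, ?_⟩
    ext q
    simp only [Set.mem_ofPred_eq]
    constructor
    · rintro ⟨c, x, hc, rfl⟩; simp
    · intro hq; exact ⟨1, fun _ => q, zero_le_one, by ext <;> simp [hq]⟩

end Pool.Agent.Helper668.QI
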