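import Mathlib

set_option autoImplicit false
set_option linter.unusedVariables false

open Polynomial

namespace Pool.Agent.Helper668.TS

/-! ### order isomorphisms of the line -/

theorem exists_move (a c d : ℝ) (hac : a < c) (had : a < d) :
    ∃ θ : ℝ ≃o ℝ, θ c = d ∧ ∀ x ≤ a, θ x = x := by
  set k := (d - a) / (c - a) with hk
  have hca : 0 < c - a := by linarith
  have hk0 : 0 < k := div_pos (by linarith) hca
  let f : ℝ → ℝ := fun x => min x a + k * max (x - a) 0
  let g : ℝ → ℝ := fun x => min x a + k⁻¹ * max (x - a) 0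
  have f1 : ∀ x, x ≤ a → f x = x := by
    intro x hx
    simp only [f]
    rw [min_eq_left hx, max_eq_right (by linarith)]; ring
  have f2 : ∀ x, a ≤ x → f x = a + k * (x - a) := by
    intro x hx
    simp only [f]
    rw [min_eq_right hx, max_eq_left (by linarith)]
  have g1 : ∀ x, x ≤ a → g x = x := by
    intro x hx
    simp only [g]
    rw [min_eq_left hx, max_eq_right (by linarith)]; ring
  have g2 : ∀ x, a ≤ x → g x = a + k⁻¹ * (x - a) := by
    intro x hx
    simp only [g]
    rw [min_eq_right hx, max_eq_left (by linarith)]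
  have hmono : StrictMono f := by
    intro x y hxy
    rcases le_total y a with hy | hy
    · rw [f1 x (hxy.le.trans hy), f1 y hy]; exact hxy
    · rcases le_total x a with hx | hx
      · rw [f1 x hx, f2 y hy]
        rcases hx.lt_or_eq with hx' | hx'
        · nlinarith [mul_nonneg hk0.le (sub_nonneg.2 hy)]
        · subst hx'
          have : 0 < k * (y - x) := mul_pos hk0 (by linarith)
          linarith
      · rw [f2 x hx, f2 y hy]
        have : k * (x - a) < k * (y - a) := mul_lt_mul_of_pos_left (by linarith) hk0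
        linarith
  have hinv : Function.RightInverse g f := by
    intro y
    rcases le_total y a with hy | hy
    · rw [g1 y hy, f1 y hy]
    · have h1 : a ≤ g y := by
        rw [g2 y hy]
        have : 0 ≤ k⁻¹ * (y - a) := mul_nonneg (inv_nonneg.2 hk0.le) (by linarith)
        linarith
      rw [f2 _ h1, g2 y hy]
      field_simp
      ring
  refine ⟨hmono.orderIsoOfRightInverse f g hinv, ?_, ?_⟩
  · change f c = d
    rw [f2 c hac.le, hk]
    field_simp
    ring
  · intro x hx
    exact f1 x hx

theorem exists_extend (T : Finset ℝ) : ∀ g : ℝ → ℝ, StrictMonoOn g T →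
    ∃ ψ : ℝ ≃o ℝ, ∀ x ∈ T, ψ x = g x := by
  induction T using Finset.induction_on_max with
  | empty => intro g _; exact ⟨OrderIso.refl ℝ, by simp⟩
  | insert c T hc ih =>
    intro g hg
    obtain ⟨ψ, hψ⟩ := ih g (hg.mono (by simp))
    have h1 : ∀ x ∈ T, ψ x < ψ c := fun x hx => ψ.strictMono (hc x hx)
    have h2 : ∀ x ∈ T, ψ x < g c := by
      intro x hx
      rw [hψ x hx]
      exact hg (by simp [hx]) (by simp) (hc x hx)
    obtain ⟨a, ha1, ha2, ha3⟩ : ∃ a, (∀ x ∈ T, ψ x ≤ a) ∧ a < ψ c ∧ a < g c := by
      rcases T.eq_empty_or_nonempty with rfl | hne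
      · refine ⟨min (ψ c) (g c) - 1, by simp, ?_, ?_⟩
        · have := min_le_left (ψ c) (g c); linarith
        · have := min_le_right (ψ c) (g c); linarith
      · refine ⟨(T.image ψ).max' (hne.image _), ?_, ?_, ?_⟩
        · intro x hx
          exact Finset.le_max' _ _ (Finset.mem_image_of_mem _ hx)
        · rw [Finset.max'_lt_iff]
          intro y hy
          obtain ⟨x, hx, rfl⟩ := Finset.mem_image.1 hy
          exact h1 x hx
        · rw [Finset.max'_lt_iff]
          intro y hy
          obtain ⟨x, hx, rfl⟩ := Finset.mem_image.1 hy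
          exact h2 x hx
    obtain ⟨θ, hθ1, hθ2⟩ := exists_move a (ψ c) (g c) ha2 ha3
    refine ⟨ψ.trans θ, ?_⟩
    intro x hx
    rw [Finset.mem_insert] at hx
    rcases hx with rfl | hx
    · exact hθ1
    · rw [OrderIso.trans_apply, hθ2 _ (ha1 x hx), hψ x hx]



/-! ### sign lemmas for real polynomials -/

open SignType in
theorem sign_eq_of_no_root {f : ℝ[X]} {a b : ℝ}
    (h : ∀ x, a ≤ x → x ≤ b → f.eval x ≠ 0) (hab : a ≤ b) :
    SignType.sign (f.eval a) = SignType.sign (f.eval b) := by
  have hc : ContinuousOn (fun x => f.eval x) (Set.Icc a b) := f.continuous.continuousOn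
  rcases lt_trichotomy (f.eval a) 0 with ha | ha | ha
  · rcases lt_trichotomy (f.eval b) 0 with hb | hb | hb
    · rw [sign_neg ha, sign_neg hb]
    · exact absurd hb (h b hab le_rfl)
    · obtain ⟨x, hx, hx0⟩ := intermediate_value_Icc hab hc ⟨ha.le, hb.le⟩
      exact absurd hx0 (h x hx.1 hx.2)
  · exact absurd ha (h a le_rfl hab)
  · rcases lt_trichotomy (f.eval b) 0 with hb | hb | hb
    · obtain ⟨x, hx, hx0⟩ := intermediate_value_Icc' hab hc ⟨hb.le, ha.le⟩
      exact absurd hx0 (h x hx.1 hx.2)
    · exact absurd hb (h b hab le_rfl)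
    · rw [sign_pos ha, sign_pos hb]

theorem sign_eq_of_no_root' {f : ℝ[X]} {a b : ℝ}
    (h : ∀ x, x ∈ Set.uIcc a b → f.eval x ≠ 0) :
    SignType.sign (f.eval a) = SignType.sign (f.eval b) := by
  rcases le_total a b with hab | hab
  · exact sign_eq_of_no_root (fun x h1 h2 => h x (by rw [Set.uIcc_of_le hab]; exact ⟨h1, h2⟩)) hab
  · exact (sign_eq_of_no_root
      (fun x h1 h2 => h x (by rw [Set.uIcc_of_ge hab]; exact ⟨h1, h2⟩)) hab).symm

/-- Lemma A. -/
theorem sign_of_agree {p q : ℝ[X]} {φ ψ : ℝ ≃o ℝ}
    (h : ∀ x, SignType.sign (p.eval x) = SignType.sign (q.eval (φ x)))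
    (hag : ∀ z, p.eval z = 0 → ψ z = φ z) (x : ℝ) :
    SignType.sign (p.eval x) = SignType.sign (q.eval (ψ x)) := by
  by_cases hx : p.eval x = 0
  · rw [hag x hx, h x]
  rw [h x]
  apply sign_eq_of_no_root'
  intro y hy hy0
  obtain ⟨z, rfl⟩ := φ.surjective y
  have hz : p.eval z = 0 := by
    have := h z
    rw [hy0, sign_zero, sign_eq_zero_iff] at this
    exact this
  have hz2 := hag z hz
  have hzx : z ≠ x := fun hh => hx (hh ▸ hz)
  rcases le_total (φ x) (ψ x) with hle | hle
  · rw [Set.uIcc_of_le hle] at hy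
    have h1 : x ≤ z := φ.le_iff_le.1 hy.1
    have h2 : ψ z ≤ ψ x := by rw [hz2]; exact hy.2
    have h3 : z ≤ x := ψ.le_iff_le.1 h2
    exact hzx (le_antisymm h3 h1)
  · rw [Set.uIcc_of_ge hle] at hy
    have h1 : z ≤ x := φ.le_iff_le.1 hy.2
    have h2 : ψ x ≤ ψ z := by rw [hz2]; exact hy.1
    have h3 : x ≤ z := ψ.le_iff_le.1 h2
    exact hzx (le_antisymm h1 h3)

theorem sign_lead {f : ℝ[X]} (hf : 0 < f.natDegree) {R : ℝ} (h : ∀ x, R ≤ x → f.eval x ≠ 0) :
    SignType.sign (f.eval R) = SignType.sign f.leadingCoeff := by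
  have hdeg : 0 < f.degree := natDegree_pos_iff_degree_pos.1 hf
  have h0 : f.leadingCoeff ≠ 0 := by
    rw [Ne, leadingCoeff_eq_zero]; rintro rfl; simp at hf
  rcases lt_or_gt_of_ne h0 with hl | hl
  · have ht := f.tendsto_atBot_of_leadingCoeff_nonpos hdeg hl.le
    obtain ⟨x, hx1, hx2⟩ := ((ht.eventually_lt_atBot 0).and (Filter.eventually_ge_atTop R)).exists
    rw [sign_eq_of_no_root (fun y h1 _ => h y h1) hx2, sign_neg hx1, sign_neg hl]
  · have ht := f.tendsto_atTop_of_leadingCoeff_nonneg hdeg hl.le
    obtain ⟨x, hx1, hx2⟩ := ((ht.eventually_gt_atTop 0).and (Filter.eventually_ge_atTop R)).exists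
    rw [sign_eq_of_no_root (fun y h1 _ => h y h1) hx2, sign_pos hx1, sign_pos hl]

theorem sign_lead_neg {f : ℝ[X]} (hf : 0 < f.natDegree) {R : ℝ}
    (h : ∀ x, x ≤ R → f.eval x ≠ 0) :
    SignType.sign (f.eval R) = SignType.sign ((-1) ^ f.natDegree * f.leadingCoeff) := by
  have h1 : (f.comp (-X)).natDegree = f.natDegree := by
    rw [natDegree_comp]; simp
  have h2 : (f.comp (-X)).leadingCoeff = (-1) ^ f.natDegree * f.leadingCoeff := by
    rw [leadingCoeff_comp (by simp)]
    simp [mul_comm]
  have h3 := sign_lead (f := f.comp (-X)) (by rw [h1]; exact hf) (R := -R) (by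
    intro x hx
    rw [eval_comp]
    simp only [eval_neg, eval_X]
    exact h _ (by linarith))
  rw [eval_comp, h2] at h3
  simpa using h3

/-- Claim E. -/
theorem exists_match {f g : ℝ[X]} {φ : ℝ ≃o ℝ} {T : Finset ℝ}
    (hT : ∀ z, f.derivative.eval z = 0 → z ∈ T)
    (hs : ∀ t ∈ T, SignType.sign (f.eval t) = SignType.sign (g.eval (φ t)))
    {c : ℝ} (hc : f.eval c = 0) (hcT : c ∉ T) (hlo : ∃ t ∈ T, t < c) (hhi : ∃ t ∈ T, c < t) :
    ∃ d, g.eval d = 0 ∧ ∀ t ∈ T, (t < c → φ t < d) ∧ (c < t → d < φ t) := by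
  classical
  set A := T.filter (fun t => t < c) with hA
  set B := T.filter (fun t => c < t) with hB
  have hAne : A.Nonempty := by
    obtain ⟨t, ht, htc⟩ := hlo; exact ⟨t, by simp [hA, ht, htc]⟩
  have hBne : B.Nonempty := by
    obtain ⟨t, ht, htc⟩ := hhi; exact ⟨t, by simp [hB, ht, htc]⟩
  set a := A.max' hAne with ha
  set b := B.min' hBne with hb
  have haA : a ∈ A := A.max'_mem hAne
  have hbB : b ∈ B := B.min'_mem hBne
  have haT : a ∈ T := (Finset.mem_filter.1 haA).1
  have hac : a < c := (Finset.mem_filter.1 haA).2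
  have hbT : b ∈ T := (Finset.mem_filter.1 hbB).1
  have hcb : c < b := (Finset.mem_filter.1 hbB).2
  have hmaxA : ∀ t ∈ T, t < c → t ≤ a := fun t ht htc => A.le_max' t (by simp [hA, ht, htc])
  have hminB : ∀ t ∈ T, c < t → b ≤ t := fun t ht htc => B.min'_le t (by simp [hB, ht, htc])
  have hder : ∀ x, a < x → x < b → f.derivative.eval x ≠ 0 := by
    intro x h1 h2 h3
    have hx := hT x h3
    rcases lt_trichotomy x c with h | h | h
    · exact absurd (hmaxA x hx h) (not_le.2 h1)
    · exact hcT (h ▸ hx)
    · exact absurd (hminB x hx h) (not_le.2 h2)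
  have hsign : ∀ x, a < x → x < b →
      SignType.sign (f.derivative.eval x) = SignType.sign (f.derivative.eval c) := by
    intro x h1 h2
    apply sign_eq_of_no_root'
    intro y hy
    rcases le_total x c with h | h
    · rw [Set.uIcc_of_le h] at hy
      exact hder y (h1.trans_le hy.1) (hy.2.trans_lt hcb)
    · rw [Set.uIcc_of_ge h] at hy
      exact hder y (hac.trans_le hy.1) (hy.2.trans_lt h2)
  have hcont : ContinuousOn (fun x => f.eval x) (Set.Icc a b) := f.continuous.continuousOn
  have hgcont : Continuous (fun x => g.eval x) := g.continuous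
  have hφ : φ a < φ b := φ.strictMono (hac.trans hcb)
  have key : ∃ d ∈ Set.Ioo (φ a) (φ b), g.eval d = 0 := by
    rcases lt_or_gt_of_ne (hder c hac hcb) with hneg | hpos
    · have hanti : StrictAntiOn (fun x => f.eval x) (Set.Icc a b) := by
        apply strictAntiOn_of_deriv_neg (convex_Icc a b) hcont
        intro x hx
        rw [interior_Icc] at hx
        rw [Polynomial.deriv]
        have := hsign x hx.1 hx.2
        rw [sign_neg hneg, sign_eq_neg_one_iff] at this
        exact this
      have h1 : 0 < f.eval a := by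
        have := hanti ⟨le_rfl, (hac.trans hcb).le⟩ ⟨hac.le, hcb.le⟩ hac
        simp only [hc] at this; exact this
      have h2 : f.eval b < 0 := by
        have := hanti ⟨hac.le, hcb.le⟩ ⟨(hac.trans hcb).le, le_rfl⟩ hcb
        simp only [hc] at this; exact this
      have h3 : 0 < g.eval (φ a) := by
        have := hs a haT
        rw [sign_pos h1] at this
        exact sign_eq_one_iff.1 this.symm
      have h4 : g.eval (φ b) < 0 := by
        have := hs b hbT
        rw [sign_neg h2] at this
        exact sign_eq_neg_one_iff.1 this.symm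
      obtain ⟨d, hd, hd0⟩ := intermediate_value_Ioo' hφ.le hgcont.continuousOn ⟨h4, h3⟩
      exact ⟨d, hd, hd0⟩
    · have hmono : StrictMonoOn (fun x => f.eval x) (Set.Icc a b) := by
        apply strictMonoOn_of_deriv_pos (convex_Icc a b) hcont
        intro x hx
        rw [interior_Icc] at hx
        rw [Polynomial.deriv]
        have := hsign x hx.1 hx.2
        rw [sign_pos hpos, sign_eq_one_iff] at this
        exact this
      have h1 : f.eval a < 0 := by
        have := hmono ⟨le_rfl, (hac.trans hcb).le⟩ ⟨hac.le, hcb.le⟩ hac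
        simp only [hc] at this; exact this
      have h2 : 0 < f.eval b := by
        have := hmono ⟨hac.le, hcb.le⟩ ⟨(hac.trans hcb).le, le_rfl⟩ hcb
        simp only [hc] at this; exact this
      have h3 : g.eval (φ a) < 0 := by
        have := hs a haT
        rw [sign_neg h1] at this
        exact sign_eq_neg_one_iff.1 this.symm
      have h4 : 0 < g.eval (φ b) := by
        have := hs b hbT
        rw [sign_pos h2] at this
        exact sign_eq_one_iff.1 this.symm
      obtain ⟨d, hd, hd0⟩ := intermediate_value_Ioo hφ.le hgcont.continuousOn ⟨h3, h4⟩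
      exact ⟨d, hd, hd0⟩
  obtain ⟨d, hd, hd0⟩ := key
  refine ⟨d, hd0, fun t ht => ⟨fun h => ?_, fun h => ?_⟩⟩
  · exact (φ.monotone (hmaxA t ht h)).trans_lt hd.1
  · exact hd.2.trans_le (φ.monotone (hminB t ht h))

/-- Rolle for polynomials. -/
theorem rolle {f : ℝ[X]} {a b : ℝ} (hab : a < b) (ha : f.eval a = 0) (hb : f.eval b = 0) :
    ∃ c, a < c ∧ c < b ∧ f.derivative.eval c = 0 := by
  obtain ⟨c, hc, hc0⟩ := exists_deriv_eq_zero hab f.continuous.continuousOn (ha.trans hb.symm)
  rw [Polynomial.deriv] at hc0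
  exact ⟨c, hc.1, hc.2, hc0⟩



theorem sim_step {ι : Type*} [Finite ι] (p q : ι → ℝ[X]) (f g : ℝ[X]) (φ : ℝ ≃o ℝ)
    (hp0 : ∀ i, p i ≠ 0)
    (hsgn : ∀ i x, SignType.sign ((p i).eval x) = SignType.sign ((q i).eval (φ x)))
    (hder : ∀ x, SignType.sign (f.derivative.eval x) = SignType.sign (g.derivative.eval (φ x)))
    (hdeg : f.natDegree = g.natDegree) (hpos : 0 < f.natDegree)
    (hlc : SignType.sign f.leadingCoeff = SignType.sign g.leadingCoeff)
    (hroot : ∀ i x, (p i).eval x = 0 → SignType.sign (f.eval x) = SignType.sign (g.eval (φ x)))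
    (hrootd : ∀ x, f.derivative.eval x = 0 →
      SignType.sign (f.eval x) = SignType.sign (g.eval (φ x))) :
    ∃ ψ : ℝ ≃o ℝ, (∀ i x, SignType.sign ((p i).eval x) = SignType.sign ((q i).eval (ψ x))) ∧
      ∀ x, SignType.sign (f.eval x) = SignType.sign (g.eval (ψ x)) := by
  classical
  have hgpos : 0 < g.natDegree := hdeg ▸ hpos
  have hf0 : f ≠ 0 := by rintro rfl; simp at hpos
  have hg0 : g ≠ 0 := by rintro rfl; simp at hgpos
  have hfd0 : f.derivative ≠ 0 := by
    intro h
    have := derivative_eq_zero.1 h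
    omega
  -- zero set
  have hfinp : ∀ i, {x : ℝ | (p i).eval x = 0}.Finite := by
    intro i
    refine ((p i).roots.toFinset.finite_toSet).subset ?_
    intro x hx
    simp only [Finset.mem_coe, Multiset.mem_toFinset]
    exact (mem_roots (hp0 i)).2 hx
  have hfinf' : {x : ℝ | f.derivative.eval x = 0}.Finite := by
    refine (f.derivative.roots.toFinset.finite_toSet).subset ?_
    intro x hx
    simp only [Finset.mem_coe, Multiset.mem_toFinset]
    exact (mem_roots hfd0).2 hx
  have hfinf : {x : ℝ | f.eval x = 0}.Finite := by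
    refine (f.roots.toFinset.finite_toSet).subset ?_
    intro x hx
    simp only [Finset.mem_coe, Multiset.mem_toFinset]
    exact (mem_roots hf0).2 hx
  have hfing : {x : ℝ | g.eval x = 0}.Finite := by
    refine (g.roots.toFinset.finite_toSet).subset ?_
    intro x hx
    simp only [Finset.mem_coe, Multiset.mem_toFinset]
    exact (mem_roots hg0).2 hx
  have hZfin : ({x : ℝ | ∃ i, (p i).eval x = 0} ∪ {x : ℝ | f.derivative.eval x = 0}).Finite := by
    refine Set.Finite.union ?_ hfinf'
    have : {x : ℝ | ∃ i, (p i).eval x = 0} = ⋃ i, {x : ℝ | (p i).eval x = 0} := by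
      ext x; simp
    rw [this]
    exact Set.finite_iUnion hfinp
  set Z : Finset ℝ := hZfin.toFinset with hZ
  have hZmem : ∀ x, x ∈ Z ↔ (∃ i, (p i).eval x = 0) ∨ f.derivative.eval x = 0 := by
    intro x; rw [hZ, Set.Finite.mem_toFinset]; rfl
  have hZs : ∀ z ∈ Z, SignType.sign (f.eval z) = SignType.sign (g.eval (φ z)) := by
    intro z hz
    rcases (hZmem z).1 hz with ⟨i, hi⟩ | h
    · exact hroot i z hi
    · exact hrootd z h
  -- bounds
  have hbound : ∀ S : Set ℝ, S.Finite → ∃ M : ℝ, 0 < M ∧ ∀ x ∈ S, |x| < M := by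
    intro S hS
    obtain ⟨M, hM⟩ := (hS.image (fun x => |x|)).bddAbove
    refine ⟨max M 0 + 1, by positivity, fun x hx => ?_⟩
    have := hM (Set.mem_image_of_mem _ hx)
    have h2 := le_max_left M 0
    linarith
  obtain ⟨R, hR0, hR⟩ := hbound ((Z : Set ℝ) ∪ {x | f.eval x = 0}) (Z.finite_toSet.union hfinf)
  obtain ⟨R', hR'0, hR'⟩ := hbound ((φ '' (Z : Set ℝ)) ∪ {x | g.eval x = 0})
    ((Z.finite_toSet.image φ).union hfing)
  have hRZ : ∀ z ∈ Z, -R < z ∧ z < R := fun z hz => abs_lt.1 (hR z (Or.inl hz))
  have hRf : ∀ z, f.eval z = 0 → -R < z ∧ z < R := fun z hz => abs_lt.1 (hR z (Or.inr hz))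
  have hRZ' : ∀ z ∈ Z, -R' < φ z ∧ φ z < R' :=
    fun z hz => abs_lt.1 (hR' _ (Or.inl ⟨z, hz, rfl⟩))
  have hRg : ∀ z, g.eval z = 0 → -R' < z ∧ z < R' := fun z hz => abs_lt.1 (hR' z (Or.inr hz))
  -- first modification
  set T : Finset ℝ := insert R (insert (-R) Z) with hT
  have hTmem : ∀ x, x ∈ T ↔ x = R ∨ x = -R ∨ x ∈ Z := by
    intro x; simp [hT]
  obtain ⟨φ₁, hφ₁⟩ := exists_extend T (fun x => if x = R then R' else if x = -R then -R' else φ x) (by
    intro x hx y hy hxy
    have hx' := (hTmem x).1 hx
    have hy' := (hTmem y).1 hy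
    beta_reduce
    rcases hx' with rfl | rfl | hxZ
    · exfalso
      rcases hy' with rfl | rfl | hyZ
      · exact lt_irrefl _ hxy
      · linarith
      · have := (hRZ y hyZ).2; linarith
    · rw [if_neg (by linarith), if_pos rfl]
      rcases hy' with rfl | rfl | hyZ
      · rw [if_pos rfl]; linarith
      · exact absurd hxy (lt_irrefl _)
      · rw [if_neg (hRZ y hyZ).2.ne, if_neg (hRZ y hyZ).1.ne']
        exact (hRZ' y hyZ).1
    · rw [if_neg (hRZ x hxZ).2.ne, if_neg (hRZ x hxZ).1.ne']
      rcases hy' with rfl | rfl | hyZ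
      · rw [if_pos rfl]; exact (hRZ' x hxZ).2
      · have := (hRZ x hxZ).1; linarith
      · rw [if_neg (hRZ y hyZ).2.ne, if_neg (hRZ y hyZ).1.ne']
        exact φ.strictMono hxy)
  have hφR : φ₁ R = R' := by
    rw [hφ₁ R ((hTmem R).2 (Or.inl rfl)), if_pos rfl]
  have hφnR : φ₁ (-R) = -R' := by
    rw [hφ₁ (-R) ((hTmem _).2 (Or.inr (Or.inl rfl))), if_neg (by linarith), if_pos rfl]
  have hφZ : ∀ z ∈ Z, φ₁ z = φ z := by
    intro z hz
    rw [hφ₁ z ((hTmem z).2 (Or.inr (Or.inr hz))), if_neg (hRZ z hz).2.ne,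
      if_neg (hRZ z hz).1.ne']
  have hsgn₁ : ∀ i x, SignType.sign ((p i).eval x) = SignType.sign ((q i).eval (φ₁ x)) :=
    fun i => sign_of_agree (hsgn i) (fun z hz => hφZ z ((hZmem z).2 (Or.inl ⟨i, hz⟩)))
  have hder₁ : ∀ x, SignType.sign (f.derivative.eval x) =
      SignType.sign (g.derivative.eval (φ₁ x)) :=
    sign_of_agree hder (fun z hz => hφZ z ((hZmem z).2 (Or.inr hz)))
  have hTs : ∀ t ∈ T, SignType.sign (f.eval t) = SignType.sign (g.eval (φ₁ t)) := by
    intro t ht
    rcases (hTmem t).1 ht with rfl | rfl | hz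
    · rw [hφR, sign_lead hpos (fun x hx h0 => by have := (hRf x h0).2; linarith),
        sign_lead hgpos (fun x hx h0 => by have := (hRg x h0).2; linarith), hlc]
    · rw [hφnR, sign_lead_neg hpos (fun x hx h0 => by have := (hRf x h0).1; linarith),
        sign_lead_neg hgpos (fun x hx h0 => by have := (hRg x h0).1; linarith), hdeg, sign_mul,
        sign_mul, hlc]
    · rw [hφZ t hz]; exact hZs t hz
  have hTd : ∀ z, f.derivative.eval z = 0 → z ∈ T :=
    fun z hz => (hTmem z).2 (Or.inr (Or.inr ((hZmem z).2 (Or.inr hz))))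
  have hRT : R ∈ T := (hTmem R).2 (Or.inl rfl)
  have hnRT : -R ∈ T := (hTmem _).2 (Or.inr (Or.inl rfl))
  -- matching of the zeros
  have hmatch : ∀ c, f.eval c = 0 → c ∉ T →
      ∃ d, g.eval d = 0 ∧ ∀ t ∈ T, (t < c → φ₁ t < d) ∧ (c < t → d < φ₁ t) :=
    fun c hc hcT => exists_match hTd hTs hc hcT ⟨-R, hnRT, (hRf c hc).1⟩ ⟨R, hRT, (hRf c hc).2⟩
  set G : ℝ → ℝ := fun x => if h : f.eval x = 0 ∧ x ∉ T then (hmatch x h.1 h.2).choose else φ₁ x
    with hG
  have hG1 : ∀ t ∈ T, G t = φ₁ t := by
    intro t ht
    simp only [hG]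
    rw [dif_neg]
    rintro ⟨_, h⟩; exact h ht
  have hG2 : ∀ c, f.eval c = 0 → c ∉ T →
      g.eval (G c) = 0 ∧ ∀ t ∈ T, (t < c → φ₁ t < G c) ∧ (c < t → G c < φ₁ t) := by
    intro c hc hcT
    have := (hmatch c hc hcT).choose_spec
    simp only [hG]
    rw [dif_pos ⟨hc, hcT⟩]
    exact this
  set T' : Finset ℝ := T ∪ hfinf.toFinset with hT'
  have hT'mem : ∀ x, x ∈ T' ↔ x ∈ T ∨ f.eval x = 0 := by
    intro x; simp [hT']
  obtain ⟨ψ, hψ⟩ := exists_extend T' G (by
    intro x hx y hy hxy
    have hx' := (hT'mem x).1 hx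
    have hy' := (hT'mem y).1 hy
    by_cases hxT : x ∈ T
    · rw [hG1 x hxT]
      by_cases hyT : y ∈ T
      · rw [hG1 y hyT]; exact φ₁.strictMono hxy
      · exact ((hG2 y (hy'.resolve_left hyT) hyT).2 x hxT).1 hxy
    · have hx0 := hx'.resolve_left hxT
      by_cases hyT : y ∈ T
      · rw [hG1 y hyT]; exact ((hG2 x hx0 hxT).2 y hyT).2 hxy
      · have hy0 := hy'.resolve_left hyT
        obtain ⟨z, hz1, hz2, hz3⟩ := rolle hxy hx0 hy0
        have hzT := hTd z hz3
        exact (((hG2 x hx0 hxT).2 z hzT).2 hz1).trans (((hG2 y hy0 hyT).2 z hzT).1 hz2))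
  have hψT : ∀ t ∈ T, ψ t = φ₁ t := fun t ht => by
    rw [hψ t ((hT'mem t).2 (Or.inl ht)), hG1 t ht]
  have hψf : ∀ c, f.eval c = 0 → g.eval (ψ c) = 0 := by
    intro c hc
    by_cases hcT : c ∈ T
    · rw [hψT c hcT]
      have := hTs c hcT
      rw [hc, sign_zero] at this
      exact sign_eq_zero_iff.1 this.symm
    · rw [hψ c ((hT'mem c).2 (Or.inr hc))]
      exact (hG2 c hc hcT).1
  -- every zero of g comes from a zero of f
  have hsurj : ∀ d, g.eval d = 0 → ∃ c, f.eval c = 0 ∧ ψ c = d := by
    intro d hd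
    by_cases hdT : ∃ t ∈ T, φ₁ t = d
    · obtain ⟨t, ht, rfl⟩ := hdT
      refine ⟨t, ?_, hψT t ht⟩
      have := hTs t ht
      rw [hd, sign_zero] at this
      exact sign_eq_zero_iff.1 this
    · push Not at hdT
      have hT2 : ∀ z, g.derivative.eval z = 0 → z ∈ T.image φ₁ := by
        intro z hz
        obtain ⟨w, rfl⟩ := φ₁.surjective z
        apply Finset.mem_image_of_mem
        apply hTd
        have := hder₁ w
        rw [hz, sign_zero] at this
        exact sign_eq_zero_iff.1 this
      have hs2 : ∀ t ∈ T.image φ₁, SignType.sign (g.eval t) =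
          SignType.sign (f.eval (φ₁.symm t)) := by
        intro t ht
        obtain ⟨w, hw, rfl⟩ := Finset.mem_image.1 ht
        rw [OrderIso.symm_apply_apply]
        exact (hTs w hw).symm
      obtain ⟨c, hc0, hc⟩ := exists_match (f := g) (g := f) (φ := φ₁.symm) (T := T.image φ₁)
        hT2 hs2 hd (by
          intro h
          obtain ⟨w, hw, hw2⟩ := Finset.mem_image.1 h
          exact hdT w hw hw2)
        ⟨φ₁ (-R), Finset.mem_image_of_mem _ hnRT, by rw [hφnR]; exact (hRg d hd).1⟩
        ⟨φ₁ R, Finset.mem_image_of_mem _ hRT, by rw [hφR]; exact (hRg d hd).2⟩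
      have hc' : ∀ t ∈ T, (φ₁ t < d → t < c) ∧ (d < φ₁ t → c < t) := by
        intro t ht
        have := hc (φ₁ t) (Finset.mem_image_of_mem _ ht)
        rwa [OrderIso.symm_apply_apply] at this
      have hcT : c ∉ T := by
        intro hcT
        have := hc' c hcT
        rcases lt_trichotomy (φ₁ c) d with h | h | h
        · exact lt_irrefl _ (this.1 h)
        · exact hdT c hcT h
        · exact lt_irrefl _ (this.2 h)
      refine ⟨c, hc0, ?_⟩
      rw [hψ c ((hT'mem c).2 (Or.inr hc0))]
      obtain ⟨e1, e2⟩ := hG2 c hc0 hcT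
      by_contra hne
      rcases lt_or_gt_of_ne hne with hlt | hlt
      · obtain ⟨y, hy1, hy2, hy3⟩ := rolle hlt e1 hd
        obtain ⟨z, hz, rfl⟩ := Finset.mem_image.1 (hT2 y hy3)
        have h1 : z < c := (hc' z hz).1 hy2
        have h2 : φ₁ z < G c := (e2 z hz).1 h1
        linarith
      · obtain ⟨y, hy1, hy2, hy3⟩ := rolle hlt hd e1
        obtain ⟨z, hz, rfl⟩ := Finset.mem_image.1 (hT2 y hy3)
        have h1 : c < z := (hc' z hz).2 hy1
        have h2 : G c < φ₁ z := (e2 z hz).2 h1
        linarith
  refine ⟨ψ, fun i => sign_of_agree (hsgn₁ i) (fun z hz => hψT z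
    ((hTmem z).2 (Or.inr (Or.inr ((hZmem z).2 (Or.inl ⟨i, hz⟩)))))), ?_⟩
  intro x
  by_cases hx : f.eval x = 0
  · rw [hx, hψf x hx]
  -- find a point of `T` not separated from `x` by a zero of `f`
  have ht : ∃ t ∈ T, ∀ y ∈ Set.uIcc x t, f.eval y ≠ 0 := by
    by_cases hU : ∃ c, f.eval c = 0 ∧ x < c
    · by_cases hL : ∃ c, f.eval c = 0 ∧ c < x
      · set U := hfinf.toFinset.filter (fun c => x < c) with hUdef
        set L := hfinf.toFinset.filter (fun c => c < x) with hLdef
        have hUne : U.Nonempty := by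
          obtain ⟨c, h1, h2⟩ := hU; exact ⟨c, by simp [hUdef, h1, h2]⟩
        have hLne : L.Nonempty := by
          obtain ⟨c, h1, h2⟩ := hL; exact ⟨c, by simp [hLdef, h1, h2]⟩
        have hu := U.min'_mem hUne
        have hl := L.max'_mem hLne
        simp only [hUdef, Finset.mem_filter, Set.Finite.mem_toFinset, Set.mem_ofPred_eq] at hu
        simp only [hLdef, Finset.mem_filter, Set.Finite.mem_toFinset, Set.mem_ofPred_eq] at hl
        obtain ⟨z, hz1, hz2, hz3⟩ := rolle (hl.2.trans hu.2) hl.1 hu.1
        refine ⟨z, hTd z hz3, ?_⟩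
        intro y hy hy0
        have hb : L.max' hLne < y ∧ y < U.min' hUne := by
          rcases le_total x z with h | h
          · rw [Set.uIcc_of_le h] at hy
            exact ⟨hl.2.trans_le hy.1, hy.2.trans_lt hz2⟩
          · rw [Set.uIcc_of_ge h] at hy
            exact ⟨hz1.trans_le hy.1, hy.2.trans_lt hu.2⟩
        rcases lt_trichotomy x y with h | h | h
        · have := U.min'_le y (by simp [hUdef, hy0, h])
          linarith [hb.2]
        · exact hx (h ▸ hy0)
        · have := L.le_max' y (by simp [hLdef, hy0, h])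
          linarith [hb.1]
      · push Not at hL
        refine ⟨-R, hnRT, ?_⟩
        intro y hy hy0
        rcases le_total x (-R) with h | h
        · rw [Set.uIcc_of_le h] at hy
          have := (hRf y hy0).1; linarith [hy.2]
        · rw [Set.uIcc_of_ge h] at hy
          have h2 := hL y hy0
          exact hx (le_antisymm h2 hy.2 ▸ hy0)
    · push Not at hU
      refine ⟨R, hRT, ?_⟩
      intro y hy hy0
      rcases le_total x R with h | h
      · rw [Set.uIcc_of_le h] at hy
        have h2 := hU y hy0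
        exact hx (le_antisymm hy.1 h2 ▸ hy0)
      · rw [Set.uIcc_of_ge h] at hy
        have := (hRf y hy0).2; linarith [hy.1]
  obtain ⟨t, htT, hty⟩ := ht
  rw [sign_eq_of_no_root' hty, hTs t htT, ← hψT t htT]
  symm
  apply sign_eq_of_no_root'
  intro y hy hy0
  obtain ⟨c, hc0, rfl⟩ := hsurj y hy0
  apply hty c _ hc0
  rcases le_total x t with h | h
  · rw [Set.uIcc_of_le h]
    rw [Set.uIcc_of_le (ψ.monotone h)] at hy
    exact ⟨ψ.le_iff_le.1 hy.1, ψ.le_iff_le.1 hy.2⟩
  · rw [Set.uIcc_of_ge h]
    rw [Set.uIcc_of_ge (ψ.monotone h)] at hy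
    exact ⟨ψ.le_iff_le.1 hy.1, ψ.le_iff_le.1 hy.2⟩



/-! ### pseudo-remainders -/

theorem prem {R : Type*} [CommRing R] (p : R[X]) (hp : 0 < p.natDegree) :
    ∀ (n : ℕ) (f : R[X]), f.natDegree < n → ∃ (k : ℕ) (u r : R[X]),
      C (p.leadingCoeff ^ (2 * k)) * f = p * u + r ∧ r.natDegree < p.natDegree := by
  intro n
  induction n with
  | zero => intro f hf; omega
  | succ n ih =>
    intro f hf
    rcases Nat.lt_or_ge f.natDegree p.natDegree with hlt | hge
    · exact ⟨0, 0, f, by simp, hlt⟩
    · set f1 : R[X] := C (p.leadingCoeff ^ 2) * f -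
        p * (C (p.leadingCoeff * f.leadingCoeff) * X ^ (f.natDegree - p.natDegree)) with hf1
      have hfpos : 0 < f.natDegree := lt_of_lt_of_le hp hge
      have hle : f1.natDegree ≤ f.natDegree := by
        rw [hf1]
        refine (natDegree_sub_le_of_le (m := f.natDegree) (n := f.natDegree) ?_ ?_).trans ?_
        · exact (natDegree_C_mul_le _ _)
        · refine (natDegree_mul_le).trans ?_
          have h1 : (C (p.leadingCoeff * f.leadingCoeff) *
            X ^ (f.natDegree - p.natDegree) : R[X]).natDegree ≤ f.natDegree - p.natDegree :=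
            natDegree_C_mul_X_pow_le _ _
          omega
        · simp
      have hcoeff : f1.coeff f.natDegree = 0 := by
        rw [hf1, coeff_sub, coeff_C_mul]
        have h2 : (p * (C (p.leadingCoeff * f.leadingCoeff) *
            X ^ (f.natDegree - p.natDegree))).coeff f.natDegree
            = p.leadingCoeff * (p.leadingCoeff * f.leadingCoeff) := by
          have h3 : p * (C (p.leadingCoeff * f.leadingCoeff) *
            X ^ (f.natDegree - p.natDegree)) = C (p.leadingCoeff * f.leadingCoeff) *
              (p * X ^ (f.natDegree - p.natDegree)) := by ring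
          rw [h3, coeff_C_mul]
          have h4 : f.natDegree = p.natDegree + (f.natDegree - p.natDegree) := by omega
          conv_lhs => rw [h4]
          rw [show p.natDegree + (f.natDegree - p.natDegree) - p.natDegree
            = f.natDegree - p.natDegree by omega, coeff_mul_X_pow]
          simp only [coeff_natDegree]
          ring
        rw [h2]
        simp only [coeff_natDegree]
        ring
      have hlt1 : f1.natDegree < f.natDegree := by
        rcases lt_or_eq_of_le hle with h | h
        · exact h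
        · exfalso
          have h5 : f1.leadingCoeff = 0 := by
            rw [leadingCoeff, h, hcoeff]
          rw [leadingCoeff_eq_zero] at h5
          rw [h5] at h
          simp at h
          omega
      obtain ⟨k, u, r, hk, hr⟩ := ih f1 (by omega)
      refine ⟨k + 1, u + C (p.leadingCoeff ^ (2 * k)) *
        (C (p.leadingCoeff * f.leadingCoeff) * X ^ (f.natDegree - p.natDegree)), r, ?_, hr⟩
      have h6 : C (p.leadingCoeff ^ (2 * (k + 1))) * f = C (p.leadingCoeff ^ (2 * k)) *
        (C (p.leadingCoeff ^ 2) * f) := by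
        rw [← mul_assoc, ← C_mul]; congr 2; ring
      have h7 : C (p.leadingCoeff ^ 2) * f = f1 +
        p * (C (p.leadingCoeff * f.leadingCoeff) * X ^ (f.natDegree - p.natDegree)) := by
        rw [hf1]; ring
      rw [h6, h7, mul_add, hk]
      ring

/-! ### the core elimination theorem -/

theorem core {R Λ : Type*} [CommRing R] (ev : Λ → R →+* ℝ) (L : Multiset R[X]) :
    ∃ E : Set R, E.Finite ∧ ∀ l m : Λ,
      (∀ r ∈ E, SignType.sign (ev l r) = SignType.sign (ev m r)) →
      ∃ φ : ℝ ≃o ℝ, ∀ P ∈ L, ∀ x, SignType.sign ((P.map (ev l)).eval x)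
        = SignType.sign ((P.map (ev m)).eval (φ x)) := by
  classical
  have wf := InvImage.wf (fun L : Multiset R[X] => L.map natDegree)
    (Multiset.wellFounded_isDershowitzMannaLT (α := ℕ))
  induction L using wf.induction with
  | _ L ih =>
  by_cases hconst : ∀ P ∈ L, P.natDegree = 0
  · refine ⟨{r | ∃ P ∈ L, P.coeff 0 = r}, ?_, ?_⟩
    · have : {r | ∃ P ∈ L, P.coeff 0 = r} = (fun P : R[X] => P.coeff 0) '' {P | P ∈ L} := by
        ext r; simp
      rw [this]
      exact (L.toFinset.finite_toSet.subset (fun P hP => by simpa using hP)).image _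
    · intro l m h
      refine ⟨OrderIso.refl ℝ, fun P hP x => ?_⟩
      have h1 := eq_C_of_natDegree_eq_zero (hconst P hP)
      have h2 := h (P.coeff 0) ⟨P, hP, rfl⟩
      rw [h1]
      simpa using h2
  · push Not at hconst
    -- an element of maximal degree
    obtain ⟨f, hfL, hfmax⟩ : ∃ f ∈ L, ∀ P ∈ L, P.natDegree ≤ f.natDegree := by
      obtain ⟨P0, hP0, -⟩ := hconst
      obtain ⟨f, hf, hmax⟩ := L.toFinset.exists_max_image natDegree ⟨P0, by simpa using hP0⟩
      exact ⟨f, by simpa using hf, fun P hP => hmax P (by simpa using hP)⟩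
    have hfpos : 0 < f.natDegree := by
      obtain ⟨P0, hP0, h0⟩ := hconst
      have := hfmax P0 hP0
      omega
    -- first family of smaller multisets
    have hsmall : ∀ g ∈ L, 0 < g.natDegree → ∀ Y : Multiset R[X],
        (∀ y ∈ Y, y.natDegree < g.natDegree) →
        InvImage Multiset.IsDershowitzMannaLT (fun L : Multiset R[X] => L.map natDegree)
          (L.erase g + Y) L := by
      intro g hg hg0 Y hY
      refine ⟨(L.erase g).map natDegree, Y.map natDegree, {g.natDegree}, by simp, by simp, ?_, ?_⟩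
      · have : L = L.erase g + {g} := by
          rw [add_comm, Multiset.singleton_add, Multiset.cons_erase hg]
        conv_lhs => rw [this]
        simp only [Multiset.map_add, Multiset.map_singleton]
      · intro y hy
        rw [Multiset.mem_map] at hy
        obtain ⟨z, hz, rfl⟩ := hy
        exact ⟨g.natDegree, by simp, hY z hz⟩
    have hEl : ∀ g : R[X], ∃ E : Set R, E.Finite ∧ (g ∈ L → 0 < g.natDegree → ∀ l m : Λ,
      (∀ r ∈ E, SignType.sign (ev l r) = SignType.sign (ev m r)) →
      ∃ φ : ℝ ≃o ℝ, ∀ P ∈ L.erase g + {g.eraseLead}, ∀ x,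
        SignType.sign ((P.map (ev l)).eval x) = SignType.sign ((P.map (ev m)).eval (φ x))) := by
      intro g
      by_cases hg : g ∈ L ∧ 0 < g.natDegree
      · obtain ⟨E, hE, h⟩ := ih _ (hsmall g hg.1 hg.2 {g.eraseLead} (by
          intro y hy
          rw [Multiset.mem_singleton] at hy
          subst hy
          have := eraseLead_natDegree_le g
          omega))
        exact ⟨E, hE, fun _ _ => h⟩
      · exact ⟨∅, Set.finite_empty, fun h1 h2 => absurd ⟨h1, h2⟩ hg⟩
    choose El hElfin hElprop using hEl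
    -- remainders
    have hrem : ∀ p : R[X], ∃ (k : ℕ) (u r : R[X]), 0 < p.natDegree →
      C (p.leadingCoeff ^ (2 * k)) * f = p * u + r ∧ r.natDegree < p.natDegree := by
      intro p
      by_cases hp : 0 < p.natDegree
      · obtain ⟨k, u, r, h⟩ := prem p hp _ f (Nat.lt_succ_self _)
        exact ⟨k, u, r, fun _ => h⟩
      · exact ⟨0, 0, 0, fun h => absurd h hp⟩
    choose kk uu rr hrr using hrem
    set Y : Multiset R[X] := {f.derivative} + (((L.erase f + {f.derivative}).filter
      (fun p => 0 < p.natDegree)).map rr) with hY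
    have hderdeg : f.derivative.natDegree < f.natDegree := natDegree_derivative_lt (by omega)
    have hYdeg : ∀ y ∈ Y, y.natDegree < f.natDegree := by
      intro y hy
      rw [hY, Multiset.mem_add, Multiset.mem_singleton, Multiset.mem_map] at hy
      rcases hy with rfl | ⟨p, hp, rfl⟩
      · exact hderdeg
      · rw [Multiset.mem_filter] at hp
        have h1 := (hrr p hp.2).2
        have h2 : p.natDegree ≤ f.natDegree := by
          rcases Multiset.mem_add.1 hp.1 with h | h
          · exact hfmax p (Multiset.mem_of_mem_erase h)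
          · rw [Multiset.mem_singleton] at h
            subst h; omega
        omega
    obtain ⟨E', hE'fin, hE'⟩ := ih _ (hsmall f hfL hfpos Y hYdeg)
    have hLfin : {P | P ∈ L}.Finite :=
      L.toFinset.finite_toSet.subset (fun P hP => by simpa using hP)
    refine ⟨(leadingCoeff '' {P | P ∈ L}) ∪ (⋃ g ∈ {P | P ∈ L}, El g) ∪ E', ?_, ?_⟩
    · exact ((hLfin.image _).union (hLfin.biUnion (fun g _ => hElfin g))).union hE'fin
    intro l m hlm
    have hlc : ∀ P ∈ L, SignType.sign (ev l P.leadingCoeff) =
        SignType.sign (ev m P.leadingCoeff) :=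
      fun P hP => hlm _ (Or.inl (Or.inl ⟨P, hP, rfl⟩))
    by_cases hvan : ∃ g ∈ L, 0 < g.natDegree ∧ ev l g.leadingCoeff = 0
    · obtain ⟨g, hg, hg0, hgl⟩ := hvan
      have hgm : ev m g.leadingCoeff = 0 := by
        have := hlc g hg
        rw [hgl, sign_zero] at this
        exact sign_eq_zero_iff.1 this.symm
      obtain ⟨φ, hφ⟩ := hElprop g hg hg0 l m (fun r hr =>
        hlm r (Or.inl (Or.inr (Set.mem_biUnion (show g ∈ {P | P ∈ L} from hg) hr))))
      refine ⟨φ, fun P hP x => ?_⟩
      by_cases hPg : P = g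
      · subst hPg
        have h1 : ∀ n : Λ, ev n P.leadingCoeff = 0 →
            P.map (ev n) = P.eraseLead.map (ev n) := by
          intro n hn
          have h2 := congrArg (fun Q : R[X] => Q.map (ev n)) (eraseLead_add_C_mul_X_pow P)
          simp only [Polynomial.map_add, Polynomial.map_mul, map_C, hn, C_0, zero_mul,
            add_zero] at h2
          exact h2.symm
        rw [h1 l hgl, h1 m hgm]
        exact hφ _ (by simp) x
      · exact hφ P (Multiset.mem_add.2 (Or.inl ((Multiset.mem_erase_of_ne hPg).2 hP))) x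
    · push Not at hvan
      have hvanm : ∀ g ∈ L, 0 < g.natDegree → ev m g.leadingCoeff ≠ 0 := by
        intro g hg hg0 h
        have := hlc g hg
        rw [h, sign_zero] at this
        exact hvan g hg hg0 (sign_eq_zero_iff.1 this)
      obtain ⟨φ, hφ⟩ := hE' l m (fun r hr => hlm r (Or.inr hr))
      have hdeg : ∀ n : Λ, ev n f.leadingCoeff ≠ 0 → (f.map (ev n)).natDegree = f.natDegree :=
        fun n hn => natDegree_map_of_leadingCoeff_ne_zero _ hn
      have hlead : ∀ n : Λ, ev n f.leadingCoeff ≠ 0 →
          (f.map (ev n)).leadingCoeff = ev n f.leadingCoeff :=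
        fun n hn => leadingCoeff_map_of_leadingCoeff_ne_zero _ hn
      -- nonconstant members
      let ι := {P : R[X] // P ∈ L.erase f ∧ 0 < P.natDegree}
      have hιfin : Finite ι := by
        refine Set.Finite.subset ((L.erase f).toFinset.finite_toSet) ?_
        intro P hP
        simpa using hP.1
      have hrootgen : ∀ p ∈ L.erase f + {f.derivative}, 0 < p.natDegree →
          ev l p.leadingCoeff ≠ 0 → ev m p.leadingCoeff ≠ 0 → ∀ x,
          (p.map (ev l)).eval x = 0 → SignType.sign ((f.map (ev l)).eval x)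
            = SignType.sign ((f.map (ev m)).eval (φ x)) := by
        intro p hp hp0 hpl hpm x hx
        have hx' : (p.map (ev m)).eval (φ x) = 0 := by
          have h1 : p ∈ L.erase f + Y := by
            rcases Multiset.mem_add.1 hp with h | h
            · exact Multiset.mem_add.2 (Or.inl h)
            · refine Multiset.mem_add.2 (Or.inr ?_)
              rw [hY]
              exact Multiset.mem_add.2 (Or.inl h)
          have := hφ p h1 x
          rw [hx, sign_zero] at this
          exact sign_eq_zero_iff.1 this.symm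
        have hr := hφ (rr p) (Multiset.mem_add.2 (Or.inr (by
          rw [hY]
          refine Multiset.mem_add.2 (Or.inr ?_)
          exact Multiset.mem_map.2 ⟨p, Multiset.mem_filter.2 ⟨hp, hp0⟩, rfl⟩))) x
        have hkey : ∀ (n : Λ) (y : ℝ), ev n p.leadingCoeff ≠ 0 → (p.map (ev n)).eval y = 0 →
            SignType.sign ((f.map (ev n)).eval y) = SignType.sign (((rr p).map (ev n)).eval y) := by
          intro n y hn hy
          have h1 := congrArg (fun P : R[X] => (P.map (ev n)).eval y) (hrr p hp0).1
          simp only [Polynomial.map_mul, Polynomial.map_add, map_C, eval_mul, eval_C,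
            eval_add, hy, zero_mul, zero_add] at h1
          rw [← h1, sign_mul]
          have h2 : 0 < ev n (p.leadingCoeff ^ (2 * kk p)) := by
            rw [map_pow, pow_mul]
            positivity
          rw [sign_pos h2, one_mul]
        rw [hkey l x hpl hx, hr, hkey m (φ x) hpm hx']
      obtain ⟨ψ, hψ1, hψ2⟩ := sim_step (ι := ι) (fun P => P.1.map (ev l)) (fun P => P.1.map (ev m))
        (f.map (ev l)) (f.map (ev m)) φ
        (by
          intro P h
          have h1 := hvan P.1 (Multiset.mem_of_mem_erase P.2.1) P.2.2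
          apply h1
          have h2 := leadingCoeff_map_of_leadingCoeff_ne_zero (ev l) h1
          rw [← h2, h]; simp)
        (by
          intro P x
          exact hφ P.1 (Multiset.mem_add.2 (Or.inl P.2.1)) x)
        (by
          intro x
          rw [derivative_map, derivative_map]
          refine hφ f.derivative (Multiset.mem_add.2 (Or.inr ?_)) x
          rw [hY]
          exact Multiset.mem_add.2 (Or.inl (by simp)))
        (by rw [hdeg l (hvan f hfL hfpos), hdeg m (hvanm f hfL hfpos)])
        (by rw [hdeg l (hvan f hfL hfpos)]; exact hfpos)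
        (by
          rw [hlead l (hvan f hfL hfpos), hlead m (hvanm f hfL hfpos)]
          exact hlc f hfL)
        (by
          intro P x hx
          exact hrootgen P.1 (Multiset.mem_add.2 (Or.inl P.2.1)) P.2.2
            (hvan P.1 (Multiset.mem_of_mem_erase P.2.1) P.2.2)
            (hvanm P.1 (Multiset.mem_of_mem_erase P.2.1) P.2.2) x hx)
        (by
          intro x hx
          rw [derivative_map] at hx
          have hcd : f.derivative.coeff (f.natDegree - 1) = f.leadingCoeff * f.natDegree := by
            rw [coeff_derivative, show f.natDegree - 1 + 1 = f.natDegree by omega]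
            congr 1
            have : ((f.natDegree - 1 : ℕ) : R) + 1 = ((f.natDegree - 1 + 1 : ℕ) : R) := by
              push_cast; ring
            rw [this, show f.natDegree - 1 + 1 = f.natDegree by omega]
          have hcoef : ∀ n : Λ, ev n f.leadingCoeff ≠ 0 →
              ev n (f.derivative.coeff (f.natDegree - 1)) ≠ 0 := by
            intro n hn
            rw [hcd, map_mul, map_natCast]
            have : (f.natDegree : ℝ) ≠ 0 := by positivity
            exact mul_ne_zero hn this
          have hdd : f.derivative.natDegree = f.natDegree - 1 := by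
            refine le_antisymm (by omega) ?_
            refine le_natDegree_of_ne_zero ?_
            intro h
            exact hcoef l (hvan f hfL hfpos) (by rw [h, map_zero])
          have hl1 : f.derivative.leadingCoeff = f.derivative.coeff (f.natDegree - 1) := by
            rw [leadingCoeff, hdd]
          rcases Nat.eq_zero_or_pos f.derivative.natDegree with h0 | h0
          · exfalso
            have h1 := eq_C_of_natDegree_eq_zero h0
            rw [h1] at hx
            simp only [map_C, eval_C] at hx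
            have h2 := hcoef l (hvan f hfL hfpos)
            rw [← hdd, h0] at h2
            exact h2 hx
          · exact hrootgen f.derivative (Multiset.mem_add.2 (Or.inr (by simp))) h0
              (by rw [hl1]; exact hcoef l (hvan f hfL hfpos))
              (by rw [hl1]; exact hcoef m (hvanm f hfL hfpos)) x hx)
      -- conclude
      refine ⟨ψ, fun P hP x => ?_⟩
      by_cases hPf : P = f
      · rw [hPf]; exact hψ2 x
      · have hP' : P ∈ L.erase f := (Multiset.mem_erase_of_ne hPf).2 hP
        rcases Nat.eq_zero_or_pos P.natDegree with h0 | h0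
        · have h1 := eq_C_of_natDegree_eq_zero h0
          have h2 := hlc P hP
          rw [leadingCoeff, h0] at h2
          rw [h1]
          simpa using h2
        · exact hψ1 ⟨P, hP', h0⟩ x

/-- Tarski's theorem, in the form: whether a finite sign pattern is attained by a family of
polynomials in `N` real unknowns depends only on the signs of finitely many elements of the
coefficient ring. -/
theorem elim (N : ℕ) : ∀ {R Λ : Type} [CommRing R] (ev : Λ → R →+* ℝ)
    (E : Set (MvPolynomial (Fin N) R)), E.Finite →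
    ∃ E' : Set R, E'.Finite ∧ ∀ l m : Λ,
      (∀ r ∈ E', SignType.sign (ev l r) = SignType.sign (ev m r)) →
      ∀ u : Fin N → ℝ, ∃ v : Fin N → ℝ, ∀ p ∈ E,
        SignType.sign (MvPolynomial.eval₂Hom (ev l) u p) =
          SignType.sign (MvPolynomial.eval₂Hom (ev m) v p) := by
  classical
  induction N with
  | zero =>
    intro R Λ _ ev E hE
    refine ⟨(fun p => MvPolynomial.coeff 0 p) '' E, hE.image _, ?_⟩
    intro l m h u
    refine ⟨u, fun p hp => ?_⟩
    have h1 := h _ ⟨p, hp, rfl⟩
    have h2 : p = MvPolynomial.C (MvPolynomial.coeff 0 p) := MvPolynomial.eq_C_of_isEmpty p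
    rw [h2]
    simpa using h1
  | succ N ih =>
    intro R Λ _ ev E hE
    obtain ⟨E1, hE1, h1⟩ := core (R := MvPolynomial (Fin N) R) (Λ := Λ × (Fin N → ℝ))
      (fun lu => MvPolynomial.eval₂Hom (ev lu.1) lu.2)
      ((hE.toFinset.image (MvPolynomial.finSuccEquiv R N)).val)
    obtain ⟨E2, hE2, h2⟩ := ih ev E1 hE1
    refine ⟨E2, hE2, fun l m hlm u => ?_⟩
    obtain ⟨v, hv⟩ := h2 l m hlm (Fin.tail u)
    obtain ⟨φ, hφ⟩ := h1 (l, Fin.tail u) (m, v) hv
    refine ⟨Fin.cons (φ (u 0)) v, fun p hp => ?_⟩
    have h3 := hφ (MvPolynomial.finSuccEquiv R N p) (by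
      show _ ∈ (Finset.image _ _)
      exact Finset.mem_image_of_mem _ (by simpa using hp)) (u 0)
    have key : ∀ (p : MvPolynomial (Fin (N+1)) R) (n : Λ) (w : Fin N → ℝ) (t : ℝ),
        ((MvPolynomial.finSuccEquiv R N p).map (MvPolynomial.eval₂Hom (ev n) w)).eval t
          = MvPolynomial.eval₂Hom (ev n) (Fin.cons t w : Fin (N+1) → ℝ) p := by
      intro p n w t
      induction p using MvPolynomial.induction_on with
      | C a => simp [MvPolynomial.finSuccEquiv_apply]
      | add p q hp hq =>
        rw [map_add, Polynomial.map_add, eval_add, hp, hq, map_add]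
      | mul_X p i hp =>
        rw [map_mul, Polynomial.map_mul, eval_mul, hp, map_mul]
        congr 1
        refine Fin.cases ?_ (fun j => ?_) i
        · rw [MvPolynomial.finSuccEquiv_X_zero]; simp
        · rw [MvPolynomial.finSuccEquiv_X_succ]; simp
    simp only at h3
    rw [key, key] at h3
    have h4 : (Fin.cons (u 0) (Fin.tail u) : Fin (N+1) → ℝ) = u := Fin.cons_self_tail u
    rw [h4] at h3
    exact h3

end Pool.Agent.Helper668.TS
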