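import Pool.Agent.Helper668.QB
import Pool.Agent.Helper668.TS

set_option autoImplicit false
set_option linter.unusedVariables false

open Polynomial
open scoped Quaternion

namespace Pool.Agent.Helper668.QI

/-! ### specialization of generic quaternions -/

/-- apply an algebra map to the coordinates of a quaternion -/
def qmap {R S : Type} [CommRing R] [CommRing S] [Algebra ℝ R] [Algebra ℝ S] (f : R →ₐ[ℝ] S)
    (q : ℍ[R]) : ℍ[S] := ⟨f q.re, f q.imI, f q.imJ, f q.imK⟩

theorem qmap_lift {R S X : Type} [CommRing R] [CommRing S] [Algebra ℝ R] [Algebra ℝ S]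
    (f : R →ₐ[ℝ] S) (a : X → ℍ[R]) (p : FreeAlgebra ℝ X) :
    qmap f (FreeAlgebra.lift ℝ a p) = FreeAlgebra.lift ℝ (fun i => qmap f (a i)) p := by
  induction p using FreeAlgebra.induction with
  | grade0 r =>
    rw [AlgHom.commutes, AlgHom.commutes]
    have h1 : (algebraMap ℝ ℍ[R] r) = ((algebraMap ℝ R r : R) : ℍ[R]) := rfl
    have h2 : (algebraMap ℝ ℍ[S] r) = ((algebraMap ℝ S r : S) : ℍ[S]) := rfl
    rw [h1, h2]
    ext <;> simp [qmap]
  | grade1 i => simp
  | mul a b ha hb =>
    rw [map_mul, map_mul, ← ha, ← hb]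
    ext <;> simp [qmap]
  | add a b ha hb =>
    rw [map_add, map_add, ← ha, ← hb]
    ext <;> simp [qmap]

/-! ### a division lemma in one variable -/

theorem divide : ∀ (n : ℕ) (f Q : ℝ[X]), Q.natDegree < n → Q ≠ 0 →
    (∀ t, f.eval t ^ 2 ≤ Q.eval t) →
    ∃ g f1 Q1 : ℝ[X], f = g * f1 ∧ Q = g ^ 2 * Q1 ∧ ∀ t, 0 < Q1.eval t := by
  intro n
  induction n with
  | zero => intro f Q h; omega
  | succ n ih =>
    intro f Q hdeg hQ hle
    by_cases hroot : ∃ t0, Q.eval t0 = 0
    · obtain ⟨t0, ht0⟩ := hroot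
      have hQnn : ∀ t, 0 ≤ Q.eval t := fun t => (sq_nonneg _).trans (hle t)
      have hf0 : f.eval t0 = 0 := by
        have := hle t0
        rw [ht0] at this
        have h2 : f.eval t0 ^ 2 = 0 := le_antisymm this (sq_nonneg _)
        rwa [sq_eq_zero_iff] at h2
      have hd0 : Q.derivative.eval t0 = 0 := by
        have hmin : IsLocalMin (fun t => Q.eval t) t0 := by
          apply Filter.Eventually.of_forall
          intro t
          simp only [ht0]
          exact hQnn t
        have := hmin.deriv_eq_zero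
        rwa [Polynomial.deriv] at this
      obtain ⟨R, hR⟩ := dvd_iff_isRoot.2 (ht0 : Q.IsRoot t0)
      have hR0 : R.eval t0 = 0 := by
        rw [hR] at hd0
        simpa using hd0
      obtain ⟨R2, hR2⟩ := dvd_iff_isRoot.2 (hR0 : R.IsRoot t0)
      obtain ⟨f2, hf2⟩ := dvd_iff_isRoot.2 (hf0 : f.IsRoot t0)
      have hQ2 : Q = (X - C t0) ^ 2 * R2 := by rw [hR, hR2]; ring
      have hR2ne : R2 ≠ 0 := by rintro rfl; rw [mul_zero] at hQ2; exact hQ hQ2
      have hdeg2 : R2.natDegree < n := by
        have : Q.natDegree = 2 + R2.natDegree := by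
          rw [hQ2, natDegree_mul (pow_ne_zero _ (X_sub_C_ne_zero t0)) hR2ne, natDegree_pow,
            natDegree_X_sub_C]
        omega
      have hle' : ∀ t, t ≠ t0 → f2.eval t ^ 2 ≤ R2.eval t := by
        intro t ht
        have := hle t
        rw [hQ2, hf2] at this
        simp only [eval_mul, eval_pow, eval_sub, eval_X, eval_C] at this
        have h3 : 0 < (t - t0) ^ 2 := by
          have : t - t0 ≠ 0 := sub_ne_zero.2 ht
          positivity
        rw [mul_pow] at this
        exact le_of_mul_le_mul_left this h3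
      have hle2 : ∀ t, f2.eval t ^ 2 ≤ R2.eval t := by
        intro t
        by_cases ht : t = t0
        · subst ht
          -- by continuity
          have hcl : IsClosed {s : ℝ | f2.eval s ^ 2 ≤ R2.eval s} :=
            isClosed_le (f2.continuous.pow 2) R2.continuous
          have hdense : Dense ({t}ᶜ : Set ℝ) := dense_compl_singleton t
          have hsub : ({t}ᶜ : Set ℝ) ⊆ {s : ℝ | f2.eval s ^ 2 ≤ R2.eval s} := fun s hs => hle' s hs
          have := hcl.closure_subset_iff.2 hsub (hdense t)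
          exact this
        · exact hle' t ht
      obtain ⟨g, f1, Q1, h1, h2, h3⟩ := ih f2 R2 hdeg2 hR2ne hle2
      refine ⟨(X - C t0) * g, f1, Q1, ?_, ?_, h3⟩
      · rw [hf2, h1]; ring
      · rw [hQ2, h2]; ring
    · push Not at hroot
      refine ⟨1, f, Q, by simp, by simp, fun t => ?_⟩
      exact lt_of_le_of_ne ((sq_nonneg _).trans (hle t)) (Ne.symm (hroot t))

/-! ### finite unions of intervals -/

theorem fin_union (S : Set ℝ) (E : Set ℝ[X]) (hE : E.Finite)
    (h : ∀ c c' : ℝ, (∀ p ∈ E, SignType.sign (p.eval c) = SignType.sign (p.eval c')) →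
      (c ∈ S → c' ∈ S))
    (hiso : ∀ c ∈ S, ∀ ε > 0, ∃ c' ∈ S, c' ≠ c ∧ |c' - c| < ε) :
    ∃ F : Set (Set ℝ), F.Finite ∧ (∀ I ∈ F, I.OrdConnected ∧ I.Nontrivial) ∧ S = ⋃₀ F := by
  classical
  -- the roots
  have hZfin : {x : ℝ | ∃ p ∈ E, p ≠ 0 ∧ p.eval x = 0}.Finite := by
    have : {x : ℝ | ∃ p ∈ E, p ≠ 0 ∧ p.eval x = 0} ⊆
        ⋃ p ∈ E, (p.roots.toFinset : Set ℝ) := by
      rintro x ⟨p, hp, hp0, hx⟩
      refine Set.mem_biUnion hp ?_
      simp only [Finset.mem_coe, Multiset.mem_toFinset]
      exact (mem_roots hp0).2 hx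
    exact (hE.biUnion (fun p _ => Finset.finite_toSet _)).subset this
  set Z : Finset ℝ := hZfin.toFinset with hZ
  have hZmem : ∀ x, x ∈ Z ↔ ∃ p ∈ E, p ≠ 0 ∧ p.eval x = 0 := by
    intro x; rw [hZ, Set.Finite.mem_toFinset]; rfl
  have hseg : ∀ x y, (∀ z ∈ Z, z ∉ Set.uIcc x y) → x ∈ S → y ∈ S := by
    intro x y hz hx
    refine h x y (fun p hp => ?_) hx
    by_cases hp0 : p = 0
    · rw [hp0]; simp
    · have hne : ∀ t ∈ Set.uIcc x y, p.eval t ≠ 0 := by
        intro t ht h0
        exact hz t ((hZmem t).2 ⟨p, hp, hp0, h0⟩) ht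
      have hx0 := hne x Set.left_mem_uIcc
      have hy0 := hne y Set.right_mem_uIcc
      by_contra hs
      have : (0 : ℝ) ∈ Set.uIcc (p.eval x) (p.eval y) := by
        rw [Set.mem_uIcc]
        rcases lt_or_gt_of_ne hx0 with h1 | h1 <;> rcases lt_or_gt_of_ne hy0 with h2 | h2
        · exact absurd ((sign_neg h1).trans (sign_neg h2).symm) hs
        · left; exact ⟨h1.le, h2.le⟩
        · right; exact ⟨h2.le, h1.le⟩
        · exact absurd ((sign_pos h1).trans (sign_pos h2).symm) hs
      obtain ⟨t, ht, ht0⟩ := intermediate_value_uIcc (p.continuous.continuousOn) this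
      exact hne t ht ht0
  refine ⟨(fun c => Set.ordConnectedComponent S c) '' S, ?_, ?_, ?_⟩
  · -- finitely many components
    have hfin1 : ((fun c => Set.ordConnectedComponent S c) '' (S ∩ (Z : Set ℝ))).Finite :=
      ((Z.finite_toSet).subset Set.inter_subset_right).image _
    have hfin2 : ((fun c => Set.ordConnectedComponent S c) '' (S \ (Z : Set ℝ))).Finite := by
      -- factor through the set of z below c
      have key : ∀ c ∈ S \ (Z : Set ℝ), ∀ c' ∈ S \ (Z : Set ℝ),
          Z.filter (· < c) = Z.filter (· < c') →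
          Set.ordConnectedComponent S c = Set.ordConnectedComponent S c' := by
        have aux : ∀ c ∈ S \ (Z : Set ℝ), ∀ c' ∈ S \ (Z : Set ℝ), c ≤ c' →
            Z.filter (· < c) = Z.filter (· < c') →
            Set.ordConnectedComponent S c = Set.ordConnectedComponent S c' := by
          intro c hc c' hc' hle heq
          apply Set.ordConnectedComponent_eq
          intro y hy
          rw [Set.uIcc_of_le hle] at hy
          refine hseg c y ?_ hc.1
          intro z hz hz'
          rw [Set.uIcc_of_le hy.1] at hz'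
          have h1 : c < z := lt_of_le_of_ne hz'.1 (fun h => hc.2 (h ▸ hz))
          have h2 : z < c' := lt_of_le_of_ne (hz'.2.trans hy.2) (fun h => hc'.2 (h ▸ hz))
          have h3 : z ∈ Z.filter (· < c') := Finset.mem_filter.2 ⟨hz, h2⟩
          rw [← heq, Finset.mem_filter] at h3
          linarith [h3.2]
        intro c hc c' hc' heq
        rcases le_total c c' with hle | hle
        · exact aux c hc c' hc' hle heq
        · exact (aux c' hc' c hc hle heq.symm).symm
      -- use the finite powerset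
      let G : ℝ → Finset ℝ := fun c => Z.filter (· < c)
      have hG : (G '' (S \ (Z : Set ℝ))).Finite :=
        (Z.powerset.finite_toSet).subset (by
          rintro _ ⟨c, _, rfl⟩
          simp only [Finset.coe_powerset, Set.mem_preimage, Set.mem_powerset_iff, Finset.coe_subset]
          exact Finset.filter_subset _ _)
      have hchoose : ∀ A : Finset ℝ, ∃ J : Set ℝ, ∀ c ∈ S \ (Z : Set ℝ), G c = A →
          Set.ordConnectedComponent S c = J := by
        intro A
        by_cases hA : ∃ c ∈ S \ (Z : Set ℝ), G c = A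
        · obtain ⟨c0, hc0, hG0⟩ := hA
          exact ⟨Set.ordConnectedComponent S c0, fun c hc hGc =>
            key c hc c0 hc0 (hGc.trans hG0.symm)⟩
        · push Not at hA
          exact ⟨∅, fun c hc hGc => absurd hGc (hA c hc)⟩
      choose J hJ using hchoose
      refine (hG.image J).subset ?_
      rintro _ ⟨c, hc, rfl⟩
      exact ⟨G c, ⟨c, hc, rfl⟩, (hJ (G c) c hc rfl).symm⟩
    refine (hfin1.union hfin2).subset ?_
    rintro _ ⟨c, hc, rfl⟩
    by_cases hcZ : c ∈ (Z : Set ℝ)
    · exact Or.inl ⟨c, ⟨hc, hcZ⟩, rfl⟩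
    · exact Or.inr ⟨c, ⟨hc, hcZ⟩, rfl⟩
  · rintro _ ⟨c, hc, rfl⟩
    refine ⟨inferInstance, ?_⟩
    -- nontrivial
    have h1 : IsOpen ((Z.erase c : Finset ℝ) : Set ℝ)ᶜ :=
      (Finset.finite_toSet _).isClosed.isOpen_compl
    have h2 : c ∈ ((Z.erase c : Finset ℝ) : Set ℝ)ᶜ := by simp
    obtain ⟨δ, hδ, hball⟩ := Metric.isOpen_iff.1 h1 c h2
    obtain ⟨c', hc'S, hne, hclose⟩ := hiso c hc δ hδ
    refine ⟨c, Set.self_mem_ordConnectedComponent.2 hc, c', ?_, hne.symm⟩
    rw [Set.mem_ordConnectedComponent]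
    intro y hy
    by_cases hyc : y = c
    · rw [hyc]; exact hc
    · refine hseg c' y ?_ hc'S
      intro z hz hz'
      by_cases hzc : z = c
      · subst hzc
        rw [Set.mem_uIcc] at hz' hy
        rcases hz' with h3 | h3 <;> rcases hy with h4 | h4
        · exact hyc (le_antisymm (by linarith [h3.1, h4.2]) h4.1)
        · exact hyc (le_antisymm h4.2 (by linarith [h3.2]))
        · exact hyc (le_antisymm (by linarith [h3.1]) h4.1)
        · exact hyc (le_antisymm h4.2 (by linarith [h3.2, h4.1]))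
      · have h5 : z ∈ Metric.ball c δ := by
          rw [Metric.mem_ball, Real.dist_eq]
          rw [Set.mem_uIcc] at hz' hy
          rw [abs_lt] at hclose ⊢
          rcases hz' with h3 | h3 <;> rcases hy with h4 | h4 <;>
            constructor <;> linarith [h3.1, h3.2, h4.1, h4.2, hclose.1, hclose.2]
        have h6 := hball h5
        apply h6
        simp [hzc, hz]
  · apply Set.eq_of_subset_of_subset
    · intro c hc
      exact ⟨_, ⟨c, hc, rfl⟩, Set.self_mem_ordConnectedComponent.2 hc⟩
    · rintro c ⟨_, ⟨c', hc', rfl⟩, hc⟩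
      exact Set.ordConnectedComponent_subset hc

end Pool.Agent.Helper668.QI
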