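import Pool.Agent.Helper668.QG

set_option autoImplicit false
set_option linter.unusedVariables false

open Polynomial
open scoped Quaternion

namespace Pool.Agent.Helper668.QI

/-! ### the parity obstruction -/

/-- weights of the three variables -/
def pw : Fin 3 → ZMod 2 × ZMod 2 := ![(0, 1), (1, 0), (1, 1)]

theorem parity_homog {X : Type} (r c1 c2 c3 : X → ℝ) (p : FreeAlgebra ℝ X) :
    let A : X → ℍ[MvPolynomial (Fin 3) ℝ] := fun i =>
      ⟨MvPolynomial.C (r i), MvPolynomial.C (c1 i) * MvPolynomial.X 0,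
        MvPolynomial.C (c2 i) * MvPolynomial.X 1, MvPolynomial.C (c3 i) * MvPolynomial.X 2⟩
    MvPolynomial.IsWeightedHomogeneous pw (FreeAlgebra.lift ℝ A p).re 0 ∧
    MvPolynomial.IsWeightedHomogeneous pw (FreeAlgebra.lift ℝ A p).imI (0, 1) ∧
    MvPolynomial.IsWeightedHomogeneous pw (FreeAlgebra.lift ℝ A p).imJ (1, 0) ∧
    MvPolynomial.IsWeightedHomogeneous pw (FreeAlgebra.lift ℝ A p).imK (1, 1) := by
  intro A
  induction p using FreeAlgebra.induction with
  | grade0 s =>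
    rw [AlgHom.commutes]
    have h1 : (algebraMap ℝ ℍ[MvPolynomial (Fin 3) ℝ] s)
      = ((MvPolynomial.C s : MvPolynomial (Fin 3) ℝ) : ℍ[MvPolynomial (Fin 3) ℝ]) := rfl
    rw [h1]
    simp only [Quaternion.re_coe, Quaternion.imI_coe, Quaternion.imJ_coe, Quaternion.imK_coe]
    exact ⟨MvPolynomial.isWeightedHomogeneous_C _ _, MvPolynomial.isWeightedHomogeneous_zero _ _ _,
      MvPolynomial.isWeightedHomogeneous_zero _ _ _, MvPolynomial.isWeightedHomogeneous_zero _ _ _⟩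
  | grade1 i =>
    rw [FreeAlgebra.lift_ι_apply]
    have hX : ∀ (c : ℝ) (j : Fin 3), MvPolynomial.IsWeightedHomogeneous pw
        (MvPolynomial.C c * MvPolynomial.X j : MvPolynomial (Fin 3) ℝ) (pw j) := by
      intro c j
      have := (MvPolynomial.isWeightedHomogeneous_C (R := ℝ) pw c).mul
        (MvPolynomial.isWeightedHomogeneous_X ℝ pw j)
      rwa [zero_add] at this
    exact ⟨MvPolynomial.isWeightedHomogeneous_C _ _, hX _ 0, hX _ 1, hX _ 2⟩
  | mul a b ha hb =>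
    rw [map_mul]
    obtain ⟨a0, a1, a2, a3⟩ := ha
    obtain ⟨b0, b1, b2, b3⟩ := hb
    have hsub : ∀ {f g : MvPolynomial (Fin 3) ℝ} {m : ZMod 2 × ZMod 2},
        MvPolynomial.IsWeightedHomogeneous pw f m → MvPolynomial.IsWeightedHomogeneous pw g m →
        MvPolynomial.IsWeightedHomogeneous pw (f - g) m := by
      intro f g m hf hg
      exact Submodule.sub_mem (MvPolynomial.weightedHomogeneousSubmodule ℝ pw m) hf hg
    have hadd : ∀ {f g : MvPolynomial (Fin 3) ℝ} {m : ZMod 2 × ZMod 2},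
        MvPolynomial.IsWeightedHomogeneous pw f m → MvPolynomial.IsWeightedHomogeneous pw g m →
        MvPolynomial.IsWeightedHomogeneous pw (f + g) m := by
      intro f g m hf hg
      exact Submodule.add_mem (MvPolynomial.weightedHomogeneousSubmodule ℝ pw m) hf hg
    have hmul : ∀ {f g : MvPolynomial (Fin 3) ℝ} {m n k : ZMod 2 × ZMod 2},
        MvPolynomial.IsWeightedHomogeneous pw f m → MvPolynomial.IsWeightedHomogeneous pw g n →
        m + n = k → MvPolynomial.IsWeightedHomogeneous pw (f * g) k := by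
      intro f g m n k hf hg h
      rw [← h]; exact hf.mul hg
    simp only [Quaternion.re_mul, Quaternion.imI_mul, Quaternion.imJ_mul, Quaternion.imK_mul]
    refine ⟨?_, ?_, ?_, ?_⟩
    · exact hsub (hsub (hsub (hmul a0 b0 (by decide)) (hmul a1 b1 (by decide)))
        (hmul a2 b2 (by decide))) (hmul a3 b3 (by decide))
    · exact hsub (hadd (hadd (hmul a0 b1 (by decide)) (hmul a1 b0 (by decide)))
        (hmul a2 b3 (by decide))) (hmul a3 b2 (by decide))
    · exact hadd (hadd (hsub (hmul a0 b2 (by decide)) (hmul a1 b3 (by decide)))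
        (hmul a2 b0 (by decide))) (hmul a3 b1 (by decide))
    · exact hadd (hsub (hadd (hmul a0 b3 (by decide)) (hmul a1 b2 (by decide)))
        (hmul a2 b1 (by decide))) (hmul a3 b0 (by decide))
  | add a b ha hb =>
    rw [map_add]
    obtain ⟨a0, a1, a2, a3⟩ := ha
    obtain ⟨b0, b1, b2, b3⟩ := hb
    have hadd : ∀ {f g : MvPolynomial (Fin 3) ℝ} {m : ZMod 2 × ZMod 2},
        MvPolynomial.IsWeightedHomogeneous pw f m → MvPolynomial.IsWeightedHomogeneous pw g m →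
        MvPolynomial.IsWeightedHomogeneous pw (f + g) m := by
      intro f g m hf hg
      exact Submodule.add_mem (MvPolynomial.weightedHomogeneousSubmodule ℝ pw m) hf hg
    simp only [Quaternion.re_add, Quaternion.imI_add, Quaternion.imJ_add, Quaternion.imK_add]
    exact ⟨hadd a0 b0, hadd a1 b1, hadd a2 b2, hadd a3 b3⟩

/-- the Kronecker substitution -/
noncomputable def kron (M : ℕ) : MvPolynomial (Fin 3) ℝ →ₐ[ℝ] ℝ[X] :=
  MvPolynomial.aeval (fun i : Fin 3 => (X : ℝ[X]) ^ (M ^ (i : ℕ)))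

def kexp (M : ℕ) (d : Fin 3 →₀ ℕ) : ℕ := d 0 + M * d 1 + M ^ 2 * d 2

theorem kron_coeff (M : ℕ) (F : MvPolynomial (Fin 3) ℝ) (n : ℕ) (h : (kron M F).coeff n ≠ 0) :
    ∃ d ∈ F.support, kexp M d = n := by
  by_contra hcon
  push Not at hcon
  apply h
  rw [kron, MvPolynomial.aeval_def, MvPolynomial.eval₂_eq', finsetSum_coeff]
  apply Finset.sum_eq_zero
  intro d hd
  have h1 : (∏ i : Fin 3, ((X : ℝ[X]) ^ (M ^ (i : ℕ))) ^ d i) = X ^ kexp M d := by
    rw [Fin.prod_univ_three, kexp]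
    simp only [← pow_mul, ← pow_add]
    congr 1
    simp
  rw [h1]
  have h2 : algebraMap ℝ ℝ[X] (MvPolynomial.coeff d F) = C (MvPolynomial.coeff d F) := rfl
  rw [h2, coeff_C_mul, coeff_X_pow, if_neg (fun h => hcon d hd h.symm), mul_zero]

theorem kexp_inj (M : ℕ) (d d' : Fin 3 →₀ ℕ) (hd : ∀ i, d i < M) (hd' : ∀ i, d' i < M)
    (h : kexp M d = kexp M d') : d = d' := by
  have hM : 0 < M := lt_of_le_of_lt (Nat.zero_le _) (hd 0)
  simp only [kexp] at h
  have e1 : d 0 + M * d 1 + M ^ 2 * d 2 = d 0 + M * (d 1 + M * d 2) := by ring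
  have e2 : d' 0 + M * d' 1 + M ^ 2 * d' 2 = d' 0 + M * (d' 1 + M * d' 2) := by ring
  rw [e1, e2] at h
  have h0 : d 0 = d' 0 := by
    have := congrArg (· % M) h
    simp only [Nat.add_mul_mod_self_left] at this
    rwa [Nat.mod_eq_of_lt (hd 0), Nat.mod_eq_of_lt (hd' 0)] at this
  have h' : d 1 + M * d 2 = d' 1 + M * d' 2 := by
    rw [h0] at h
    exact Nat.eq_of_mul_eq_mul_left hM (Nat.add_left_cancel h)
  have h1 : d 1 = d' 1 := by
    have := congrArg (· % M) h'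
    simp only [Nat.add_mul_mod_self_left] at this
    rwa [Nat.mod_eq_of_lt (hd 1), Nat.mod_eq_of_lt (hd' 1)] at this
  have h2 : d 2 = d' 2 := by
    rw [h1] at h'
    exact Nat.eq_of_mul_eq_mul_left hM (Nat.add_left_cancel h')
  ext i
  fin_cases i
  · exact h0
  · exact h1
  · exact h2

/-- one-variable end of the argument -/
theorem no_common_exponent (f g1 g2 g3 : ℝ[X]) (α β : ℝ) (hα : 0 < α) (hβ : β < 1) (hβ0 : 0 ≤ β)
    (hne : f ≠ 0) (h1 : ∀ n, f.coeff n = 0 ∨ g1.coeff n = 0)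
    (h2 : ∀ n, f.coeff n = 0 ∨ g2.coeff n = 0) (h3 : ∀ n, f.coeff n = 0 ∨ g3.coeff n = 0)
    (hlow : ∀ t, α ^ 2 * (f.eval t ^ 2 + g1.eval t ^ 2 + g2.eval t ^ 2 + g3.eval t ^ 2)
      ≤ f.eval t ^ 2)
    (hup : ∀ t, f.eval t ^ 2 ≤
      β ^ 2 * (f.eval t ^ 2 + g1.eval t ^ 2 + g2.eval t ^ 2 + g3.eval t ^ 2)) : False := by
  classical
  have hex : ∃ n, f.coeff n ≠ 0 ∨ g1.coeff n ≠ 0 ∨ g2.coeff n ≠ 0 ∨ g3.coeff n ≠ 0 := by
    by_contra hcon
    push Not at hcon
    apply hne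
    ext n
    simpa using (hcon n).1
  set k := Nat.find hex with hk
  have hkspec := Nat.find_spec hex
  rw [← hk] at hkspec
  have hkmin : ∀ n < k, f.coeff n = 0 ∧ g1.coeff n = 0 ∧ g2.coeff n = 0 ∧ g3.coeff n = 0 := by
    intro n hn
    have := Nat.find_min hex hn
    push Not at this
    exact this
  obtain ⟨f', hf'⟩ := X_pow_dvd_iff.2 (fun n hn => (hkmin n hn).1)
  obtain ⟨g1', hg1'⟩ := X_pow_dvd_iff.2 (fun n hn => (hkmin n hn).2.1)
  obtain ⟨g2', hg2'⟩ := X_pow_dvd_iff.2 (fun n hn => (hkmin n hn).2.2.1)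
  obtain ⟨g3', hg3'⟩ := X_pow_dvd_iff.2 (fun n hn => (hkmin n hn).2.2.2)
  have hcoef : ∀ (q : ℝ[X]), (X ^ k * q).coeff k = q.eval 0 := by
    intro q
    rw [coeff_X_pow_mul', if_pos le_rfl, Nat.sub_self, coeff_zero_eq_eval_zero]
  rw [hf', hg1', hg2', hg3'] at hkspec
  rw [hcoef, hcoef, hcoef, hcoef] at hkspec
  have hd1 := h1 k
  have hd2 := h2 k
  have hd3 := h3 k
  rw [hf', hcoef, hg1', hcoef] at hd1
  rw [hf', hcoef, hg2', hcoef] at hd2
  rw [hf', hcoef, hg3', hcoef] at hd3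
  have hlow' : ∀ t, α ^ 2 * (f'.eval t ^ 2 + g1'.eval t ^ 2 + g2'.eval t ^ 2 + g3'.eval t ^ 2)
      ≤ f'.eval t ^ 2 := by
    intro t
    have hcl : IsClosed {s : ℝ | α ^ 2 * (f'.eval s ^ 2 + g1'.eval s ^ 2 + g2'.eval s ^ 2 +
        g3'.eval s ^ 2) ≤ f'.eval s ^ 2} :=
      isClosed_le (continuous_const.mul ((((f'.continuous.pow 2).add (g1'.continuous.pow 2)).add
        (g2'.continuous.pow 2)).add (g3'.continuous.pow 2))) (f'.continuous.pow 2)
    have hsub : ({0}ᶜ : Set ℝ) ⊆ {s : ℝ | α ^ 2 * (f'.eval s ^ 2 + g1'.eval s ^ 2 +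
        g2'.eval s ^ 2 + g3'.eval s ^ 2) ≤ f'.eval s ^ 2} := by
      intro s hs
      have hs0 : s ≠ 0 := hs
      have h4 := hlow s
      rw [hf', hg1', hg2', hg3'] at h4
      simp only [eval_mul, eval_pow, eval_X, mul_pow] at h4
      have h5 : 0 < (s ^ k) ^ 2 := by positivity
      have h6 : (s ^ k) ^ 2 * (α ^ 2 * (f'.eval s ^ 2 + g1'.eval s ^ 2 + g2'.eval s ^ 2 +
        g3'.eval s ^ 2)) ≤ (s ^ k) ^ 2 * f'.eval s ^ 2 := by
        calc _ = α ^ 2 * ((s ^ k) ^ 2 * eval s f' ^ 2 + (s ^ k) ^ 2 * eval s g1' ^ 2 +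
            (s ^ k) ^ 2 * eval s g2' ^ 2 + (s ^ k) ^ 2 * eval s g3' ^ 2) := by ring
          _ ≤ _ := h4
      exact le_of_mul_le_mul_left h6 h5
    exact hcl.closure_subset_iff.2 hsub (dense_compl_singleton 0 t)
  have hup' : ∀ t, f'.eval t ^ 2 ≤ β ^ 2 * (f'.eval t ^ 2 + g1'.eval t ^ 2 + g2'.eval t ^ 2 +
      g3'.eval t ^ 2) := by
    intro t
    have hcl : IsClosed {s : ℝ | f'.eval s ^ 2 ≤ β ^ 2 * (f'.eval s ^ 2 + g1'.eval s ^ 2 +
        g2'.eval s ^ 2 + g3'.eval s ^ 2)} :=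
      isClosed_le (f'.continuous.pow 2)
        (continuous_const.mul ((((f'.continuous.pow 2).add (g1'.continuous.pow 2)).add
        (g2'.continuous.pow 2)).add (g3'.continuous.pow 2)))
    have hsub : ({0}ᶜ : Set ℝ) ⊆ {s : ℝ | f'.eval s ^ 2 ≤ β ^ 2 * (f'.eval s ^ 2 +
        g1'.eval s ^ 2 + g2'.eval s ^ 2 + g3'.eval s ^ 2)} := by
      intro s hs
      have hs0 : s ≠ 0 := hs
      have h4 := hup s
      rw [hf', hg1', hg2', hg3'] at h4
      simp only [eval_mul, eval_pow, eval_X, mul_pow] at h4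
      have h5 : 0 < (s ^ k) ^ 2 := by positivity
      have h6 : (s ^ k) ^ 2 * f'.eval s ^ 2 ≤ (s ^ k) ^ 2 * (β ^ 2 * (f'.eval s ^ 2 +
          g1'.eval s ^ 2 + g2'.eval s ^ 2 + g3'.eval s ^ 2)) := by
        calc _ ≤ _ := h4
          _ = _ := by ring
      exact le_of_mul_le_mul_left h6 h5
    exact hcl.closure_subset_iff.2 hsub (dense_compl_singleton 0 t)
  have hl := hlow' 0
  have hu := hup' 0
  by_cases hf0 : f'.eval 0 = 0
  · rw [hf0] at hl
    have hα2 : 0 < α ^ 2 := by positivity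
    have hsum : g1'.eval 0 ^ 2 + g2'.eval 0 ^ 2 + g3'.eval 0 ^ 2 ≤ 0 := by
      by_contra hcon
      push Not at hcon
      have := mul_pos hα2 hcon
      nlinarith
    have e1 : g1'.eval 0 = 0 := by nlinarith [sq_nonneg (g1'.eval 0), sq_nonneg (g2'.eval 0), sq_nonneg (g3'.eval 0)]
    have e2 : g2'.eval 0 = 0 := by nlinarith [sq_nonneg (g1'.eval 0), sq_nonneg (g2'.eval 0), sq_nonneg (g3'.eval 0)]
    have e3 : g3'.eval 0 = 0 := by nlinarith [sq_nonneg (g1'.eval 0), sq_nonneg (g2'.eval 0), sq_nonneg (g3'.eval 0)]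
    rcases hkspec with h | h | h | h
    · exact h hf0
    · exact h e1
    · exact h e2
    · exact h e3
  · have e1 : g1'.eval 0 = 0 := hd1.resolve_left hf0
    have e2 : g2'.eval 0 = 0 := hd2.resolve_left hf0
    have e3 : g3'.eval 0 = 0 := hd3.resolve_left hf0
    rw [e1, e2, e3] at hu
    have hf2 : 0 < f'.eval 0 ^ 2 := by positivity
    have hβ2 : β ^ 2 < 1 := by nlinarith
    nlinarith

/-- **The parity obstruction.** -/
theorem parity {X : Type} (p : FreeAlgebra ℝ X) (α β : ℝ) (hα : 0 < α) (hβ0 : 0 ≤ β) (hβ : β < 1)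
    (hlow : ∀ a : X → ℍ[ℝ], α ^ 2 * ‖FreeAlgebra.lift ℝ a p‖ ^ 2 ≤ (FreeAlgebra.lift ℝ a p).re ^ 2)
    (hup : ∀ a : X → ℍ[ℝ], (FreeAlgebra.lift ℝ a p).re ^ 2 ≤ β ^ 2 * ‖FreeAlgebra.lift ℝ a p‖ ^ 2)
    (a0 : X → ℍ[ℝ]) (ha0 : FreeAlgebra.lift ℝ a0 p ≠ 0) : False := by
  classical
  set A : X → ℍ[MvPolynomial (Fin 3) ℝ] := fun i =>
      ⟨MvPolynomial.C (a0 i).re, MvPolynomial.C (a0 i).imI * MvPolynomial.X 0,
        MvPolynomial.C (a0 i).imJ * MvPolynomial.X 1, MvPolynomial.C (a0 i).imK * MvPolynomial.X 2⟩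
    with hA
  obtain ⟨w0, w1, w2, w3⟩ := parity_homog (fun i => (a0 i).re) (fun i => (a0 i).imI)
    (fun i => (a0 i).imJ) (fun i => (a0 i).imK) p
  rw [← hA] at w0 w1 w2 w3
  set P := FreeAlgebra.lift ℝ A p with hP
  set M := P.re.totalDegree + P.imI.totalDegree + P.imJ.totalDegree + P.imK.totalDegree + 1
    with hM
  have hdeg : ∀ (F : MvPolynomial (Fin 3) ℝ), F.totalDegree < M → ∀ d ∈ F.support, ∀ i, d i < M := by
    intro F hF d hd i
    have h1 := MvPolynomial.le_totalDegree hd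
    have h2 : d i ≤ d.sum fun _ e => e := by
      by_cases hi : d i = 0
      · rw [hi]; exact Nat.zero_le _
      · exact Finset.single_le_sum (f := fun j => d j) (fun _ _ => Nat.zero_le _)
          (Finsupp.mem_support_iff.2 hi)
    omega
  have hdisj : ∀ (G : MvPolynomial (Fin 3) ℝ) (m : ZMod 2 × ZMod 2), m ≠ 0 →
      MvPolynomial.IsWeightedHomogeneous pw G m → G.totalDegree < M → ∀ n,
      (kron M P.re).coeff n = 0 ∨ (kron M G).coeff n = 0 := by
    intro G m hm hG hGM n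
    by_contra hcon
    rw [not_or] at hcon
    obtain ⟨d, hd, hdn⟩ := kron_coeff M P.re n hcon.1
    obtain ⟨d', hd', hdn'⟩ := kron_coeff M G n hcon.2
    have hdd : d = d' := kexp_inj M d d' (hdeg _ (by omega) d hd) (hdeg _ hGM d' hd')
      (hdn.trans hdn'.symm)
    subst hdd
    have h1 := w0 (MvPolynomial.mem_support_iff.1 hd)
    have h2 := hG (MvPolynomial.mem_support_iff.1 hd')
    exact hm (h2.symm.trans h1)
  -- evaluation
  have heval : ∀ t : ℝ, ∃ a : X → ℍ[ℝ], (FreeAlgebra.lift ℝ a p).re = (kron M P.re).eval t ∧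
      (FreeAlgebra.lift ℝ a p).imI = (kron M P.imI).eval t ∧
      (FreeAlgebra.lift ℝ a p).imJ = (kron M P.imJ).eval t ∧
      (FreeAlgebra.lift ℝ a p).imK = (kron M P.imK).eval t ∧
      (t = 1 → a = a0) := by
    intro t
    let f : MvPolynomial (Fin 3) ℝ →ₐ[ℝ] ℝ := (Polynomial.aeval t).comp (kron M)
    have hf : ∀ F, f F = (kron M F).eval t := by
      intro F
      simp only [f, AlgHom.comp_apply]
      exact (Polynomial.coe_aeval_eq_eval t ▸ rfl)
    have h := qmap_lift f A p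
    refine ⟨fun i => qmap f (A i), ?_, ?_, ?_, ?_, ?_⟩
    · rw [← h, ← hf]; rfl
    · rw [← h, ← hf]; rfl
    · rw [← h, ← hf]; rfl
    · rw [← h, ← hf]; rfl
    · rintro rfl
      funext i
      ext
      · simp only [qmap, hA, hf, kron, MvPolynomial.algHom_C]; simp
      · simp only [qmap, hA, hf, kron, map_mul, MvPolynomial.algHom_C]; simp
      · simp only [qmap, hA, hf, kron, map_mul, MvPolynomial.algHom_C]; simp
      · simp only [qmap, hA, hf, kron, map_mul, MvPolynomial.algHom_C]; simp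
  have hnorm : ∀ q : ℍ[ℝ], ‖q‖ ^ 2 = q.re ^ 2 + q.imI ^ 2 + q.imJ ^ 2 + q.imK ^ 2 := by
    intro q; rw [sq, ← Quaternion.normSq_eq_norm_mul_self, normSq_eq']
  refine no_common_exponent (kron M P.re) (kron M P.imI) (kron M P.imJ) (kron M P.imK) α β hα hβ
    hβ0 ?_ (hdisj _ _ (by decide) w1 (by omega)) (hdisj _ _ (by decide) w2 (by omega))
    (hdisj _ _ (by decide) w3 (by omega)) ?_ ?_
  · intro h0
    obtain ⟨a, e0, e1, e2, e3, e4⟩ := heval 1
    rw [e4 rfl] at e0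
    rw [h0, eval_zero] at e0
    have h1 := hlow a0
    rw [e0] at h1
    have h2 : 0 < ‖FreeAlgebra.lift ℝ a0 p‖ := norm_pos_iff.2 ha0
    have h3 : 0 < α ^ 2 * ‖FreeAlgebra.lift ℝ a0 p‖ ^ 2 := by positivity
    norm_num at h1
    linarith
  · intro t
    obtain ⟨a, e0, e1, e2, e3, e4⟩ := heval t
    have h1 := hlow a
    rw [hnorm, e0, e1, e2, e3] at h1
    exact h1
  · intro t
    obtain ⟨a, e0, e1, e2, e3, e4⟩ := heval t
    have h1 := hup a
    rw [hnorm, e0, e1, e2, e3] at h1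
    exact h1

end Pool.Agent.Helper668.QI
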