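import Pool.Agent.Helper668.QH

set_option autoImplicit false
set_option linter.unusedVariables false

open Polynomial
open scoped Quaternion

namespace Pool.Agent.Helper668.QI

theorem norm_sq_coords (q : ℍ[ℝ]) : ‖q‖ ^ 2 = q.re ^ 2 + q.imI ^ 2 + q.imJ ^ 2 + q.imK ^ 2 := by
  rw [sq, ← Quaternion.normSq_eq_norm_mul_self, normSq_eq']

theorem re_sq_le (q : ℍ[ℝ]) : q.re ^ 2 ≤ ‖q‖ ^ 2 := by
  rw [norm_sq_coords]; nlinarith [sq_nonneg q.imI, sq_nonneg q.imJ, sq_nonneg q.imK]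

/-- the directions attained by the noncommutative polynomial `p` -/
def PDir {m : ℕ} (p : FreeAlgebra ℝ (Fin m)) : Set ℝ :=
  {s | ∃ a : Fin m → ℍ[ℝ], FreeAlgebra.lift ℝ a p ≠ 0 ∧
    s = (FreeAlgebra.lift ℝ a p).re / ‖FreeAlgebra.lift ℝ a p‖}

theorem pdir_subset {m : ℕ} (p : FreeAlgebra ℝ (Fin m)) : PDir p ⊆ Set.Icc (-1) 1 := by
  rintro _ ⟨a, ha, rfl⟩
  have h1 : 0 < ‖FreeAlgebra.lift ℝ a p‖ := norm_pos_iff.2 ha
  have h2 := abs_le_of_sq_le_sq' (re_sq_le (FreeAlgebra.lift ℝ a p)) h1.le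
  constructor
  · rw [le_div_iff₀ h1]; linarith [h2.1]
  · rw [div_le_iff₀ h1]; linarith [h2.2]

theorem lift_conj {X : Type} (u : ℍ[ℝ]) (hu : u ≠ 0) (b : X → ℍ[ℝ]) (p : FreeAlgebra ℝ X) :
    FreeAlgebra.lift ℝ (fun i => u * b i * u⁻¹) p = u * FreeAlgebra.lift ℝ b p * u⁻¹ := by
  induction p using FreeAlgebra.induction with
  | grade0 s =>
    rw [AlgHom.commutes, AlgHom.commutes]
    have h1 : (algebraMap ℝ ℍ[ℝ] s) = ((s : ℝ) : ℍ[ℝ]) := rfl
    rw [h1, ← Quaternion.coe_commutes, mul_assoc, mul_inv_cancel₀ hu, mul_one]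
  | grade1 i => simp
  | mul x y hx hy =>
    rw [map_mul, map_mul, hx, hy]
    have : u * FreeAlgebra.lift ℝ b x * u⁻¹ * (u * FreeAlgebra.lift ℝ b y * u⁻¹)
        = u * FreeAlgebra.lift ℝ b x * (u⁻¹ * u) * FreeAlgebra.lift ℝ b y * u⁻¹ := by
      simp only [mul_assoc]
    rw [this, inv_mul_cancel₀ hu, mul_one, mul_assoc u]
  | add x y hx hy => rw [map_add, map_add, hx, hy, mul_add, add_mul]

/-- the image is the cone over the directions -/
theorem image_eq {m : ℕ} {p : FreeAlgebra ℝ (Fin m)} (hp : IsSemihomogeneous p) :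
    Set.range (fun a : Fin m → ℍ[ℝ] => FreeAlgebra.lift ℝ a p)
      = {q : ℍ[ℝ] | q = 0 ∨ q.re / ‖q‖ ∈ PDir p} := by
  obtain ⟨w, d, hd, hscale⟩ := hp.scale
  apply Set.eq_of_subset_of_subset
  · rintro _ ⟨a, rfl⟩
    by_cases h : FreeAlgebra.lift ℝ a p = 0
    · exact Or.inl h
    · exact Or.inr ⟨a, h, rfl⟩
  · rintro q hq
    by_cases hq0 : q = 0
    · refine ⟨fun i => (0 : ℝ) ^ w i • (0 : ℍ[ℝ]), ?_⟩
      have := hscale 0 (fun _ => 0)
      simp only at this ⊢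
      rw [this, zero_pow hd.ne', zero_smul, hq0]
    · rcases hq with h | ⟨a, ha, hr⟩
      · exact absurd h hq0
      · have h1 : 0 < ‖FreeAlgebra.lift ℝ a p‖ := norm_pos_iff.2 ha
        have h2 : 0 < ‖q‖ := norm_pos_iff.2 hq0
        set c := ‖q‖ / ‖FreeAlgebra.lift ℝ a p‖ with hc
        have hc0 : 0 < c := by positivity
        set r := c ^ (((d : ℕ) : ℝ)⁻¹) with hr'
        have hrd : r ^ d = c := Real.rpow_inv_natCast_pow hc0.le hd.ne'
        obtain ⟨u, hu, huq⟩ := exists_conj (q := c • FreeAlgebra.lift ℝ a p) (q' := q)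
          (by
            rw [Quaternion.re_smul, smul_eq_mul, hc]
            have : q.re = (FreeAlgebra.lift ℝ a p).re / ‖FreeAlgebra.lift ℝ a p‖ * ‖q‖ := by
              rw [← hr]; field_simp
            rw [this]; ring)
          (by
            rw [norm_smul, Real.norm_of_nonneg hc0.le, hc]
            field_simp)
        refine ⟨fun i => u * (r ^ w i • a i) * u⁻¹, ?_⟩
        simp only
        rw [lift_conj u hu, hscale, hrd, huq]

/-- real polynomial coordinates of the values of `p` -/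
theorem exists_real_polys {m : ℕ} (p : FreeAlgebra ℝ (Fin m)) :
    ∃ (N : ℕ) (P : ℍ[MvPolynomial (Fin N) ℝ]),
      (∀ u : Fin N → ℝ, ∃ a : Fin m → ℍ[ℝ],
        (FreeAlgebra.lift ℝ a p).re = MvPolynomial.eval u P.re ∧
        (FreeAlgebra.lift ℝ a p).imI = MvPolynomial.eval u P.imI ∧
        (FreeAlgebra.lift ℝ a p).imJ = MvPolynomial.eval u P.imJ ∧
        (FreeAlgebra.lift ℝ a p).imK = MvPolynomial.eval u P.imK) ∧
      (∀ a : Fin m → ℍ[ℝ], ∃ u : Fin N → ℝ,
        (FreeAlgebra.lift ℝ a p).re = MvPolynomial.eval u P.re ∧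
        (FreeAlgebra.lift ℝ a p).imI = MvPolynomial.eval u P.imI ∧
        (FreeAlgebra.lift ℝ a p).imJ = MvPolynomial.eval u P.imJ ∧
        (FreeAlgebra.lift ℝ a p).imK = MvPolynomial.eval u P.imK) := by
  let e : Fin m × Fin 4 ≃ Fin (m * 4) := finProdFinEquiv
  let A : Fin m → ℍ[MvPolynomial (Fin (m * 4)) ℝ] := fun j =>
    ⟨MvPolynomial.X (e (j, 0)), MvPolynomial.X (e (j, 1)), MvPolynomial.X (e (j, 2)),
      MvPolynomial.X (e (j, 3))⟩
  let B : (Fin (m * 4) → ℝ) → Fin m → ℍ[ℝ] := fun u i =>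
    ⟨u (e (i, 0)), u (e (i, 1)), u (e (i, 2)), u (e (i, 3))⟩
  have key : ∀ u : Fin (m * 4) → ℝ,
      qmap (MvPolynomial.aeval u) (FreeAlgebra.lift ℝ A p) = FreeAlgebra.lift ℝ (B u) p := by
    intro u
    rw [qmap_lift]
    congr 1
    congr 1
    funext i
    ext <;> simp [qmap, A, B]
  have hev : ∀ (u : Fin (m * 4) → ℝ) (F : MvPolynomial (Fin (m * 4)) ℝ),
      MvPolynomial.aeval u F = MvPolynomial.eval u F := fun u F =>
    RingHom.congr_fun (MvPolynomial.coe_aeval_eq_eval u) F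
  have key2 : ∀ u : Fin (m * 4) → ℝ,
      (FreeAlgebra.lift ℝ (B u) p).re = MvPolynomial.eval u (FreeAlgebra.lift ℝ A p).re ∧
      (FreeAlgebra.lift ℝ (B u) p).imI = MvPolynomial.eval u (FreeAlgebra.lift ℝ A p).imI ∧
      (FreeAlgebra.lift ℝ (B u) p).imJ = MvPolynomial.eval u (FreeAlgebra.lift ℝ A p).imJ ∧
      (FreeAlgebra.lift ℝ (B u) p).imK = MvPolynomial.eval u (FreeAlgebra.lift ℝ A p).imK := by
    intro u
    rw [← key]
    exact ⟨hev _ _, hev _ _, hev _ _, hev _ _⟩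
  refine ⟨m * 4, FreeAlgebra.lift ℝ A p, fun u => ⟨B u, key2 u⟩, fun a => ?_⟩
  let u : Fin (m * 4) → ℝ := fun k =>
    ![(a (e.symm k).1).re, (a (e.symm k).1).imI, (a (e.symm k).1).imJ, (a (e.symm k).1).imK]
      (e.symm k).2
  have hu : B u = a := by
    funext i
    ext <;> simp [u, B]
  refine ⟨u, ?_⟩
  have := key2 u
  rwa [hu] at this

/-! ### the set of directions of a pair of real polynomials -/

def DS {N : ℕ} (F Q : MvPolynomial (Fin N) ℝ) : Set ℝ :=
  {c | ∃ u, 0 < MvPolynomial.eval u Q ∧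
    c = MvPolynomial.eval u F / Real.sqrt (MvPolynomial.eval u Q)}

theorem mem_DS {N : ℕ} (F Q : MvPolynomial (Fin N) ℝ) (c : ℝ) :
    c ∈ DS F Q ↔ ∃ u, 0 < MvPolynomial.eval u Q ∧
      MvPolynomial.eval u F ^ 2 - c ^ 2 * MvPolynomial.eval u Q = 0 ∧
      0 ≤ c * MvPolynomial.eval u F := by
  constructor
  · rintro ⟨u, hu, rfl⟩
    have h1 : 0 < Real.sqrt (MvPolynomial.eval u Q) := Real.sqrt_pos.2 hu
    refine ⟨u, hu, ?_, ?_⟩
    · rw [div_pow, Real.sq_sqrt hu.le]; field_simp; ring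
    · rw [div_mul_eq_mul_div, ← sq]; positivity
  · rintro ⟨u, hu, h1, h2⟩
    refine ⟨u, hu, ?_⟩
    have h3 : 0 < Real.sqrt (MvPolynomial.eval u Q) := Real.sqrt_pos.2 hu
    have h4 : Real.sqrt (MvPolynomial.eval u Q) ^ 2 = MvPolynomial.eval u Q := Real.sq_sqrt hu.le
    rw [eq_div_iff h3.ne']
    set s := Real.sqrt (MvPolynomial.eval u Q)
    rw [← h4] at h1
    have h5 : (MvPolynomial.eval u F - c * s) * (MvPolynomial.eval u F + c * s) = 0 := by
      linear_combination h1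
    rcases mul_eq_zero.1 h5 with h6 | h6
    · linarith
    · have h7 : MvPolynomial.eval u F = -(c * s) := by linarith
      rw [h7] at h2 ⊢
      have h8 : c ^ 2 * s ≤ 0 := by nlinarith
      have h9 : c ^ 2 ≤ 0 := by
        by_contra hcon
        push Not at hcon
        have := mul_pos hcon h3
        linarith
      have h10 : c = 0 := by
        have : c ^ 2 = 0 := le_antisymm h9 (sq_nonneg c)
        rwa [sq_eq_zero_iff] at this
      rw [h10]; ring

theorem dir_semialg {N : ℕ} (F Q : MvPolynomial (Fin N) ℝ) :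
    ∃ E : Set ℝ[X], E.Finite ∧ ∀ c c' : ℝ,
      (∀ p ∈ E, SignType.sign (p.eval c) = SignType.sign (p.eval c')) →
      (c ∈ DS F Q → c' ∈ DS F Q) := by
  let Q' : MvPolynomial (Fin N) ℝ[X] := MvPolynomial.map Polynomial.C Q
  let F' : MvPolynomial (Fin N) ℝ[X] := MvPolynomial.map Polynomial.C F
  let cc : MvPolynomial (Fin N) ℝ[X] := MvPolynomial.C Polynomial.X
  obtain ⟨E', hE', h⟩ := TS.elim N (R := ℝ[X]) (Λ := ℝ) (fun c => Polynomial.evalRingHom c)
    {Q', F' ^ 2 - cc ^ 2 * Q', cc * F'} (Set.toFinite _)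
  refine ⟨E', hE', fun c c' hcc' hc => ?_⟩
  rw [mem_DS] at hc ⊢
  obtain ⟨u, h1, h2, h3⟩ := hc
  obtain ⟨v, hv⟩ := h c c' (fun r hr => hcc' r hr) u
  have hmap : ∀ (c : ℝ) (u : Fin N → ℝ) (G : MvPolynomial (Fin N) ℝ),
      MvPolynomial.eval₂Hom (Polynomial.evalRingHom c) u (MvPolynomial.map Polynomial.C G)
        = MvPolynomial.eval u G := by
    intro c u G
    rw [MvPolynomial.coe_eval₂Hom, MvPolynomial.eval₂_map]
    have : (Polynomial.evalRingHom c).comp Polynomial.C = RingHom.id ℝ := by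
      ext x; simp
    rw [this]; rfl
  have e1 := hv Q' (by simp)
  have e2 := hv (F' ^ 2 - cc ^ 2 * Q') (by simp)
  have e3 := hv (cc * F') (by simp)
  simp only [Q', F', cc, map_sub, map_mul, map_pow, hmap, MvPolynomial.coe_eval₂Hom,
    MvPolynomial.eval₂_C] at e1 e2 e3
  simp only [Polynomial.coe_evalRingHom, eval_X] at e1 e2 e3
  refine ⟨v, ?_, ?_, ?_⟩
  · rw [sign_pos h1] at e1
    exact sign_eq_one_iff.1 e1.symm
  · rw [h2, sign_zero] at e2
    exact sign_eq_zero_iff.1 e2.symm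
  · by_contra hcon
    push Not at hcon
    rw [sign_neg hcon] at e3
    have := sign_eq_neg_one_iff.1 e3
    linarith

theorem line {N : ℕ} (G : MvPolynomial (Fin N) ℝ) (u0 u1 : Fin N → ℝ) :
    ∃ g : ℝ[X], ∀ t, g.eval t = MvPolynomial.eval (fun i => u0 i + t * (u1 i - u0 i)) G := by
  refine ⟨MvPolynomial.aeval (fun i => C (u0 i) + X * C (u1 i - u0 i)) G, fun t => ?_⟩
  induction G using MvPolynomial.induction_on with
  | C a => simp
  | add p q hp hq => rw [map_add, eval_add, hp, hq, map_add]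
  | mul_X p i hp => rw [map_mul, eval_mul, hp, map_mul]; simp

theorem dir_isolated {N : ℕ} (F Q : MvPolynomial (Fin N) ℝ) (c0 : ℝ) (hc0 : c0 ∈ DS F Q)
    (ε : ℝ) (hε : 0 < ε) (hiso : ∀ c ∈ DS F Q, |c - c0| < ε → c = c0) (u1 : Fin N → ℝ) :
    MvPolynomial.eval u1 F ^ 2 = c0 ^ 2 * MvPolynomial.eval u1 Q := by
  obtain ⟨u0, hQ0, hceq⟩ := hc0
  obtain ⟨f, hf⟩ := line F u0 u1
  obtain ⟨q, hq⟩ := line Q u0 u1
  have hq0 : q.eval 0 = MvPolynomial.eval u0 Q := by rw [hq]; simp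
  have hf0 : f.eval 0 = MvPolynomial.eval u0 F := by rw [hf]; simp
  have hcont : ContinuousAt (fun t => f.eval t / Real.sqrt (q.eval t)) 0 := by
    apply ContinuousAt.div f.continuous.continuousAt
    · exact (Real.continuous_sqrt.comp q.continuous).continuousAt
    · rw [hq0]; exact (Real.sqrt_pos.2 hQ0).ne'
  have h1 : ∀ᶠ t in nhds (0 : ℝ), |f.eval t / Real.sqrt (q.eval t) - c0| < ε := by
    have := Metric.continuousAt_iff'.1 hcont ε hε
    simp only [Real.dist_eq, hf0, hq0, ← hceq] at this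
    exact this
  have h2 : ∀ᶠ t in nhds (0 : ℝ), 0 < q.eval t := by
    have : 0 < q.eval 0 := by rw [hq0]; exact hQ0
    exact q.continuous.continuousAt.eventually (lt_mem_nhds this)
  have h3 : ∀ᶠ t in nhds (0 : ℝ), (f ^ 2 - C (c0 ^ 2) * q).eval t = 0 := by
    filter_upwards [h1, h2] with t ht1 ht2
    have hmem : f.eval t / Real.sqrt (q.eval t) ∈ DS F Q := by
      refine ⟨fun i => u0 i + t * (u1 i - u0 i), ?_, ?_⟩
      · rw [← hq]; exact ht2
      · rw [← hq, ← hf]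
    have h4 := hiso _ hmem ht1
    have h5 : 0 < Real.sqrt (q.eval t) := Real.sqrt_pos.2 ht2
    rw [div_eq_iff h5.ne'] at h4
    simp only [eval_sub, eval_pow, eval_mul, eval_C]
    rw [h4, mul_pow, Real.sq_sqrt ht2.le]
    ring
  have h4 : (f ^ 2 - C (c0 ^ 2) * q) = 0 := by
    apply Polynomial.eq_zero_of_infinite_isRoot
    exact (infinite_of_mem_nhds (0 : ℝ) h3)
  have h5 := congrArg (fun P : ℝ[X] => P.eval 1) h4
  simp only [eval_sub, eval_pow, eval_mul, eval_C, eval_zero] at h5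
  rw [hf, hq] at h5
  simp only [one_mul, add_sub_cancel] at h5
  linarith

theorem dir_dense {N : ℕ} (F Q : MvPolynomial (Fin N) ℝ)
    (hle : ∀ u, MvPolynomial.eval u F ^ 2 ≤ MvPolynomial.eval u Q) (x y z : ℝ)
    (hx : x ∈ (fun s => |s|) '' DS F Q) (hy : y ∈ (fun s => |s|) '' DS F Q)
    (hxz : x < z) (hzy : z < y) : z ∈ closure ((fun s => |s|) '' DS F Q) := by
  obtain ⟨_, ⟨u0, hQ0, rfl⟩, rfl⟩ := hx
  obtain ⟨_, ⟨u1, hQ1, rfl⟩, rfl⟩ := hy
  obtain ⟨f, hf⟩ := line F u0 u1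
  obtain ⟨q, hq⟩ := line Q u0 u1
  have hq0 : q.eval 0 = MvPolynomial.eval u0 Q := by rw [hq]; simp
  have hf0 : f.eval 0 = MvPolynomial.eval u0 F := by rw [hf]; simp
  have hq1 : q.eval 1 = MvPolynomial.eval u1 Q := by rw [hq]; simp
  have hf1 : f.eval 1 = MvPolynomial.eval u1 F := by rw [hf]; simp
  have hqne : q ≠ 0 := by
    rintro rfl
    rw [eval_zero] at hq0
    linarith
  obtain ⟨g, f1, q1, h1, h2, h3⟩ := divide _ f q (Nat.lt_succ_self _) hqne
    (fun t => by rw [hf, hq]; exact hle _)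
  have hgne : g ≠ 0 := by
    rintro rfl
    apply hqne; rw [h2]; simp
  let φ : ℝ → ℝ := fun t => |f1.eval t / Real.sqrt (q1.eval t)|
  have hφc : Continuous φ := by
    apply Continuous.abs
    apply Continuous.div f1.continuous (Real.continuous_sqrt.comp q1.continuous)
    intro t
    exact (Real.sqrt_pos.2 (h3 t)).ne'
  have hφ : ∀ t, g.eval t ≠ 0 → |f.eval t / Real.sqrt (q.eval t)| = φ t ∧ 0 < q.eval t := by
    intro t ht
    have e1 : q.eval t = g.eval t ^ 2 * q1.eval t := by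
      conv_lhs => rw [h2]
      simp
    have e2 : f.eval t = g.eval t * f1.eval t := by
      conv_lhs => rw [h1]
      simp
    constructor
    · simp only [φ]
      rw [e1, e2, Real.sqrt_mul (sq_nonneg _), Real.sqrt_sq_eq_abs, abs_div, abs_div, abs_mul,
        abs_mul, abs_abs]
      have : |g.eval t| ≠ 0 := abs_ne_zero.2 ht
      rw [mul_div_mul_left _ _ this]
    · rw [e1]; have := h3 t; positivity
  have hgroot : ∀ t, q.eval t ≠ 0 → g.eval t ≠ 0 := by
    intro t ht h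
    apply ht
    conv_lhs => rw [h2]
    simp [h]
  have e0 : φ 0 = |MvPolynomial.eval u0 F / Real.sqrt (MvPolynomial.eval u0 Q)| := by
    rw [← hf0, ← hq0]
    exact ((hφ 0 (hgroot 0 (by rw [hq0]; exact hQ0.ne'))).1).symm
  have e1 : φ 1 = |MvPolynomial.eval u1 F / Real.sqrt (MvPolynomial.eval u1 Q)| := by
    rw [← hf1, ← hq1]
    exact ((hφ 1 (hgroot 1 (by rw [hq1]; exact hQ1.ne'))).1).symm
  simp only at hxz hzy
  rw [← e0] at hxz
  rw [← e1] at hzy
  obtain ⟨t, ht, htz⟩ := intermediate_value_Icc (zero_le_one (α := ℝ)) hφc.continuousOn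
    ⟨hxz.le, hzy.le⟩
  rw [← htz]
  have hdense : Dense {s : ℝ | g.eval s ≠ 0} := by
    have hfin : {s : ℝ | g.eval s = 0}.Finite := by
      refine ((g.roots.toFinset).finite_toSet).subset (fun s hs => ?_)
      simp only [Finset.mem_coe, Multiset.mem_toFinset]
      exact (mem_roots hgne).2 hs
    have : {s : ℝ | g.eval s ≠ 0} = {s : ℝ | g.eval s = 0}ᶜ := rfl
    rw [this]
    exact hfin.countable.dense_compl ℝ
  have hcl := mem_closure_image hφc.continuousAt (hdense t)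
  refine closure_mono ?_ hcl
  rintro _ ⟨s, hs, rfl⟩
  obtain ⟨h4, h5⟩ := hφ s hs
  refine ⟨f.eval s / Real.sqrt (q.eval s), ?_, h4⟩
  refine ⟨fun i => u0 i + s * (u1 i - u0 i), ?_, ?_⟩
  · rw [← hq]; exact h5
  · rw [← hq, ← hf]

end Pool.Agent.Helper668.QI
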