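import Pool.Agent.Helper668.QF
import Pool.Agent.Helper668.QJ

set_option autoImplicit false
set_option linter.unusedVariables false

open scoped Quaternion

namespace Pool.Agent.Helper668.QI

/-- The image of the noncommutative polynomial `p` on the real quaternions. -/
noncomputable def imageOf {m : ℕ} (p : FreeAlgebra ℝ (Fin m)) : Set ℍ[ℝ] :=
  Set.range (fun a : Fin m → ℍ[ℝ] => FreeAlgebra.lift ℝ a p)

/-- `S` is a finite union of nondegenerate intervals (of any kind: open, closed, half-open). -/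
def IsFiniteUnionOfIntervals (S : Set ℝ) : Prop :=
  ∃ F : Set (Set ℝ), F.Finite ∧ (∀ I ∈ F, I.OrdConnected ∧ I.Nontrivial) ∧ S = ⋃₀ F

/-- The admissible sets of cosines. -/
def Admissible (S : Set ℝ) : Prop :=
  S.Nonempty ∧ S ⊆ Set.Icc (-1) 1 ∧ IsFiniteUnionOfIntervals S ∧
    ∃ a b : ℝ, closure ((fun s => |s|) '' S) = Set.Icc a b ∧ (a = 0 ∨ b = 1)

/-- The set of all quaternions `q` with `q = 0` or `Re q / |q| ∈ S`. -/
def coneOver (S : Set ℝ) : Set ℍ[ℝ] := {q | q = 0 ∨ q.re / ‖q‖ ∈ S}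

theorem pdir_eq_ds {m : ℕ} (p : FreeAlgebra ℝ (Fin m)) :
    ∃ (N : ℕ) (F Q : MvPolynomial (Fin N) ℝ), PDir p = DS F Q ∧
      (∀ u, MvPolynomial.eval u F ^ 2 ≤ MvPolynomial.eval u Q) ∧
      (∀ a : Fin m → ℍ[ℝ], ∃ u : Fin N → ℝ,
        (FreeAlgebra.lift ℝ a p).re = MvPolynomial.eval u F ∧
        ‖FreeAlgebra.lift ℝ a p‖ ^ 2 = MvPolynomial.eval u Q) := by
  obtain ⟨N, P, h1, h2⟩ := exists_real_polys p
  have hQ : ∀ (a : Fin m → ℍ[ℝ]) (u : Fin N → ℝ),
      (FreeAlgebra.lift ℝ a p).re = MvPolynomial.eval u P.re ∧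
        (FreeAlgebra.lift ℝ a p).imI = MvPolynomial.eval u P.imI ∧
        (FreeAlgebra.lift ℝ a p).imJ = MvPolynomial.eval u P.imJ ∧
        (FreeAlgebra.lift ℝ a p).imK = MvPolynomial.eval u P.imK →
      ‖FreeAlgebra.lift ℝ a p‖ ^ 2
        = MvPolynomial.eval u (P.re ^ 2 + P.imI ^ 2 + P.imJ ^ 2 + P.imK ^ 2) := by
    rintro a u ⟨e0, e1, e2, e3⟩
    rw [norm_sq_coords, e0, e1, e2, e3]
    simp
  refine ⟨N, P.re, P.re ^ 2 + P.imI ^ 2 + P.imJ ^ 2 + P.imK ^ 2, ?_, ?_, ?_⟩
  · apply Set.eq_of_subset_of_subset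
    · rintro _ ⟨a, ha, rfl⟩
      obtain ⟨u, hu⟩ := h2 a
      have h3 := hQ a u hu
      have h4 : 0 < ‖FreeAlgebra.lift ℝ a p‖ := norm_pos_iff.2 ha
      refine ⟨u, ?_, ?_⟩
      · rw [← h3]; positivity
      · rw [← h3, Real.sqrt_sq h4.le, hu.1]
    · rintro _ ⟨u, hu, rfl⟩
      obtain ⟨a, ha⟩ := h1 u
      have h3 := hQ a u ha
      refine ⟨a, ?_, ?_⟩
      · intro h0
        rw [h0] at h3
        simp only [norm_zero, ne_eq, OfNat.ofNat_ne_zero, not_false_eq_true, zero_pow] at h3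
        rw [← h3] at hu
        exact lt_irrefl _ hu
      · rw [← h3, Real.sqrt_sq (norm_nonneg _), ha.1]
  · intro u
    simp only [map_add, map_pow]
    nlinarith [sq_nonneg (MvPolynomial.eval u P.imI), sq_nonneg (MvPolynomial.eval u P.imJ),
      sq_nonneg (MvPolynomial.eval u P.imK)]
  · intro a
    obtain ⟨u, hu⟩ := h2 a
    exact ⟨u, hu.1, hQ a u hu⟩

theorem ratio_one {q : ℍ[ℝ]} (hq : q ≠ 0) (h : (q.re / ‖q‖) ^ 2 = 1) : q = ((q.re : ℝ) : ℍ[ℝ]) := by
  have h1 : 0 < ‖q‖ := norm_pos_iff.2 hq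
  rw [div_pow, div_eq_one_iff_eq (by positivity), norm_sq_coords] at h
  have e1 : q.imI ^ 2 = 0 := by nlinarith [sq_nonneg q.imI, sq_nonneg q.imJ, sq_nonneg q.imK]
  have e2 : q.imJ ^ 2 = 0 := by nlinarith [sq_nonneg q.imI, sq_nonneg q.imJ, sq_nonneg q.imK]
  have e3 : q.imK ^ 2 = 0 := by nlinarith [sq_nonneg q.imI, sq_nonneg q.imJ, sq_nonneg q.imK]
  rw [sq_eq_zero_iff] at e1 e2 e3
  ext <;> simp [e1, e2, e3]

theorem coe_ratio (r : ℝ) (hr : 0 < r) : ((r : ℝ) : ℍ[ℝ]).re / ‖((r : ℝ) : ℍ[ℝ])‖ = 1 := by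
  rw [Quaternion.norm_coe, Quaternion.re_coe, Real.norm_of_nonneg hr.le, div_self hr.ne']

theorem coe_ratio_neg (r : ℝ) (hr : r < 0) : ((r : ℝ) : ℍ[ℝ]).re / ‖((r : ℝ) : ℍ[ℝ])‖ = -1 := by
  rw [Quaternion.norm_coe, Quaternion.re_coe, Real.norm_of_nonpos hr.le, div_neg, div_self hr.ne]

theorem coneOver_short (S : Set ℝ) (hne : S.Nonempty) (hS : ∀ s ∈ S, s = 1 ∨ s = -1) :
    coneOver S = Set.range (fun r : ℝ => (r : ℍ[ℝ])) ∨
      coneOver S = (fun r : ℝ => (r : ℍ[ℝ])) '' Set.Ici 0 ∨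
      coneOver S = (fun r : ℝ => (r : ℍ[ℝ])) '' Set.Iic 0 := by
  have hreal : ∀ q ∈ coneOver S, q = ((q.re : ℝ) : ℍ[ℝ]) := by
    intro q hq
    by_cases h0 : q = 0
    · rw [h0]; simp
    · rcases hq with h | h
      · exact absurd h h0
      · apply ratio_one h0
        rcases hS _ h with h' | h' <;> rw [h'] <;> norm_num
  have hpos : ∀ q ∈ coneOver S, 0 < q.re → (1 : ℝ) ∈ S := by
    intro q hq hre
    have h0 : q ≠ 0 := by rintro rfl; simp at hre
    rcases hq with h | h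
    · exact absurd h h0
    · have h1 := hreal q (Or.inr h)
      rw [h1, coe_ratio q.re hre] at h
      exact h
  have hneg : ∀ q ∈ coneOver S, q.re < 0 → (-1 : ℝ) ∈ S := by
    intro q hq hre
    have h0 : q ≠ 0 := by rintro rfl; simp at hre
    rcases hq with h | h
    · exact absurd h h0
    · have h1 := hreal q (Or.inr h)
      rw [h1, coe_ratio_neg q.re hre] at h
      exact h
  have hin1 : (1 : ℝ) ∈ S → ∀ r : ℝ, 0 < r → ((r : ℝ) : ℍ[ℝ]) ∈ coneOver S := by
    intro h r hr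
    right; rw [coe_ratio r hr]; exact h
  have hin2 : (-1 : ℝ) ∈ S → ∀ r : ℝ, r < 0 → ((r : ℝ) : ℍ[ℝ]) ∈ coneOver S := by
    intro h r hr
    right; rw [coe_ratio_neg r hr]; exact h
  have hin0 : ((0 : ℝ) : ℍ[ℝ]) ∈ coneOver S := by left; simp
  by_cases h1 : (1 : ℝ) ∈ S
  · by_cases h2 : (-1 : ℝ) ∈ S
    · left
      apply Set.eq_of_subset_of_subset
      · intro q hq; exact ⟨q.re, (hreal q hq).symm⟩
      · rintro _ ⟨r, rfl⟩
        rcases lt_trichotomy r 0 with h | h | h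
        · exact hin2 h2 r h
        · rw [h]; exact hin0
        · exact hin1 h1 r h
    · right; left
      apply Set.eq_of_subset_of_subset
      · intro q hq
        refine ⟨q.re, ?_, (hreal q hq).symm⟩
        rw [Set.mem_Ici]
        by_contra hcon
        push Not at hcon
        exact h2 (hneg q hq hcon)
      · rintro _ ⟨r, hr, rfl⟩
        rcases (Set.mem_Ici.1 hr).eq_or_lt with h | h
        · rw [← h]; exact hin0
        · exact hin1 h1 r h
  · have h2 : (-1 : ℝ) ∈ S := by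
      obtain ⟨s, hs⟩ := hne
      rcases hS s hs with h | h
      · exact absurd (h ▸ hs) h1
      · exact h ▸ hs
    right; right
    apply Set.eq_of_subset_of_subset
    · intro q hq
      refine ⟨q.re, ?_, (hreal q hq).symm⟩
      rw [Set.mem_Iic]
      by_contra hcon
      push Not at hcon
      exact h1 (hpos q hq hcon)
    · rintro _ ⟨r, hr, rfl⟩
      rcases (Set.mem_Iic.1 hr).eq_or_lt with h | h
      · rw [h]; exact hin0
      · exact hin2 h2 r h

theorem necessity {m : ℕ} (p : FreeAlgebra ℝ (Fin m)) :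
    coneOver (PDir p) = {0} ∨ coneOver (PDir p) = Set.range (fun r : ℝ => (r : ℍ[ℝ])) ∨
      coneOver (PDir p) = (fun r : ℝ => (r : ℍ[ℝ])) '' Set.Ici 0 ∨
      coneOver (PDir p) = (fun r : ℝ => (r : ℍ[ℝ])) '' Set.Iic 0 ∨
      coneOver (PDir p) = {q | q.re = 0} ∨ Admissible (PDir p) := by
  obtain ⟨N, F, Q, hDS, hle, hval⟩ := pdir_eq_ds p
  by_cases hne : (PDir p).Nonempty
  swap
  · left
    rw [Set.not_nonempty_iff_eq_empty] at hne
    rw [hne]
    ext q
    simp [coneOver]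
  have hsub := pdir_subset p
  obtain ⟨s0, hs0⟩ := hne
  obtain ⟨a0, ha0, -⟩ := hs0
  by_cases hiso : ∃ c0 ∈ PDir p, ∃ ε > 0, ∀ c ∈ PDir p, |c - c0| < ε → c = c0
  · obtain ⟨c0, hc0, ε, hε, hc⟩ := hiso
    have hid : ∀ a : Fin m → ℍ[ℝ], (FreeAlgebra.lift ℝ a p).re ^ 2
        = c0 ^ 2 * ‖FreeAlgebra.lift ℝ a p‖ ^ 2 := by
      intro a
      obtain ⟨u, e1, e2⟩ := hval a
      rw [e1, e2]
      rw [hDS] at hc0 hc
      exact dir_isolated F Q c0 hc0 ε hε hc u
    have hc01 := hsub hc0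
    by_cases hc00 : c0 = 0
    · right; right; right; right; left
      have hre : ∀ a : Fin m → ℍ[ℝ], (FreeAlgebra.lift ℝ a p).re = 0 := by
        intro a
        have := hid a
        rw [hc00] at this
        have h2 : (FreeAlgebra.lift ℝ a p).re ^ 2 = 0 := by rw [this]; ring
        rwa [sq_eq_zero_iff] at h2
      have h0 : (0 : ℝ) ∈ PDir p := hc00 ▸ hc0
      ext q
      simp only [coneOver, Set.mem_ofPred_eq]
      constructor
      · rintro (h | ⟨a, ha, h⟩)
        · rw [h]; simp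
        · rw [hre a, zero_div] at h
          by_cases hq : q = 0
          · rw [hq]; simp
          · have h1 : ‖q‖ ≠ 0 := norm_ne_zero_iff.2 hq
            rcases div_eq_zero_iff.1 h with h2 | h2
            · exact h2
            · exact absurd h2 h1
      · intro h
        right; rw [h, zero_div]; exact h0
    · have habs : |c0| ≤ 1 := abs_le.2 ⟨hc01.1, hc01.2⟩
      rcases habs.lt_or_eq with hlt | heq
      · exfalso
        have hcpos : 0 < |c0| := abs_pos.2 hc00
        refine parity p |c0| |c0| hcpos hcpos.le hlt ?_ ?_ a0 ha0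
        · intro a; rw [sq_abs, hid a]
        · intro a; rw [sq_abs, hid a]
      · have hcsq : c0 ^ 2 = 1 := by rw [← sq_abs, heq]; norm_num
        have hS : ∀ s ∈ PDir p, s = 1 ∨ s = -1 := by
          rintro s ⟨a, ha, rfl⟩
          have h1 : 0 < ‖FreeAlgebra.lift ℝ a p‖ := norm_pos_iff.2 ha
          have h2 := hid a
          rw [hcsq, one_mul] at h2
          have h3 : ((FreeAlgebra.lift ℝ a p).re / ‖FreeAlgebra.lift ℝ a p‖) ^ 2 = 1 := by
            rw [div_pow, h2, div_self (by positivity)]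
          have h4 : ((FreeAlgebra.lift ℝ a p).re / ‖FreeAlgebra.lift ℝ a p‖ - 1) *
              ((FreeAlgebra.lift ℝ a p).re / ‖FreeAlgebra.lift ℝ a p‖ + 1) = 0 := by
            linear_combination h3
          rcases mul_eq_zero.1 h4 with h5 | h5
          · left; linarith
          · right; linarith
        rcases coneOver_short (PDir p) ⟨c0, hc0⟩ hS with h | h | h
        · exact Or.inr (Or.inl h)
        · exact Or.inr (Or.inr (Or.inl h))
        · exact Or.inr (Or.inr (Or.inr (Or.inl h)))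
  · -- no isolated points
    right; right; right; right; right
    push Not at hiso
    have hne : (PDir p).Nonempty := ⟨_, a0, ha0, rfl⟩
    refine ⟨hne, hsub, ?_, ?_⟩
    · obtain ⟨E, hE, hsa⟩ := dir_semialg F Q
      rw [← hDS] at hsa
      refine fin_union (PDir p) E hE hsa ?_
      intro c hc ε hε
      obtain ⟨c', hc', h1, h2⟩ := hiso c hc ε hε
      exact ⟨c', hc', h2, h1⟩
    · set A := (fun s : ℝ => |s|) '' PDir p with hA
      have hAne : A.Nonempty := hne.image _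
      have hA01 : ∀ x ∈ A, 0 ≤ x ∧ x ≤ 1 := by
        rintro _ ⟨s, hs, rfl⟩
        exact ⟨abs_nonneg s, abs_le.2 ⟨(hsub hs).1, (hsub hs).2⟩⟩
      have hAbb : BddBelow A := ⟨0, fun x hx => (hA01 x hx).1⟩
      have hAba : BddAbove A := ⟨1, fun x hx => (hA01 x hx).2⟩
      refine ⟨sInf A, sSup A, ?_, ?_⟩
      · apply Set.eq_of_subset_of_subset
        · apply closure_minimal _ isClosed_Icc
          intro x hx
          exact ⟨csInf_le hAbb hx, le_csSup hAba hx⟩
        · rintro z ⟨hz1, hz2⟩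
          rcases hz1.eq_or_lt with h | h
          · rw [← h]; exact csInf_mem_closure hAne hAbb
          rcases hz2.eq_or_lt with h' | h'
          · rw [h']; exact csSup_mem_closure hAne hAba
          obtain ⟨x, hx, hxz⟩ := exists_lt_of_csInf_lt hAne h
          obtain ⟨y, hy, hzy⟩ := exists_lt_of_lt_csSup hAne h'
          rw [hA, hDS] at hx hy ⊢
          exact dir_dense F Q hle x y z hx hy hxz hzy
      · by_contra hcon
        rw [not_or] at hcon
        have h0 : 0 ≤ sInf A := le_csInf hAne (fun x hx => (hA01 x hx).1)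
        have h1 : sSup A ≤ 1 := csSup_le hAne (fun x hx => (hA01 x hx).2)
        have h0' : 0 < sInf A := lt_of_le_of_ne h0 (Ne.symm hcon.1)
        have h1' : sSup A < 1 := lt_of_le_of_ne h1 hcon.2
        have h2 : 0 ≤ sSup A := h0.trans (by
          obtain ⟨x, hx⟩ := hAne
          exact (csInf_le hAbb hx).trans (le_csSup hAba hx))
        have hmem : ∀ a : Fin m → ℍ[ℝ], FreeAlgebra.lift ℝ a p ≠ 0 →
            |(FreeAlgebra.lift ℝ a p).re| / ‖FreeAlgebra.lift ℝ a p‖ ∈ A := by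
          intro a ha
          refine ⟨_, ⟨a, ha, rfl⟩, ?_⟩
          simp only
          rw [abs_div, abs_norm]
        refine parity p (sInf A) (sSup A) h0' h2 h1' ?_ ?_ a0 ha0
        · intro a
          by_cases ha : FreeAlgebra.lift ℝ a p = 0
          · rw [ha]; simp
          · have h3 : 0 < ‖FreeAlgebra.lift ℝ a p‖ := norm_pos_iff.2 ha
            have h4 := csInf_le hAbb (hmem a ha)
            rw [le_div_iff₀ h3] at h4
            rw [← mul_pow, ← sq_abs (FreeAlgebra.lift ℝ a p).re]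
            exact pow_le_pow_left₀ (by positivity) h4 2
        · intro a
          by_cases ha : FreeAlgebra.lift ℝ a p = 0
          · rw [ha]; simp
          · have h3 : 0 < ‖FreeAlgebra.lift ℝ a p‖ := norm_pos_iff.2 ha
            have h4 := le_csSup hAba (hmem a ha)
            rw [div_le_iff₀ h3] at h4
            rw [← mul_pow, ← sq_abs (FreeAlgebra.lift ℝ a p).re]
            exact pow_le_pow_left₀ (abs_nonneg _) h4 2

/-- the cone over an admissible set has interior points -/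
theorem interior_coneOver {S : Set ℝ} (hS : Admissible S) : (interior (coneOver S)).Nonempty := by
  obtain ⟨⟨s, hs⟩, hsub, ⟨F, hF, hFI, hSF⟩, -⟩ := hS
  have hs' := hs
  rw [hSF] at hs'
  obtain ⟨I, hIF, hsI⟩ := hs'
  obtain ⟨hIo, hIn⟩ := hFI I hIF
  have hIS : I ⊆ S := by rw [hSF]; exact Set.subset_sUnion_of_mem hIF
  obtain ⟨x, hx, y, hy, hxy⟩ := hIn.exists_lt
  set c := (x + y) / 2 with hc
  have hxc : x < c := by rw [hc]; linarith
  have hcy : c < y := by rw [hc]; linarith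
  have hx1 := hsub (hIS hx)
  have hy1 := hsub (hIS hy)
  have hc2 : 0 ≤ 1 - c ^ 2 := by nlinarith [hx1.1, hy1.2]
  set q : ℍ[ℝ] := ⟨c, Real.sqrt (1 - c ^ 2), 0, 0⟩ with hq
  have hqn : ‖q‖ = 1 := by
    have : ‖q‖ ^ 2 = 1 := by
      rw [norm_sq_coords, hq]
      simp only
      rw [Real.sq_sqrt hc2]; ring
    exact (pow_eq_one_iff_of_nonneg (norm_nonneg q) two_ne_zero).1 this
  have hqne : q ≠ 0 := by
    intro h; rw [h, norm_zero] at hqn; exact zero_ne_one hqn
  refine ⟨q, ?_⟩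
  rw [mem_interior_iff_mem_nhds]
  have hcont : ContinuousAt (fun q : ℍ[ℝ] => q.re / ‖q‖) q := by
    apply ContinuousAt.div Quaternion.continuous_re.continuousAt continuous_norm.continuousAt
    rw [hqn]; exact one_ne_zero
  have hval : q.re / ‖q‖ = c := by rw [hqn, div_one]
  have hev : ∀ᶠ z in nhds q, z.re / ‖z‖ ∈ Set.Ioo x y := by
    apply hcont.eventually
    apply isOpen_Ioo.mem_nhds
    have h9 : (fun q : ℍ[ℝ] => q.re / ‖q‖) q = c := hval
    rw [h9]; exact ⟨hxc, hcy⟩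
  filter_upwards [hev] with z hz
  right
  exact hIS (hIo.out hx hy ⟨hz.1.le, hz.2.le⟩)

theorem coneOver_mono {S S' : Set ℝ} (hS : S ⊆ Set.Icc (-1) 1)
    (h : coneOver S ⊆ coneOver S') : S ⊆ S' := by
  intro c hc
  have hc1 := hS hc
  have hc2 : 0 ≤ 1 - c ^ 2 := by nlinarith [hc1.1, hc1.2]
  set q : ℍ[ℝ] := ⟨c, Real.sqrt (1 - c ^ 2), 0, 0⟩ with hq
  have hqn : ‖q‖ = 1 := by
    have : ‖q‖ ^ 2 = 1 := by
      rw [norm_sq_coords, hq]
      simp only
      rw [Real.sq_sqrt hc2]; ring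
    exact (pow_eq_one_iff_of_nonneg (norm_nonneg q) two_ne_zero).1 this
  have hqne : q ≠ 0 := by
    intro h; rw [h, norm_zero] at hqn; exact zero_ne_one hqn
  have hval : q.re / ‖q‖ = c := by rw [hqn, div_one]
  have h1 : q ∈ coneOver S := Or.inr (by rw [hval]; exact hc)
  rcases h h1 with h2 | h2
  · exact absurd h2 hqne
  · rwa [hval] at h2

/-- **Classification of the images of semihomogeneous polynomials on the real quaternions.** -/
theorem classification :
    (∀ X : Set ℍ[ℝ],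
      (∃ (m : ℕ) (p : FreeAlgebra ℝ (Fin m)), IsSemihomogeneous p ∧ imageOf p = X) ↔
        (X = {0} ∨ X = Set.range (fun r : ℝ => (r : ℍ[ℝ])) ∨
          X = (fun r : ℝ => (r : ℍ[ℝ])) '' Set.Ici 0 ∨
          X = (fun r : ℝ => (r : ℍ[ℝ])) '' Set.Iic 0 ∨
          X = {q : ℍ[ℝ] | q.re = 0} ∨
          ∃ S : Set ℝ, Admissible S ∧ X = coneOver S)) ∧
    (∀ S : Set ℝ, Admissible S → (interior (coneOver S)).Nonempty) ∧
    (∀ S S' : Set ℝ, Admissible S → Admissible S' → coneOver S = coneOver S' → S = S') := by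
  refine ⟨fun X => ⟨?_, ?_⟩, fun S hS => interior_coneOver hS, ?_⟩
  · rintro ⟨m, p, hp, rfl⟩
    have h1 : imageOf p = coneOver (PDir p) := image_eq hp
    rw [h1]
    rcases necessity p with h | h | h | h | h | h
    · exact Or.inl h
    · exact Or.inr (Or.inl h)
    · exact Or.inr (Or.inr (Or.inl h))
    · exact Or.inr (Or.inr (Or.inr (Or.inl h)))
    · exact Or.inr (Or.inr (Or.inr (Or.inr (Or.inl h))))
    · exact Or.inr (Or.inr (Or.inr (Or.inr (Or.inr ⟨_, h, rfl⟩))))
  · intro h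
    have key : ∃ P : Om → ℍ[ℝ], TR P ∧ {q | ∃ (c : ℝ) (x : Om), 0 ≤ c ∧ q = c • P x} = X := by
      by_cases hshort : X = {0} ∨ X = Set.range (fun r : ℝ => (r : ℍ[ℝ])) ∨
          X = (fun r : ℝ => (r : ℍ[ℝ])) '' Set.Ici 0 ∨
          X = (fun r : ℝ => (r : ℍ[ℝ])) '' Set.Iic 0 ∨ X = {q : ℍ[ℝ] | q.re = 0}
      · exact realization_short X hshort
      · obtain ⟨S, ⟨hne, hsub, ⟨F, hF, hFI, hSF⟩, a, b, hcl, hab⟩, hX⟩ :
            ∃ S : Set ℝ, Admissible S ∧ X = coneOver S := by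
          tauto
        obtain ⟨P, hP, hPD⟩ := realization S hsub hne F hF hFI hSF a b hcl hab
        refine ⟨P, hP, ?_⟩
        rw [cone_eq hP, hX, ← hPD]
        rfl
    obtain ⟨P, hP, hPX⟩ := key
    obtain ⟨m, p, hp, himg⟩ := exists_poly_of_TR hP
    exact ⟨m, p, hp, himg.trans hPX⟩
  · intro S S' hS hS' h
    exact Set.Subset.antisymm (coneOver_mono hS.2.1 h.subset) (coneOver_mono hS'.2.1 h.symm.subset)

end Pool.Agent.Helper668.QI

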